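import Pool.Agent.LibSP4.Defs

/-!
Row B14 (MEDIUM): the classical sum. `A ⊆ PP w Z` with `rr A ≤ R ≤ Z` are the squarefree `r ≤ R` all of whose primes are `> w`; `κ = ∏_{p ≤ w} (1 - 1/p)`.
`∑_{r ≤ R} μ²(r)/φ(r) = ∑ 1/m` over the `m ≥ 1` with `rad m ≤ R`, all primes of `m` `> w` (`1/ph A = ∏_{p∈A} (1/p + 1/p² + ...)`).
Lower bound: `m ≤ R` gives `∑_{m ≤ R, (m,W)=1} 1/m ≥ κ log R - C` (count of the `m ≤ x` prime to `W = primorial w` is `κ x + O(W)`, partial summation).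
Upper bound: `≤ ∑_{m≤R,(m,W)=1} 1/m + ∑_{m > R, rad m ≤ R} 1/m`; write `m = r k`, `r = rad m`, `k ∣ r^∞`, `k > R/r`, so the second sum is
`≤ ∑_{r≤R} (1/r) (r/R)^(1/2) ∏_{p∣r} (1 - p^(-1/2))⁻¹ ≤ R^(-1/2) ∑_{r≤R} r^(-1/2) g(r)`, `g(r) = ∏_{p∣r} (1 - p^(-1/2))⁻¹ ≤ ∑_{k∣r} ∏_{p∣k} c/√p`, so `∑_{r≤x} g(r) ≤ C x`
and the second sum is `O(1)` (dyadic or partial summation). Another classical proof: convolution `μ² id/φ = 1 * c`, `∑ |c(k)| log k/k < ∞`, with the exact Euler product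
(`∏_{p>w}` factor `(1-1/p)(1+1/(p-1)) = 1`). Any proof is fine; look in the libraries first (`grep -rn totient`).
-/

open Finset

namespace Pool.Agent.LibSP4

open Pool.Agent.LibRG87

/-- `∑ 1/m` over the `m ≤ R` prime to all `p ∈ Q` -/
private noncomputable def B14_L (Q : Finset ℕ) (R : ℝ) : ℝ :=
  ∑ m ∈ (Icc 1 ⌊R⌋₊).filter (fun m => ∀ p ∈ Q, ¬ p ∣ m), ((m : ℝ))⁻¹

private theorem B14_step {Q : Finset ℕ} {q : ℕ} (hq : q.Prime) (hQ : ∀ p ∈ Q, p.Prime) (hqQ : q ∉ Q)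
    (R : ℝ) : B14_L (insert q Q) R = B14_L Q R - (q : ℝ)⁻¹ * B14_L Q (R / q) := by
  classical
  have hq0 : (q : ℝ) ≠ 0 := Nat.cast_ne_zero.2 hq.ne_zero
  have h1 : B14_L Q R = ∑ m ∈ ((Icc 1 ⌊R⌋₊).filter (fun m => ∀ p ∈ Q, ¬ p ∣ m)).filter (fun m => ¬ q ∣ m),
      ((m : ℝ))⁻¹ + ∑ m ∈ ((Icc 1 ⌊R⌋₊).filter (fun m => ∀ p ∈ Q, ¬ p ∣ m)).filter (fun m => ¬ ¬ q ∣ m),
      ((m : ℝ))⁻¹ := (sum_filter_add_sum_filter_not _ _ _).symm
  have h2 : ((Icc 1 ⌊R⌋₊).filter (fun m => ∀ p ∈ Q, ¬ p ∣ m)).filter (fun m => ¬ q ∣ m) =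
      (Icc 1 ⌊R⌋₊).filter (fun m => ∀ p ∈ insert q Q, ¬ p ∣ m) := by
    ext m
    simp only [mem_filter, mem_insert, forall_eq_or_imp]
    tauto
  have h3 : ∑ m ∈ ((Icc 1 ⌊R⌋₊).filter (fun m => ∀ p ∈ Q, ¬ p ∣ m)).filter (fun m => ¬ ¬ q ∣ m),
      ((m : ℝ))⁻¹ = (q : ℝ)⁻¹ * B14_L Q (R / q) := by
    unfold B14_L
    rw [mul_sum, Nat.floor_div_natCast]
    refine sum_nbij' (fun m => m / q) (fun m => q * m) ?_ ?_ ?_ ?_ ?_
    · intro m hm
      simp only [mem_filter, mem_Icc, not_not] at hm ⊢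
      obtain ⟨⟨⟨hm1, hm2⟩, hm3⟩, hm4⟩ := hm
      obtain ⟨k, rfl⟩ := hm4
      rw [Nat.mul_div_cancel_left _ hq.pos]
      refine ⟨⟨Nat.pos_of_ne_zero ?_, (Nat.le_div_iff_mul_le hq.pos).2 (by rw [mul_comm]; exact hm2)⟩, ?_⟩
      · rintro rfl
        simp at hm1
      · intro p hp hpk
        exact hm3 p hp (hpk.mul_left q)
    · intro m hm
      simp only [mem_filter, mem_Icc, not_not] at hm ⊢
      obtain ⟨⟨hm1, hm2⟩, hm3⟩ := hm
      refine ⟨⟨⟨Nat.mul_pos hq.pos hm1, ?_⟩, ?_⟩, dvd_mul_right _ _⟩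
      · rw [mul_comm]
        exact (Nat.le_div_iff_mul_le hq.pos).1 hm2
      · intro p hp hpk
        rcases (hQ p hp).dvd_mul.1 hpk with h | h
        · rw [Nat.prime_dvd_prime_iff_eq (hQ p hp) hq] at h
          exact hqQ (h ▸ hp)
        · exact hm3 p hp h
    · intro m hm
      simp only [mem_filter, mem_Icc, not_not] at hm
      exact Nat.mul_div_cancel' hm.2
    · intro m hm
      exact Nat.mul_div_cancel_left _ hq.pos
    · intro m hm
      simp only [mem_filter, mem_Icc, not_not] at hm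
      obtain ⟨k, rfl⟩ := hm.2
      rw [Nat.mul_div_cancel_left _ hq.pos, Nat.cast_mul, mul_inv]
  rw [h2, h3] at h1
  rw [h1]
  unfold B14_L
  ring

private theorem B14_base {R : ℝ} (hR : 1 ≤ R) : |B14_L ∅ R - Real.log R| ≤ 1 := by
  have h1 : B14_L ∅ R = (harmonic ⌊R⌋₊ : ℝ) := by
    unfold B14_L
    rw [harmonic_eq_sum_Icc]
    push_cast
    refine sum_congr ?_ fun _ _ => rfl
    ext m
    simp
  rw [h1, abs_le]
  have h2 := log_le_harmonic_floor R (by linarith)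
  have h3 := harmonic_floor_le_one_add_log R hR
  constructor <;> linarith

private theorem B14_asymp (Q : Finset ℕ) (hQ : ∀ p ∈ Q, p.Prime) : ∃ C : ℝ, 0 ≤ C ∧ ∀ R : ℝ, 1 ≤ R →
    |B14_L Q R - (∏ p ∈ Q, (1 - 1 / (p : ℝ))) * Real.log R| ≤ C := by
  classical
  induction Q using Finset.induction_on with
  | empty =>
    refine ⟨1, zero_le_one, fun R hR => ?_⟩
    rw [prod_empty, one_mul]
    exact B14_base hR
  | insert q Q hqQ ih =>
    obtain ⟨C, hC, hC'⟩ := ih fun p hp => hQ p (mem_insert_of_mem hp)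
    have hq : q.Prime := hQ q (mem_insert_self _ _)
    have hq1 : (1 : ℝ) ≤ q := by exact_mod_cast hq.one_le
    have hq0 : (0 : ℝ) < q := by linarith
    have hqi : (q : ℝ)⁻¹ ≤ 1 := inv_le_one_of_one_le₀ hq1
    have hqi0 : 0 < (q : ℝ)⁻¹ := inv_pos.2 hq0
    have hlq : 0 ≤ Real.log q := Real.log_nonneg hq1
    set κ : ℝ := ∏ p ∈ Q, (1 - 1 / (p : ℝ)) with hκ
    refine ⟨2 * C + |κ| * Real.log q, by positivity, fun R hR => ?_⟩
    rw [B14_step hq (fun p hp => hQ p (mem_insert_of_mem hp)) hqQ, prod_insert hqQ]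
    have h1 := hC' R hR
    have hlR : 0 ≤ Real.log R := Real.log_nonneg hR
    by_cases hRq : 1 ≤ R / q
    · have h2 := hC' _ hRq
      rw [Real.log_div (by linarith) hq0.ne'] at h2
      have h3 : B14_L Q R - (q : ℝ)⁻¹ * B14_L Q (R / q) - (1 - 1 / (q : ℝ)) * κ * Real.log R =
          (B14_L Q R - κ * Real.log R) -
            (q : ℝ)⁻¹ * (B14_L Q (R / q) - κ * (Real.log R - Real.log q)) + (q : ℝ)⁻¹ * (κ * Real.log q) := by
        rw [one_div]
        ring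
      rw [h3]
      have h4 : |(q : ℝ)⁻¹ * (B14_L Q (R / q) - κ * (Real.log R - Real.log q))| ≤ C := by
        rw [abs_mul, abs_of_pos hqi0]
        calc (q : ℝ)⁻¹ * |B14_L Q (R / q) - κ * (Real.log R - Real.log q)| ≤ 1 * C :=
              mul_le_mul hqi h2 (abs_nonneg _) zero_le_one
          _ = C := one_mul C
      have h5 : |(q : ℝ)⁻¹ * (κ * Real.log q)| ≤ |κ| * Real.log q := by
        rw [abs_mul, abs_mul, abs_of_pos hqi0, abs_of_nonneg hlq]
        exact mul_le_of_le_one_left (by positivity) hqi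
      calc _ ≤ |(B14_L Q R - κ * Real.log R) -
            (q : ℝ)⁻¹ * (B14_L Q (R / q) - κ * (Real.log R - Real.log q))| +
            |(q : ℝ)⁻¹ * (κ * Real.log q)| := abs_add_le _ _
        _ ≤ (|B14_L Q R - κ * Real.log R| +
            |(q : ℝ)⁻¹ * (B14_L Q (R / q) - κ * (Real.log R - Real.log q))|) +
            |(q : ℝ)⁻¹ * (κ * Real.log q)| := by
            gcongr
            exact abs_sub _ _
        _ ≤ _ := by linarith
    · have h2 : B14_L Q (R / q) = 0 := by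
        unfold B14_L
        rw [Nat.floor_eq_zero.2 (not_le.1 hRq)]
        simp
      have h3 : B14_L Q R - (q : ℝ)⁻¹ * B14_L Q (R / q) - (1 - 1 / (q : ℝ)) * κ * Real.log R =
          (B14_L Q R - κ * Real.log R) + (q : ℝ)⁻¹ * (κ * Real.log R) := by
        rw [h2, one_div]
        ring
      have h4 : Real.log R ≤ Real.log q := by
        apply Real.log_le_log (by linarith)
        have h5 := not_le.1 hRq
        rw [div_lt_one hq0] at h5
        exact h5.le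
      rw [h3]
      have h5 : |(q : ℝ)⁻¹ * (κ * Real.log R)| ≤ |κ| * Real.log q := by
        rw [abs_mul, abs_mul, abs_of_pos hqi0, abs_of_nonneg hlR]
        calc (q : ℝ)⁻¹ * (|κ| * Real.log R) ≤ |κ| * Real.log R :=
              mul_le_of_le_one_left (by positivity) hqi
          _ ≤ |κ| * Real.log q := mul_le_mul_of_nonneg_left h4 (abs_nonneg _)
      calc _ ≤ |B14_L Q R - κ * Real.log R| + |(q : ℝ)⁻¹ * (κ * Real.log R)| := abs_add_le _ _
        _ ≤ _ := by linarith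

private noncomputable def B14_f1 : ℕ →* ℝ where
  toFun m := (m : ℝ)⁻¹
  map_one' := by simp
  map_mul' a b := by rw [Nat.cast_mul, mul_inv]

private noncomputable def B14_f2 : ℕ →* ℝ where
  toFun m := (√(m : ℝ))⁻¹
  map_one' := by simp
  map_mul' a b := by rw [Nat.cast_mul, Real.sqrt_mul (Nat.cast_nonneg a), mul_inv]

private theorem B14_hs (f : ℕ →* ℝ) (h : ∀ {p : ℕ}, p.Prime → ‖f p‖ < 1) (A : Finset ℕ)
    (hA : ∀ p ∈ A, p.Prime) :
    HasSum (fun m : ℕ => if m ≠ 0 ∧ m.primeFactors = A then f m else 0)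
      (∏ p ∈ A, (f p * (1 - f p)⁻¹)) := by
  classical
  have hn : ∏ p ∈ A, p ≠ 0 := prod_ne_zero_iff.2 fun p hp => (hA p hp).ne_zero
  have hpf : (∏ p ∈ A, p).primeFactors = A := Nat.primeFactors_prod hA
  have h1 := (EulerProduct.summable_and_hasSum_factoredNumbers_prod_filter_prime_geometric h A).2
  have h2 : A.filter Nat.Prime = A := filter_true_of_mem hA
  rw [h2] at h1
  have h3 := h1.mul_left (∏ p ∈ A, f p)
  rw [← prod_mul_distrib] at h3
  let g : Nat.factoredNumbers A → ℕ := fun k => (∏ p ∈ A, p) * (k : ℕ)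
  have hg : Function.Injective g := by
    intro a b hab
    exact Subtype.ext (Nat.eq_of_mul_eq_mul_left (Nat.pos_of_ne_zero hn) hab)
  rw [← hg.hasSum_iff]
  · refine h3.congr_fun ?_
    intro k
    have hk0 : (k : ℕ) ≠ 0 := Nat.ne_zero_of_mem_factoredNumbers k.2
    have hk1 : (k : ℕ).primeFactors ⊆ A := Nat.primeFactors_subset_of_mem_factoredNumbers k.2
    have hcond : g k ≠ 0 ∧ (g k).primeFactors = A := by
      refine ⟨mul_ne_zero hn hk0, ?_⟩
      show ((∏ p ∈ A, p) * (k : ℕ)).primeFactors = A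
      rw [Nat.primeFactors_mul hn hk0, hpf]
      exact union_eq_left.2 hk1
    show (if g k ≠ 0 ∧ (g k).primeFactors = A then f (g k) else 0) = _
    rw [if_pos hcond]
    show f ((∏ p ∈ A, p) * (k : ℕ)) = _
    rw [map_mul, map_prod]
  · intro x hx
    rw [if_neg]
    rintro ⟨hx0, hxA⟩
    apply hx
    have hdvd : ∏ p ∈ A, p ∣ x := by
      rw [← hxA]
      exact Nat.prod_primeFactors_dvd x
    obtain ⟨k, hk⟩ := hdvd
    have hk0 : k ≠ 0 := by
      rintro rfl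
      rw [mul_zero] at hk
      exact hx0 hk
    have hkA : k ∈ Nat.factoredNumbers A := by
      rw [Nat.mem_factoredNumbers_iff_primeFactors_subset]
      refine ⟨hk0, ?_⟩
      rw [← hxA, hk]
      exact Nat.primeFactors_mono (dvd_mul_left _ _) (mul_ne_zero hn hk0)
    exact ⟨⟨k, hkA⟩, hk.symm⟩

private theorem B14_norm1 {p : ℕ} (hp : p.Prime) : ‖B14_f1 p‖ < 1 := by
  show ‖((p : ℝ))⁻¹‖ < 1
  have h1 : (1 : ℝ) < p := by exact_mod_cast hp.one_lt
  rw [norm_inv, Real.norm_of_nonneg (by linarith)]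
  exact inv_lt_one_of_one_lt₀ h1

private theorem B14_norm2 {p : ℕ} (hp : p.Prime) : ‖B14_f2 p‖ < 1 := by
  show ‖(√(p : ℝ))⁻¹‖ < 1
  have h1 : (1 : ℝ) < √p := by
    rw [Real.lt_sqrt zero_le_one]
    norm_num
    exact_mod_cast hp.one_lt
  rw [norm_inv, Real.norm_of_nonneg (by positivity)]
  exact inv_lt_one_of_one_lt₀ h1

private theorem B14_hs1 (A : Finset ℕ) (hA : ∀ p ∈ A, p.Prime) :
    HasSum (fun m : ℕ => if m ≠ 0 ∧ m.primeFactors = A then (m : ℝ)⁻¹ else 0) (1 / ph A) := by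
  have h1 := B14_hs B14_f1 B14_norm1 A hA
  have h2 : ∏ p ∈ A, (B14_f1 p * (1 - B14_f1 p)⁻¹) = 1 / ph A := by
    unfold ph
    rw [one_div, ← prod_inv_distrib]
    refine prod_congr rfl fun p hp => ?_
    show (p : ℝ)⁻¹ * (1 - (p : ℝ)⁻¹)⁻¹ = ((p : ℝ) - 1)⁻¹
    have h3 : (1 : ℝ) < p := by exact_mod_cast (hA p hp).one_lt
    rw [← mul_inv]
    congr 1
    field_simp
  rw [h2] at h1
  exact h1

private theorem B14_hs2 (A : Finset ℕ) (hA : ∀ p ∈ A, p.Prime) :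
    HasSum (fun m : ℕ => if m ≠ 0 ∧ m.primeFactors = A then (√(m : ℝ))⁻¹ else 0)
      (∏ p ∈ A, (√(p : ℝ) - 1)⁻¹) := by
  have h1 := B14_hs B14_f2 B14_norm2 A hA
  have h2 : ∏ p ∈ A, (B14_f2 p * (1 - B14_f2 p)⁻¹) = ∏ p ∈ A, (√(p : ℝ) - 1)⁻¹ := by
    refine prod_congr rfl fun p hp => ?_
    show (√(p : ℝ))⁻¹ * (1 - (√(p : ℝ))⁻¹)⁻¹ = (√(p : ℝ) - 1)⁻¹
    have h3 : (0 : ℝ) < √p := Real.sqrt_pos.2 (by exact_mod_cast (hA p hp).pos)
    rw [← mul_inv]
    congr 1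
    field_simp
  rw [h2] at h1
  exact h1

/-- the numbers `m ≤ R` whose set of prime factors is `A` -/
private noncomputable def B14_M (A : Finset ℕ) (R : ℝ) : Finset ℕ :=
  (Icc 1 ⌊R⌋₊).filter (fun m => m.primeFactors = A)

private theorem B14_lower (A : Finset ℕ) (hA : ∀ p ∈ A, p.Prime) (R : ℝ) :
    ∑ m ∈ B14_M A R, (m : ℝ)⁻¹ ≤ 1 / ph A := by
  classical
  have h1 := sum_le_hasSum (B14_M A R) (fun m _ => by
    show 0 ≤ (if m ≠ 0 ∧ m.primeFactors = A then (m : ℝ)⁻¹ else 0)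
    split_ifs <;> positivity) (B14_hs1 A hA)
  refine le_trans (le_of_eq ?_) h1
  refine sum_congr rfl fun m hm => ?_
  unfold B14_M at hm
  rw [mem_filter, mem_Icc] at hm
  rw [if_pos ⟨by omega, hm.2⟩]

private theorem B14_upper (A : Finset ℕ) (hA : ∀ p ∈ A, p.Prime) {R : ℝ} (hR : 0 < R) :
    1 / ph A ≤ ∑ m ∈ B14_M A R, (m : ℝ)⁻¹ + (√R)⁻¹ * ∏ p ∈ A, (√(p : ℝ) - 1)⁻¹ := by
  classical
  have h1 : HasSum (fun m : ℕ => if m ∈ B14_M A R then (m : ℝ)⁻¹ else 0)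
      (∑ m ∈ B14_M A R, (m : ℝ)⁻¹) := by
    have h2 : HasSum (fun m : ℕ => if m ∈ B14_M A R then (m : ℝ)⁻¹ else 0)
        (∑ m ∈ B14_M A R, (if m ∈ B14_M A R then (m : ℝ)⁻¹ else 0)) :=
      hasSum_sum_of_ne_finset_zero (fun m hm => if_neg hm)
    rwa [sum_congr rfl (fun m hm => if_pos hm)] at h2
  refine hasSum_le (fun m => ?_) (B14_hs1 A hA) (h1.add ((B14_hs2 A hA).mul_left (√R)⁻¹))
  by_cases hm : m ≠ 0 ∧ m.primeFactors = A
  · rw [if_pos hm, if_pos hm]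
    by_cases hmR : m ≤ ⌊R⌋₊
    · have h3 : m ∈ B14_M A R := by
        unfold B14_M
        rw [mem_filter, mem_Icc]
        exact ⟨⟨Nat.pos_of_ne_zero hm.1, hmR⟩, hm.2⟩
      rw [if_pos h3]
      have : 0 ≤ (√R)⁻¹ * (√(m : ℝ))⁻¹ := by positivity
      linarith
    · have h3 : m ∉ B14_M A R := by
        unfold B14_M
        rw [mem_filter, mem_Icc]
        exact fun h => hmR h.1.2
      rw [if_neg h3, zero_add, ← mul_inv]
      have hmR' : R < m := (Nat.floor_lt hR.le).1 (not_le.1 hmR)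
      apply inv_anti₀ (by
        have : (0 : ℝ) < m := hR.trans hmR'
        positivity)
      calc √R * √(m : ℝ) ≤ √(m : ℝ) * √(m : ℝ) :=
            mul_le_mul_of_nonneg_right (Real.sqrt_le_sqrt hmR'.le) (Real.sqrt_nonneg _)
        _ = m := Real.mul_self_sqrt (Nat.cast_nonneg m)
  · rw [if_neg hm, if_neg hm, mul_zero, add_zero]
    split_ifs <;> positivity

private theorem B14_sqrt (N : ℕ) : ∑ n ∈ Icc 1 N, (√(n : ℝ))⁻¹ ≤ 2 * √(N : ℝ) := by
  induction N with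
  | zero => simp
  | succ N ih =>
    rw [Finset.sum_Icc_succ_top (by omega)]
    have ha : 0 ≤ √(N : ℝ) := Real.sqrt_nonneg _
    have ha2 : √(N : ℝ) ^ 2 = N := Real.sq_sqrt (Nat.cast_nonneg N)
    have hb : 0 < √((N + 1 : ℕ) : ℝ) := Real.sqrt_pos.2 (by positivity)
    have hb2 : √((N + 1 : ℕ) : ℝ) ^ 2 = N + 1 := by
      rw [Real.sq_sqrt (by positivity)]
      push_cast
      ring
    set a := √(N : ℝ)
    set b := √((N + 1 : ℕ) : ℝ)
    have h1 : b⁻¹ ≤ 2 * (b - a) := by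
      rw [inv_le_iff_one_le_mul₀ hb]
      nlinarith [sq_nonneg (b - a)]
    linarith

private theorem B14_U (P : Finset ℕ) (hP : ∀ p ∈ P, p.Prime) {R : ℝ} (hR : 0 ≤ R) :
    (open scoped Classical in ∑ A ∈ P.powerset with rr A ≤ R, ∏ p ∈ A, (√(p : ℝ) - 1)⁻¹) ≤
      2 * √R * ∏ p ∈ P, (1 + (√(p : ℝ) - 1)⁻¹ / p) := by
  classical
  have hu : ∀ p ∈ P, 0 < (√(p : ℝ) - 1)⁻¹ := by
    intro p hp
    have h1 : (1 : ℝ) < √p := by
      rw [Real.lt_sqrt zero_le_one]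
      norm_num
      exact_mod_cast (hP p hp).one_lt
    exact inv_pos.2 (by linarith)
  have hus : ∀ p ∈ P, (√(p : ℝ) - 1)⁻¹ = (√(p : ℝ))⁻¹ * (1 + (√(p : ℝ) - 1)⁻¹) := by
    intro p hp
    have h1 : (1 : ℝ) < √p := by
      rw [Real.lt_sqrt zero_le_one]
      norm_num
      exact_mod_cast (hP p hp).one_lt
    have h2 : √(p : ℝ) - 1 ≠ 0 := by linarith
    have h3 : √(p : ℝ) ≠ 0 := by linarith
    field_simp
    ring
  calc ∑ A ∈ P.powerset with rr A ≤ R, ∏ p ∈ A, (√(p : ℝ) - 1)⁻¹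
      = ∑ A ∈ P.powerset with rr A ≤ R, ∑ B ∈ A.powerset,
          (∏ p ∈ A, (√(p : ℝ))⁻¹) * ∏ p ∈ B, (√(p : ℝ) - 1)⁻¹ := by
        refine sum_congr rfl fun A hA => ?_
        rw [mem_filter, mem_powerset] at hA
        rw [← mul_sum, ← prod_one_add, ← prod_mul_distrib]
        exact prod_congr rfl fun p hp => hus p (hA.1 hp)
    _ = ∑ B ∈ P.powerset, ∑ A ∈ (P.powerset.filter (fun A => rr A ≤ R)).filter (fun A => B ⊆ A),
          (∏ p ∈ A, (√(p : ℝ))⁻¹) * ∏ p ∈ B, (√(p : ℝ) - 1)⁻¹ := by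
        refine sum_comm' fun A B => ?_
        simp only [mem_filter, mem_powerset]
        constructor
        · rintro ⟨⟨h1, h2⟩, h3⟩
          exact ⟨⟨⟨h1, h2⟩, h3⟩, h3.trans h1⟩
        · rintro ⟨⟨⟨h1, h2⟩, h3⟩, _⟩
          exact ⟨⟨h1, h2⟩, h3⟩
    _ ≤ ∑ B ∈ P.powerset, 2 * √R * ∏ p ∈ B, ((√(p : ℝ) - 1)⁻¹ / p) := by
        refine sum_le_sum fun B hB => ?_
        rw [mem_powerset] at hB
        have hrB : 0 < rr B := prod_pos fun p hp => by exact_mod_cast (hP p (hB hp)).pos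
        have hsB : 0 ≤ ∏ p ∈ B, (√(p : ℝ))⁻¹ := prod_nonneg fun p _ => by positivity
        have hsB2 : ∏ p ∈ B, (√(p : ℝ))⁻¹ = (√(rr B))⁻¹ := by
          unfold rr
          rw [prod_inv_distrib, Real.sqrt_prod _ (fun p _ => Nat.cast_nonneg p)]
        have huB : 0 ≤ ∏ p ∈ B, (√(p : ℝ) - 1)⁻¹ := prod_nonneg fun p hp => (hu p (hB hp)).le
        have key : ∑ A ∈ (P.powerset.filter (fun A => rr A ≤ R)).filter (fun A => B ⊆ A),
            ∏ p ∈ A, (√(p : ℝ))⁻¹ ≤ 2 * √R / rr B := by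
          have e1 : ∀ A ∈ (P.powerset.filter (fun A => rr A ≤ R)).filter (fun A => B ⊆ A),
              ∏ p ∈ A, (√(p : ℝ))⁻¹ = (√(rr B))⁻¹ * (√((∏ p ∈ A \ B, p : ℕ) : ℝ))⁻¹ := by
            intro A hA
            rw [mem_filter] at hA
            rw [← prod_sdiff hA.2, hsB2, mul_comm]
            congr 1
            rw [Nat.cast_prod, Real.sqrt_prod _ (fun p _ => Nat.cast_nonneg p), prod_inv_distrib]
          rw [sum_congr rfl e1, ← mul_sum]
          have e2 : ∑ A ∈ (P.powerset.filter (fun A => rr A ≤ R)).filter (fun A => B ⊆ A),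
              (√((∏ p ∈ A \ B, p : ℕ) : ℝ))⁻¹ ≤ ∑ n ∈ Icc 1 ⌊R / rr B⌋₊, (√(n : ℝ))⁻¹ := by
            have hinj : Set.InjOn (fun A : Finset ℕ => ∏ p ∈ A \ B, p)
                ((P.powerset.filter (fun A => rr A ≤ R)).filter (fun A => B ⊆ A)) := by
              intro A hA A' hA' h
              rw [mem_coe, mem_filter, mem_filter, mem_powerset] at hA hA'
              have h1 : A \ B = A' \ B := by
                rw [← Nat.primeFactors_prod (s := A \ B) (fun p hp => hP p (hA.1.1 (mem_sdiff.1 hp).1)),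
                  ← Nat.primeFactors_prod (s := A' \ B) (fun p hp => hP p (hA'.1.1 (mem_sdiff.1 hp).1))]
                exact congrArg Nat.primeFactors h
              rw [← sdiff_union_of_subset hA.2, ← sdiff_union_of_subset hA'.2, h1]
            have e3 := sum_image (f := fun n : ℕ => (√(n : ℝ))⁻¹) hinj
            rw [← e3]
            refine sum_le_sum_of_subset_of_nonneg ?_ fun n _ _ => by positivity
            intro n hn
            rw [mem_image] at hn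
            obtain ⟨A, hA, rfl⟩ := hn
            rw [mem_filter, mem_filter, mem_powerset] at hA
            rw [mem_Icc]
            constructor
            · exact Nat.pos_of_ne_zero (prod_ne_zero_iff.2 fun p hp =>
                (hP p (hA.1.1 (mem_sdiff.1 hp).1)).ne_zero)
            · apply Nat.le_floor
              rw [le_div_iff₀ hrB, Nat.cast_prod]
              unfold rr at hA ⊢
              rw [prod_sdiff hA.2]
              exact hA.1.2
          have e4 : ∑ n ∈ Icc 1 ⌊R / rr B⌋₊, (√(n : ℝ))⁻¹ ≤ 2 * (√R / √(rr B)) := by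
            refine (B14_sqrt _).trans ?_
            rw [← Real.sqrt_div hR]
            have : √((⌊R / rr B⌋₊ : ℕ) : ℝ) ≤ √(R / rr B) :=
              Real.sqrt_le_sqrt (Nat.floor_le (by positivity))
            linarith
          have hs0 : 0 < √(rr B) := Real.sqrt_pos.2 hrB
          calc (√(rr B))⁻¹ * _ ≤ (√(rr B))⁻¹ * (2 * (√R / √(rr B))) :=
                mul_le_mul_of_nonneg_left (e2.trans e4) (inv_nonneg.2 hs0.le)
            _ = 2 * √R / (√(rr B) * √(rr B)) := by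
                field_simp
            _ = 2 * √R / rr B := by rw [Real.mul_self_sqrt hrB.le]
        rw [← sum_mul, prod_div_distrib]
        calc _ ≤ 2 * √R / rr B * ∏ p ∈ B, (√(p : ℝ) - 1)⁻¹ := mul_le_mul_of_nonneg_right key huB
          _ = _ := by
            unfold rr
            ring
    _ = 2 * √R * ∏ p ∈ P, (1 + (√(p : ℝ) - 1)⁻¹ / p) := by
        rw [← mul_sum, prod_one_add]

private theorem B14_const : ∃ C : ℝ, 0 ≤ C ∧ ∀ P : Finset ℕ, (∀ p ∈ P, p.Prime) →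
    ∏ p ∈ P, (1 + (√(p : ℝ) - 1)⁻¹ / p) ≤ C := by
  have hsum : Summable fun n : ℕ => 4 * ((n : ℝ) ^ (3 / 2 : ℝ))⁻¹ :=
    (Real.summable_nat_rpow_inv.2 (by norm_num)).mul_left 4
  refine ⟨Real.exp (∑' n : ℕ, 4 * ((n : ℝ) ^ (3 / 2 : ℝ))⁻¹), (Real.exp_pos _).le, fun P hP => ?_⟩
  have h1 : ∀ p ∈ P, (√(p : ℝ) - 1)⁻¹ / p ≤ 4 * ((p : ℝ) ^ (3 / 2 : ℝ))⁻¹ := by
    intro p hp
    have hp2 : (2 : ℝ) ≤ p := by exact_mod_cast (hP p hp).two_le
    have hp0 : (0 : ℝ) < p := by linarith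
    have h2 : (4 / 3 : ℝ) < √p := by
      rw [Real.lt_sqrt (by norm_num)]
      norm_num
      linarith
    have h3 : (p : ℝ) ^ (3 / 2 : ℝ) = √p * p := by
      rw [Real.sqrt_eq_rpow, ← Real.rpow_add_one hp0.ne']
      norm_num
    rw [h3, mul_inv, ← mul_assoc, div_eq_mul_inv]
    refine mul_le_mul_of_nonneg_right ?_ (inv_nonneg.2 hp0.le)
    rw [← div_eq_mul_inv, inv_eq_one_div, div_le_div_iff₀ (by linarith) (by linarith)]
    linarith
  have h0 : ∀ p ∈ P, 0 ≤ (√(p : ℝ) - 1)⁻¹ / p := by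
    intro p hp
    have h2 : (1 : ℝ) < √p := by
      rw [Real.lt_sqrt zero_le_one]
      norm_num
      exact_mod_cast (hP p hp).one_lt
    have : 0 < √(p : ℝ) - 1 := by linarith
    positivity
  calc ∏ p ∈ P, (1 + (√(p : ℝ) - 1)⁻¹ / p) ≤ ∏ p ∈ P, Real.exp (4 * ((p : ℝ) ^ (3 / 2 : ℝ))⁻¹) := by
        refine prod_le_prod (fun p hp => by linarith [h0 p hp]) fun p hp => ?_
        have := Real.add_one_le_exp (4 * ((p : ℝ) ^ (3 / 2 : ℝ))⁻¹)
        linarith [h1 p hp]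
    _ = Real.exp (∑ p ∈ P, 4 * ((p : ℝ) ^ (3 / 2 : ℝ))⁻¹) := (Real.exp_sum _ _).symm
    _ ≤ _ := Real.exp_le_exp.2 (hsum.sum_le_tsum P fun n _ => by positivity)

/-- `φ(W)/W` for `W = primorial w` -/
noncomputable def kap (w : ℕ) : ℝ := ∏ p ∈ (range (w + 1)).filter Nat.Prime, (1 - 1 / (p : ℝ))

theorem GG_asymp (w : ℕ) : ∃ C : ℝ, 0 ≤ C ∧ ∀ (Z : ℕ) (R : ℝ), 1 ≤ R → R ≤ Z →
    |GG (PP w Z) R - kap w * Real.log R| ≤ C := by
  classical
  obtain ⟨C1, hC1, h1⟩ := B14_asymp ((range (w + 1)).filter Nat.Prime) (fun p hp => (mem_filter.1 hp).2)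
  obtain ⟨C2, hC2, h2⟩ := B14_const
  refine ⟨C1 + 2 * C2, by positivity, fun Z R hR hRZ => ?_⟩
  have hP : ∀ p ∈ PP w Z, p.Prime := fun p hp => (mem_filter.1 hp).2
  have hR0 : 0 < R := by linarith
  have hsR : 0 < √R := Real.sqrt_pos.2 hR0
  set t := (PP w Z).powerset.filter (fun A => rr A ≤ R) with ht
  have hG : GG (PP w Z) R = ∑ A ∈ t, 1 / ph A := by
    unfold GG
    rfl
  have hL : B14_L ((range (w + 1)).filter Nat.Prime) R = ∑ A ∈ t, ∑ m ∈ B14_M A R, (m : ℝ)⁻¹ := by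
    unfold B14_L
    refine (sum_fiberwise_of_maps_to (t := t) (g := Nat.primeFactors) ?_ _).symm.trans ?_
    rotate_left
    · refine sum_congr rfl fun A hA => sum_congr ?_ fun _ _ => rfl
      rw [ht, mem_filter, mem_powerset] at hA
      ext m
      unfold B14_M
      simp only [mem_filter, mem_Icc, mem_range]
      constructor
      · rintro ⟨⟨h3, _⟩, h4⟩
        exact ⟨h3, h4⟩
      · rintro ⟨h3, h4⟩
        refine ⟨⟨h3, fun p hp hpm => ?_⟩, h4⟩
        have h5 : p ∈ m.primeFactors := Nat.mem_primeFactors.2 ⟨hp.2, hpm, by omega⟩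
        rw [h4] at h5
        have h6 := hA.1 h5
        unfold PP at h6
        rw [mem_filter, mem_Ioc] at h6
        omega
    · intro m hm
      rw [mem_filter, mem_Icc] at hm
      obtain ⟨⟨hm1, hm2⟩, hm3⟩ := hm
      have hmR : (m : ℝ) ≤ R := (Nat.le_floor_iff hR0.le).1 hm2
      rw [ht, mem_filter, mem_powerset]
      constructor
      · intro p hp
        rw [Nat.mem_primeFactors] at hp
        unfold PP
        rw [mem_filter, mem_Ioc]
        refine ⟨⟨?_, ?_⟩, hp.1⟩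
        · by_contra hpw
          exact hm3 p (mem_filter.2 ⟨mem_range.2 (by omega), hp.1⟩) hp.2.1
        · have h5 : p ≤ m := Nat.le_of_dvd (by omega) hp.2.1
          have h6 : (p : ℝ) ≤ m := by exact_mod_cast h5
          have h7 : (p : ℝ) ≤ Z := h6.trans (hmR.trans hRZ)
          exact_mod_cast h7
      · have h5 : ∏ p ∈ m.primeFactors, p ≤ m := Nat.le_of_dvd (by omega) (Nat.prod_primeFactors_dvd m)
        have h6 : ((∏ p ∈ m.primeFactors, p : ℕ) : ℝ) ≤ m := by exact_mod_cast h5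
        rw [Nat.cast_prod] at h6
        exact h6.trans hmR
  have hA' : ∀ A ∈ t, ∀ p ∈ A, p.Prime := by
    intro A hA p hp
    rw [ht, mem_filter, mem_powerset] at hA
    exact hP p (hA.1 hp)
  have hlow : B14_L ((range (w + 1)).filter Nat.Prime) R ≤ GG (PP w Z) R := by
    rw [hG, hL]
    exact sum_le_sum fun A hA => B14_lower A (hA' A hA) R
  have hupp : GG (PP w Z) R ≤ B14_L ((range (w + 1)).filter Nat.Prime) R + 2 * C2 := by
    rw [hG, hL]
    have h3 : ∑ A ∈ t, 1 / ph A ≤ ∑ A ∈ t, (∑ m ∈ B14_M A R, (m : ℝ)⁻¹ +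
        (√R)⁻¹ * ∏ p ∈ A, (√(p : ℝ) - 1)⁻¹) :=
      sum_le_sum fun A hA => B14_upper A (hA' A hA) hR0
    rw [sum_add_distrib, ← mul_sum] at h3
    have h4 := B14_U (PP w Z) hP hR0.le
    have h5 := h2 (PP w Z) hP
    have h6 : (√R)⁻¹ * ∑ A ∈ t, ∏ p ∈ A, (√(p : ℝ) - 1)⁻¹ ≤ 2 * C2 := by
      calc (√R)⁻¹ * ∑ A ∈ t, ∏ p ∈ A, (√(p : ℝ) - 1)⁻¹
          ≤ (√R)⁻¹ * (2 * √R * ∏ p ∈ PP w Z, (1 + (√(p : ℝ) - 1)⁻¹ / p)) :=
            mul_le_mul_of_nonneg_left h4 (inv_nonneg.2 hsR.le)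
        _ ≤ (√R)⁻¹ * (2 * √R * C2) := by
            refine mul_le_mul_of_nonneg_left ?_ (inv_nonneg.2 hsR.le)
            exact mul_le_mul_of_nonneg_left h5 (by positivity)
        _ = 2 * C2 := by
            field_simp
    linarith
  have h7 := h1 R hR
  unfold kap
  rw [abs_le] at h7 ⊢
  constructor <;> linarith [h7.1, h7.2]

end Pool.Agent.LibSP4
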