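import Pool.Agent.LibSP4.Defs
import Pool.Agent.LibSP4.B14
import Pool.Agent.LibBW4.Defs

/-!
LibSP4: definitions of the arithmetic part. Parameters: `y → ∞`, `z = y^M`, `Z = R = y^(M q1)`, `P = PP w Z`, `N = y^(M (4 q1 + 6))`,
positions `n + b i`, `n ∈ (N, 2N]`, `n ≡ n0` modulo `6 * primorial w`. The positions of type `true` see products of two primes, those of type `false`
see `l` times a prime, where `l = 2` or `l = 3` is a parameter given by the class `Ell`.
-/

open Finset

namespace Pool.Agent.LibSP4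

open Pool.Agent.LibRG87 Pool.Agent.LibBW4

/-- the parameter `l = 2` or `l = 3` -/
class Ell where
  /-- the number -/
  l : ℕ
  /-- it is `2` or `3` -/
  hl : l = 2 ∨ l = 3

variable [Ell]

/-- `m` is `l` times a prime -/
def occP (m : ℕ) : Prop := Ell.l ∣ m ∧ (m / Ell.l).Prime

/-- `m` is a product of two primes `z < p < q` -/
def occE (z m : ℕ) : Prop := ∃ p q : ℕ, p.Prime ∧ q.Prime ∧ z < p ∧ p < q ∧ m = p * q

/-- the event of the type `t` (`true`: product of two primes, `false`: `l` times a prime) -/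
def occ (t : Bool) (z m : ℕ) : Prop := if t = true then occE z m else occP m

/-- the statistic -/
noncomputable def SS (t : Bool) (P : Finset ℕ) (R : ℝ) (z m : ℕ) : ℝ :=
  open scoped Classical in if occ t z m then lamS P R m ^ 2 else 0

/-- the value of Selberg's sum at a product of two primes with the smaller prime `p` -/
noncomputable def vv (P : Finset ℕ) (R : ℝ) (p : ℕ) : ℝ := if p ∈ P then 1 + rho P R {p} else 1

/-- the modulus -/
def Wm (w : ℕ) : ℕ := 6 * primorial w

/-- `Wm w / l` -/
def Wl (w : ℕ) : ℕ := (6 / Ell.l) * primorial w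

/-- the numbers `n ∈ (N, 2N]`, `n ≡ n0` -/
def ns (w n0 N : ℕ) : Finset ℕ := (Ioc N (2 * N)).filter fun n => n ≡ n0 [MOD Wm w]

/-- the class `n0` is good for the position `b` of type `t` -/
def good (t : Bool) (w n0 b : ℕ) : Prop :=
  if t = true then (n0 + b).Coprime (Wm w) else Ell.l ∣ n0 + b ∧ ((n0 + b) / Ell.l).Coprime (primorial w)

/-- the constant for products of two primes (`1.7104` for `q1 = 40`) -/
noncomputable def cc (q1 : ℕ) : ℝ :=
  ∑ s ∈ Icc 1 (2 * q1 + 2), (min 1 ((s : ℝ) / q1)) ^ 2 * (2 / (2 * s + 1)) * ((4 * q1 + 6 : ℝ) / (4 * q1 + 6 - s))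

/-- the constant of the type `t` -/
noncomputable def cty (q1 : ℕ) (t : Bool) : ℝ := if t = true then cc q1 else 1

/-- the sum of the errors -/
noncomputable def ErS (C w : ℕ) (D : ℝ) (Er : ℕ → ℝ) : ℝ :=
  open scoped Classical in
  ∑ q ∈ (Icc 1 ⌊D⌋₊).filter (fun q => Squarefree q ∧ ∀ p, p.Prime → p ∣ q → w < p), (C : ℝ) ^ q.primeFactors.card * Er q

end Pool.Agent.LibSP4
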