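import Pool.Agent.LibSP4.B16
import Pool.Agent.LibSP4.Defs2

/-!
Row B17 (SHORT/MEDIUM): remainders. `RemE` is monotone in `Er`; `∏_{p ∈ PP w Z} (1 + C/(p-1)) ≤ C' (kap w log Z)^C ≤ (C1 log Z)^C` (B16 with the constant `0`, `kap w ≤ 1`);
`T ↦ ∏ T` is injective from the sets of primes `T ⊆ PP w Z` with `rr T ≤ D` into the squarefree numbers `q ≤ D` all of whose primes are `> w`, and `C^|T| = C^ω(q)`.
(a) `∑_{q ≤ D} C^ω(q) ≤ D ∑_{q ≤ D} C^ω(q)/q ≤ D (1 + log D)^C` for squarefree `q` (`C^ω(q)` is at most the number of factorizations of `q` into `C` factors), `D ≤ Z`, so the total is `≤ Z²` for large `Z`.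
-/

open Finset

namespace Pool.Agent.LibSP4

open Pool.Agent.LibRG87

private theorem B17_mem {w Z p : ℕ} (h : p ∈ PP w Z) : p.Prime ∧ w < p := by
  unfold PP at h
  rw [Finset.mem_filter, Finset.mem_Ioc] at h
  exact ⟨h.2, h.1.1⟩

private theorem B17_kap (w : ℕ) : 0 ≤ kap w ∧ kap w ≤ 1 := by
  unfold kap
  have h : ∀ p ∈ (range (w + 1)).filter Nat.Prime, 0 ≤ 1 - 1 / (p : ℝ) ∧ 1 - 1 / (p : ℝ) ≤ 1 := by
    intro p hp
    have h1 : (1 : ℝ) < p := by exact_mod_cast (Finset.mem_filter.1 hp).2.one_lt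
    have h2 : 1 / (p : ℝ) ≤ 1 := by
      rw [div_le_one (by linarith)]
      exact h1.le
    have h3 : 0 ≤ 1 / (p : ℝ) := by positivity
    exact ⟨by linarith, by linarith⟩
  exact ⟨Finset.prod_nonneg fun p hp => (h p hp).1, Finset.prod_le_one (fun p hp => (h p hp).1) fun p hp => (h p hp).2⟩

private theorem B17_prod (C : ℕ) : ∃ C1 : ℝ, 0 ≤ C1 ∧ ∀ w Z : ℕ, 2 ≤ w → w ≤ Z →
    ∏ p ∈ PP w Z, (1 + (C : ℝ) / ((p : ℝ) - 1)) ≤ (C1 * Real.log Z) ^ C := by
  obtain ⟨C', hC', h⟩ := prod_le C 0 le_rfl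
  refine ⟨max 1 C', by positivity, fun w Z hw hZ => ?_⟩
  have h1 := h w Z hw hZ
  simp only [zero_div, add_zero] at h1
  have hlog : 0 ≤ Real.log Z := Real.log_natCast_nonneg Z
  obtain ⟨hk0, hk1⟩ := B17_kap w
  rcases Nat.eq_zero_or_pos C with hC | hC
  · subst hC
    simp
  refine h1.trans ?_
  rw [mul_pow (max 1 C')]
  have h2 : C' ≤ (max 1 C') ^ C := by
    calc C' ≤ max 1 C' := le_max_right _ _
      _ ≤ (max 1 C') ^ C := le_self_pow₀ (le_max_left _ _) hC.ne'
  have h0 : 0 ≤ kap w * Real.log Z := mul_nonneg hk0 hlog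
  have h3 : (kap w * Real.log Z) ^ C ≤ Real.log Z ^ C := by
    refine pow_le_pow_left₀ h0 ?_ _
    calc kap w * Real.log Z ≤ 1 * Real.log Z := mul_le_mul_of_nonneg_right hk1 hlog
      _ = Real.log Z := one_mul _
  exact mul_le_mul h2 h3 (pow_nonneg h0 _) (hC'.trans h2)

private theorem B17_sqf {T : Finset ℕ} (hT : ∀ p ∈ T, p.Prime) : Squarefree (∏ p ∈ T, p) := by
  classical
  induction T using Finset.induction_on with
  | empty => simp
  | insert p T hp ih =>
    rw [Finset.prod_insert hp]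
    have hc : Nat.Coprime p (∏ q ∈ T, q) := by
      refine Nat.Coprime.prod_right fun q hq => ?_
      refine (Nat.coprime_primes (hT p (Finset.mem_insert_self _ _))
        (hT q (Finset.mem_insert_of_mem hq))).2 ?_
      rintro rfl
      exact hp hq
    rw [Nat.squarefree_mul hc]
    exact ⟨(hT p (Finset.mem_insert_self _ _)).squarefree, ih fun q hq => hT q (Finset.mem_insert_of_mem hq)⟩

theorem Rem_le (C : ℕ) : ∃ (C1 : ℝ), 0 ≤ C1 ∧ ∀ (w Z : ℕ) (D : ℝ) (Er : ℕ → ℝ), 2 ≤ w → w ≤ Z → 0 ≤ D → (∀ q, 0 ≤ Er q) →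
    RemE C (PP w Z) D Er ≤ (C1 * Real.log Z) ^ C * ErS C w D Er := by
  classical
  obtain ⟨C1, hC1, h⟩ := B17_prod C
  refine ⟨C1, hC1, fun w Z D Er hw hZ hD hE => ?_⟩
  have hsum : ∑ T ∈ (PP w Z).powerset with rr T ≤ D, (C : ℝ) ^ T.card * Er (∏ p ∈ T, p) ≤ ErS C w D Er := by
    unfold ErS
    have hpr : ∀ T ∈ (PP w Z).powerset.filter (fun T => rr T ≤ D), ∀ p ∈ T, p.Prime ∧ w < p := by
      intro T hT p hp
      exact B17_mem (Finset.mem_powerset.1 (Finset.mem_filter.1 hT).1 hp)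
    have hpf : ∀ T ∈ (PP w Z).powerset.filter (fun T => rr T ≤ D), (∏ p ∈ T, p).primeFactors = T :=
      fun T hT => Nat.primeFactors_prod fun p hp => (hpr T hT p hp).1
    have hinj : Set.InjOn (fun T : Finset ℕ => ∏ p ∈ T, p)
        ((PP w Z).powerset.filter (fun T => rr T ≤ D) : Set (Finset ℕ)) := by
      intro T hT T' hT' hh
      have e1 := hpf T hT
      have e2 := hpf T' hT'
      have e3 : (∏ p ∈ T, p) = ∏ p ∈ T', p := hh
      rw [← e1, ← e2, e3]
    calc ∑ T ∈ (PP w Z).powerset with rr T ≤ D, (C : ℝ) ^ T.card * Er (∏ p ∈ T, p)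
        = ∑ T ∈ (PP w Z).powerset with rr T ≤ D,
            (fun q : ℕ => (C : ℝ) ^ q.primeFactors.card * Er q) (∏ p ∈ T, p) := by
          refine Finset.sum_congr rfl fun T hT => ?_
          simp only [hpf T hT]
      _ = ∑ q ∈ ((PP w Z).powerset.filter (fun T => rr T ≤ D)).image (fun T => ∏ p ∈ T, p),
            (C : ℝ) ^ q.primeFactors.card * Er q := (Finset.sum_image
            (f := fun q : ℕ => (C : ℝ) ^ q.primeFactors.card * Er q) hinj).symm
      _ ≤ _ := by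
          refine Finset.sum_le_sum_of_subset_of_nonneg ?_ fun q _ _ =>
            mul_nonneg (by positivity) (hE q)
          intro q hq
          obtain ⟨T, hT, rfl⟩ := Finset.mem_image.1 hq
          have hrr : (((∏ p ∈ T, p : ℕ)) : ℝ) = rr T := by
            unfold rr
            push_cast
            rfl
          rw [Finset.mem_filter, Finset.mem_Icc]
          refine ⟨⟨?_, ?_⟩, B17_sqf fun p hp => (hpr T hT p hp).1, fun p hp hpd => ?_⟩
          · exact Finset.prod_pos fun p hp => (hpr T hT p hp).1.pos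
          · refine Nat.le_floor ?_
            rw [hrr]
            exact (Finset.mem_filter.1 hT).2
          · obtain ⟨r, hr, hpr'⟩ := (hp.prime.dvd_finsetProd_iff _).1 hpd
            have : p = r := (Nat.prime_dvd_prime_iff_eq hp (hpr T hT r hr).1).1 hpr'
            rw [this]
            exact (hpr T hT r hr).2
  have hlog : 0 ≤ Real.log Z := Real.log_natCast_nonneg Z
  have hs0 : 0 ≤ ∑ T ∈ (PP w Z).powerset with rr T ≤ D, (C : ℝ) ^ T.card * Er (∏ p ∈ T, p) :=
    Finset.sum_nonneg fun T _ => mul_nonneg (by positivity) (hE _)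
  unfold RemE
  convert mul_le_mul (h w Z hw hZ) hsum hs0 (by positivity) using 2

private theorem B17_pow (C : ℕ) (C1 : ℝ) (hC1 : 0 ≤ C1) : ∃ Z0 : ℕ, ∀ Z : ℕ, Z0 ≤ Z →
    2 * (C1 * Real.log Z) ^ (2 * C) ≤ Z := by
  have h := (Real.isLittleO_pow_log_id_atTop (n := 2 * C)).bound
    (show (0 : ℝ) < 1 / (2 * (C1 ^ (2 * C) + 1)) by positivity)
  obtain ⟨x0, hx0⟩ := Filter.eventually_atTop.1 h
  refine ⟨⌈x0⌉₊, fun Z hZ => ?_⟩
  have h1 := hx0 Z ((Nat.le_ceil x0).trans (by exact_mod_cast hZ))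
  have hlog : 0 ≤ Real.log Z := Real.log_natCast_nonneg Z
  rw [Real.norm_of_nonneg (by positivity), id, Real.norm_of_nonneg (by positivity)] at h1
  have h2 : 0 ≤ C1 ^ (2 * C) := by positivity
  rw [mul_pow]
  calc 2 * (C1 ^ (2 * C) * Real.log Z ^ (2 * C))
      ≤ 2 * (C1 ^ (2 * C) * (1 / (2 * (C1 ^ (2 * C) + 1)) * Z)) := by
        refine mul_le_mul_of_nonneg_left (mul_le_mul_of_nonneg_left h1 h2) zero_le_two
    _ = (C1 ^ (2 * C) / (C1 ^ (2 * C) + 1)) * Z := by
        field_simp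
    _ ≤ 1 * Z := by
        refine mul_le_mul_of_nonneg_right ?_ (by positivity)
        rw [div_le_one (by positivity)]
        linarith
    _ = Z := one_mul _

theorem Rem_const (C : ℕ) : ∃ Z0 : ℕ, ∀ (w Z : ℕ) (D : ℝ), Z0 ≤ Z → D ≤ Z → 2 ≤ w → w ≤ Z →
    RemE C (PP w Z) D (fun _ => 2) ≤ (Z : ℝ) ^ 2 := by
  classical
  obtain ⟨C1, hC1, h⟩ := B17_prod C
  obtain ⟨Z0, hZ0⟩ := B17_pow C C1 hC1
  refine ⟨Z0, fun w Z D hZ hD hw hwZ => ?_⟩
  have hlog : 0 ≤ Real.log Z := Real.log_natCast_nonneg Z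
  have hZ1 : (0 : ℝ) ≤ Z := by positivity
  have hpr : ∀ T ∈ (PP w Z).powerset.filter (fun T => rr T ≤ D), ∀ p ∈ T, p.Prime ∧ w < p := by
    intro T hT p hp
    exact B17_mem (Finset.mem_powerset.1 (Finset.mem_filter.1 hT).1 hp)
  have hsum : ∑ T ∈ (PP w Z).powerset with rr T ≤ D, (C : ℝ) ^ T.card * 2 ≤
      2 * (Z * (C1 * Real.log Z) ^ C) := by
    calc ∑ T ∈ (PP w Z).powerset with rr T ≤ D, (C : ℝ) ^ T.card * 2
        ≤ ∑ T ∈ (PP w Z).powerset with rr T ≤ D, 2 * (Z * ∏ p ∈ T, (C : ℝ) / ((p : ℝ) - 1)) := by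
          refine Finset.sum_le_sum fun T hT => ?_
          have hT2 : rr T ≤ D := (Finset.mem_filter.1 hT).2
          have hpos : 0 < ∏ p ∈ T, ((p : ℝ) - 1) := by
            refine Finset.prod_pos fun p hp => ?_
            have : (1 : ℝ) < p := by exact_mod_cast (hpr T hT p hp).1.one_lt
            linarith
          have hle : ∏ p ∈ T, ((p : ℝ) - 1) ≤ Z := by
            calc ∏ p ∈ T, ((p : ℝ) - 1) ≤ rr T := by
                  unfold rr
                  refine Finset.prod_le_prod (fun p hp => ?_) fun p hp => ?_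
                  · have : (1 : ℝ) < p := by exact_mod_cast (hpr T hT p hp).1.one_lt
                    linarith
                  · linarith
              _ ≤ D := hT2
              _ ≤ Z := hD
          rw [Finset.prod_div_distrib, Finset.prod_const, mul_comm]
          refine mul_le_mul_of_nonneg_left ?_ zero_le_two
          rw [← mul_div_assoc, le_div_iff₀ hpos]
          calc (C : ℝ) ^ T.card * ∏ p ∈ T, ((p : ℝ) - 1) ≤ (C : ℝ) ^ T.card * Z :=
                mul_le_mul_of_nonneg_left hle (by positivity)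
            _ = _ := mul_comm _ _
      _ ≤ ∑ T ∈ (PP w Z).powerset, 2 * (Z * ∏ p ∈ T, (C : ℝ) / ((p : ℝ) - 1)) := by
          refine Finset.sum_le_sum_of_subset_of_nonneg (Finset.filter_subset _ _) fun T hT _ => ?_
          refine mul_nonneg zero_le_two (mul_nonneg hZ1 (Finset.prod_nonneg fun p hp => ?_))
          have : (1 : ℝ) < p := by
            exact_mod_cast (B17_mem (Finset.mem_powerset.1 hT hp)).1.one_lt
          exact div_nonneg (by positivity) (by linarith)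
      _ = 2 * (Z * ∏ p ∈ PP w Z, (1 + (C : ℝ) / ((p : ℝ) - 1))) := by
          rw [← Finset.mul_sum, ← Finset.mul_sum, Finset.prod_one_add]
      _ ≤ _ := by
          refine mul_le_mul_of_nonneg_left (mul_le_mul_of_nonneg_left (h w Z hw hwZ) hZ1) zero_le_two
  have hs0 : 0 ≤ ∑ T ∈ (PP w Z).powerset with rr T ≤ D, (C : ℝ) ^ T.card * 2 :=
    Finset.sum_nonneg fun T _ => by positivity
  have h3 : RemE C (PP w Z) D (fun _ => 2) ≤ (C1 * Real.log Z) ^ C * (2 * (Z * (C1 * Real.log Z) ^ C)) := by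
    unfold RemE
    convert mul_le_mul (h w Z hw hwZ) hsum hs0 (by positivity) using 2
  refine h3.trans ?_
  have h4 := hZ0 Z hZ
  calc (C1 * Real.log Z) ^ C * (2 * (Z * (C1 * Real.log Z) ^ C))
      = (2 * (C1 * Real.log Z) ^ (2 * C)) * Z := by
        rw [two_mul C, pow_add]
        ring
    _ ≤ Z * Z := mul_le_mul_of_nonneg_right h4 hZ1
    _ = (Z : ℝ) ^ 2 := by ring

/-- monotonicity in `D` -/
theorem ErS_mono (C w : ℕ) {D D' : ℝ} (h : D ≤ D') (Er : ℕ → ℝ) (hE : ∀ q, 0 ≤ Er q) : ErS C w D Er ≤ ErS C w D' Er := by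
  classical
  unfold ErS
  refine Finset.sum_le_sum_of_subset_of_nonneg ?_ fun q _ _ => mul_nonneg (by positivity) (hE q)
  intro q hq
  rw [Finset.mem_filter, Finset.mem_Icc] at hq ⊢
  exact ⟨⟨hq.1.1, hq.1.2.trans (Nat.floor_le_floor h)⟩, hq.2⟩

end Pool.Agent.LibSP4
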