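import Pool.Agent.LibSP4.B01

/-!
Row B03 (MEDIUM): collapse at one position and at two positions. Model: `LibRG87/R10.lean` (`collapse`, with its lemmas
`R10_rem`, `R10_ins`, `R10_prod`, `R10_ee`) and its variant `LibPL63/M6.lean` (`collapseM`). Difference: only the primes
`p ≤ z` are known not to divide `n + b i`; this suffices, because `y0 β ≠ 0` implies `rr (sp P β) ≤ z`, so all primes used by `β`
are `≤ z` (the terms with `rr (sp P β) > z` vanish on both sides).
For two positions: collapse at `j` the functions `β ↦ y1 i β` (same proof; `psi p (n + b j) = 1/(p-1)` for `p ≤ z`, `p ∈ P`),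
or do both at once. Sum over `A = fb β i`, `B = fb β j`, disjoint subsets of `P \ sp β'`.
-/

open Finset

namespace Pool.Agent.LibSP4

open Pool.Agent.LibRG87

variable {ι : Type} [Fintype ι] [DecidableEq ι]

omit [Fintype ι] in
private theorem B03_ee (P : Finset ℕ) (b : ι → ℕ) (i₀ : ι) (n : ℕ) (β : P → Option ι)
    (hn : ∀ p : P, β p = some i₀ → ¬ (p : ℕ) ∣ n + b i₀) :
    ee P b β n = ee P b (R10_rem P i₀ β) n * (ph (fb P β i₀))⁻¹ := by
  have h1 : (ph (fb P β i₀))⁻¹ = ∏ p : P, (if β p = some i₀ then (((p : ℕ) : ℝ) - 1)⁻¹ else 1) := by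
    unfold ph fb
    rw [Finset.prod_image (fun x _ y _ h => Subtype.ext h), ← Finset.prod_inv_distrib,
      Finset.prod_filter]
  rw [h1]
  unfold ee
  rw [← Finset.prod_mul_distrib]
  refine Finset.prod_congr rfl fun p _ => ?_
  unfold R10_rem
  by_cases h : β p = some i₀
  · rw [if_pos h, if_pos h, h]
    have e1 : loc b p (some i₀) n = psi p (n + b i₀) := rfl
    have e2 : loc b p (none : Option ι) n = 1 := rfl
    rw [e1, e2]
    unfold psi
    rw [if_neg (hn p h), one_mul, one_div]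
  · rw [if_neg h, if_neg h, mul_one]

private theorem B03_rem_ins (P : Finset ℕ) (i : ι) (A : Finset ℕ) (β' : P → Option ι)
    (hA : A ⊆ P \ sp P β') (hβ' : ∀ p, β' p ≠ some i) :
    R10_rem P i (R10_ins P i A β') = β' := by
  funext p
  unfold R10_rem R10_ins
  by_cases hp : (p : ℕ) ∈ A
  · rw [if_pos hp, if_pos rfl]
    have h3 := (Finset.mem_sdiff.1 (hA hp)).2
    rw [mem_sp] at h3
    by_contra h4
    exact h3 ⟨p.2, fun h5 => h4 h5.symm⟩
  · rw [if_neg hp, if_neg (hβ' p)]

private theorem B03_fb_ins (P : Finset ℕ) (i : ι) (A : Finset ℕ) (β' : P → Option ι)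
    (hA : A ⊆ P \ sp P β') (hβ' : ∀ p, β' p ≠ some i) :
    fb P (R10_ins P i A β') i = A := by
  ext q
  rw [mem_fb]
  constructor
  · rintro ⟨hq, h3⟩
    unfold R10_ins at h3
    by_contra h4
    rw [if_neg h4] at h3
    exact hβ' _ h3
  · intro hq
    refine ⟨(Finset.mem_sdiff.1 (hA hq)).1, ?_⟩
    unfold R10_ins
    rw [if_pos hq]

private theorem B03_ins_fb (P : Finset ℕ) (i : ι) (β : P → Option ι) :
    R10_ins P i (fb P β i) (R10_rem P i β) = β := by
  funext p
  unfold R10_ins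
  by_cases hp : β p = some i
  · rw [if_pos ((mem_fb P).2 ⟨p.2, hp⟩), hp]
  · have h3 : (p : ℕ) ∉ fb P β i := by
      intro h4
      obtain ⟨_, h5⟩ := (mem_fb P).1 h4
      exact hp h5
    rw [if_neg h3]
    unfold R10_rem
    rw [if_neg hp]

private theorem B03_le (P : Finset ℕ) (hP : ∀ p ∈ P, p.Prime) (β : P → Option ι) (p : P) {i : ι}
    (hp : β p = some i) : ((p : ℕ) : ℝ) ≤ rr (sp P β) := by
  have hmem : (p : ℕ) ∈ sp P β := by
    rw [mem_sp]
    exact ⟨p.2, by rw [hp]; exact fun h => by cases h⟩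
  have h1 : rr (sp P β) = ((p : ℕ) : ℝ) * rr ((sp P β).erase (p : ℕ)) := by
    unfold rr
    rw [Finset.mul_prod_erase (sp P β) (fun x => (x : ℝ)) hmem]
  have h2 : 1 ≤ rr ((sp P β).erase (p : ℕ)) :=
    one_le_rr P hP ((Finset.erase_subset _ _).trans (sp_subset P β))
  rw [h1]
  have h3 : (0 : ℝ) ≤ ((p : ℕ) : ℝ) := Nat.cast_nonneg _
  nlinarith

private theorem B03_gen (P : Finset ℕ) (hP : ∀ p ∈ P, p.Prime) (z : ℝ) (b : ι → ℕ) (i : ι) (n : ℕ)
    (hn : ∀ p ∈ P, (p : ℝ) ≤ z → ¬ p ∣ n + b i) (y y' : (P → Option ι) → ℝ)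
    (hy : ∀ β, z < rr (sp P β) → y β = 0)
    (h0 : ∀ β', (¬ ∀ p, β' p ≠ some i) → y' β' = 0)
    (h1 : ∀ β', (∀ p, β' p ≠ some i) →
      y' β' = ∑ A ∈ (P \ sp P β').powerset, y (R10_ins P i A β') / ph A) :
    PhiF P b y n = PhiF P b y' n := by
  classical
  unfold PhiF
  rw [← Finset.sum_fiberwise univ (R10_rem P i) (fun β => y β * ee P b β n)]
  refine Finset.sum_congr rfl fun β' _ => ?_
  by_cases hβ' : ∀ p, β' p ≠ some i
  · rw [h1 β' hβ', Finset.sum_mul]
    refine Finset.sum_nbij' (fun β => fb P β i) (fun A => R10_ins P i A β') ?_ ?_ ?_ ?_ ?_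
    · intro β hβ
      have hβ2 := (Finset.mem_filter.1 hβ).2
      rw [Finset.mem_powerset]
      intro q hq
      obtain ⟨hqP, h3⟩ := (mem_fb P).1 hq
      rw [Finset.mem_sdiff]
      refine ⟨hqP, fun h4 => ?_⟩
      obtain ⟨_, h5⟩ := (mem_sp P).1 h4
      apply h5
      rw [← hβ2]
      unfold R10_rem
      rw [if_pos h3]
    · intro A hA
      rw [Finset.mem_powerset] at hA
      rw [Finset.mem_filter]
      exact ⟨mem_univ _, B03_rem_ins P i A β' hA hβ'⟩
    · intro β hβ
      have hβ2 := (Finset.mem_filter.1 hβ).2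
      show R10_ins P i (fb P β i) β' = β
      rw [← hβ2]
      exact B03_ins_fb P i β
    · intro A hA
      rw [Finset.mem_powerset] at hA
      exact B03_fb_ins P i A β' hA hβ'
    · intro β hβ
      have hβ2 := (Finset.mem_filter.1 hβ).2
      show y β * ee P b β n = y (R10_ins P i (fb P β i) β') / ph (fb P β i) * ee P b β' n
      have e1 : R10_ins P i (fb P β i) β' = β := by
        rw [← hβ2]
        exact B03_ins_fb P i β
      rw [e1]
      by_cases hz : z < rr (sp P β)
      · rw [hy β hz, zero_mul, zero_div, zero_mul]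
      · have h5 : ∀ p : P, β p = some i → ¬ (p : ℕ) ∣ n + b i := by
          intro p hp
          exact hn p p.2 ((B03_le P hP β p hp).trans (not_lt.1 hz))
        rw [B03_ee P b i n β h5, hβ2]
        ring
  · rw [h0 β' hβ', zero_mul]
    push Not at hβ'
    obtain ⟨p, hp⟩ := hβ'
    refine Finset.sum_eq_zero fun β hβ => ?_
    have hβ2 := (Finset.mem_filter.1 hβ).2
    exfalso
    rw [← hβ2] at hp
    exact R10_rem_ne P i β p hp

private theorem B03_rr_ins (P : Finset ℕ) (i : ι) (A : Finset ℕ) (β' : P → Option ι)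
    (hA : A ⊆ P \ sp P β') (hβ' : ∀ p, β' p ≠ some i) :
    rr (sp P (R10_ins P i A β')) = rr A * rr (sp P β') := by
  rw [rr_sp, rr_sp, R10_prod P rr R10_rr_empty i (R10_ins P i A β'), B03_rem_ins P i A β' hA hβ',
    B03_fb_ins P i A β' hA hβ']

private theorem B03_gg_ins (P : Finset ℕ) {y : ℕ} (hy : 1 ≤ y) (I : ℕ) (i : ι) (A : Finset ℕ)
    (β' : P → Option ι) (hA : A ⊆ P \ sp P β') (hβ' : ∀ p, β' p ≠ some i) :
    ∏ m, gg y I (fb P (R10_ins P i A β') m) = gg y I A * ∏ m, gg y I (fb P β' m) := by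
  rw [R10_prod P (gg y I) (gg_empty hy I) i (R10_ins P i A β'), B03_rem_ins P i A β' hA hβ',
    B03_fb_ins P i A β' hA hβ']

private theorem B03_sp_ins (P : Finset ℕ) (i : ι) (A : Finset ℕ) (β' : P → Option ι)
    (hA : A ⊆ P \ sp P β') :
    P \ sp P (R10_ins P i A β') = (P \ sp P β') \ A := by
  ext q
  rw [Finset.mem_sdiff, Finset.mem_sdiff, Finset.mem_sdiff, mem_sp, mem_sp]
  constructor
  · rintro ⟨hq, h1⟩
    refine ⟨⟨hq, ?_⟩, ?_⟩
    · rintro ⟨_, h2⟩
      apply h1
      refine ⟨hq, ?_⟩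
      unfold R10_ins
      by_cases h3 : q ∈ A
      · rw [if_pos h3]
        exact fun h => by cases h
      · rw [if_neg h3]
        exact h2
    · intro h3
      apply h1
      refine ⟨hq, ?_⟩
      unfold R10_ins
      rw [if_pos h3]
      exact fun h => by cases h
  · rintro ⟨⟨hq, h1⟩, h2⟩
    refine ⟨hq, ?_⟩
    rintro ⟨_, h3⟩
    unfold R10_ins at h3
    rw [if_neg h2] at h3
    exact h1 ⟨hq, h3⟩

theorem collapse1 (P : Finset ℕ) (hP : ∀ p ∈ P, p.Prime) {y : ℕ} (hy : 1 ≤ y) (I : ℕ) (z : ℝ)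
    (b : ι → ℕ) (i : ι) (n : ℕ) (hn : ∀ p ∈ P, (p : ℝ) ≤ z → ¬ p ∣ n + b i) :
    PhiF P b (y0 P y I z) n = PhiF P b (y1 P y I z i) n := by
  classical
  refine B03_gen P hP z b i n hn _ _ ?_ ?_ ?_
  · intro β hβ
    unfold y0
    rw [if_neg (not_le.2 hβ)]
  · intro β' hβ'
    unfold y1
    rw [if_neg hβ']
  · intro β' hβ'
    unfold y1
    rw [if_pos hβ', Finset.sum_filter, Finset.mul_sum]
    refine Finset.sum_congr rfl fun A hA => ?_
    rw [Finset.mem_powerset] at hA
    unfold y0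
    rw [B03_rr_ins P i A β' hA hβ', B03_gg_ins P hy I i A β' hA hβ']
    by_cases h : rr A * rr (sp P β') ≤ z
    · rw [if_pos h, if_pos h]
      ring
    · rw [if_neg h, if_neg h]
      ring

theorem collapse2 (P : Finset ℕ) (hP : ∀ p ∈ P, p.Prime) {y : ℕ} (hy : 1 ≤ y) (I : ℕ) (z : ℝ)
    (b : ι → ℕ) (i j : ι) (hij : i ≠ j) (n : ℕ) (hn : ∀ p ∈ P, (p : ℝ) ≤ z → ¬ p ∣ n + b i)
    (hn' : ∀ p ∈ P, (p : ℝ) ≤ z → ¬ p ∣ n + b j) :
    PhiF P b (y0 P y I z) n = PhiF P b (y2 P y I z i j) n := by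
  classical
  rw [collapse1 P hP hy I z b j n hn']
  refine B03_gen P hP z b i n hn _ _ ?_ ?_ ?_
  · intro β hβ
    unfold y1
    by_cases h : ∀ p, β p ≠ some j
    · rw [if_pos h]
      have h1 : ∑ A ∈ (P \ sp P β).powerset with rr A * rr (sp P β) ≤ z, gg y I A / ph A = 0 := by
        refine Finset.sum_eq_zero fun A hA => ?_
        exfalso
        obtain ⟨h2, h3⟩ := Finset.mem_filter.1 hA
        rw [Finset.mem_powerset] at h2
        have h4 : 1 ≤ rr A := one_le_rr P hP (h2.trans Finset.sdiff_subset)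
        have h5 : 0 < rr (sp P β) := rr_pos P hP (sp_subset P β)
        nlinarith
      rw [h1, mul_zero]
    · rw [if_neg h]
  · intro β' hβ'
    unfold y2
    rw [if_neg (fun h => hβ' (fun p => (h p).1))]
  · intro β' hβ'
    unfold y2
    by_cases hj : ∀ p, β' p ≠ some j
    · rw [if_pos (fun p => ⟨hβ' p, hj p⟩), Finset.mul_sum]
      refine Finset.sum_congr rfl fun A hA => ?_
      rw [Finset.mem_powerset] at hA
      have hins : ∀ p, R10_ins P i A β' p ≠ some j := by
        intro p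
        unfold R10_ins
        by_cases hp : (p : ℕ) ∈ A
        · rw [if_pos hp]
          intro h
          exact hij (Option.some_injective _ h)
        · rw [if_neg hp]
          exact hj p
      unfold y1
      rw [if_pos hins, B03_gg_ins P hy I i A β' hA hβ', B03_rr_ins P i A β' hA hβ',
        B03_sp_ins P i A β' hA]
      have h1 : ∑ B ∈ ((P \ sp P β') \ A).powerset with rr A * rr B * rr (sp P β') ≤ z,
          gg y I A * gg y I B / (ph A * ph B) =
          gg y I A / ph A * ∑ B ∈ ((P \ sp P β') \ A).powerset with rr B * (rr A * rr (sp P β')) ≤ z,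
            gg y I B / ph B := by
        rw [Finset.mul_sum]
        refine Finset.sum_congr ?_ fun B _ => ?_
        · refine Finset.filter_congr fun B _ => ?_
          have e1 : rr A * rr B * rr (sp P β') = rr B * (rr A * rr (sp P β')) := by ring
          rw [e1]
        · rw [div_mul_div_comm]
      rw [h1]
      ring
    · rw [if_neg (fun h => hj (fun p => (h p).2))]
      symm
      refine Finset.sum_eq_zero fun A hA => ?_
      rw [Finset.mem_powerset] at hA
      have hins : ¬ ∀ p, R10_ins P i A β' p ≠ some j := by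
        intro h
        apply hj
        intro p hp
        have h2 := h p
        unfold R10_ins at h2
        by_cases hpA : (p : ℕ) ∈ A
        · have h3 := (Finset.mem_sdiff.1 (hA hpA)).2
          rw [mem_sp] at h3
          exact h3 ⟨p.2, by rw [hp]; exact fun h => by cases h⟩
        · rw [if_neg hpA] at h2
          exact h2 hp
      unfold y1
      rw [if_neg hins, zero_div]

end Pool.Agent.LibSP4
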