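import Pool.Agent.LibSP4.B01

/-!
Row B04 (SHORT): bounds and supports of `y1`, `y2`. `gg ≤ 1`, `∑_{A ⊆ P \ S} gg A/ph A ≤ S1`.
-/

open Finset

namespace Pool.Agent.LibSP4

open Pool.Agent.LibRG87

variable {ι : Type} [Fintype ι] [DecidableEq ι]

private theorem one_le_rr' {P : Finset ℕ} (hP : ∀ p ∈ P, p.Prime) {A : Finset ℕ} (hA : A ⊆ P) :
    1 ≤ rr A := by
  unfold rr
  have h := Finset.prod_le_prod (s := A) (f := fun _ : ℕ => (1 : ℝ)) (g := fun p : ℕ => (p : ℝ))
    (fun _ _ => zero_le_one) (fun p hp => by exact_mod_cast (hP p (hA hp)).one_lt.le)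
  rwa [Finset.prod_const_one] at h

private theorem term_nonneg {P : Finset ℕ} (hP : ∀ p ∈ P, p.Prime) (y I : ℕ) {A : Finset ℕ}
    (hA : A ⊆ P) : 0 ≤ gg y I A / ph A :=
  div_nonneg (gg_nonneg y I A) (ph_pos P hP hA).le

private theorem S1_nonneg {P : Finset ℕ} (hP : ∀ p ∈ P, p.Prime) (y I : ℕ) : 0 ≤ S1 P y I :=
  Finset.sum_nonneg fun A hA => term_nonneg hP y I (Finset.mem_powerset.1 hA)

private theorem prod_nonneg' (P : Finset ℕ) (y I : ℕ) (β : P → Option ι) :
    0 ≤ ∏ m, gg y I (fb P β m) := Finset.prod_nonneg fun m _ => gg_nonneg y I _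

private theorem prod_le_one' (P : Finset ℕ) (y I : ℕ) (β : P → Option ι) :
    ∏ m, gg y I (fb P β m) ≤ 1 :=
  Finset.prod_le_one (fun m _ => gg_nonneg y I _) fun m _ => gg_le_one y I _

private theorem sum_le_S1 {P : Finset ℕ} (hP : ∀ p ∈ P, p.Prime) (y I : ℕ) {Q : Finset (Finset ℕ)}
    (hQ : ∀ A ∈ Q, A ⊆ P) : ∑ A ∈ Q, gg y I A / ph A ≤ S1 P y I :=
  Finset.sum_le_sum_of_subset_of_nonneg (fun A hA => Finset.mem_powerset.2 (hQ A hA))
    fun A hA _ => term_nonneg hP y I (Finset.mem_powerset.1 hA)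

theorem y1_bd (P : Finset ℕ) (hP : ∀ p ∈ P, p.Prime) (y I : ℕ) (z : ℝ) (i : ι) (β : P → Option ι) :
    0 ≤ y1 P y I z i β ∧ y1 P y I z i β ≤ S1 P y I ∧
      (y1 P y I z i β ≠ 0 → rr (sp P β) ≤ z ∧ alw P (univ.erase i) β) := by
  classical
  unfold y1
  by_cases hβ : ∀ p, β p ≠ some i
  · rw [if_pos hβ]
    have hsub : ∀ A ∈ (P \ sp P β).powerset.filter (fun A => rr A * rr (sp P β) ≤ z), A ⊆ P :=
      fun A hA => (Finset.mem_powerset.1 (Finset.mem_filter.1 hA).1).trans Finset.sdiff_subset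
    have h0 : 0 ≤ ∑ A ∈ (P \ sp P β).powerset with rr A * rr (sp P β) ≤ z, gg y I A / ph A :=
      Finset.sum_nonneg fun A hA => term_nonneg hP y I (hsub A hA)
    refine ⟨mul_nonneg (prod_nonneg' P y I β) h0, ?_, fun hne => ⟨?_, ?_⟩⟩
    · exact (mul_le_of_le_one_left h0 (prod_le_one' P y I β)).trans (sum_le_S1 hP y I hsub)
    · obtain ⟨A, hA, -⟩ := Finset.exists_ne_zero_of_sum_ne_zero (right_ne_zero_of_mul hne)
      have h1 := one_le_rr' hP (hsub A hA)
      have h2 := rr_pos P hP (sp_subset P β)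
      exact (le_mul_of_one_le_left h2.le h1).trans (Finset.mem_filter.1 hA).2
    · intro p j hj
      rw [Finset.mem_erase]
      refine ⟨?_, Finset.mem_univ j⟩
      rintro rfl
      exact hβ p hj
  · rw [if_neg hβ]
    exact ⟨le_rfl, S1_nonneg hP y I, fun h => absurd rfl h⟩

theorem y2_bd (P : Finset ℕ) (hP : ∀ p ∈ P, p.Prime) (y I : ℕ) (z : ℝ) (i j : ι) (β : P → Option ι) :
    0 ≤ y2 P y I z i j β ∧ y2 P y I z i j β ≤ S1 P y I ^ 2 * ∏ m, gg y I (fb P β m) ∧
      (y2 P y I z i j β ≠ 0 → rr (sp P β) ≤ z ∧ ∀ p, β p ≠ some i ∧ β p ≠ some j) := by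
  classical
  unfold y2
  by_cases hβ : ∀ p, β p ≠ some i ∧ β p ≠ some j
  · rw [if_pos hβ]
    have hA : ∀ A ∈ (P \ sp P β).powerset, A ⊆ P :=
      fun A hA => (Finset.mem_powerset.1 hA).trans Finset.sdiff_subset
    have hB : ∀ A, ∀ B ∈ ((P \ sp P β) \ A).powerset.filter
        (fun B => rr A * rr B * rr (sp P β) ≤ z), B ⊆ P :=
      fun A B hB => (Finset.mem_powerset.1 (Finset.mem_filter.1 hB).1).trans
        (Finset.sdiff_subset.trans Finset.sdiff_subset)
    have hinner : ∀ A ∈ (P \ sp P β).powerset,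
        0 ≤ (∑ B ∈ ((P \ sp P β) \ A).powerset with rr A * rr B * rr (sp P β) ≤ z,
          gg y I A * gg y I B / (ph A * ph B)) ∧
        (∑ B ∈ ((P \ sp P β) \ A).powerset with rr A * rr B * rr (sp P β) ≤ z,
          gg y I A * gg y I B / (ph A * ph B)) ≤ gg y I A / ph A * S1 P y I := by
      intro A hA'
      have h1 : (∑ B ∈ ((P \ sp P β) \ A).powerset with rr A * rr B * rr (sp P β) ≤ z,
          gg y I A * gg y I B / (ph A * ph B)) = gg y I A / ph A *
          ∑ B ∈ ((P \ sp P β) \ A).powerset with rr A * rr B * rr (sp P β) ≤ z,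
            gg y I B / ph B := by
        rw [Finset.mul_sum]
        exact Finset.sum_congr rfl fun B _ => by rw [div_mul_div_comm]
      rw [h1]
      have h2 : 0 ≤ ∑ B ∈ ((P \ sp P β) \ A).powerset with rr A * rr B * rr (sp P β) ≤ z,
            gg y I B / ph B := Finset.sum_nonneg fun B hB' => term_nonneg hP y I (hB A B hB')
      exact ⟨mul_nonneg (term_nonneg hP y I (hA A hA')) h2,
        mul_le_mul_of_nonneg_left (sum_le_S1 hP y I (hB A)) (term_nonneg hP y I (hA A hA'))⟩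
    refine ⟨mul_nonneg (prod_nonneg' P y I β) (Finset.sum_nonneg fun A hA' => (hinner A hA').1),
      ?_, fun hne => ⟨?_, hβ⟩⟩
    · rw [mul_comm]
      refine mul_le_mul_of_nonneg_right ?_ (prod_nonneg' P y I β)
      refine (Finset.sum_le_sum fun A hA' => (hinner A hA').2).trans ?_
      rw [← Finset.sum_mul, sq]
      exact mul_le_mul_of_nonneg_right (sum_le_S1 hP y I hA) (S1_nonneg hP y I)
    · obtain ⟨A, hA', hne'⟩ := Finset.exists_ne_zero_of_sum_ne_zero (right_ne_zero_of_mul hne)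
      obtain ⟨B, hB', -⟩ := Finset.exists_ne_zero_of_sum_ne_zero hne'
      have h1 := one_le_rr' hP (hA A hA')
      have h3 := one_le_rr' hP (hB A B hB')
      have h2 := rr_pos P hP (sp_subset P β)
      have h4 : 1 ≤ rr A * rr B := one_le_mul_of_one_le_of_one_le h1 h3
      exact (le_mul_of_one_le_left h2.le h4).trans (Finset.mem_filter.1 hB').2
  · rw [if_neg hβ]
    exact ⟨le_rfl, mul_nonneg (sq_nonneg _) (prod_nonneg' P y I β), fun h => absurd rfl h⟩

end Pool.Agent.LibSP4
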