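import Pool.Agent.LibSP4.B04

/-!
Row B09 (MEDIUM): lower bound of the diagonal form of `y1`. Model: `LibPL63/M5.lean` (`DD_yC_ge`; copy `markov'` and the other auxiliary lemmas privately). Write `K = card ι`.
(1) Restrict to the `β` avoiding `i` with `rr (sp β) ≤ T := z / y^(2^I)`. Then every `A ⊆ P \ sp β` with `gg A ≠ 0` satisfies `rr A rr (sp β) ≤ z`, so the inner sum of `y1` is
`∑_{A ⊆ P \ sp β} gg A/ph A ≥ S1 ∏_{p ∈ sp β} (1 + 1/(p-1))⁻¹ = S1 ph(sp β)/rr(sp β)` (split `P.powerset` into subsets of `sp β` and of `P \ sp β`, `gg_anti`).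
(2) So with `F A = gg A² ph A/rr A²`: `DD y1 ≥ S1² ∑_β ∏_{m≠i} F(fb β m)` over the `β : P → Option {m // m ≠ i}` with `rr (sp β) ≤ T`;
`LibRG87.sum_beta_ge` (`∑_{A ∋ p} F A ≤ ∑ F/(p-1)`: `gg_anti` and `(p-1)/p² ≤ 1/(p-1)`) and `markov'`:
`∑ ≥ (∑F)^(K-1) (1 - (K-1)² ∑ 1/(p-1)²) - (K-1) (∑F)^(K-2) (∑ F log rr)/log T`.
(3) `S2 (1 - 2 ∑_p 1/(p-1)²) ≤ ∑ F ≤ S2` (`1 - (ph A/rr A)² ≤ ∑_{p∈A} 2/p`, and `∑_{A∋p} gg²/ph ≤ S2/(p-1)`), `∑ F log rr ≤ SL`.
(4) With `h1`, `h2`: `≥ S2^(K-1) ((1 - 2e)(1 - e) - e) ≥ S2^(K-1) (1 - 4e)`; (Bernoulli: `(1 - 2σ)^(K-1) ≥ 1 - 2 (K-1) σ ≥ 1 - 2e`, `σ = ∑ 1/(p-1)²`, `K σ ≤ K² σ ≤ e`).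
For `K = 1` the exponent is `0` and everything is direct.
-/

open Finset

namespace Pool.Agent.LibSP4

open Pool.Agent.LibRG87

variable {ι : Type} [Fintype ι] [DecidableEq ι]

section

variable (P : Finset ℕ)

private theorem B09_inner (P : Finset ℕ) (F g : Finset ℕ → ℝ) (i : ι) :
    ∑ A ∈ Fintype.piFinset (fun _ : ι => P.powerset), g (A i) * ∏ j, F (A j) =
      (∑ A ∈ P.powerset, g A * F A) * (∑ A ∈ P.powerset, F A) ^ (Fintype.card ι - 1) := by
  have h1 : ∀ A : ι → Finset ℕ, g (A i) * ∏ j, F (A j)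
      = ∏ j, (if j = i then g (A j) * F (A j) else F (A j)) := by
    intro A
    rw [← Finset.mul_prod_erase Finset.univ _ (Finset.mem_univ i),
      ← Finset.mul_prod_erase Finset.univ (fun j => if j = i then g (A j) * F (A j) else F (A j))
        (Finset.mem_univ i)]
    rw [if_pos rfl, ← mul_assoc]
    congr 1
    apply Finset.prod_congr rfl
    intro j hj
    rw [if_neg (Finset.ne_of_mem_erase hj)]
  rw [Finset.sum_congr rfl (fun A _ => h1 A),
    ← Finset.prod_univ_sum (fun _ : ι => P.powerset)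
      (fun j A => if j = i then g A * F A else F A),
    ← Finset.mul_prod_erase Finset.univ _ (Finset.mem_univ i)]
  simp only [if_true]
  congr 1
  rw [Finset.prod_congr rfl (g := fun _ => ∑ A ∈ P.powerset, F A)]
  · rw [Finset.prod_const, Finset.card_erase_of_mem (Finset.mem_univ i), Finset.card_univ]
  · intro j hj
    simp only [if_neg (Finset.ne_of_mem_erase hj)]

open scoped Classical in
private theorem B09_markov (hP : ∀ p ∈ P, Nat.Prime p) (F : Finset ℕ → ℝ) (hF : ∀ A ∈ P.powerset, 0 ≤ F A)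
    {T : ℝ} (hT : 1 < T) :
    ∑ A ∈ Fintype.piFinset (fun _ : ι => P.powerset) with T < ∏ i, rr (A i), ∏ i, F (A i) ≤
      Fintype.card ι * (∑ A ∈ P.powerset, F A) ^ (Fintype.card ι - 1) *
        (∑ A ∈ P.powerset, F A * Real.log (rr A)) / Real.log T := by
  have hlT : 0 < Real.log T := Real.log_pos hT
  have hl : ∀ A ∈ P.powerset, 0 ≤ Real.log (rr A) := fun A hA =>
    Real.log_nonneg (one_le_rr P hP (Finset.mem_powerset.1 hA))
  have hprod : ∀ A ∈ Fintype.piFinset (fun _ : ι => P.powerset), 0 ≤ ∏ i, F (A i) := by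
    intro A hA
    rw [Fintype.mem_piFinset] at hA
    exact Finset.prod_nonneg (fun i _ => hF _ (hA i))
  have hsl : ∀ A ∈ Fintype.piFinset (fun _ : ι => P.powerset), 0 ≤ ∑ i, Real.log (rr (A i)) := by
    intro A hA
    rw [Fintype.mem_piFinset] at hA
    exact Finset.sum_nonneg (fun i _ => hl _ (hA i))
  have step1 : ∑ A ∈ Fintype.piFinset (fun _ : ι => P.powerset) with T < ∏ i, rr (A i), ∏ i, F (A i) ≤
      ∑ A ∈ Fintype.piFinset (fun _ : ι => P.powerset),
        (∑ i, Real.log (rr (A i))) / Real.log T * ∏ j, F (A j) := by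
    rw [Finset.sum_filter]
    apply Finset.sum_le_sum
    intro A hA
    have hA' := hA
    rw [Fintype.mem_piFinset] at hA'
    split_ifs with h
    · have h2 : Real.log T ≤ ∑ i, Real.log (rr (A i)) := by
        rw [← Real.log_prod (fun i _ => (rr_pos P hP (Finset.mem_powerset.1 (hA' i))).ne')]
        exact Real.log_le_log (by linarith) h.le
      have h3 : 1 ≤ (∑ i, Real.log (rr (A i))) / Real.log T := (one_le_div hlT).2 h2
      calc ∏ i, F (A i) = 1 * ∏ i, F (A i) := (one_mul _).symm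
        _ ≤ _ := mul_le_mul_of_nonneg_right h3 (hprod A hA)
    · exact mul_nonneg (div_nonneg (hsl A hA) hlT.le) (hprod A hA)
  have step2 : ∑ A ∈ Fintype.piFinset (fun _ : ι => P.powerset),
        (∑ i, Real.log (rr (A i))) / Real.log T * ∏ j, F (A j)
      = (Fintype.card ι * ((∑ A ∈ P.powerset, Real.log (rr A) * F A)
        * (∑ A ∈ P.powerset, F A) ^ (Fintype.card ι - 1))) / Real.log T := by
    have h1 : ∀ A : ι → Finset ℕ, (∑ i, Real.log (rr (A i))) / Real.log T * ∏ j, F (A j)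
        = (∑ i, Real.log (rr (A i)) * ∏ j, F (A j)) / Real.log T := by
      intro A
      rw [← Finset.sum_mul]; ring
    rw [Finset.sum_congr rfl (fun A _ => h1 A), ← Finset.sum_div, Finset.sum_comm]
    congr 1
    rw [Finset.sum_congr rfl (fun i _ => B09_inner P F (fun A => Real.log (rr A)) i),
      Finset.sum_const, Finset.card_univ, nsmul_eq_mul]
  rw [step2] at step1
  refine step1.trans (le_of_eq ?_)
  have hcomm : ∑ A ∈ P.powerset, Real.log (rr A) * F A = ∑ A ∈ P.powerset, F A * Real.log (rr A) :=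
    Finset.sum_congr rfl (fun A _ => mul_comm _ _)
  rw [hcomm]
  congr 1
  ring

private theorem B09_rr_le (hP : ∀ p ∈ P, Nat.Prime p) {A B : Finset ℕ} (hB : B ⊆ P) (hAB : A ⊆ B) :
    rr A ≤ rr B := by
  unfold rr
  rw [← Finset.prod_sdiff hAB]
  have h1 : (1 : ℝ) ≤ ∏ p ∈ B \ A, (p : ℝ) :=
    one_le_rr P hP (A := B \ A) (Finset.sdiff_subset.trans hB)
  have h2 : (0 : ℝ) ≤ ∏ p ∈ A, (p : ℝ) := Finset.prod_nonneg fun p _ => Nat.cast_nonneg p
  nlinarith

/-- splitting a sum over subsets -/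
private theorem B09_split (S : Finset ℕ) (hS : S ⊆ P) (f : Finset ℕ → ℝ) :
    ∑ A ∈ P.powerset, f A = ∑ B ∈ S.powerset, ∑ A ∈ (P \ S).powerset, f (B ∪ A) := by
  rw [← Finset.sum_product']
  refine Finset.sum_nbij' (fun A => (A ∩ S, A \ S)) (fun x => x.1 ∪ x.2) ?_ ?_ ?_ ?_ ?_
  · intro A hA
    rw [Finset.mem_powerset] at hA
    rw [Finset.mem_product, Finset.mem_powerset, Finset.mem_powerset]
    exact ⟨Finset.inter_subset_right, Finset.sdiff_subset_sdiff hA le_rfl⟩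
  · intro x hx
    rw [Finset.mem_product, Finset.mem_powerset, Finset.mem_powerset] at hx
    rw [Finset.mem_powerset]
    exact Finset.union_subset (hx.1.trans hS) (hx.2.trans Finset.sdiff_subset)
  · intro A _
    show A ∩ S ∪ A \ S = A
    ext p
    simp only [Finset.mem_union, Finset.mem_inter, Finset.mem_sdiff]
    tauto
  · intro x hx
    rw [Finset.mem_product, Finset.mem_powerset, Finset.mem_powerset] at hx
    have h2 : ∀ p ∈ x.2, p ∉ S := fun p hp => (Finset.mem_sdiff.1 (hx.2 hp)).2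
    have h1 : ∀ p ∈ x.1, p ∈ S := fun p hp => hx.1 hp
    refine Prod.ext ?_ ?_
    · show (x.1 ∪ x.2) ∩ S = x.1
      ext p
      simp only [Finset.mem_union, Finset.mem_inter]
      constructor
      · rintro ⟨h | h, hs⟩
        · exact h
        · exact absurd hs (h2 p h)
      · intro h
        exact ⟨Or.inl h, h1 p h⟩
    · show (x.1 ∪ x.2) \ S = x.2
      ext p
      simp only [Finset.mem_union, Finset.mem_sdiff]
      constructor
      · rintro ⟨h | h, hs⟩
        · exact absurd (h1 p h) hs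
        · exact h
      · intro h
        exact ⟨Or.inr h, h2 p h⟩
  · intro A _
    congr 1
    ext p
    simp only [Finset.mem_union, Finset.mem_inter, Finset.mem_sdiff]
    tauto

private theorem B09_ph_union {A B : Finset ℕ} (h : Disjoint B A) : ph (B ∪ A) = ph B * ph A := by
  unfold ph
  exact Finset.prod_union h

private theorem B09_sum_inv_ph (S : Finset ℕ) :
    ∑ B ∈ S.powerset, 1 / ph B = ∏ p ∈ S, (1 + 1 / ((p : ℝ) - 1)) := by
  rw [Finset.prod_one_add]
  refine Finset.sum_congr rfl fun B _ => ?_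
  unfold ph
  rw [one_div, ← Finset.prod_inv_distrib]
  refine Finset.prod_congr rfl fun p _ => ?_
  rw [one_div]

/-- extension of a configuration -/
private def B09_ext (i0 : ι) (β : P → Option {i : ι // i ≠ i0}) : P → Option ι :=
  fun p => (β p).map Subtype.val

private theorem B09_ext_inj (i0 : ι) : Function.Injective (B09_ext P i0) := by
  intro β β' h
  funext p
  have h1 := congrFun h p
  exact Option.map_injective Subtype.val_injective h1

private theorem B09_ext_ne (i0 : ι) (β : P → Option {i : ι // i ≠ i0}) (p : P) :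
    B09_ext P i0 β p ≠ some i0 := by
  intro h
  unfold B09_ext at h
  rw [Option.map_eq_some_iff] at h
  obtain ⟨i, _, hi⟩ := h
  exact i.2 hi

private theorem B09_ext_fb (i0 : ι) (β : P → Option {i : ι // i ≠ i0}) (i : {i : ι // i ≠ i0}) :
    fb P (B09_ext P i0 β) (i : ι) = fb P β i := by
  ext p
  rw [mem_fb, mem_fb]
  refine exists_congr fun h => ?_
  unfold B09_ext
  rw [Option.map_eq_some_iff]
  constructor
  · rintro ⟨j, hj, hij⟩
    rw [hj, Subtype.ext hij]
  · intro hb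
    exact ⟨i, hb, rfl⟩

private theorem B09_ext_fb0 (i0 : ι) (β : P → Option {i : ι // i ≠ i0}) :
    fb P (B09_ext P i0 β) i0 = ∅ := by
  rw [Finset.eq_empty_iff_forall_notMem]
  intro p hp
  obtain ⟨h, hb⟩ := (mem_fb P).1 hp
  exact B09_ext_ne P i0 β _ hb

private theorem B09_ext_sp (i0 : ι) (β : P → Option {i : ι // i ≠ i0}) :
    sp P (B09_ext P i0 β) = sp P β := by
  ext p
  rw [mem_sp, mem_sp]
  refine exists_congr fun h => ?_
  unfold B09_ext
  rw [ne_eq, Option.map_eq_none_iff]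

private theorem B09_ext_prod (i0 : ι) (β : P → Option {i : ι // i ≠ i0}) (f : Finset ℕ → ℝ)
    (hf : f ∅ = 1) :
    ∏ i, f (fb P (B09_ext P i0 β) i) = ∏ i, f (fb P β i) := by
  rw [← Finset.mul_prod_erase Finset.univ _ (Finset.mem_univ i0), B09_ext_fb0, hf, one_mul]
  rw [Finset.prod_subtype (Finset.univ.erase i0) (p := fun i => i ≠ i0)
    (fun i => by rw [Finset.mem_erase]; exact ⟨fun h => h.1, fun h => ⟨h, Finset.mem_univ i⟩⟩)]
  refine Finset.prod_congr rfl fun i _ => ?_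
  rw [B09_ext_fb]

private theorem B09_card (i0 : ι) : Fintype.card {i : ι // i ≠ i0} = Fintype.card ι - 1 := by
  rw [Fintype.card_subtype_compl, Fintype.card_subtype_eq]


private theorem B09_G1 (y I : ℕ) (hP : ∀ p ∈ P, Nat.Prime p) (S : Finset ℕ) (hS : S ⊆ P) :
    S1 P y I ≤ (∏ p ∈ S, (1 + 1 / ((p : ℝ) - 1))) * ∑ A ∈ (P \ S).powerset, gg y I A / ph A := by
  unfold S1
  rw [B09_split P S hS, ← B09_sum_inv_ph, Finset.sum_mul]
  refine Finset.sum_le_sum fun B hB => ?_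
  rw [Finset.mul_sum]
  refine Finset.sum_le_sum fun A hA => ?_
  rw [Finset.mem_powerset] at hA hB
  have hdis : Disjoint B A := by
    rw [Finset.disjoint_left]
    intro p h1 h2
    exact (Finset.mem_sdiff.1 (hA h2)).2 (hB h1)
  rw [B09_ph_union hdis]
  have hBP : B ⊆ P := hB.trans hS
  have hAP : A ⊆ P := hA.trans Finset.sdiff_subset
  have h1 := ph_pos P hP hBP
  have h2 := ph_pos P hP hAP
  have h3 : gg y I (B ∪ A) ≤ gg y I A :=
    gg_anti y I (B09_rr_le P hP (Finset.union_subset hBP hAP) Finset.subset_union_right)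
  have h4 : (1 : ℝ) / ph B * (gg y I A / ph A) = gg y I A / (ph B * ph A) := by
    rw [div_mul_div_comm, one_mul]
  rw [h4]
  exact div_le_div_of_nonneg_right h3 (mul_pos h1 h2).le

private theorem B09_prod_eq (hP : ∀ p ∈ P, Nat.Prime p) (S : Finset ℕ) (hS : S ⊆ P) :
    ∏ p ∈ S, (1 + 1 / ((p : ℝ) - 1)) = rr S / ph S := by
  unfold rr ph
  rw [← Finset.prod_div_distrib]
  refine Finset.prod_congr rfl fun p hp => ?_
  have h2 : (1 : ℝ) < (p : ℝ) := by exact_mod_cast (hP p (hS hp)).one_lt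
  have h3 : (p : ℝ) - 1 ≠ 0 := by linarith
  field_simp
  ring

/-- the inner sum of `y1` -/
private theorem B09_inner_ge (y I : ℕ) (z : ℝ) (hy : 1 ≤ y) (hP : ∀ p ∈ P, Nat.Prime p)
    (S : Finset ℕ) (hS : S ⊆ P) (h : rr S ≤ z / (y : ℝ) ^ (2 ^ I))
    (D : DecidablePred fun A : Finset ℕ => rr A * rr S ≤ z) :
    S1 P y I * (ph S / rr S) ≤ ∑ A ∈ (P \ S).powerset with rr A * rr S ≤ z, gg y I A / ph A := by
  have hy1 : (1 : ℝ) ≤ (y : ℝ) := by exact_mod_cast hy
  have hY : (0 : ℝ) < (y : ℝ) ^ (2 ^ I) := pow_pos (by linarith) _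
  have hrS := rr_pos P hP hS
  have hpS := ph_pos P hP hS
  have e : ∑ A ∈ (P \ S).powerset with rr A * rr S ≤ z, gg y I A / ph A =
      ∑ A ∈ (P \ S).powerset, gg y I A / ph A := by
    refine Finset.sum_filter_of_ne fun A hA hne => ?_
    have hAP : A ⊆ P := (Finset.mem_powerset.1 hA).trans Finset.sdiff_subset
    have hg : gg y I A ≠ 0 := by
      intro h0
      exact hne (by rw [h0, zero_div])
    have h1 : rr A ≤ (y : ℝ) ^ (2 ^ I) := gg_ne hg
    calc rr A * rr S ≤ (y : ℝ) ^ (2 ^ I) * (z / (y : ℝ) ^ (2 ^ I)) :=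
          mul_le_mul h1 h hrS.le hY.le
      _ = z := by
          rw [mul_div_assoc', mul_div_cancel_left₀ _ hY.ne']
  rw [e]
  have h1 := B09_G1 P y I hP S hS
  rw [B09_prod_eq P hP S hS] at h1
  have h2 : 0 ≤ ph S / rr S := (div_pos hpS hrS).le
  have h3 := mul_le_mul_of_nonneg_right h1 h2
  refine h3.trans (le_of_eq ?_)
  have h4 : rr S / ph S * (ph S / rr S) = 1 := by
    rw [div_mul_div_comm, mul_comm (ph S), div_self (mul_pos hrS hpS).ne']
  calc rr S / ph S * (∑ A ∈ (P \ S).powerset, gg y I A / ph A) * (ph S / rr S)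
      = (rr S / ph S * (ph S / rr S)) * ∑ A ∈ (P \ S).powerset, gg y I A / ph A := by ring
    _ = _ := by rw [h4, one_mul]

/-- the sum over the sets which contain `p` -/
private theorem B09_sum_mem (G : Finset ℕ → ℝ) (hG : ∀ A ∈ P.powerset, 0 ≤ G A) (p : ℕ) (hp : p ∈ P)
    (hP : ∀ p ∈ P, Nat.Prime p)
    (hGp : ∀ A ⊆ P, p ∉ A → G ({p} ∪ A) ≤ G A / ((p : ℝ) - 1))
    (D : DecidablePred fun A : Finset ℕ => p ∈ A) :
    ∑ A ∈ P.powerset with p ∈ A, G A ≤ (∑ A ∈ P.powerset, G A) / ((p : ℝ) - 1) := by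
  have hp1 : (0 : ℝ) < (p : ℝ) - 1 := by
    have h2 : (1 : ℝ) < (p : ℝ) := by exact_mod_cast (hP p hp).one_lt
    linarith
  have hS : {p} ⊆ P := Finset.singleton_subset_iff.2 hp
  have hpow : ({p} : Finset ℕ).powerset = {∅, {p}} := by
    ext B
    rw [Finset.mem_powerset, Finset.subset_singleton_iff, Finset.mem_insert, Finset.mem_singleton]
  rw [Finset.sum_filter, B09_split P {p} hS, hpow, Finset.sum_pair (by
    intro h
    have : p ∈ (∅ : Finset ℕ) := by rw [h]; exact Finset.mem_singleton_self p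
    exact absurd this (Finset.notMem_empty p))]
  have h1 : ∑ A ∈ (P \ {p}).powerset, (if p ∈ ∅ ∪ A then G (∅ ∪ A) else 0) = 0 := by
    refine Finset.sum_eq_zero fun A hA => ?_
    rw [if_neg]
    rw [Finset.empty_union]
    intro h
    exact (Finset.mem_sdiff.1 (Finset.mem_powerset.1 hA h)).2 (Finset.mem_singleton_self p)
  rw [h1, zero_add]
  have h2 : ∑ A ∈ (P \ {p}).powerset, (if p ∈ {p} ∪ A then G ({p} ∪ A) else 0) ≤
      ∑ A ∈ (P \ {p}).powerset, G A / ((p : ℝ) - 1) := by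
    refine Finset.sum_le_sum fun A hA => ?_
    rw [Finset.mem_powerset] at hA
    rw [if_pos (Finset.mem_union_left _ (Finset.mem_singleton_self p))]
    exact hGp A (hA.trans Finset.sdiff_subset)
      (fun h => (Finset.mem_sdiff.1 (hA h)).2 (Finset.mem_singleton_self p))
  refine h2.trans ?_
  rw [← Finset.sum_div]
  refine div_le_div_of_nonneg_right ?_ hp1.le
  refine Finset.sum_le_sum_of_subset_of_nonneg (Finset.powerset_mono.2 Finset.sdiff_subset) ?_
  intro A hA _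
  exact hG A hA

private theorem B09_one_sub (hP : ∀ p ∈ P, Nat.Prime p) (A : Finset ℕ) (hA : A ⊆ P) :
    1 - ∑ p ∈ A, 2 / (p : ℝ) ≤ (ph A / rr A) ^ 2 ∧ (ph A / rr A) ^ 2 ≤ 1 := by
  induction A using Finset.induction_on with
  | empty =>
    unfold ph rr
    simp
  | insert p A hpA ih =>
    have hAP : A ⊆ P := (Finset.subset_insert p A).trans hA
    have hp : p ∈ P := hA (Finset.mem_insert_self p A)
    obtain ⟨h1, h2⟩ := ih hAP
    have hp1 : (1 : ℝ) < (p : ℝ) := by exact_mod_cast (hP p hp).one_lt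
    have e : ph (insert p A) / rr (insert p A) = ((p : ℝ) - 1) / p * (ph A / rr A) := by
      unfold ph rr
      rw [Finset.prod_insert hpA, Finset.prod_insert hpA, mul_div_mul_comm]
    rw [e, mul_pow, Finset.sum_insert hpA]
    have hq : ((p : ℝ) - 1) / p = 1 - 1 / p := by
      field_simp
    have h3 : 0 < 1 / (p : ℝ) := by positivity
    have h4 : 1 / (p : ℝ) < 1 := by
      rw [div_lt_one (by linarith)]
      exact hp1
    have h5 : (2 : ℝ) / p = 2 * (1 / p) := by ring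
    rw [hq, h5]
    have h6 : 0 ≤ (ph A / rr A) ^ 2 := sq_nonneg _
    generalize (ph A / rr A) ^ 2 = X at h1 h2 h6 ⊢
    generalize 1 / (p : ℝ) = u at h3 h4 ⊢
    generalize ∑ p ∈ A, 2 / (p : ℝ) = s at h1 ⊢
    have hu : 0 ≤ (1 - u) ^ 2 := sq_nonneg _
    have hu1 : (1 - u) ^ 2 ≤ 1 := by nlinarith
    constructor
    · nlinarith [sq_nonneg u]
    · calc (1 - u) ^ 2 * X ≤ 1 * 1 := mul_le_mul hu1 h2 h6 zero_le_one
        _ = 1 := one_mul 1

/-- the summand -/
private noncomputable def B09_F (y I : ℕ) (A : Finset ℕ) : ℝ := gg y I A ^ 2 / ph A * (ph A / rr A) ^ 2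

private theorem B09_F_nonneg (y I : ℕ) (hP : ∀ p ∈ P, Nat.Prime p) (A : Finset ℕ) (hA : A ∈ P.powerset) :
    0 ≤ B09_F y I A := by
  unfold B09_F
  exact mul_nonneg (div_nonneg (sq_nonneg _) (ph_pos P hP (Finset.mem_powerset.1 hA)).le) (sq_nonneg _)

private theorem B09_g2_mem (y I : ℕ) (hP : ∀ p ∈ P, Nat.Prime p) (p : ℕ) (hp : p ∈ P) (A : Finset ℕ)
    (hA : A ⊆ P) (hpA : p ∉ A) :
    gg y I ({p} ∪ A) ^ 2 / ph ({p} ∪ A) ≤ gg y I A ^ 2 / ph A / ((p : ℝ) - 1) := by
  have hp1 : (0 : ℝ) < (p : ℝ) - 1 := by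
    have h2 : (1 : ℝ) < (p : ℝ) := by exact_mod_cast (hP p hp).one_lt
    linarith
  have hS : {p} ⊆ P := Finset.singleton_subset_iff.2 hp
  have hdis : Disjoint {p} A := by
    rw [Finset.disjoint_singleton_left]
    exact hpA
  rw [B09_ph_union hdis]
  have h3 : gg y I ({p} ∪ A) ≤ gg y I A :=
    gg_anti y I (B09_rr_le P hP (Finset.union_subset hS hA) Finset.subset_union_right)
  have h4 : gg y I ({p} ∪ A) ^ 2 ≤ gg y I A ^ 2 := pow_le_pow_left₀ (gg_nonneg _ _ _) h3 2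
  have h5 : ph {p} = (p : ℝ) - 1 := by
    unfold ph
    rw [Finset.prod_singleton]
  have h6 := ph_pos P hP hA
  rw [h5, div_div, mul_comm ((p : ℝ) - 1)]
  exact div_le_div_of_nonneg_right h4 (mul_pos h6 hp1).le

private theorem B09_F_mem (y I : ℕ) (hP : ∀ p ∈ P, Nat.Prime p) (p : ℕ) (hp : p ∈ P) (A : Finset ℕ)
    (hA : A ⊆ P) (hpA : p ∉ A) : B09_F y I ({p} ∪ A) ≤ B09_F y I A / ((p : ℝ) - 1) := by
  have hp0 : (1 : ℝ) < (p : ℝ) := by exact_mod_cast (hP p hp).one_lt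
  have hS : {p} ⊆ P := Finset.singleton_subset_iff.2 hp
  have hdis : Disjoint {p} A := by
    rw [Finset.disjoint_singleton_left]
    exact hpA
  have h1 := B09_g2_mem P y I hP p hp A hA hpA
  have e : ph ({p} ∪ A) / rr ({p} ∪ A) = ((p : ℝ) - 1) / p * (ph A / rr A) := by
    unfold ph rr
    rw [Finset.prod_union hdis, Finset.prod_union hdis, Finset.prod_singleton, Finset.prod_singleton,
      mul_div_mul_comm]
  have h2 : (ph ({p} ∪ A) / rr ({p} ∪ A)) ^ 2 ≤ (ph A / rr A) ^ 2 := by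
    rw [e, mul_pow]
    have h3 : (((p : ℝ) - 1) / p) ^ 2 ≤ 1 := by
      have h4 : 0 ≤ ((p : ℝ) - 1) / p := div_nonneg (by linarith) (by linarith)
      have h5 : ((p : ℝ) - 1) / p ≤ 1 := by
        rw [div_le_one (by linarith)]
        linarith
      exact pow_le_one₀ h4 h5
    calc (((p : ℝ) - 1) / p) ^ 2 * (ph A / rr A) ^ 2 ≤ 1 * (ph A / rr A) ^ 2 :=
          mul_le_mul_of_nonneg_right h3 (sq_nonneg _)
      _ = _ := one_mul _
  unfold B09_F
  have h6 : 0 ≤ gg y I A ^ 2 / ph A / ((p : ℝ) - 1) :=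
    div_nonneg (div_nonneg (sq_nonneg _) (ph_pos P hP hA).le) (by linarith)
  refine (mul_le_mul h1 h2 (sq_nonneg _) h6).trans (le_of_eq ?_)
  ring

private theorem B09_F_le (y I : ℕ) (hP : ∀ p ∈ P, Nat.Prime p) (A : Finset ℕ) (hA : A ⊆ P) :
    B09_F y I A ≤ gg y I A ^ 2 / ph A := by
  unfold B09_F
  have h1 : 0 ≤ gg y I A ^ 2 / ph A := div_nonneg (sq_nonneg _) (ph_pos P hP hA).le
  exact mul_le_of_le_one_right h1 (B09_one_sub P hP A hA).2

private theorem B09_F_sum_le (y I : ℕ) (hP : ∀ p ∈ P, Nat.Prime p) :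
    ∑ A ∈ P.powerset, B09_F y I A ≤ S2 P y I := by
  unfold S2
  exact Finset.sum_le_sum fun A hA => B09_F_le P y I hP A (Finset.mem_powerset.1 hA)

private theorem B09_F_log_le (y I : ℕ) (hP : ∀ p ∈ P, Nat.Prime p) :
    ∑ A ∈ P.powerset, B09_F y I A * Real.log (rr A) ≤ SL P y I := by
  unfold SL
  refine Finset.sum_le_sum fun A hA => ?_
  rw [Finset.mem_powerset] at hA
  exact mul_le_mul_of_nonneg_right (B09_F_le P y I hP A hA) (Real.log_nonneg (one_le_rr P hP hA))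

open scoped Classical in
private theorem B09_F_sum_ge (y I : ℕ) (hP : ∀ p ∈ P, Nat.Prime p) :
    S2 P y I * (1 - 2 * ∑ p ∈ P, 1 / ((p : ℝ) - 1) ^ 2) ≤ ∑ A ∈ P.powerset, B09_F y I A := by
  have h1 : ∑ A ∈ P.powerset, (gg y I A ^ 2 / ph A - ∑ p ∈ A, gg y I A ^ 2 / ph A * (2 / (p : ℝ))) ≤
      ∑ A ∈ P.powerset, B09_F y I A := by
    refine Finset.sum_le_sum fun A hA => ?_
    rw [Finset.mem_powerset] at hA
    have h2 : 0 ≤ gg y I A ^ 2 / ph A := div_nonneg (sq_nonneg _) (ph_pos P hP hA).le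
    have h3 := mul_le_mul_of_nonneg_left (B09_one_sub P hP A hA).1 h2
    rw [mul_sub, mul_one, Finset.mul_sum] at h3
    exact h3
  refine le_trans ?_ h1
  rw [Finset.sum_sub_distrib]
  have h4 : ∑ A ∈ P.powerset, ∑ p ∈ A, gg y I A ^ 2 / ph A * (2 / (p : ℝ)) =
      ∑ p ∈ P, (∑ A ∈ P.powerset with p ∈ A, gg y I A ^ 2 / ph A) * (2 / (p : ℝ)) := by
    have h5 : ∀ A ∈ P.powerset, ∑ p ∈ A, gg y I A ^ 2 / ph A * (2 / (p : ℝ)) =
        ∑ p ∈ P, if p ∈ A then gg y I A ^ 2 / ph A * (2 / (p : ℝ)) else 0 := by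
      intro A hA
      rw [Finset.mem_powerset] at hA
      rw [← Finset.sum_filter]
      congr 1
      ext p
      rw [Finset.mem_filter]
      exact ⟨fun h => ⟨hA h, h⟩, fun h => h.2⟩
    rw [Finset.sum_congr rfl h5, Finset.sum_comm]
    refine Finset.sum_congr rfl fun p _ => ?_
    rw [Finset.sum_mul, Finset.sum_filter]
  have h6 : ∑ p ∈ P, (∑ A ∈ P.powerset with p ∈ A, gg y I A ^ 2 / ph A) * (2 / (p : ℝ)) ≤
      ∑ p ∈ P, S2 P y I * (2 * (1 / ((p : ℝ) - 1) ^ 2)) := by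
    refine Finset.sum_le_sum fun p hp => ?_
    have hp0 : (1 : ℝ) < (p : ℝ) := by exact_mod_cast (hP p hp).one_lt
    have h7 : (∑ A ∈ P.powerset with p ∈ A, gg y I A ^ 2 / ph A) ≤
        (∑ A ∈ P.powerset, gg y I A ^ 2 / ph A) / ((p : ℝ) - 1) :=
      B09_sum_mem P (fun A => gg y I A ^ 2 / ph A)
        (fun A hA => div_nonneg (sq_nonneg _) (ph_pos P hP (Finset.mem_powerset.1 hA)).le) p hp hP
        (fun A hA hpA => B09_g2_mem P y I hP p hp A hA hpA) _
    have h8 : (2 : ℝ) / p ≤ 2 / ((p : ℝ) - 1) := div_le_div_of_nonneg_left (by norm_num) (by linarith) (by linarith)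
    have hS : ∑ A ∈ P.powerset, gg y I A ^ 2 / ph A = S2 P y I := rfl
    rw [hS] at h7
    have h9 : 0 ≤ S2 P y I := by
      rw [← hS]
      exact Finset.sum_nonneg fun A hA =>
        div_nonneg (sq_nonneg _) (ph_pos P hP (Finset.mem_powerset.1 hA)).le
    refine (mul_le_mul h7 h8 (by positivity) (div_nonneg h9 (by linarith))).trans (le_of_eq ?_)
    have h10 : (p : ℝ) - 1 ≠ 0 := by linarith
    field_simp
  rw [h4]
  have hS : ∑ A ∈ P.powerset, gg y I A ^ 2 / ph A = S2 P y I := rfl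
  rw [hS]
  rw [← Finset.mul_sum, ← Finset.mul_sum] at h6
  linarith

open scoped Classical in
/-- the main part of the sum over the configurations -/
private theorem B09_main (κ : Type) [Fintype κ] [DecidableEq κ] (y I : ℕ) (T e : ℝ) (k : ℕ)
    (hP : ∀ p ∈ P, Nat.Prime p) (hy : 1 ≤ y) (hT : 1 < T) (he : 0 ≤ e) (he1 : e ≤ 1 / 8)
    (hk : Fintype.card κ + 1 = k)
    (h1 : (k : ℝ) ^ 2 * ∑ p ∈ P, 1 / ((p : ℝ) - 1) ^ 2 ≤ e)
    (h2 : k * SL P y I ≤ e * S2 P y I * Real.log T) :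
    (1 - 4 * e) * S2 P y I ^ Fintype.card κ ≤
      ∑ β : P → Option κ, (if rr (sp P β) ≤ T then ∏ i, B09_F y I (fb P β i) else 0) := by
  have hlT : 0 < Real.log T := Real.log_pos hT
  obtain ⟨F, hFdef⟩ : ∃ F : Finset ℕ → ℝ, F = B09_F y I := ⟨_, rfl⟩
  have hF : ∀ A ∈ P.powerset, 0 ≤ F A := fun A hA => by
    rw [hFdef]
    exact B09_F_nonneg P y I hP A hA
  have hge := sum_beta_ge (ι := κ) P hP F hF (fun p hp => by
    rw [hFdef]
    exact B09_sum_mem P (B09_F y I) (B09_F_nonneg P y I hP) p hp hP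
      (fun A hA hpA => B09_F_mem P y I hP p hp A hA hpA) _)
  have hmk := B09_markov (ι := κ) P hP F hF hT
  have hX1 := B09_F_sum_le P y I hP
  have hX2 := B09_F_sum_ge P y I hP
  have hXL := B09_F_log_le P y I hP
  have hS2 := one_le_S2 hP hy I
  have hSL := SL_nonneg hP y I
  rw [← hFdef] at hX1 hX2 hXL
  -- the second part
  have hpart : ∑ β : P → Option κ, ∏ i, F (fb P β i) ≤
      ∑ β : P → Option κ, (if rr (sp P β) ≤ T then ∏ i, F (fb P β i) else 0) +
      ∑ A ∈ Fintype.piFinset (fun _ : κ => P.powerset) with T < ∏ i, rr (A i),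
        ∏ i, F (A i) := by
    have h3 := sum_beta_le (ι := κ) P (fun A => if T < ∏ i, rr (A i) then ∏ i, F (A i) else 0)
      (fun A hA => by
        split_ifs
        · exact Finset.prod_nonneg fun i _ => hF _ (Fintype.mem_piFinset.1 hA i)
        · exact le_rfl)
    rw [Finset.sum_filter]
    refine le_trans (le_of_eq ?_) (add_le_add_right h3 _)
    rw [← Finset.sum_add_distrib]
    refine Finset.sum_congr rfl fun β _ => ?_
    rw [rr_sp]
    by_cases h : ∏ i, rr (fb P β i) ≤ T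
    · rw [if_pos h, if_neg (not_lt.2 h), add_zero]
    · rw [if_neg h, if_pos (not_le.1 h), zero_add]
  rw [← hFdef]
  have h8 := hge.trans hpart
  generalize ∑ β : P → Option κ, (if rr (sp P β) ≤ T then ∏ i, F (fb P β i) else 0) = Y at h8 ⊢
  generalize ∑ A ∈ Fintype.piFinset (fun _ : κ => P.powerset) with T < ∏ i, rr (A i), ∏ i, F (A i) = M at h8 hmk
  have hXnn : 0 ≤ ∑ A ∈ P.powerset, F A := Finset.sum_nonneg hF
  generalize ∑ A ∈ P.powerset, F A = X at hXnn hX1 hX2 h8 hmk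
  generalize ∑ A ∈ P.powerset, F A * Real.log (rr A) = L at hXL hmk
  have hσ : 0 ≤ ∑ p ∈ P, 1 / ((p : ℝ) - 1) ^ 2 := Finset.sum_nonneg fun p _ => by positivity
  generalize ∑ p ∈ P, 1 / ((p : ℝ) - 1) ^ 2 = σ at hσ h1 hX2 h8
  generalize S2 P y I = s at hS2 hX1 hX2 h2 ⊢
  generalize SL P y I = t at hSL h2 hXL
  generalize Real.log T = l at hlT h2 hmk
  rcases Nat.eq_zero_or_pos (Fintype.card κ) with h0 | h0
  · rw [h0] at h8 hmk ⊢
    simp only [Nat.cast_zero, zero_mul, pow_zero, zero_div, one_mul, mul_one] at h8 hmk ⊢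
    norm_num at h8
    linarith
  · obtain ⟨m, hm⟩ : ∃ m, Fintype.card κ = m + 1 := ⟨Fintype.card κ - 1, by omega⟩
    have hk' : (k : ℝ) = (m : ℝ) + 2 := by
      have : k = m + 2 := by omega
      rw [this]
      push_cast
      ring
    rw [hm] at h8 hmk ⊢
    rw [Nat.add_sub_cancel] at hmk
    push_cast at h8 hmk
    rw [hk'] at h1 h2
    have hm0 : (0 : ℝ) ≤ (m : ℝ) := Nat.cast_nonneg m
    -- the small quantities
    have e1 : ((m : ℝ) + 1) ^ 2 * σ ≤ e := by nlinarith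
    have e2 : ((m : ℝ) + 1) * σ ≤ e := by nlinarith
    have e3 : σ ≤ e := by nlinarith
    have hLl : ((m : ℝ) + 1) * L / l ≤ e * s := by
      rw [div_le_iff₀ hlT]
      nlinarith
    have hp0 : 0 ≤ X ^ m := pow_nonneg hXnn m
    have hpm : X ^ m ≤ s ^ m := pow_le_pow_left₀ hXnn hX1 m
    have hM : M ≤ e * s ^ (m + 1) := by
      refine hmk.trans ?_
      have h3 : ((m : ℝ) + 1) * X ^ m * L / l = X ^ m * (((m : ℝ) + 1) * L / l) := by ring
      rw [h3, pow_succ]
      have hes : 0 ≤ e * s := mul_nonneg he (by linarith)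
      calc X ^ m * (((m : ℝ) + 1) * L / l) ≤ X ^ m * (e * s) := mul_le_mul_of_nonneg_left hLl hp0
        _ ≤ s ^ m * (e * s) := mul_le_mul_of_nonneg_right hpm hes
        _ = e * (s ^ m * s) := by ring
    have hB : (1 : ℝ) + ((m + 1 : ℕ) : ℝ) * (-(2 * σ)) ≤ (1 + -(2 * σ)) ^ (m + 1) :=
      one_add_mul_le_pow (by linarith) (m + 1)
    have hsm : 0 < s ^ (m + 1) := pow_pos (by linarith) _
    have hXp : s ^ (m + 1) * (1 - 2 * e) ≤ X ^ (m + 1) := by
      have h3 : (s * (1 - 2 * σ)) ^ (m + 1) ≤ X ^ (m + 1) :=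
        pow_le_pow_left₀ (mul_nonneg (by linarith) (by linarith)) hX2 (m + 1)
      rw [mul_pow] at h3
      refine le_trans (mul_le_mul_of_nonneg_left ?_ hsm.le) h3
      have h4 : (1 : ℝ) - 2 * σ = 1 + -(2 * σ) := by ring
      rw [h4]
      refine le_trans ?_ hB
      push_cast
      nlinarith
    have h9 : s ^ (m + 1) * (1 - 2 * e) * (1 - e) ≤ X ^ (m + 1) * (1 - ((m : ℝ) + 1) ^ 2 * σ) :=
      mul_le_mul hXp (by linarith) (by linarith) (pow_nonneg hXnn _)
    have h10 : (1 - 4 * e) * s ^ (m + 1) ≤ s ^ (m + 1) * (1 - 2 * e) * (1 - e) - e * s ^ (m + 1) := by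
      nlinarith [mul_nonneg (sq_nonneg e) hsm.le]
    linarith

end

theorem DD_y1_ge (P : Finset ℕ) (hP : ∀ p ∈ P, p.Prime) {y : ℕ} (hy : 1 ≤ y) (I : ℕ) (z e : ℝ)
    (he : 0 ≤ e) (he1 : e ≤ 1 / 8) (hz : (y : ℝ) ^ (2 ^ I) < z) (i : ι)
    (h1 : (Fintype.card ι : ℝ) ^ 2 * ∑ p ∈ P, 1 / ((p : ℝ) - 1) ^ 2 ≤ e)
    (h2 : Fintype.card ι * SL P y I ≤ e * S2 P y I * Real.log (z / (y : ℝ) ^ (2 ^ I))) :
    (1 - 4 * e) * (S1 P y I ^ 2 * S2 P y I ^ (Fintype.card ι - 1)) ≤ DD P (y1 P y I z i) := by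
  classical
  have hcard := B09_card i
  have hpos : 0 < Fintype.card ι := Fintype.card_pos_iff.2 ⟨i⟩
  have hy1 : (1 : ℝ) ≤ (y : ℝ) := by exact_mod_cast hy
  have hY : (0 : ℝ) < (y : ℝ) ^ (2 ^ I) := pow_pos (by linarith) _
  have hT : 1 < z / (y : ℝ) ^ (2 ^ I) := by
    rw [lt_div_iff₀ hY, one_mul]
    exact hz
  have hmain := B09_main P {m : ι // m ≠ i} y I (z / (y : ℝ) ^ (2 ^ I)) e (Fintype.card ι) hP hy hT he he1
    (by omega) h1 h2
  rw [hcard] at hmain
  have hS1 := one_le_S1 hP hy I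
  -- lower bound of the diagonal form
  have hDD : ∑ β : P → Option {m : ι // m ≠ i},
      y1 P y I z i (B09_ext P i β) ^ 2 / ph (sp P (B09_ext P i β)) ≤ DD P (y1 P y I z i) := by
    unfold DD
    rw [← Finset.sum_image (f := fun β : P → Option ι => y1 P y I z i β ^ 2 / ph (sp P β))
      (fun β _ β' _ h => B09_ext_inj P i h)]
    refine Finset.sum_le_sum_of_subset_of_nonneg (Finset.subset_univ _) fun β _ _ => ?_
    exact div_nonneg (sq_nonneg _) (ph_pos P hP (sp_subset P β)).le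
  refine le_trans ?_ hDD
  have hterm : ∀ β : P → Option {m : ι // m ≠ i},
      S1 P y I ^ 2 * (if rr (sp P β) ≤ z / (y : ℝ) ^ (2 ^ I) then ∏ m, B09_F y I (fb P β m) else 0) ≤
      y1 P y I z i (B09_ext P i β) ^ 2 / ph (sp P (B09_ext P i β)) := by
    intro β
    split_ifs with h
    · rw [B09_ext_sp]
      unfold y1
      rw [if_pos (fun p => B09_ext_ne P i β p), B09_ext_sp,
        B09_ext_prod P i β (fun A => gg y I A) (gg_empty hy I)]
      have h3 := B09_inner_ge P y I z hy hP (sp P β) (sp_subset P β) h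
        (fun A => Classical.propDecidable _)
      have hr := rr_pos P hP (sp_subset P β)
      have hp := ph_pos P hP (sp_subset P β)
      have h4 : (S1 P y I * (ph (sp P β) / rr (sp P β))) ^ 2 ≤
          (∑ A ∈ (P \ sp P β).powerset with rr A * rr (sp P β) ≤ z, gg y I A / ph A) ^ 2 :=
        pow_le_pow_left₀ (mul_nonneg (by linarith) (div_pos hp hr).le) h3 2
      rw [mul_pow]
      have h5 : 0 ≤ (∏ m, gg y I (fb P β m)) ^ 2 / ph (sp P β) := div_nonneg (sq_nonneg _) hp.le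
      have h6 := mul_le_mul_of_nonneg_right h4 h5
      have e1 : ∏ m, B09_F y I (fb P β m) =
          (∏ m, gg y I (fb P β m)) ^ 2 / ph (sp P β) * (ph (sp P β) / rr (sp P β)) ^ 2 := by
        unfold B09_F
        rw [ph_sp, rr_sp, Finset.prod_mul_distrib, Finset.prod_div_distrib, Finset.prod_pow,
          Finset.prod_pow, Finset.prod_div_distrib]
      rw [e1]
      refine (le_of_eq ?_).trans (h6.trans (le_of_eq ?_))
      · ring
      · ring
    · rw [mul_zero]
      exact div_nonneg (sq_nonneg _) (ph_pos P hP (sp_subset P _)).le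
  refine le_trans ?_ (Finset.sum_le_sum fun β _ => hterm β)
  rw [← Finset.mul_sum]
  have h7 := mul_le_mul_of_nonneg_left hmain (sq_nonneg (S1 P y I))
  refine le_trans (le_of_eq ?_) h7
  ring

end Pool.Agent.LibSP4
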