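import Pool.Agent.LibSP4.Defs

/-!
Row B01 (SHORT): basic facts on `gg`. Same as `LibPL63/M1.lean` (`g1_nonneg`, `g1_le_one`, `g1_empty`, `g1_anti`, `g1_ne`),
which you may copy: `gg` is `g1` with `q0 = 1`, `a = 2`, `z = y`.
-/

open Finset

namespace Pool.Agent.LibSP4

open Pool.Agent.LibRG87

theorem gg_nonneg (y I : ℕ) (A : Finset ℕ) : 0 ≤ gg y I A := by
  unfold gg
  split_ifs
  · positivity
  · exact le_rfl

theorem gg_le_one (y I : ℕ) (A : Finset ℕ) : gg y I A ≤ 1 := by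
  unfold gg
  split_ifs
  · exact pow_le_one₀ (by positivity) (by norm_num)
  · exact zero_le_one

private theorem B01_le {y : ℕ} (hy : 1 ≤ y) (n : ℕ) : (y : ℝ) ≤ (y : ℝ) ^ (2 ^ n) := by
  have h1 : (1 : ℝ) ≤ y := by exact_mod_cast hy
  exact le_self_pow₀ h1 (by positivity)

/-- the values: `1` below `y`, `2^(-(i+1))` on the level `(y^(2^i), y^(2^(i+1))]` -/
theorem gg_low {y I : ℕ} (hy : 1 ≤ y) {A : Finset ℕ} (h : rr A ≤ y) : gg y I A = 1 := by
  have hl : lev y I A = 0 := by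
    unfold lev
    rw [Finset.card_eq_zero, Finset.filter_eq_empty_iff]
    intro i _
    rw [not_lt]
    exact h.trans (B01_le hy i)
  unfold gg
  rw [if_pos (h.trans (B01_le hy I)), hl, pow_zero]

theorem gg_empty {y : ℕ} (hy : 1 ≤ y) (I : ℕ) : gg y I ∅ = 1 := by
  refine gg_low hy ?_
  have h1 : (1 : ℝ) ≤ y := by exact_mod_cast hy
  simpa [rr] using h1

theorem gg_anti (y I : ℕ) {A B : Finset ℕ} (h : rr A ≤ rr B) : gg y I B ≤ gg y I A := by
  by_cases h1 : rr B ≤ (y : ℝ) ^ (2 ^ I)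
  · have hl : lev y I A ≤ lev y I B := by
      unfold lev
      refine Finset.card_le_card ?_
      intro i hi
      rw [Finset.mem_filter] at hi ⊢
      exact ⟨hi.1, lt_of_lt_of_le hi.2 h⟩
    unfold gg
    rw [if_pos h1, if_pos (h.trans h1)]
    exact pow_le_pow_of_le_one (by positivity) (by norm_num) hl
  · have h2 : gg y I B = 0 := by
      unfold gg
      rw [if_neg h1]
    rw [h2]
    exact gg_nonneg y I A

theorem gg_ne {y I : ℕ} {A : Finset ℕ} (h : gg y I A ≠ 0) : rr A ≤ (y : ℝ) ^ (2 ^ I) := by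
  by_contra h1
  apply h
  unfold gg
  rw [if_neg h1]

theorem gg_level {y I i : ℕ} (hy : 1 ≤ y) (hi : i < I) {A : Finset ℕ} (h : (y : ℝ) ^ (2 ^ i) < rr A)
    (h' : rr A ≤ (y : ℝ) ^ (2 ^ (i + 1))) : gg y I A = (1 / 2 : ℝ) ^ (i + 1) := by
  have h1 : (1 : ℝ) ≤ y := by exact_mod_cast hy
  have hmono : ∀ a b : ℕ, a ≤ b → (y : ℝ) ^ (2 ^ a) ≤ (y : ℝ) ^ (2 ^ b) := fun a b hab =>
    pow_le_pow_right₀ h1 (Nat.pow_le_pow_right (by norm_num) hab)
  have hl : lev y I A = i + 1 := by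
    unfold lev
    have h2 : ((range I).filter fun j => (y : ℝ) ^ (2 ^ j) < rr A) = range (i + 1) := by
      ext j
      rw [Finset.mem_filter, Finset.mem_range, Finset.mem_range]
      constructor
      · rintro ⟨-, hj⟩
        by_contra hc
        have h3 := hmono (i + 1) j (by omega)
        linarith
      · intro hj
        exact ⟨by omega, lt_of_le_of_lt (hmono j i (by omega)) h⟩
    rw [h2, Finset.card_range]
  unfold gg
  rw [if_pos (h'.trans (hmono (i + 1) I (by omega))), hl]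

private theorem B01_ph {P : Finset ℕ} (hP : ∀ p ∈ P, p.Prime) {A : Finset ℕ} (hA : A ⊆ P) :
    0 < ph A := by
  unfold ph
  refine Finset.prod_pos fun p hp => ?_
  have h1 : (1 : ℝ) < p := by exact_mod_cast (hP p (hA hp)).one_lt
  linarith

private theorem B01_rr {P : Finset ℕ} (hP : ∀ p ∈ P, p.Prime) {A : Finset ℕ} (hA : A ⊆ P) :
    1 ≤ rr A := one_le_rr P hP hA

theorem one_le_S1 {P : Finset ℕ} (hP : ∀ p ∈ P, p.Prime) {y : ℕ} (hy : 1 ≤ y) (I : ℕ) : 1 ≤ S1 P y I := by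
  have h1 := Finset.single_le_sum (f := fun A => gg y I A / ph A)
    (fun A hA => div_nonneg (gg_nonneg y I A) (B01_ph hP (Finset.mem_powerset.1 hA)).le)
    (Finset.empty_mem_powerset P)
  have h2 : ph ∅ = 1 := by simp [ph]
  simp only [gg_empty hy, h2, div_one] at h1
  exact h1

theorem one_le_S2 {P : Finset ℕ} (hP : ∀ p ∈ P, p.Prime) {y : ℕ} (hy : 1 ≤ y) (I : ℕ) : 1 ≤ S2 P y I := by
  have h1 := Finset.single_le_sum (f := fun A => gg y I A ^ 2 / ph A)
    (fun A hA => div_nonneg (sq_nonneg _) (B01_ph hP (Finset.mem_powerset.1 hA)).le)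
    (Finset.empty_mem_powerset P)
  have h2 : ph ∅ = 1 := by simp [ph]
  simp only [gg_empty hy, h2, div_one, one_pow] at h1
  exact h1

theorem SL_nonneg {P : Finset ℕ} (hP : ∀ p ∈ P, p.Prime) (y I : ℕ) : 0 ≤ SL P y I := by
  unfold SL
  refine Finset.sum_nonneg fun A hA => ?_
  have hA' := Finset.mem_powerset.1 hA
  exact mul_nonneg (div_nonneg (sq_nonneg _) (B01_ph hP hA').le) (Real.log_nonneg (B01_rr hP hA'))

theorem one_le_GG {P : Finset ℕ} (hP : ∀ p ∈ P, p.Prime) {R : ℝ} (hR : 1 ≤ R) : 1 ≤ GG P R := by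
  classical
  unfold GG
  have h0 : (∅ : Finset ℕ) ∈ P.powerset.filter (fun A => rr A ≤ R) := by
    rw [Finset.mem_filter]
    exact ⟨Finset.empty_mem_powerset P, by simpa [rr] using hR⟩
  have h1 := Finset.single_le_sum (f := fun A => 1 / ph A)
    (s := P.powerset.filter (fun A => rr A ≤ R))
    (fun A hA => div_nonneg zero_le_one
      (B01_ph hP (Finset.mem_powerset.1 (Finset.mem_filter.1 hA).1)).le) h0
  have h2 : ph ∅ = 1 := by simp [ph]
  simp only [h2, div_one] at h1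
  convert h1 using 2

end Pool.Agent.LibSP4
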