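import Pool.Agent.LibSP4.B14
import Pool.Agent.LibSP4.B01

/-!
Row B15 (MEDIUM): the sums `S1`, `S2`, `SL` from `GG_asymp`. By `gg_low`, `gg_level`, with `G(x) = GG (PP w Z) x`:
`S1 = G(y) + ∑_{i<I} 2^-(i+1) (G(y^(2^(i+1))) - G(y^(2^i)))`, `S2` the same with `4^-(i+1)`, and `SL ≤ G(y) log y + ∑_{i<I} 4^-(i+1) 2^(i+1) log y (G(y^(2^(i+1))) - G(y^(2^i)))`.
-/

open Finset

namespace Pool.Agent.LibSP4

open Pool.Agent.LibRG87

private theorem B15_GG (P : Finset ℕ) (R : ℝ) :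
    GG P R = ∑ A ∈ P.powerset, (open scoped Classical in if rr A ≤ R then 1 / ph A else 0) := by
  classical
  rw [GG, Finset.sum_filter]

private theorem B15_ph {w Z : ℕ} {A : Finset ℕ} (hA : A ∈ (PP w Z).powerset) : 0 < ph A := by
  rw [ph]
  refine Finset.prod_pos fun p hp => ?_
  have h1 := Finset.mem_powerset.1 hA hp
  rw [PP, Finset.mem_filter] at h1
  have h2 : (2 : ℝ) ≤ p := by exact_mod_cast h1.2.two_le
  linarith

private theorem B15_rr {w Z : ℕ} {A : Finset ℕ} (hA : A ∈ (PP w Z).powerset) : 0 < rr A := by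
  rw [rr]
  refine Finset.prod_pos fun p hp => ?_
  have h1 := Finset.mem_powerset.1 hA hp
  rw [PP, Finset.mem_filter] at h1
  have h2 : (2 : ℝ) ≤ p := by exact_mod_cast h1.2.two_le
  linarith

private theorem B15_zero (y : ℕ) (A : Finset ℕ) :
    gg y 0 A = (open scoped Classical in if rr A ≤ (y : ℝ) then (1 : ℝ) else 0) := by
  classical
  rw [gg]
  simp [lev]

private theorem B15_low {y I : ℕ} {A : Finset ℕ} (hy : 1 ≤ y) (h : rr A ≤ (y : ℝ) ^ (2 ^ I)) :
    gg y (I + 1) A = gg y I A := by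
  classical
  have hy1 : (1 : ℝ) ≤ y := by exact_mod_cast hy
  have h2 : rr A ≤ (y : ℝ) ^ (2 ^ (I + 1)) :=
    h.trans (pow_le_pow_right₀ hy1 (Nat.pow_le_pow_right (by norm_num) (Nat.le_succ I)))
  rw [gg, gg, if_pos h, if_pos h2]
  congr 1
  rw [lev, lev, Finset.range_add_one, Finset.filter_insert, if_neg (not_lt.2 h)]

private theorem B15_mid {y I : ℕ} {A : Finset ℕ} (h : (y : ℝ) ^ (2 ^ I) < rr A) :
    gg y I A = 0 := by
  classical
  rw [gg, if_neg (not_le.2 h)]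

private theorem B15_pow {y I k : ℕ} (hk : k ≠ 0) (hy : 1 ≤ y) (A : Finset ℕ) (T : ℝ) :
    gg y (I + 1) A ^ k * T = gg y I A ^ k * T + ((1 / 2 : ℝ) ^ (I + 1)) ^ k *
      ((open scoped Classical in if rr A ≤ (y : ℝ) ^ (2 ^ (I + 1)) then T else 0) -
        (open scoped Classical in if rr A ≤ (y : ℝ) ^ (2 ^ I) then T else 0)) := by
  classical
  have hy1 : (1 : ℝ) ≤ y := by exact_mod_cast hy
  have hle : (y : ℝ) ^ (2 ^ I) ≤ (y : ℝ) ^ (2 ^ (I + 1)) :=
    pow_le_pow_right₀ hy1 (Nat.pow_le_pow_right (by norm_num) (Nat.le_succ I))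
  rcases le_or_gt (rr A) ((y : ℝ) ^ (2 ^ I)) with h | h
  · rw [B15_low hy h, if_pos h, if_pos (h.trans hle)]
    ring
  · rcases le_or_gt (rr A) ((y : ℝ) ^ (2 ^ (I + 1))) with h' | h'
    · rw [gg_level hy (Nat.lt_succ_self I) h h', B15_mid h, if_pos h', if_neg (not_le.2 h),
        zero_pow hk]
      ring
    · rw [B15_mid h', B15_mid h, if_neg (not_le.2 h), if_neg (not_le.2 h'), zero_pow hk]
      ring

private theorem B15_sum {P : Finset ℕ} {y I k : ℕ} (hk : k ≠ 0) (hy : 1 ≤ y) :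
    ∑ A ∈ P.powerset, gg y (I + 1) A ^ k * (1 / ph A) =
      ∑ A ∈ P.powerset, gg y I A ^ k * (1 / ph A) + ((1 / 2 : ℝ) ^ (I + 1)) ^ k *
        (GG P ((y : ℝ) ^ (2 ^ (I + 1))) - GG P ((y : ℝ) ^ (2 ^ I))) := by
  classical
  rw [B15_GG, B15_GG, ← Finset.sum_sub_distrib, Finset.mul_sum, ← Finset.sum_add_distrib]
  exact Finset.sum_congr rfl fun A _ => B15_pow hk hy A _

private theorem B15_S1 {P : Finset ℕ} {y I : ℕ} (hy : 1 ≤ y) :
    S1 P y (I + 1) = S1 P y I + (1 / 2 : ℝ) ^ (I + 1) *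
        (GG P ((y : ℝ) ^ (2 ^ (I + 1))) - GG P ((y : ℝ) ^ (2 ^ I))) := by
  have h := B15_sum (P := P) (I := I) one_ne_zero hy
  rw [pow_one] at h
  rw [S1, S1]
  simpa [div_eq_mul_inv] using h

private theorem B15_S2 {P : Finset ℕ} {y I : ℕ} (hy : 1 ≤ y) :
    S2 P y (I + 1) = S2 P y I + ((1 / 2 : ℝ) ^ (I + 1)) ^ 2 *
        (GG P ((y : ℝ) ^ (2 ^ (I + 1))) - GG P ((y : ℝ) ^ (2 ^ I))) := by
  have h := B15_sum (P := P) (I := I) two_ne_zero hy
  rw [S2, S2]
  simpa only [div_eq_mul_inv, one_mul] using h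

private theorem B15_base1 {P : Finset ℕ} {y : ℕ} : S1 P y 0 = GG P y := by
  classical
  rw [S1, B15_GG]
  refine Finset.sum_congr rfl fun A _ => ?_
  rw [B15_zero]
  split_ifs <;> simp

private theorem B15_base2 {P : Finset ℕ} {y : ℕ} : S2 P y 0 = GG P y := by
  classical
  rw [S2, B15_GG]
  refine Finset.sum_congr rfl fun A _ => ?_
  rw [B15_zero]
  split_ifs <;> simp

private theorem B15_baseL {w Z y : ℕ} :
    SL (PP w Z) y 0 ≤ GG (PP w Z) y * Real.log y := by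
  classical
  rw [SL, B15_GG, Finset.sum_mul]
  refine Finset.sum_le_sum fun A hA => ?_
  rw [B15_zero]
  split_ifs with h
  · rw [one_pow]
    refine mul_le_mul_of_nonneg_left (Real.log_le_log (B15_rr hA) h) ?_
    exact (one_div_pos.2 (B15_ph hA)).le
  · simp

private theorem B15_SL {w Z y I : ℕ} (hy : 1 ≤ y) :
    SL (PP w Z) y (I + 1) ≤ SL (PP w Z) y I + ((1 / 2 : ℝ) ^ (I + 1)) ^ 2 *
        (2 ^ (I + 1) * Real.log y) *
        (GG (PP w Z) ((y : ℝ) ^ (2 ^ (I + 1))) - GG (PP w Z) ((y : ℝ) ^ (2 ^ I))) := by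
  classical
  have hy1 : (1 : ℝ) ≤ y := by exact_mod_cast hy
  have hle : (y : ℝ) ^ (2 ^ I) ≤ (y : ℝ) ^ (2 ^ (I + 1)) :=
    pow_le_pow_right₀ hy1 (Nat.pow_le_pow_right (by norm_num) (Nat.le_succ I))
  rw [SL, SL, B15_GG, B15_GG, ← Finset.sum_sub_distrib, Finset.mul_sum, ← Finset.sum_add_distrib]
  refine Finset.sum_le_sum fun A hA => ?_
  have hph := B15_ph hA
  rcases le_or_gt (rr A) ((y : ℝ) ^ (2 ^ I)) with h | h
  · rw [B15_low hy h, if_pos h, if_pos (h.trans hle)]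
    simp
  · rcases le_or_gt (rr A) ((y : ℝ) ^ (2 ^ (I + 1))) with h' | h'
    · rw [gg_level hy (Nat.lt_succ_self I) h h', B15_mid h, if_pos h', if_neg (not_le.2 h)]
      have h3 : Real.log (rr A) ≤ 2 ^ (I + 1) * Real.log y := by
        have h4 := Real.log_le_log (B15_rr hA) h'
        rw [Real.log_pow] at h4
        push_cast at h4
        exact h4
      have h5 : 0 ≤ ((1 / 2 : ℝ) ^ (I + 1)) ^ 2 / ph A := by positivity
      calc ((1 / 2 : ℝ) ^ (I + 1)) ^ 2 / ph A * Real.log (rr A)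
          ≤ ((1 / 2 : ℝ) ^ (I + 1)) ^ 2 / ph A * (2 ^ (I + 1) * Real.log y) :=
            mul_le_mul_of_nonneg_left h3 h5
        _ = _ := by ring
    · rw [B15_mid h', B15_mid h, if_neg (not_le.2 h), if_neg (not_le.2 h')]
      simp

theorem sums_asymp (w I : ℕ) : ∃ C : ℝ, 0 ≤ C ∧ ∀ (y Z : ℕ), 1 ≤ y → y ^ (2 ^ I) ≤ Z →
    |S1 (PP w Z) y I - kap w * Real.log y * (1 + I / 2)| ≤ C ∧
    |S2 (PP w Z) y I - kap w * Real.log y * (3 / 2 - (1 / 2) ^ (I + 1))| ≤ C ∧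
    SL (PP w Z) y I ≤ kap w * Real.log y ^ 2 * (1 + I / 2) + C * Real.log y := by
  obtain ⟨C, hC, hG⟩ := GG_asymp w
  refine ⟨C * (1 + 2 * I), by positivity, fun y Z hy hZ => ?_⟩
  have hy1 : (1 : ℝ) ≤ y := by exact_mod_cast hy
  have hL : 0 ≤ Real.log y := Real.log_nonneg hy1
  have hmain : ∀ j : ℕ, j ≤ I →
      |GG (PP w Z) ((y : ℝ) ^ (2 ^ j)) - kap w * (2 ^ j * Real.log y)| ≤ C := by
    intro j hj
    have h1 : (1 : ℝ) ≤ (y : ℝ) ^ (2 ^ j) := one_le_pow₀ hy1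
    have h2 : (y : ℝ) ^ (2 ^ j) ≤ Z := by
      have h3 : y ^ (2 ^ j) ≤ Z :=
        (Nat.pow_le_pow_right hy (Nat.pow_le_pow_right (by norm_num) hj)).trans hZ
      exact_mod_cast h3
    have h4 := hG Z _ h1 h2
    rw [Real.log_pow] at h4
    push_cast at h4
    exact h4
  set L := Real.log y with hLdef
  set κ := kap w with hκ
  have key : ∀ j : ℕ, j ≤ I →
      |S1 (PP w Z) y j - κ * L * (1 + j / 2)| ≤ C * (1 + 2 * j) ∧
      |S2 (PP w Z) y j - κ * L * (3 / 2 - (1 / 2) ^ (j + 1))| ≤ C * (1 + 2 * j) ∧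
      SL (PP w Z) y j ≤ κ * L ^ 2 * (1 + j / 2) + C * (1 + 2 * j) * L := by
    intro j
    induction j with
    | zero =>
      intro _
      have h0 := hmain 0 (Nat.zero_le _)
      simp only [pow_zero, pow_one, one_mul] at h0
      refine ⟨?_, ?_, ?_⟩
      · rw [B15_base1]
        simpa using h0
      · rw [B15_base2]
        have e : (3 / 2 - (1 / 2) ^ (0 + 1) : ℝ) = 1 := by norm_num
        rw [e]
        simpa using h0
      · have h1 := B15_baseL (w := w) (Z := Z) (y := y)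
        have h2 := (abs_le.1 h0).2
        have h3 : GG (PP w Z) y * L ≤ (κ * L + C) * L :=
          mul_le_mul_of_nonneg_right (by linarith) hL
        have h4 : κ * L ^ 2 * (1 + ((0 : ℕ) : ℝ) / 2) + C * (1 + 2 * ((0 : ℕ) : ℝ)) * L =
            (κ * L + C) * L := by
          push_cast
          ring
        rw [h4]
        exact h1.trans h3
    | succ j ih =>
      intro hj
      obtain ⟨i1, i2, i3⟩ := ih (by omega)
      have g1 := abs_le.1 (hmain j (by omega))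
      have g2 := abs_le.1 (hmain (j + 1) hj)
      set G1 := GG (PP w Z) ((y : ℝ) ^ (2 ^ j)) with hG1
      set G2 := GG (PP w Z) ((y : ℝ) ^ (2 ^ (j + 1))) with hG2
      have hd : |(G2 - G1) - κ * (2 ^ j * L)| ≤ 2 * C := by
        rw [abs_le]
        have e : (2 : ℝ) ^ (j + 1) = 2 * 2 ^ j := by ring
        rw [e] at g2
        constructor <;> nlinarith [g1.1, g1.2, g2.1, g2.2]
      have hp : (0 : ℝ) < (1 / 2) ^ (j + 1) := by positivity
      have hp1 : ((1 : ℝ) / 2) ^ (j + 1) ≤ 1 := pow_le_one₀ (by norm_num) (by norm_num)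
      have hpp : ((1 : ℝ) / 2) ^ (j + 1) * 2 ^ j = 1 / 2 := by
        rw [pow_succ, mul_right_comm, ← mul_pow]
        norm_num
      refine ⟨?_, ?_, ?_⟩
      · rw [B15_S1 hy]
        have e : S1 (PP w Z) y j + (1 / 2) ^ (j + 1) * (G2 - G1) -
            κ * L * (1 + ((j + 1 : ℕ) : ℝ) / 2) =
            (S1 (PP w Z) y j - κ * L * (1 + j / 2)) +
              (1 / 2) ^ (j + 1) * ((G2 - G1) - κ * (2 ^ j * L)) := by
          push_cast
          linear_combination (κ * L) * hpp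
        rw [e]
        refine (abs_add_le _ _).trans ?_
        rw [abs_mul, abs_of_pos hp]
        have : (1 / 2 : ℝ) ^ (j + 1) * |(G2 - G1) - κ * (2 ^ j * L)| ≤ 1 * (2 * C) :=
          mul_le_mul hp1 hd (abs_nonneg _) zero_le_one
        push_cast
        linarith
      · rw [B15_S2 hy]
        have e : S2 (PP w Z) y j + ((1 / 2) ^ (j + 1)) ^ 2 * (G2 - G1) -
            κ * L * (3 / 2 - (1 / 2) ^ (j + 1 + 1)) =
            (S2 (PP w Z) y j - κ * L * (3 / 2 - (1 / 2) ^ (j + 1))) +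
              ((1 / 2) ^ (j + 1)) ^ 2 * ((G2 - G1) - κ * (2 ^ j * L)) := by
          have e2 : (1 / 2 : ℝ) ^ (j + 1 + 1) = (1 / 2) ^ (j + 1) * (1 / 2) := pow_succ _ _
          rw [e2]
          linear_combination (κ * L * (1 / 2) ^ (j + 1)) * hpp
        rw [e]
        refine (abs_add_le _ _).trans ?_
        have hp2 : (0 : ℝ) < ((1 / 2) ^ (j + 1)) ^ 2 := by positivity
        have hp3 : (((1 : ℝ) / 2) ^ (j + 1)) ^ 2 ≤ 1 := pow_le_one₀ hp.le hp1
        rw [abs_mul, abs_of_pos hp2]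
        have : ((1 / 2 : ℝ) ^ (j + 1)) ^ 2 * |(G2 - G1) - κ * (2 ^ j * L)| ≤ 1 * (2 * C) :=
          mul_le_mul hp3 hd (abs_nonneg _) zero_le_one
        push_cast
        linarith
      · refine (B15_SL hy).trans ?_
        have h6 : G2 - G1 ≤ κ * (2 ^ j * L) + 2 * C := by
          have := (abs_le.1 hd).2
          linarith
        have h7 : 0 ≤ ((1 / 2 : ℝ) ^ (j + 1)) ^ 2 * (2 ^ (j + 1) * L) := by positivity
        have h8 := mul_le_mul_of_nonneg_left h6 h7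
        have e : ((1 / 2 : ℝ) ^ (j + 1)) ^ 2 * (2 ^ (j + 1) * L) * (κ * (2 ^ j * L) + 2 * C) =
            κ * L ^ 2 * (1 / 2) + (1 / 2) ^ (j + 1) * (2 * C * L) := by
          have e1 : ((1 / 2 : ℝ) ^ (j + 1)) ^ 2 * 2 ^ (j + 1) = (1 / 2) ^ (j + 1) := by
            have : ((1 / 2 : ℝ) ^ (j + 1)) * 2 ^ (j + 1) = 1 := by
              rw [← mul_pow]; norm_num
            rw [pow_two, mul_assoc, this, mul_one]
          linear_combination (L * (κ * (2 ^ j * L) + 2 * C)) * e1 + (κ * L ^ 2) * hpp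
        rw [e] at h8
        have h9 : (1 / 2 : ℝ) ^ (j + 1) * (2 * C * L) ≤ 1 * (2 * C * L) :=
          mul_le_mul_of_nonneg_right hp1 (by positivity)
        push_cast
        nlinarith [h8, h9, i3]
  obtain ⟨k1, k2, k3⟩ := key I le_rfl
  exact ⟨k1, k2, k3⟩

end Pool.Agent.LibSP4
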