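import Pool.Agent.LibSP4.Defs3
import Pool.Agent.LibSP4.B15

/-!
Row B25 (SHORT): the sums `S1`, `S2`, `SL`, `GG` for large `y`. From B15 `sums_asymp` and B14 `GG_asymp` (`Z = y^(M q1) ≥ y^(2^I)`, `R = Z`, `log R = M q1 log y`), `log y → ∞`, `kap w > 0`,
and `1 ≤ 3/2 - (1/2)^(I+1) ≤ 3/2`.
-/

open Finset Filter

namespace Pool.Agent.LibSP4

open Pool.Agent.LibRG87 Pool.Agent.LibBW4

theorem kap_pos (w : ℕ) : 0 < kap w := by
  unfold kap
  refine Finset.prod_pos fun p hp => ?_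
  have hp2 : (2 : ℝ) ≤ (p : ℝ) := by
    have := (Finset.mem_filter.1 hp).2.two_le
    exact_mod_cast this
  have : 1 / (p : ℝ) < 1 := by
    rw [div_lt_one (by linarith)]
    linarith
  linarith

theorem asym (q1 I M w : ℕ) (hq1 : 1 ≤ q1) (hIM : 2 ^ I < M) (e : ℝ) (he : 0 < e) : ∀ᶠ y : ℕ in atTop,
    (1 - e) * (kap w * Real.log y * (1 + I / 2)) ≤ S1 (PY w q1 M y) y I ∧
    S1 (PY w q1 M y) y I ≤ (1 + e) * (kap w * Real.log y * (1 + I / 2)) ∧
    (1 - e) * (kap w * Real.log y) ≤ S2 (PY w q1 M y) y I ∧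
    S2 (PY w q1 M y) y I ≤ (1 + e) * (3 / 2 * (kap w * Real.log y)) ∧
    SL (PY w q1 M y) y I ≤ (1 + e) * (kap w * Real.log y ^ 2 * (1 + I / 2)) ∧
    (1 - e) * (kap w * Real.log y * (M * q1)) ≤ GG (PY w q1 M y) (RY q1 M y) ∧
    GG (PY w q1 M y) (RY q1 M y) ≤ (1 + e) * (kap w * Real.log y * (M * q1)) := by
  obtain ⟨C, hC0, hC⟩ := sums_asymp w I
  obtain ⟨C', hC0', hC'⟩ := GG_asymp w
  have hk := kap_pos w
  have hlog : Tendsto (fun y : ℕ => Real.log (y : ℝ)) atTop atTop :=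
    Real.tendsto_log_atTop.comp tendsto_natCast_atTop_atTop
  have hev := hlog.eventually_ge_atTop ((C + C') / (e * kap w))
  filter_upwards [hev, eventually_ge_atTop 1] with y hy hy1
  have hL0 : 0 ≤ Real.log (y : ℝ) := Real.log_natCast_nonneg y
  have hek : 0 < e * kap w := mul_pos he hk
  have hbig : C + C' ≤ e * (kap w * Real.log y) := by
    rw [div_le_iff₀ hek] at hy
    nlinarith [hy]
  have hMq : 2 ^ I ≤ M * q1 := by
    calc 2 ^ I ≤ M := hIM.le
      _ = M * 1 := (mul_one M).symm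
      _ ≤ M * q1 := Nat.mul_le_mul_left M hq1
  obtain ⟨h1, h2, h3⟩ := hC y (y ^ (M * q1)) hy1 (Nat.pow_le_pow_right hy1 hMq)
  have hy1R : (1 : ℝ) ≤ (y : ℝ) := by exact_mod_cast hy1
  have h4 := hC' (y ^ (M * q1)) ((y : ℝ) ^ (M * q1)) (one_le_pow₀ hy1R) (by push_cast; exact le_refl _)
  rw [Real.log_pow] at h4
  rw [abs_le] at h1 h2 h4
  have hX0 : 0 ≤ kap w * Real.log y := mul_nonneg hk.le hL0
  have hI0 : (0 : ℝ) ≤ I := Nat.cast_nonneg I
  have hII : kap w * Real.log y ≤ kap w * Real.log y * (1 + I / 2) := by nlinarith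
  have hMq1 : (1 : ℝ) ≤ (M : ℝ) * q1 := by
    have : 1 ≤ M * q1 := le_trans Nat.one_le_two_pow hMq
    exact_mod_cast this
  have hMM : kap w * Real.log y ≤ kap w * Real.log y * (M * q1) := by nlinarith
  have hhalf : (1 / 2 : ℝ) ^ (I + 1) ≤ 1 / 2 := by
    calc (1 / 2 : ℝ) ^ (I + 1) ≤ (1 / 2) ^ 1 :=
          pow_le_pow_of_le_one (by norm_num) (by norm_num) (by omega)
      _ = 1 / 2 := by norm_num
  have hhalf0 : (0 : ℝ) ≤ (1 / 2 : ℝ) ^ (I + 1) := by positivity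
  have hS2a : kap w * Real.log y ≤ kap w * Real.log y * (3 / 2 - (1 / 2) ^ (I + 1)) := by nlinarith
  have hS2b : kap w * Real.log y * (3 / 2 - (1 / 2) ^ (I + 1)) ≤ 3 / 2 * (kap w * Real.log y) := by
    nlinarith
  have he1 : e * (kap w * Real.log y) ≤ e * (kap w * Real.log y * (1 + I / 2)) :=
    mul_le_mul_of_nonneg_left hII he.le
  have he2 : e * (kap w * Real.log y) ≤ e * (kap w * Real.log y * (M * q1)) :=
    mul_le_mul_of_nonneg_left hMM he.le
  have heX : 0 ≤ e * (kap w * Real.log y) := mul_nonneg he.le hX0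
  refine ⟨?_, ?_, ?_, ?_, ?_, ?_, ?_⟩
  · linarith [h1.1]
  · linarith [h1.2]
  · linarith [h2.1]
  · linarith [h2.2]
  · refine le_trans h3 ?_
    have hCe : C * Real.log y ≤ e * (kap w * Real.log y * (1 + I / 2)) * Real.log y :=
      mul_le_mul_of_nonneg_right (by linarith) hL0
    nlinarith [hCe]
  · push_cast at h4
    have := h4.1
    have h5 : kap w * (↑M * ↑q1 * Real.log ↑y) = kap w * Real.log y * (M * q1) := by ring
    rw [h5] at this
    linarith
  · push_cast at h4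
    have := h4.2
    have h5 : kap w * (↑M * ↑q1 * Real.log ↑y) = kap w * Real.log y * (M * q1) := by ring
    rw [h5] at this
    linarith

end Pool.Agent.LibSP4
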