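import Pool.Agent.LibSP4.B16

/-!
Row B26 (SHORT): `offE` is small for large `w`. With B16 (`prod_le`, constant `C'` for `j`, `C`): `offE C (PP w (y^q)) j ≤ C σ C' (kap w * q * log y)^j`, `σ = ∑_{p ∈ P} 1/(p-1)² ≤ 2/w`
(telescoping `1/(m-1)² ≤ 2 (1/(m-1) - 1/m)`, or `Summable` tails): take `w0` with `C σ C' q^j ≤ e`. (`w ≤ y^q` for large `y`.)
-/

open Finset Filter

namespace Pool.Agent.LibSP4

open Pool.Agent.LibRG87

private theorem B26_kap (w : ℕ) : 0 ≤ kap w := by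
  unfold kap
  refine Finset.prod_nonneg fun p hp => ?_
  have h1 : (1 : ℝ) ≤ p := by exact_mod_cast (Finset.mem_filter.1 hp).2.one_lt.le
  rw [sub_nonneg, div_le_one (by linarith)]
  exact h1

theorem sum_sq_small (e : ℝ) (he : 0 < e) : ∃ w0 : ℕ, ∀ w Z : ℕ, w0 ≤ w → ∑ p ∈ PP w Z, 1 / ((p : ℝ) - 1) ^ 2 ≤ e := by
  refine ⟨⌈1 / e⌉₊ + 2, fun w Z hw => ?_⟩
  have h1 := sum_inv_sq (PP w Z) (w := w) (by omega)
    (fun p hp => (Finset.mem_Ioc.1 (Finset.mem_filter.1 hp).1).1)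
  refine h1.trans ?_
  have h2 : (1 / e : ℝ) ≤ ⌈1 / e⌉₊ := Nat.le_ceil _
  have h3 : ((⌈1 / e⌉₊ + 2 : ℕ) : ℝ) ≤ w := by exact_mod_cast hw
  push_cast at h3
  have h4 : 1 / e ≤ (w : ℝ) - 1 := by linarith
  have h5 : (0 : ℝ) < 1 / e := by positivity
  calc 1 / ((w : ℝ) - 1) ≤ 1 / (1 / e) := one_div_le_one_div_of_le h5 h4
    _ = e := one_div_one_div e

theorem offE_small (j : ℕ) (C : ℝ) (hC : 0 ≤ C) (q : ℕ) (hq : 1 ≤ q) (e : ℝ) (he : 0 < e) : ∃ w0 : ℕ, ∀ w ≥ w0, ∀ᶠ y : ℕ in atTop,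
    offE C (PP w (y ^ q)) j ≤ e * (kap w * Real.log y) ^ j := by
  obtain ⟨C', hC', hprod⟩ := prod_le j C hC
  set A : ℝ := C * C' * (q : ℝ) ^ j with hA
  have hA0 : 0 ≤ A := by positivity
  obtain ⟨w1, hw1⟩ := sum_sq_small (e / (A + 1)) (by positivity)
  refine ⟨max w1 2, fun w hw => ?_⟩
  have hww1 : w1 ≤ w := (le_max_left _ _).trans hw
  have hw2 : 2 ≤ w := (le_max_right _ _).trans hw
  filter_upwards [eventually_ge_atTop w] with y hy
  have hy1 : 1 ≤ y := by omega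
  have hwy : w ≤ y ^ q := hy.trans (Nat.le_self_pow (by omega) y)
  have h1 := hprod w (y ^ q) hw2 hwy
  have h2 := hw1 w (y ^ q) hww1
  have hσ : 0 ≤ ∑ p ∈ PP w (y ^ q), 1 / ((p : ℝ) - 1) ^ 2 :=
    Finset.sum_nonneg fun p _ => by positivity
  have hlog : Real.log ((y ^ q : ℕ) : ℝ) = q * Real.log y := by
    rw [Nat.cast_pow, Real.log_pow]
  rw [hlog] at h1
  have hk := B26_kap w
  have hly : 0 ≤ Real.log y := Real.log_nonneg (by exact_mod_cast hy1)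
  have hB : 0 ≤ (kap w * Real.log y) ^ j := pow_nonneg (mul_nonneg hk hly) _
  unfold offE
  calc C * (∑ p ∈ PP w (y ^ q), 1 / ((p : ℝ) - 1) ^ 2) *
        ∏ p ∈ PP w (y ^ q), (1 + (j : ℝ) / ((p : ℝ) - 1) + C / ((p : ℝ) - 1) ^ 2)
      ≤ C * (∑ p ∈ PP w (y ^ q), 1 / ((p : ℝ) - 1) ^ 2) * (C' * (kap w * (q * Real.log y)) ^ j) :=
        mul_le_mul_of_nonneg_left h1 (mul_nonneg hC hσ)
    _ = (∑ p ∈ PP w (y ^ q), 1 / ((p : ℝ) - 1) ^ 2) * (A * (kap w * Real.log y) ^ j) := by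
        rw [hA, show kap w * (q * Real.log y) = q * (kap w * Real.log y) by ring, mul_pow (q : ℝ)]
        ring
    _ ≤ e / (A + 1) * (A * (kap w * Real.log y) ^ j) :=
        mul_le_mul_of_nonneg_right h2 (mul_nonneg hA0 hB)
    _ = e * (A / (A + 1)) * (kap w * Real.log y) ^ j := by ring
    _ ≤ e * 1 * (kap w * Real.log y) ^ j := by
        refine mul_le_mul_of_nonneg_right (mul_le_mul_of_nonneg_left ?_ he.le) hB
        rw [div_le_one (by linarith)]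
        linarith
    _ = e * (kap w * Real.log y) ^ j := by rw [mul_one]

end Pool.Agent.LibSP4
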