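import Pool.Agent.LibSP4.B01

/-!
Row B02 (SHORT): upper bound of the diagonal form of `y0`. Copy `LibPL63/M3.lean` (`DD_yM_le`):
`ph_sp`, drop the condition, `LibRG87.sum_beta_le`, `LibRG87.sum_fam_prod`.
-/

open Finset

namespace Pool.Agent.LibSP4

open Pool.Agent.LibRG87

theorem DD_y0_le {ι : Type} [Fintype ι] [DecidableEq ι] (P : Finset ℕ) (hP : ∀ p ∈ P, p.Prime)
    (y I : ℕ) (z : ℝ) :
    DD P (y0 P y I z : (P → Option ι) → ℝ) ≤ S2 P y I ^ Fintype.card ι := by
  have hsplit : ∀ β : P → Option ι, y0 P y I z β ^ 2 / ph (sp P β) ≤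
      ∏ i, (gg y I (fb P β i) ^ 2 / ph (fb P β i)) := by
    intro β
    have hph : 0 < ph (sp P β) := ph_pos P hP (sp_subset P β)
    rw [Finset.prod_div_distrib, ← ph_sp, Finset.prod_pow]
    unfold y0
    split_ifs
    · exact le_rfl
    · rw [zero_pow two_ne_zero, zero_div]
      positivity
  unfold DD
  refine (Finset.sum_le_sum fun β _ => hsplit β).trans ?_
  refine (sum_beta_le P (fun A => ∏ i, (gg y I (A i) ^ 2 / ph (A i))) ?_).trans ?_
  · intro A hA
    refine Finset.prod_nonneg fun i _ => ?_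
    have hAi := Finset.mem_powerset.1 (Fintype.mem_piFinset.1 hA i)
    exact div_nonneg (sq_nonneg _) (ph_pos P hP hAi).le
  · rw [sum_fam_prod P (fun A => gg y I A ^ 2 / ph A)]
    exact le_of_eq rfl

theorem y0_bd {ι : Type} [Fintype ι] [DecidableEq ι] (P : Finset ℕ) (y I : ℕ) (z : ℝ)
    (β : P → Option ι) : 0 ≤ y0 P y I z β ∧ y0 P y I z β ≤ 1 ∧ (y0 P y I z β ≠ 0 → rr (sp P β) ≤ z) := by
  unfold y0
  split_ifs with h
  · refine ⟨Finset.prod_nonneg fun i _ => gg_nonneg _ _ _,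
      Finset.prod_le_one (fun i _ => gg_nonneg _ _ _) (fun i _ => gg_le_one _ _ _), fun _ => h⟩
  · exact ⟨le_rfl, zero_le_one, fun h' => absurd rfl h'⟩

end Pool.Agent.LibSP4
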