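import Mathlib

/-!
Row B31 (SHORT): choice of the parameters. `M = 2^I + 1 + ⌈(1/e) 3 2^I (I+2)⌉`, so `M ≤ 2^I (3 + (3/e)(I+2))`, and `2 q1 (3 + (3/e)(I+2)) ≤ e (1+I/2)²` for large `I`.
-/

open Finset Filter

namespace Pool.Agent.LibSP4

theorem params (q1 : ℕ) (e : ℝ) (he : 0 < e) : ∃ I M : ℕ, 2 ^ I < M ∧
    (((3 * 2 ^ I : ℕ) : ℝ)) * (I + 2) ≤ e * (M - 2 ^ I) ∧ (M : ℝ) * q1 * 2 ≤ e * (((2 ^ I : ℕ) : ℝ) * (1 + I / 2) ^ 2) := by
  set T : ℝ := 2 * q1 * (3 + 6 / e) / e with hT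
  have hT0 : 0 ≤ T := by positivity
  obtain ⟨I, hI⟩ := exists_nat_ge (2 * T)
  set X : ℝ := 3 * 2 ^ I * (I + 2) / e with hX
  have hX0 : 0 ≤ X := by positivity
  have hP : (1 : ℝ) ≤ 2 ^ I := one_le_pow₀ (by norm_num)
  have hIe : (0 : ℝ) ≤ (I : ℝ) := Nat.cast_nonneg I
  refine ⟨I, 2 ^ I + 1 + ⌈X⌉₊, by omega, ?_, ?_⟩
  · have h1 : X ≤ (⌈X⌉₊ : ℝ) := Nat.le_ceil X
    have h2 : e * X = 3 * 2 ^ I * (I + 2) := by
      rw [hX]
      field_simp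
    push_cast
    nlinarith
  · have h1 : (⌈X⌉₊ : ℝ) < X + 1 := Nat.ceil_lt_add_one hX0
    have h2 : ((2 ^ I + 1 + ⌈X⌉₊ : ℕ) : ℝ) ≤ 2 ^ I * (3 + 3 * (I + 2) / e) := by
      push_cast
      have h3 : (2 : ℝ) ^ I * (3 + 3 * (I + 2) / e) = 3 * 2 ^ I + X := by
        rw [hX]
        ring
      rw [h3]
      linarith
    have h4 : T ≤ 1 + (I : ℝ) / 2 := by linarith
    have h5 : e * T = 2 * q1 * (3 + 6 / e) := by
      rw [hT]
      field_simp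
    have h6 : 2 * (q1 : ℝ) * (3 + 3 * (I + 2) / e) ≤ e * (1 + I / 2) ^ 2 := by
      have h7 : (3 : ℝ) + 3 * (I + 2) / e ≤ (3 + 6 / e) * (1 + I / 2) := by
        have h8 : (3 : ℝ) * (I + 2) / e = 6 / e * (1 + I / 2) := by ring
        rw [h8]
        nlinarith
      calc 2 * (q1 : ℝ) * (3 + 3 * (I + 2) / e)
          ≤ 2 * (q1 : ℝ) * ((3 + 6 / e) * (1 + I / 2)) :=
            mul_le_mul_of_nonneg_left h7 (by positivity)
        _ = e * T * (1 + I / 2) := by rw [h5]; ring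
        _ ≤ e * (1 + I / 2) * (1 + I / 2) := by
            have : e * T ≤ e * (1 + (I : ℝ) / 2) := mul_le_mul_of_nonneg_left h4 he.le
            exact mul_le_mul_of_nonneg_right this (by positivity)
        _ = e * (1 + I / 2) ^ 2 := by ring
    have hM : ((2 ^ I + 1 + ⌈X⌉₊ : ℕ) : ℝ) * q1 * 2 ≤ 2 ^ I * (3 + 3 * (I + 2) / e) * q1 * 2 := by
      have : (0 : ℝ) ≤ q1 := Nat.cast_nonneg q1
      have h9 := mul_le_mul_of_nonneg_right h2 this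
      linarith
    have h10 : (2 : ℝ) ^ I * (3 + 3 * (I + 2) / e) * q1 * 2
        = 2 ^ I * (2 * (q1 : ℝ) * (3 + 3 * (I + 2) / e)) := by ring
    rw [h10] at hM
    refine hM.trans ?_
    push_cast
    calc (2 : ℝ) ^ I * (2 * (q1 : ℝ) * (3 + 3 * (I + 2) / e))
        ≤ 2 ^ I * (e * (1 + I / 2) ^ 2) := mul_le_mul_of_nonneg_left h6 (by positivity)
      _ = e * (2 ^ I * (1 + I / 2) ^ 2) := by ring

end Pool.Agent.LibSP4
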