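import Pool.Agent.LibRG87.R0
import Pool.Agent.LibRG87.R1
import Pool.Agent.LibRG87.R2
import Pool.Agent.LibRG87.R9
import Pool.Agent.LibRG87.R10
import Pool.Agent.LibRG87.R8b

/-!
LibSP4 (MP_9d0134_nt, differences of semiprimes): definitions of the sieve half.

As in LibRG87: `P` is a finite set of primes, `A ⊆ P` stands for the squarefree number `rr A`, positions are
`b i`, `i : ι`, and `β : P → Option ι` assigns to some of the primes a position. `psi p n = -1` if `p ∣ n` and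
`1/(p-1)` otherwise, `ee P b β n = ∏ p, psi p (n + b (β p))`, `PhiF P b y n = ∑ β, y β * ee P b β n`,
`DD P y = ∑ β, y β ^ 2 / ph (sp P β)`.
-/

open Finset

namespace Pool.Agent.LibSP4

open Pool.Agent.LibRG87

/-- the number of the levels `y^(2^i)`, `i < I`, below `rr A` -/
noncomputable def lev (y I : ℕ) (A : Finset ℕ) : ℕ :=
  open scoped Classical in ((range I).filter fun i => (y : ℝ) ^ (2 ^ i) < rr A).card

/-- the weight of one position: `1` for `rr A ≤ y`, `2^(-i)` for `y^(2^(i-1)) < rr A ≤ y^(2^i)`,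
`0` above `y^(2^I)` -/
noncomputable def gg (y I : ℕ) (A : Finset ℕ) : ℝ :=
  open scoped Classical in if rr A ≤ (y : ℝ) ^ (2 ^ I) then (1 / 2 : ℝ) ^ lev y I A else 0

/-- `∑ g / φ` -/
noncomputable def S1 (P : Finset ℕ) (y I : ℕ) : ℝ := ∑ A ∈ P.powerset, gg y I A / ph A

/-- `∑ g² / φ` -/
noncomputable def S2 (P : Finset ℕ) (y I : ℕ) : ℝ := ∑ A ∈ P.powerset, gg y I A ^ 2 / ph A

/-- `∑ g² log / φ` -/
noncomputable def SL (P : Finset ℕ) (y I : ℕ) : ℝ := ∑ A ∈ P.powerset, gg y I A ^ 2 / ph A * Real.log (rr A)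

/-- `∑ 1/φ(r)` over `r ≤ R` -/
noncomputable def GG (P : Finset ℕ) (R : ℝ) : ℝ :=
  open scoped Classical in ∑ A ∈ P.powerset with rr A ≤ R, 1 / ph A

/-- Selberg's weights of level `R` -/
noncomputable def rho (P : Finset ℕ) (R : ℝ) (D : Finset ℕ) : ℝ :=
  open scoped Classical in
  (-1) ^ D.card * (rr D / ph D) / GG P R * ∑ A ∈ (P \ D).powerset with rr A * rr D ≤ R, 1 / ph A

/-- Selberg's divisor sum `∑ ρ(D)` over the `D ⊆ P` with `D ∣ m` -/
noncomputable def lamS (P : Finset ℕ) (R : ℝ) (m : ℕ) : ℝ :=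
  open scoped Classical in ∑ D ∈ P.powerset, if ∀ p ∈ D, p ∣ m then rho P R D else 0

section

variable {ι : Type} [Fintype ι] [DecidableEq ι] (P : Finset ℕ)

/-- the coefficients of the base weight -/
noncomputable def y0 (y I : ℕ) (z : ℝ) (β : P → Option ι) : ℝ :=
  open scoped Classical in if rr (sp P β) ≤ z then ∏ i, gg y I (fb P β i) else 0

/-- the coefficients collapsed at the position `i` -/
noncomputable def y1 (y I : ℕ) (z : ℝ) (i : ι) (β : P → Option ι) : ℝ :=
  open scoped Classical in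
  if ∀ p, β p ≠ some i then (∏ m, gg y I (fb P β m)) *
    ∑ A ∈ (P \ sp P β).powerset with rr A * rr (sp P β) ≤ z, gg y I A / ph A
  else 0

/-- the coefficients collapsed at the positions `i` and `j` -/
noncomputable def y2 (y I : ℕ) (z : ℝ) (i j : ι) (β : P → Option ι) : ℝ :=
  open scoped Classical in
  if ∀ p, β p ≠ some i ∧ β p ≠ some j then (∏ m, gg y I (fb P β m)) *
    ∑ A ∈ (P \ sp P β).powerset, ∑ B ∈ ((P \ sp P β) \ A).powerset with rr A * rr B * rr (sp P β) ≤ z,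
      gg y I A * gg y I B / (ph A * ph B)
  else 0

/-- remove the position `j` -/
def rem (j : ι) (β : P → Option ι) : P → Option ι := fun p => if β p = some j then none else β p

/-- the coefficients of `y2` times Selberg's divisor sum at the position `j` -/
noncomputable def y3 (y I : ℕ) (z R : ℝ) (i j : ι) (β : P → Option ι) : ℝ :=
  open scoped Classical in
  y2 P y I z i j (rem P j β) *
    (∑ B ∈ (sp P (rem P j β)).powerset with rr (fb P β j) * rr B ≤ R, 1 / ph B) / GG P R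

/-- the function with the coefficients `y2`, times Selberg's divisor sum at `j` restricted to the `D` prime to `β` -/
noncomputable def F2 (y I : ℕ) (z R : ℝ) (i j : ι) (b : ι → ℕ) (n : ℕ) : ℝ :=
  open scoped Classical in
  ∑ β : P → Option ι, y2 P y I z i j β * ee P b β n *
    ∑ D ∈ (P \ sp P β).powerset, if ∀ p ∈ D, p ∣ n + b j then rho P R D else 0

/-- the local matrix for the density `h` -/
noncomputable def mm (h : ℕ → ℝ) (p : ℕ) (o o' : Option ι) : ℝ :=
  match o, o' with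
  | none, none => 1
  | none, some _ => -h p + (1 - h p) / ((p : ℝ) - 1)
  | some _, none => -h p + (1 - h p) / ((p : ℝ) - 1)
  | some i, some j => if i = j then h p + (1 - h p) / ((p : ℝ) - 1) ^ 2
      else -(2 * h p) / ((p : ℝ) - 1) + (1 - 2 * h p) / ((p : ℝ) - 1) ^ 2

/-- all positions used by `β` are in `J` -/
def alw (J : Finset ι) (β : P → Option ι) : Prop := ∀ p i, β p = some i → i ∈ J

/-- the quadratic form for the density `h` -/
noncomputable def QQ (h : ℕ → ℝ) (y : (P → Option ι) → ℝ) : ℝ :=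
  ∑ β, ∑ β', y β * y β' * ∏ p : P, mm h (p : ℕ) (β p) (β' p)

/-- the weights `om` on `s` have mass `X` and see the divisibilities `p ∣ n + b i`, `i ∈ J`, with the densities `h p`,
up to the error `Er q` for the modulus `q` -/
structure Dist (b : ι → ℕ) (J : Finset ι) (s : Finset ℕ) (om : ℕ → ℝ) (X : ℝ) (h Er : ℕ → ℝ) : Prop where
  om_nonneg : ∀ n ∈ s, 0 ≤ om n
  X_nonneg : 0 ≤ X
  Er_nonneg : ∀ q, 0 ≤ Er q
  h_ge : ∀ p ∈ P, 1 / (p : ℝ) ≤ h p
  h_le : ∀ p ∈ P, h p ≤ 1 / ((p : ℝ) - 1)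
  hp : ∀ σ : P → Option ι, alw P J σ →
    |∑ n ∈ s, om n * (open scoped Classical in if ∀ p i, σ p = some i → (p : ℕ) ∣ n + b i then (1 : ℝ) else 0) -
      X * ∏ p ∈ sp P σ, h p| ≤ Er (∏ p ∈ sp P σ, p)

end

/-- the constant of the near-diagonal lemma -/
noncomputable def offE (C : ℝ) (P : Finset ℕ) (j : ℕ) : ℝ :=
  C * (∑ p ∈ P, 1 / ((p : ℝ) - 1) ^ 2) * ∏ p ∈ P, (1 + (j : ℝ) / ((p : ℝ) - 1) + C / ((p : ℝ) - 1) ^ 2)

/-- the remainder -/
noncomputable def RemE (C : ℕ) (P : Finset ℕ) (D : ℝ) (Er : ℕ → ℝ) : ℝ :=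
  open scoped Classical in
  (∏ p ∈ P, (1 + (C : ℝ) / ((p : ℝ) - 1))) *
    ∑ T ∈ P.powerset with rr T ≤ D, (C : ℝ) ^ T.card * Er (∏ p ∈ T, p)

end Pool.Agent.LibSP4
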