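import Pool.Agent.LibSP4.B04

/-!
Row B05 (SHORT): on the event that no prime `p ≤ z` of `P` divides `n + b j`, `F2` is the collapsed function times Selberg's sum.
For `β` with `y2 β ≠ 0` all primes of `sp P β` are `≤ z` (they are factors `≥ 2`, the others `≥ 1`, of `rr (sp P β) ≤ z`), so a `D ⊆ P`
all of whose primes divide `n + b j` is disjoint from `sp P β`: the sum over `D ⊆ P \ sp P β` is `lamS P R (n + b j)`.
-/

open Finset

namespace Pool.Agent.LibSP4

open Pool.Agent.LibRG87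

variable {ι : Type} [Fintype ι] [DecidableEq ι]

private theorem B05_le (P : Finset ℕ) (hP : ∀ p ∈ P, p.Prime) {A : Finset ℕ} (hA : A ⊆ P) {p : ℕ}
    (hp : p ∈ A) : (p : ℝ) ≤ rr A := by
  have h1 : rr A = (p : ℝ) * rr (A.erase p) := by
    unfold rr
    exact (Finset.mul_prod_erase A (fun q => (q : ℝ)) hp).symm
  have h2 : 1 ≤ rr (A.erase p) := one_le_rr P hP ((Finset.erase_subset _ _).trans hA)
  rw [h1]
  have h3 : (0 : ℝ) ≤ p := Nat.cast_nonneg p
  nlinarith

theorem F2_event (P : Finset ℕ) (hP : ∀ p ∈ P, p.Prime) (y I : ℕ) (z R : ℝ)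
    (b : ι → ℕ) (i j : ι) (n : ℕ) (hn : ∀ p ∈ P, (p : ℝ) ≤ z → ¬ p ∣ n + b j) :
    F2 P y I z R i j b n = PhiF P b (y2 P y I z i j) n * lamS P R (n + b j) := by
  classical
  unfold F2 PhiF
  rw [Finset.sum_mul]
  refine Finset.sum_congr rfl fun β _ => ?_
  by_cases h0 : y2 P y I z i j β = 0
  · rw [h0]
    simp
  · have hz := ((y2_bd P hP y I z i j β).2.2 h0).1
    congr 1
    unfold lamS
    refine Finset.sum_subset (Finset.powerset_mono.2 Finset.sdiff_subset) ?_
    intro D hD hD'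
    rw [Finset.mem_powerset] at hD hD'
    rw [if_neg]
    intro hall
    apply hD'
    intro p hp
    rw [Finset.mem_sdiff]
    refine ⟨hD hp, fun hs => ?_⟩
    exact hn p (hD hp) ((B05_le P hP (sp_subset P β) hs).trans hz) (hall p hp)

end Pool.Agent.LibSP4
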