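import Pool.Agent.LibSP4.B04

/-!
Row B06 (MEDIUM): expansion of `F2` in the functions `ee`.
`[p ∣ m] = 1/p - ((p-1)/p) psi p m`, so for `D ⊆ P`: `[D ∣ m] = ∑_{A ⊆ D} (-1)^|A| (ph A / rr D) ∏_{p ∈ A} psi p m`. Hence, with `S = sp P β`,
`∑_{D ⊆ P \ S} rho D [D ∣ m] = ∑_{A ⊆ P \ S} (∏_{p∈A} psi p m) c(A)`, `c(A) = (-1)^|A| ph A ∑_{A ⊆ D ⊆ P \ S} rho D / rr D`.
Insert `rho D / rr D = (-1)^|D| / (ph D G) ∑_{C ⊆ P \ D, rr C rr D ≤ R} 1/ph C` and write `D = A ∪ M`:
`c(A) = (1/G) ∑_{M ⊆ P \ (A ∪ S)} ∑_{C ⊆ P \ (A ∪ M), rr A rr M rr C ≤ R} (-1)^|M| / (ph M ph C)`; group by `B = M ∪ C ⊆ P \ A` (disjoint):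
`∑_{M ⊆ B, M ∩ S = ∅} (-1)^|M| = [B ⊆ S]`. So `c(A) = (1/G) ∑_{B ⊆ S, rr A rr B ≤ R} 1/ph B`.
The pair `(β, A)`, `A ⊆ P \ sp P β`, `β` without `j`, is the configuration `β'` with `rem P j β' = β`, `fb P β' j = A`; `y2 β ≠ 0` only if `β` has no `j`;
`ee P b β' n = ee P b β n * ∏_{p∈A} psi p (n + b j)`.
-/

open Finset

namespace Pool.Agent.LibSP4

open Pool.Agent.LibRG87

variable {ι : Type} [Fintype ι] [DecidableEq ι]

private theorem B06_rr_union {A B : Finset ℕ} (h : Disjoint A B) : rr (A ∪ B) = rr A * rr B := by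
  unfold rr
  exact Finset.prod_union h

private theorem B06_ph_union {A B : Finset ℕ} (h : Disjoint A B) : ph (A ∪ B) = ph A * ph B := by
  unfold ph
  exact Finset.prod_union h

/-- the sum over `E`, right side -/
private theorem B06_right (P S : Finset ℕ) (hS : S ⊆ P) (R : ℝ) (v : ℕ → ℝ) :
    open scoped Classical in
    (∑ A ∈ (P \ S).powerset, (∏ p ∈ A, v p) * ∑ B ∈ S.powerset with rr A * rr B ≤ R, ∏ p ∈ B, v p) =
      ∑ E ∈ P.powerset with rr E ≤ R, ∏ p ∈ E, v p := by
  classical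
  have h1 : ∀ A ∈ (P \ S).powerset, (∏ p ∈ A, v p) * ∑ B ∈ S.powerset with rr A * rr B ≤ R, ∏ p ∈ B, v p =
      ∑ B ∈ S.powerset with rr A * rr B ≤ R, (∏ p ∈ A, v p) * ∏ p ∈ B, v p := by
    intro A _
    rw [Finset.mul_sum]
  rw [Finset.sum_congr rfl h1, Finset.sum_sigma']
  refine Finset.sum_nbij' (fun x => x.1 ∪ x.2) (fun E => ⟨E \ S, E ∩ S⟩) ?_ ?_ ?_ ?_ ?_
  · rintro ⟨A, B⟩ hx
    rw [Finset.mem_sigma, Finset.mem_filter, Finset.mem_powerset, Finset.mem_powerset] at hx
    obtain ⟨hA, hB, hR⟩ := hx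
    simp only at hA hB hR ⊢
    have hd : Disjoint A B := by
      rw [Finset.disjoint_left]
      intro a ha hb
      exact (Finset.mem_sdiff.1 (hA ha)).2 (hB hb)
    rw [Finset.mem_filter, Finset.mem_powerset, B06_rr_union hd]
    refine ⟨Finset.union_subset (fun a ha => (Finset.mem_sdiff.1 (hA ha)).1) (fun a ha => hS (hB ha)), hR⟩
  · intro E hE
    rw [Finset.mem_filter, Finset.mem_powerset] at hE
    obtain ⟨hE1, hE2⟩ := hE
    rw [Finset.mem_sigma, Finset.mem_filter, Finset.mem_powerset, Finset.mem_powerset]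
    refine ⟨Finset.sdiff_subset_sdiff hE1 (Finset.Subset.refl _), Finset.inter_subset_right, ?_⟩
    rw [← B06_rr_union (Finset.disjoint_sdiff_inter E S), Finset.sdiff_union_inter]
    exact hE2
  · rintro ⟨A, B⟩ hx
    rw [Finset.mem_sigma, Finset.mem_filter, Finset.mem_powerset, Finset.mem_powerset] at hx
    obtain ⟨hA, hB, hR⟩ := hx
    simp only at hA hB hR ⊢
    have e1 : (A ∪ B) \ S = A := by
      ext a
      rw [Finset.mem_sdiff, Finset.mem_union]
      constructor
      · rintro ⟨h | h, h2⟩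
        · exact h
        · exact absurd (hB h) h2
      · intro h
        exact ⟨Or.inl h, (Finset.mem_sdiff.1 (hA h)).2⟩
    have e2 : (A ∪ B) ∩ S = B := by
      ext a
      rw [Finset.mem_inter, Finset.mem_union]
      constructor
      · rintro ⟨h | h, h2⟩
        · exact absurd h2 (Finset.mem_sdiff.1 (hA h)).2
        · exact h
      · intro h
        exact ⟨Or.inr h, hB h⟩
    rw [e1, e2]
  · intro E _
    simp only
    exact Finset.sdiff_union_inter E S
  · rintro ⟨A, B⟩ hx
    rw [Finset.mem_sigma, Finset.mem_filter, Finset.mem_powerset, Finset.mem_powerset] at hx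
    obtain ⟨hA, hB, hR⟩ := hx
    simp only at hA hB hR ⊢
    have hd : Disjoint A B := by
      rw [Finset.disjoint_left]
      intro a ha hb
      exact (Finset.mem_sdiff.1 (hA ha)).2 (hB hb)
    rw [Finset.prod_union hd]

/-- the sum over `C`, reindexed by `E = C ∪ D` -/
private theorem B06_shift (P D : Finset ℕ) (hD : D ⊆ P) (R : ℝ) (f : Finset ℕ → ℝ) :
    open scoped Classical in
    (∑ C ∈ (P \ D).powerset with rr C * rr D ≤ R, f C) =
      ∑ E ∈ P.powerset with (rr E ≤ R ∧ D ⊆ E), f (E \ D) := by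
  classical
  refine Finset.sum_nbij' (fun C => C ∪ D) (fun E => E \ D) ?_ ?_ ?_ ?_ ?_
  · intro C hC
    rw [Finset.mem_filter, Finset.mem_powerset] at hC
    obtain ⟨hC1, hC2⟩ := hC
    have hd : Disjoint C D := by
      rw [Finset.disjoint_left]
      intro a ha hb
      exact (Finset.mem_sdiff.1 (hC1 ha)).2 hb
    rw [Finset.mem_filter, Finset.mem_powerset, B06_rr_union hd]
    exact ⟨Finset.union_subset (fun a ha => (Finset.mem_sdiff.1 (hC1 ha)).1) hD, hC2, Finset.subset_union_right⟩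
  · intro E hE
    rw [Finset.mem_filter, Finset.mem_powerset] at hE
    obtain ⟨hE1, hE2, hE3⟩ := hE
    rw [Finset.mem_filter, Finset.mem_powerset]
    refine ⟨Finset.sdiff_subset_sdiff hE1 (Finset.Subset.refl _), ?_⟩
    rw [← B06_rr_union Finset.sdiff_disjoint, Finset.sdiff_union_of_subset hE3]
    exact hE2
  · intro C hC
    rw [Finset.mem_filter, Finset.mem_powerset] at hC
    obtain ⟨hC1, hC2⟩ := hC
    have hd : Disjoint C D := by
      rw [Finset.disjoint_left]
      intro a ha hb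
      exact (Finset.mem_sdiff.1 (hC1 ha)).2 hb
    exact Finset.union_sdiff_cancel_right hd
  · intro E hE
    rw [Finset.mem_filter, Finset.mem_powerset] at hE
    exact Finset.sdiff_union_of_subset hE.2.2
  · intro C hC
    rw [Finset.mem_filter, Finset.mem_powerset] at hC
    obtain ⟨hC1, hC2⟩ := hC
    have hd : Disjoint C D := by
      rw [Finset.disjoint_left]
      intro a ha hb
      exact (Finset.mem_sdiff.1 (hC1 ha)).2 hb
    rw [Finset.union_sdiff_cancel_right hd]

/-- the alternating sum over the subsets of `E ∩ T` -/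
private theorem B06_local (E T : Finset ℕ) (hE : ∀ p ∈ E, 1 < p) :
    ∑ D ∈ (E ∩ T).powerset, ((-1) ^ D.card * (rr D / ph D)) * (1 / ph (E \ D)) =
      ∏ p ∈ E, (if p ∈ T then (-1 : ℝ) else 1 / ((p : ℝ) - 1)) := by
  classical
  have hne : ∀ p ∈ E, ((p : ℝ) - 1) ≠ 0 := by
    intro p hp
    have h : (1 : ℝ) < (p : ℝ) := by exact_mod_cast hE p hp
    linarith
  have hph : ∀ A ⊆ E, ph A ≠ 0 := by
    intro A hA
    unfold ph
    exact Finset.prod_ne_zero_iff.2 fun p hp => hne p (hA hp)
  have h1 : ∀ D ∈ (E ∩ T).powerset, ((-1) ^ D.card * (rr D / ph D)) * (1 / ph (E \ D)) =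
      (∏ p ∈ D, (-(p : ℝ))) * (1 / ph E) := by
    intro D hD
    rw [Finset.mem_powerset] at hD
    have hDE : D ⊆ E := hD.trans Finset.inter_subset_left
    have h2 : ph E = ph D * ph (E \ D) := by
      rw [← B06_ph_union Finset.disjoint_sdiff, Finset.union_sdiff_of_subset hDE]
    have h3 : ∏ p ∈ D, (-(p : ℝ)) = (-1) ^ D.card * rr D := by
      unfold rr
      rw [← Finset.prod_const, ← Finset.prod_mul_distrib]
      exact Finset.prod_congr rfl fun p _ => by ring
    have h4 := hph D hDE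
    have h5 := hph (E \ D) Finset.sdiff_subset
    rw [h2, h3]
    field_simp
  rw [Finset.sum_congr rfl h1, ← Finset.sum_mul]
  have h2 : ∑ D ∈ (E ∩ T).powerset, ∏ p ∈ D, (-(p : ℝ)) = ∏ p ∈ E ∩ T, (1 + -(p : ℝ)) := by
    rw [Finset.prod_one_add]
  rw [h2]
  have h3 : ∏ p ∈ E ∩ T, (1 + -(p : ℝ)) = ∏ p ∈ E, (if p ∈ T then (1 + -(p : ℝ)) else 1) := by
    rw [Finset.prod_ite_mem]
  rw [h3]
  unfold ph
  rw [one_div, ← Finset.prod_inv_distrib, ← Finset.prod_mul_distrib]
  refine Finset.prod_congr rfl fun p hp => ?_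
  have h4 := hne p hp
  by_cases h5 : p ∈ T
  · rw [if_pos h5, if_pos h5]
    field_simp
    ring
  · rw [if_neg h5, if_neg h5, one_mul, one_div]

/-- the sum over `E`, left side -/
private theorem B06_left (P U : Finset ℕ) (hP : ∀ p ∈ P, p.Prime) (hU : U ⊆ P) (R : ℝ) (m : ℕ) :
    open scoped Classical in
    (∑ D ∈ U.powerset, if ∀ p ∈ D, p ∣ m then rho P R D else 0) =
      (∑ E ∈ P.powerset with rr E ≤ R,
        ∏ p ∈ E, (if p ∈ U.filter (fun p => p ∣ m) then (-1 : ℝ) else 1 / ((p : ℝ) - 1))) / GG P R := by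
  classical
  set T := U.filter (fun p => p ∣ m) with hT
  have h1 : (∑ D ∈ U.powerset, if ∀ p ∈ D, p ∣ m then rho P R D else 0) = ∑ D ∈ T.powerset, rho P R D := by
    rw [← Finset.sum_filter]
    refine Finset.sum_congr ?_ fun _ _ => rfl
    ext D
    rw [Finset.mem_filter, Finset.mem_powerset, Finset.mem_powerset, hT]
    constructor
    · rintro ⟨h, h2⟩ p hp
      exact Finset.mem_filter.2 ⟨h hp, h2 p hp⟩
    · intro h
      exact ⟨fun p hp => (Finset.mem_filter.1 (h hp)).1, fun p hp => (Finset.mem_filter.1 (h hp)).2⟩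
  have hTP : T ⊆ P := (Finset.filter_subset _ _).trans hU
  have h2 : ∀ D ∈ T.powerset, rho P R D =
      (∑ E ∈ P.powerset with (rr E ≤ R ∧ D ⊆ E), ((-1) ^ D.card * (rr D / ph D)) * (1 / ph (E \ D))) / GG P R := by
    intro D hD
    rw [Finset.mem_powerset] at hD
    unfold rho
    have h3 := B06_shift P D (hD.trans hTP) R (fun C => 1 / ph C)
    rw [← Finset.mul_sum]
    have h4 : (∑ A ∈ (P \ D).powerset with rr A * rr D ≤ R, 1 / ph A) =
        ∑ E ∈ P.powerset with (rr E ≤ R ∧ D ⊆ E), 1 / ph (E \ D) := by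
      convert h3 using 2
    rw [← h4]
    ring
  rw [h1, Finset.sum_congr rfl h2, ← Finset.sum_div]
  congr 1
  have h3 : ∀ D ∈ T.powerset, (∑ E ∈ P.powerset with (rr E ≤ R ∧ D ⊆ E), ((-1) ^ D.card * (rr D / ph D)) * (1 / ph (E \ D))) =
      ∑ E ∈ P.powerset with rr E ≤ R, if D ⊆ E then ((-1) ^ D.card * (rr D / ph D)) * (1 / ph (E \ D)) else 0 := by
    intro D _
    rw [← Finset.sum_filter, Finset.filter_filter]
  rw [Finset.sum_congr rfl h3, Finset.sum_comm]
  refine Finset.sum_congr rfl fun E hE => ?_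
  rw [Finset.mem_filter, Finset.mem_powerset] at hE
  rw [← Finset.sum_filter]
  have h4 : T.powerset.filter (fun D => D ⊆ E) = (E ∩ T).powerset := by
    ext D
    rw [Finset.mem_filter, Finset.mem_powerset, Finset.mem_powerset, Finset.subset_inter_iff]
    exact and_comm
  rw [h4]
  exact B06_local E T fun p hp => (hP p (hE.1 hp)).one_lt

/-- the expansion of the restricted divisor sum -/
private theorem B06_key (P S : Finset ℕ) (hP : ∀ p ∈ P, p.Prime) (hS : S ⊆ P) (R : ℝ) (m : ℕ) :
    open scoped Classical in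
    (∑ D ∈ (P \ S).powerset, if ∀ p ∈ D, p ∣ m then rho P R D else 0) =
      ∑ A ∈ (P \ S).powerset, (∏ p ∈ A, psi p m) *
        ((∑ B ∈ S.powerset with rr A * rr B ≤ R, 1 / ph B) / GG P R) := by
  classical
  have h0 := B06_left P (P \ S) hP Finset.sdiff_subset R m
  have h1 := B06_right P S hS R (fun p => if p ∈ (P \ S).filter (fun p => p ∣ m) then (-1 : ℝ) else 1 / ((p : ℝ) - 1))
  have h2 : (∑ E ∈ P.powerset with rr E ≤ R,
        ∏ p ∈ E, (if p ∈ (P \ S).filter (fun p => p ∣ m) then (-1 : ℝ) else 1 / ((p : ℝ) - 1))) / GG P R =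
      ∑ A ∈ (P \ S).powerset, (∏ p ∈ A, psi p m) *
        ((∑ B ∈ S.powerset with rr A * rr B ≤ R, 1 / ph B) / GG P R) := by
    rw [← h1, Finset.sum_div]
    refine Finset.sum_congr rfl fun A hA => ?_
    rw [Finset.mem_powerset] at hA
    rw [mul_div_assoc]
    congr 1
    · refine Finset.prod_congr rfl fun p hp => ?_
      unfold psi
      by_cases hpm : p ∣ m
      · rw [if_pos (Finset.mem_filter.2 ⟨hA hp, hpm⟩), if_pos hpm]
      · have hn : ¬ p ∈ (P \ S).filter (fun p => p ∣ m) := fun h => hpm (Finset.mem_filter.1 h).2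
        rw [if_neg hn, if_neg hpm]
    · congr 1
      refine Finset.sum_congr rfl fun B hB => ?_
      rw [Finset.mem_filter, Finset.mem_powerset] at hB
      unfold ph
      rw [one_div, ← Finset.prod_inv_distrib]
      refine Finset.prod_congr rfl fun p hp => ?_
      have hn : ¬ p ∈ (P \ S).filter (fun p => p ∣ m) :=
        fun h => (Finset.mem_sdiff.1 (Finset.mem_filter.1 h).1).2 (hB.1 hp)
      rw [if_neg hn, one_div]
  rw [← h2, ← h0]

/-- inserting the position `j` -/
private def B06_ins (P : Finset ℕ) (j : ι) (A : Finset ℕ) (β : P → Option ι) : P → Option ι :=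
  fun p => if (p : ℕ) ∈ A then some j else β p

private theorem B06_ee (P : Finset ℕ) (b : ι → ℕ) (j : ι) (n : ℕ) (β : P → Option ι) :
    ee P b β n = ee P b (rem P j β) n * ∏ p ∈ fb P β j, psi p (n + b j) := by
  have h1 : ∏ p ∈ fb P β j, psi p (n + b j) = ∏ p : P, (if β p = some j then psi p (n + b j) else 1) := by
    unfold fb
    rw [Finset.prod_image (fun x _ y _ h => Subtype.ext h), Finset.prod_filter]
  rw [h1]
  unfold ee
  rw [← Finset.prod_mul_distrib]
  refine Finset.prod_congr rfl fun p _ => ?_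
  unfold rem
  by_cases h : β p = some j
  · rw [if_pos h, if_pos h, h]
    have e1 : loc b p (some j) n = psi p (n + b j) := rfl
    have e2 : loc b p (none : Option ι) n = 1 := rfl
    rw [e1, e2, one_mul]
  · rw [if_neg h, if_neg h, mul_one]

theorem F2_expand (P : Finset ℕ) (hP : ∀ p ∈ P, p.Prime) (y I : ℕ) (z R : ℝ) (hR : 1 ≤ R)
    (b : ι → ℕ) (i j : ι) (hij : i ≠ j) (n : ℕ) :
    F2 P y I z R i j b n = PhiF P b (y3 P y I z R i j) n := by
  classical
  unfold PhiF F2
  rw [← Finset.sum_fiberwise univ (rem P j) (fun β => y3 P y I z R i j β * ee P b β n)]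
  refine Finset.sum_congr rfl fun β _ => ?_
  by_cases hβ : ∀ p, β p ≠ some j
  · have hk := B06_key P (sp P β) hP (sp_subset P β) R (n + b j)
    have h1 : ∑ β' ∈ univ with rem P j β' = β, y3 P y I z R i j β' * ee P b β' n =
        ∑ A ∈ (P \ sp P β).powerset, y2 P y I z i j β * ee P b β n * ((∏ p ∈ A, psi p (n + b j)) *
        ((∑ B ∈ (sp P β).powerset with rr A * rr B ≤ R, 1 / ph B) / GG P R)) := by
      refine Finset.sum_nbij' (fun β' => fb P β' j) (fun A => B06_ins P j A β) ?_ ?_ ?_ ?_ ?_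
      · intro β' hβ'
        have hβ2 := (Finset.mem_filter.1 hβ').2
        rw [Finset.mem_powerset]
        intro q hq
        obtain ⟨hqP, h3⟩ := (mem_fb P).1 hq
        rw [Finset.mem_sdiff]
        refine ⟨hqP, fun h4 => ?_⟩
        obtain ⟨_, h5⟩ := (mem_sp P).1 h4
        apply h5
        rw [← hβ2]
        unfold rem
        rw [if_pos h3]
      · intro A hA
        rw [Finset.mem_powerset] at hA
        rw [Finset.mem_filter]
        refine ⟨mem_univ _, ?_⟩
        funext p
        unfold rem B06_ins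
        by_cases hp : (p : ℕ) ∈ A
        · rw [if_pos hp, if_pos rfl]
          have h3 := (Finset.mem_sdiff.1 (hA hp)).2
          rw [mem_sp] at h3
          by_contra h4
          exact h3 ⟨p.2, fun h5 => h4 h5.symm⟩
        · rw [if_neg hp, if_neg (hβ p)]
      · intro β' hβ'
        have hβ2 := (Finset.mem_filter.1 hβ').2
        funext p
        unfold B06_ins
        by_cases hp : β' p = some j
        · rw [if_pos ((mem_fb P).2 ⟨p.2, hp⟩), hp]
        · have h3 : (p : ℕ) ∉ fb P β' j := by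
            intro h4
            obtain ⟨_, h5⟩ := (mem_fb P).1 h4
            exact hp h5
          rw [if_neg h3, ← hβ2]
          unfold rem
          rw [if_neg hp]
      · intro A hA
        rw [Finset.mem_powerset] at hA
        ext q
        rw [mem_fb]
        constructor
        · rintro ⟨hq, h3⟩
          unfold B06_ins at h3
          by_contra h4
          rw [if_neg h4] at h3
          exact hβ _ h3
        · intro hq
          refine ⟨(Finset.mem_sdiff.1 (hA hq)).1, ?_⟩
          unfold B06_ins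
          rw [if_pos hq]
      · intro β' hβ'
        have hβ2 := (Finset.mem_filter.1 hβ').2
        have h3 := B06_ee P b j n β'
        rw [hβ2] at h3
        unfold y3
        rw [hβ2, h3]
        ring
    rw [h1, ← Finset.mul_sum, ← hk]
  · have h1 : y2 P y I z i j β = 0 := by
      unfold y2
      rw [if_neg]
      intro h
      exact hβ fun p => (h p).2
    rw [h1, zero_mul, zero_mul]
    push Not at hβ
    obtain ⟨p, hp⟩ := hβ
    symm
    refine Finset.sum_eq_zero fun β' hβ' => ?_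
    have hβ2 := (Finset.mem_filter.1 hβ').2
    exfalso
    rw [← hβ2] at hp
    unfold rem at hp
    by_cases h : β' p = some j
    · rw [if_pos h] at hp
      cases hp
    · rw [if_neg h] at hp
      exact h hp

end Pool.Agent.LibSP4
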