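import Pool.Agent.LibSP4.B04

/-!
Row B07 (SHORT/MEDIUM): bounds of `y3`. `∑_{B ⊆ S} 1/ph B = ∏_{p∈S} (1 + 1/(p-1)) = rr S/ph S`, `sp P (rem P j β) ⊆ sp P β`,
`rr (sp P β) = rr (sp P (rem P j β)) * rr (fb P β j)`; if `y3 ≠ 0` then `rr (fb P β j) ≤ R` (some `B` counts, `rr B ≥ 1`) and
`rr (sp P (rem P j β)) ≤ z`.
-/

open Finset

namespace Pool.Agent.LibSP4

open Pool.Agent.LibRG87

variable {ι : Type} [Fintype ι] [DecidableEq ι]

private theorem B07_sum (S : Finset ℕ) (hS : ∀ p ∈ S, p.Prime) :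
    ∑ B ∈ S.powerset, 1 / ph B = rr S / ph S := by
  have h1 : ∏ p ∈ S, (1 / ((p : ℝ) - 1) + 1) = ∑ B ∈ S.powerset, 1 / ph B := by
    rw [Finset.prod_add]
    refine Finset.sum_congr rfl fun B _ => ?_
    rw [Finset.prod_const_one, mul_one]
    unfold ph
    rw [Finset.prod_div_distrib, Finset.prod_const_one]
  rw [← h1]
  unfold rr ph
  rw [← Finset.prod_div_distrib]
  refine Finset.prod_congr rfl fun p hp => ?_
  have h2 : (2 : ℝ) ≤ p := by exact_mod_cast (hS p hp).two_le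
  have h3 : (p : ℝ) - 1 ≠ 0 := by linarith
  field_simp
  ring

private theorem B07_mono (S T : Finset ℕ) (hST : S ⊆ T) (hT : ∀ p ∈ T, p.Prime) :
    rr S / ph S ≤ rr T / ph T := by
  unfold rr ph
  rw [← Finset.prod_div_distrib, ← Finset.prod_div_distrib]
  have h1 : ∀ p ∈ T, 1 ≤ (p : ℝ) / ((p : ℝ) - 1) := by
    intro p hp
    have h2 : (2 : ℝ) ≤ p := by exact_mod_cast (hT p hp).two_le
    rw [le_div_iff₀ (by linarith)]
    linarith
  exact Finset.prod_le_prod_of_subset_of_one_le hST (fun p hp => zero_le_one.trans (h1 p (hST hp)))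
    fun p hp _ => h1 p hp

private theorem B07_sp (P : Finset ℕ) (j : ι) (β : P → Option ι) :
    sp P β = sp P (rem P j β) ∪ fb P β j ∧ Disjoint (sp P (rem P j β)) (fb P β j) := by
  constructor
  · ext p
    rw [Finset.mem_union, mem_sp, mem_sp, mem_fb]
    constructor
    · rintro ⟨h, hp⟩
      by_cases hj : β ⟨p, h⟩ = some j
      · exact Or.inr ⟨h, hj⟩
      · refine Or.inl ⟨h, ?_⟩
        unfold rem
        rw [if_neg hj]
        exact hp
    · rintro (⟨h, hp⟩ | ⟨h, hp⟩)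
      · refine ⟨h, ?_⟩
        intro h0
        apply hp
        unfold rem
        rw [h0]
        rw [if_neg (by simp)]
      · refine ⟨h, ?_⟩
        rw [hp]
        simp
  · rw [Finset.disjoint_left]
    intro p hp hp'
    obtain ⟨h, hp⟩ := (mem_sp P).mp hp
    obtain ⟨h', hp'⟩ := (mem_fb P).mp hp'
    apply hp
    unfold rem
    rw [if_pos hp']

theorem y3_bd (P : Finset ℕ) (hP : ∀ p ∈ P, p.Prime) (y I : ℕ) (z R : ℝ) (hz : 0 ≤ z) (hR : 1 ≤ R) (i j : ι) (hij : i ≠ j)
    (β : P → Option ι) :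
    0 ≤ y3 P y I z R i j β ∧
      y3 P y I z R i j β ≤ S1 P y I ^ 2 / GG P R * (rr (sp P β) / ph (sp P β)) ∧
      (y3 P y I z R i j β ≠ 0 → rr (sp P β) ≤ z * R ∧ alw P (univ.erase i) β) := by
  classical
  have hG : 0 < GG P R := zero_lt_one.trans_le (one_le_GG hP hR)
  obtain ⟨ha, hb, hc⟩ := y2_bd P hP y I z i j (rem P j β)
  obtain ⟨hsp, hdis⟩ := B07_sp P j β
  have hsub : ∀ B ∈ (sp P (rem P j β)).powerset, B ⊆ P := fun B hB =>
    (Finset.mem_powerset.mp hB).trans (sp_subset P _)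
  have hph : ∀ B ∈ (sp P (rem P j β)).powerset, 0 ≤ 1 / ph B := fun B hB =>
    (one_div_pos.mpr (ph_pos P hP (hsub B hB))).le
  have hs0 : 0 ≤ ∑ B ∈ (sp P (rem P j β)).powerset with rr (fb P β j) * rr B ≤ R, 1 / ph B :=
    Finset.sum_nonneg fun B hB => hph B (Finset.mem_filter.mp hB).1
  have hs1 : ∑ B ∈ (sp P (rem P j β)).powerset with rr (fb P β j) * rr B ≤ R, 1 / ph B ≤
      rr (sp P β) / ph (sp P β) := by
    refine (Finset.sum_le_sum_of_subset_of_nonneg (Finset.filter_subset _ _)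
      fun B hB _ => hph B hB).trans ?_
    rw [B07_sum _ fun p hp => hP p (sp_subset P _ hp)]
    refine B07_mono _ _ ?_ fun p hp => hP p (sp_subset P _ hp)
    rw [hsp]
    exact Finset.subset_union_left
  have hy3 : y3 P y I z R i j β = y2 P y I z i j (rem P j β) *
      (∑ B ∈ (sp P (rem P j β)).powerset with rr (fb P β j) * rr B ≤ R, 1 / ph B) / GG P R := by
    unfold y3
    congr!
  rw [hy3]
  have hgg : ∏ m, gg y I (fb P (rem P j β) m) ≤ 1 :=
    Finset.prod_le_one (fun m _ => gg_nonneg y I _) fun m _ => gg_le_one y I _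
  have hb' : y2 P y I z i j (rem P j β) ≤ S1 P y I ^ 2 :=
    hb.trans (mul_le_of_le_one_right (sq_nonneg _) hgg)
  refine ⟨div_nonneg (mul_nonneg ha hs0) hG.le, ?_, ?_⟩
  · rw [div_mul_eq_mul_div]
    exact div_le_div_of_nonneg_right (mul_le_mul hb' hs1 hs0 (sq_nonneg _)) hG.le
  · intro hne
    have h1 : y2 P y I z i j (rem P j β) ≠ 0 := by
      intro h0
      rw [h0, zero_mul, zero_div] at hne
      exact hne rfl
    have h2 : ∑ B ∈ (sp P (rem P j β)).powerset with rr (fb P β j) * rr B ≤ R, 1 / ph B ≠ 0 := by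
      intro h0
      rw [h0, mul_zero, zero_div] at hne
      exact hne rfl
    obtain ⟨hz1, hz2⟩ := hc h1
    obtain ⟨B, hB, _⟩ := Finset.exists_ne_zero_of_sum_ne_zero h2
    obtain ⟨hB1, hB2⟩ := Finset.mem_filter.mp hB
    have hf0 : 0 ≤ rr (fb P β j) := (rr_pos P hP (fb_subset P _ _)).le
    have hR' : rr (fb P β j) ≤ R :=
      (le_mul_of_one_le_right hf0 (one_le_rr P hP (hsub B hB1))).trans hB2
    refine ⟨?_, ?_⟩
    · have e : rr (sp P β) = rr (sp P (rem P j β)) * rr (fb P β j) := by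
        rw [hsp]
        unfold rr
        exact Finset.prod_union hdis
      rw [e]
      exact mul_le_mul hz1 hR' hf0 hz
    · intro p m hm
      rw [Finset.mem_erase]
      refine ⟨?_, Finset.mem_univ m⟩
      rintro rfl
      apply (hz2 p).1
      unfold rem
      rw [hm, if_neg]
      intro h
      exact hij (Option.some.inj h)

end Pool.Agent.LibSP4
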