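import Pool.Agent.LibSP4.B07

/-!
Row B08 (MEDIUM): upper bound of the diagonal form of `y3`. Sum over `β'` as sum over `β = rem P j β'` (without `i`, `j`) and `A = fb P β' j ⊆ P \ sp β`,
`ph (sp β') = ph (sp β) ph A`. The bracket is `≤ (1/G) rr (sp β)/ph (sp β)` and `0` unless `rr A ≤ R`; so
`DD y3 ≤ (1/G²) ∑_β y2(β)² (rr/ph)² / ph (sp β) * ∑_{A, rr A ≤ R} 1/ph A = (1/G) ∑_β y2² (rr/ph)²/ph`.
`y2² ≤ S1⁴ ∏ gg(fb β m)²`, product over the `card ι - 2` positions `m ≠ i, j` (`gg ∅ = 1`), as in `LibPL63/M5.lean` (`M5_ext`) or with families `A : {m // m ≠ i ∧ m ≠ j} → Finset ℕ`;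
and `∑_A gg(A)² (rr A/ph A)²/ph A ≤ S2 ∏_p (1 + 3/(p-1)²)`: `(rr A/ph A)² ≤ ∏_{p∈A} (1 + 3/(p-1)) = ∑_{B ⊆ A} ∏_{p∈B} 3/(p-1)` (`2p-1 ≤ 3(p-1)`),
swap, write `A = B ∪ A'`, `gg (B ∪ A') ≤ gg A'` (`gg_anti`), `ph A = ph B ph A'`.
-/

open Finset

namespace Pool.Agent.LibSP4

open Pool.Agent.LibRG87

variable {ι : Type} [Fintype ι] [DecidableEq ι]

private theorem B8_rr_le (P : Finset ℕ) (hP : ∀ p ∈ P, Nat.Prime p) {A B : Finset ℕ} (hB : B ⊆ P)
    (hAB : A ⊆ B) : rr A ≤ rr B := by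
  unfold rr
  rw [← Finset.prod_sdiff hAB]
  have h1 : (1 : ℝ) ≤ ∏ p ∈ B \ A, (p : ℝ) :=
    one_le_rr P hP (A := B \ A) (Finset.sdiff_subset.trans hB)
  have h2 : (0 : ℝ) ≤ ∏ p ∈ A, (p : ℝ) := Finset.prod_nonneg fun p _ => Nat.cast_nonneg p
  nlinarith

private theorem B8_split (P : Finset ℕ) (hP : ∀ p ∈ P, p.Prime) (y I : ℕ) (B : Finset ℕ)
    (hB : B ⊆ P) (D : DecidablePred fun A : Finset ℕ => B ⊆ A) :
    ∑ A ∈ P.powerset with B ⊆ A, gg y I A ^ 2 / ph A ≤ S2 P y I / ph B := by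
  have h1 : ∑ A ∈ P.powerset with B ⊆ A, gg y I A ^ 2 / ph A =
      ∑ A ∈ (P \ B).powerset, gg y I (B ∪ A) ^ 2 / ph (B ∪ A) := by
    refine Finset.sum_nbij' (fun A => A \ B) (fun A => B ∪ A) ?_ ?_ ?_ ?_ ?_
    · intro A hA
      rw [Finset.mem_filter, Finset.mem_powerset] at hA
      rw [Finset.mem_powerset]
      exact Finset.sdiff_subset_sdiff hA.1 le_rfl
    · intro A hA
      rw [Finset.mem_powerset] at hA
      rw [Finset.mem_filter, Finset.mem_powerset]
      exact ⟨Finset.union_subset hB (hA.trans Finset.sdiff_subset), Finset.subset_union_left⟩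
    · intro A hA
      rw [Finset.mem_filter] at hA
      exact Finset.union_sdiff_of_subset hA.2
    · intro A hA
      rw [Finset.mem_powerset] at hA
      show (B ∪ A) \ B = A
      ext p
      simp only [Finset.mem_union, Finset.mem_sdiff]
      constructor
      · rintro ⟨h | h, hn⟩
        · exact absurd h hn
        · exact h
      · intro h
        exact ⟨Or.inr h, (Finset.mem_sdiff.1 (hA h)).2⟩
    · intro A hA
      rw [Finset.mem_filter] at hA
      show _ = gg y I (B ∪ A \ B) ^ 2 / ph (B ∪ A \ B)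
      rw [Finset.union_sdiff_of_subset hA.2]
  rw [h1]
  have hBp := ph_pos P hP hB
  have h2 : ∑ A ∈ (P \ B).powerset, gg y I (B ∪ A) ^ 2 / ph (B ∪ A) ≤
      ∑ A ∈ (P \ B).powerset, gg y I A ^ 2 / ph A / ph B := by
    refine Finset.sum_le_sum fun A hA => ?_
    rw [Finset.mem_powerset] at hA
    have hAP : A ⊆ P := hA.trans Finset.sdiff_subset
    have hdis : Disjoint B A := by
      rw [Finset.disjoint_left]
      intro p hp hp'
      exact (Finset.mem_sdiff.1 (hA hp')).2 hp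
    have h3 : ph (B ∪ A) = ph B * ph A := by
      unfold ph
      exact Finset.prod_union hdis
    have h4 : gg y I (B ∪ A) ≤ gg y I A :=
      gg_anti y I (B8_rr_le P hP (Finset.union_subset hB hAP) Finset.subset_union_right)
    have h5 : gg y I (B ∪ A) ^ 2 ≤ gg y I A ^ 2 := pow_le_pow_left₀ (gg_nonneg _ _ _) h4 2
    have h6 := ph_pos P hP hAP
    rw [h3, div_div, mul_comm (ph B)]
    exact div_le_div_of_nonneg_right h5 (mul_pos h6 hBp).le
  refine h2.trans ?_
  rw [← Finset.sum_div]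
  refine div_le_div_of_nonneg_right ?_ hBp.le
  unfold S2
  refine Finset.sum_le_sum_of_subset_of_nonneg (Finset.powerset_mono.2 Finset.sdiff_subset) ?_
  intro A hA _
  exact div_nonneg (sq_nonneg _) (ph_pos P hP (Finset.mem_powerset.1 hA)).le

theorem sum_gg_rr (P : Finset ℕ) (hP : ∀ p ∈ P, p.Prime) {y : ℕ} (hy : 1 ≤ y) (I : ℕ) :
    ∑ A ∈ P.powerset, gg y I A ^ 2 / ph A * (rr A / ph A) ^ 2 ≤
      S2 P y I * ∏ p ∈ P, (1 + 3 / ((p : ℝ) - 1) ^ 2) := by
  classical
  have hnn : ∀ A ∈ P.powerset, 0 ≤ gg y I A ^ 2 / ph A := fun A hA =>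
    div_nonneg (sq_nonneg _) (ph_pos P hP (Finset.mem_powerset.1 hA)).le
  have h1 : ∀ A ∈ P.powerset, (rr A / ph A) ^ 2 ≤ ∑ B ∈ A.powerset, ∏ p ∈ B, 3 / ((p : ℝ) - 1) := by
    intro A hA
    have hA' := Finset.mem_powerset.1 hA
    rw [← Finset.prod_one_add]
    unfold rr ph
    rw [← Finset.prod_div_distrib, ← Finset.prod_pow]
    refine Finset.prod_le_prod (fun p hp => sq_nonneg _) fun p hp => ?_
    have h2 : (2 : ℝ) ≤ p := by exact_mod_cast (hP p (hA' hp)).two_le
    have h3 : (0 : ℝ) < (p : ℝ) - 1 := by linarith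
    rw [div_pow, div_le_iff₀ (by positivity)]
    have h4 : (1 + 3 / ((p : ℝ) - 1)) * ((p : ℝ) - 1) ^ 2 =
        ((p : ℝ) - 1) ^ 2 + 3 * ((p : ℝ) - 1) := by
      field_simp
    rw [h4]
    nlinarith
  calc ∑ A ∈ P.powerset, gg y I A ^ 2 / ph A * (rr A / ph A) ^ 2
      ≤ ∑ A ∈ P.powerset, ∑ B ∈ A.powerset,
          gg y I A ^ 2 / ph A * ∏ p ∈ B, 3 / ((p : ℝ) - 1) := by
        refine Finset.sum_le_sum fun A hA => ?_
        rw [← Finset.mul_sum]
        exact mul_le_mul_of_nonneg_left (h1 A hA) (hnn A hA)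
    _ = ∑ B ∈ P.powerset, ∑ A ∈ P.powerset with B ⊆ A,
          gg y I A ^ 2 / ph A * ∏ p ∈ B, 3 / ((p : ℝ) - 1) := by
        refine Finset.sum_comm' fun A B => ?_
        simp only [Finset.mem_powerset, Finset.mem_filter]
        constructor
        · rintro ⟨h1, h2⟩
          exact ⟨⟨h1, h2⟩, h2.trans h1⟩
        · rintro ⟨⟨h1, h2⟩, _⟩
          exact ⟨h1, h2⟩
    _ ≤ ∑ B ∈ P.powerset, S2 P y I * ∏ p ∈ B, 3 / ((p : ℝ) - 1) ^ 2 := by
        refine Finset.sum_le_sum fun B hB => ?_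
        rw [← Finset.sum_mul]
        have hB' := Finset.mem_powerset.1 hB
        have h4 := B8_split P hP y I B hB' inferInstance
        have h5 : 0 ≤ ∏ p ∈ B, 3 / ((p : ℝ) - 1) := by
          refine Finset.prod_nonneg fun p hp => ?_
          have h2 : (2 : ℝ) ≤ p := by exact_mod_cast (hP p (hB' hp)).two_le
          exact div_nonneg (by norm_num) (by linarith)
        refine (mul_le_mul_of_nonneg_right h4 h5).trans (le_of_eq ?_)
        rw [div_mul_eq_mul_div, mul_div_assoc]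
        congr 1
        unfold ph
        rw [← Finset.prod_div_distrib]
        refine Finset.prod_congr rfl fun p hp => ?_
        rw [div_div, sq]
    _ = _ := by rw [← Finset.mul_sum, Finset.prod_one_add]

private theorem B8_inj (P : Finset ℕ) (j : ι) :
    Function.Injective fun β : P → Option ι => (rem P j β, fb P β j) := by
  intro β β' h
  have h1 : rem P j β = rem P j β' := congrArg Prod.fst h
  have h2 : fb P β j = fb P β' j := congrArg Prod.snd h
  funext p
  have h3 := congrFun h1 p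
  unfold rem at h3
  have h4 : β p = some j ↔ β' p = some j := by
    have h5 : (p : ℕ) ∈ fb P β j ↔ (p : ℕ) ∈ fb P β' j := by rw [h2]
    rw [mem_fb, mem_fb] at h5
    constructor
    · intro hb
      obtain ⟨_, hb'⟩ := h5.1 ⟨p.2, hb⟩
      exact hb'
    · intro hb
      obtain ⟨_, hb'⟩ := h5.2 ⟨p.2, hb⟩
      exact hb'
  by_cases hb : β p = some j
  · rw [hb, h4.1 hb]
  · rw [if_neg hb, if_neg (fun h => hb (h4.2 h))] at h3
    exact h3

private theorem B8_ph (P : Finset ℕ) (j : ι) (β : P → Option ι) :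
    ph (sp P β) = ph (fb P β j) * ph (sp P (rem P j β)) := by
  have h0 : ph ∅ = 1 := by
    unfold ph
    rw [Finset.prod_empty]
  rw [ph_sp, ph_sp, R10_prod P ph h0 j β]
  rfl

private theorem B8_inv_ph (S : Finset ℕ) :
    ∑ B ∈ S.powerset, 1 / ph B = ∏ p ∈ S, (1 + 1 / ((p : ℝ) - 1)) := by
  rw [Finset.prod_one_add]
  refine Finset.sum_congr rfl fun B _ => ?_
  unfold ph
  rw [one_div, ← Finset.prod_inv_distrib]
  refine Finset.prod_congr rfl fun p _ => ?_
  rw [one_div]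

private theorem B8_inv_ph' (P : Finset ℕ) (hP : ∀ p ∈ P, p.Prime) (S : Finset ℕ) (hS : S ⊆ P) :
    ∑ B ∈ S.powerset, 1 / ph B = rr S / ph S := by
  rw [B8_inv_ph]
  unfold rr ph
  rw [← Finset.prod_div_distrib]
  refine Finset.prod_congr rfl fun p hp => ?_
  have h2 : (2 : ℝ) ≤ p := by exact_mod_cast (hP p (hS hp)).two_le
  have h3 : (p : ℝ) - 1 ≠ 0 := by
    intro h
    linarith
  field_simp
  ring

/-- the bound of one term -/
private theorem B8_term (P : Finset ℕ) (hP : ∀ p ∈ P, p.Prime) (y I : ℕ) (z R : ℝ)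
    (hR : 1 ≤ R) (i j : ι) (β : P → Option ι) (D : DecidablePred fun A : Finset ℕ => rr A ≤ R) :
    y3 P y I z R i j β ^ 2 / ph (sp P β) ≤
      (y2 P y I z i j (rem P j β) ^ 2 * (rr (sp P (rem P j β)) / ph (sp P (rem P j β))) ^ 2 /
        ph (sp P (rem P j β)) / GG P R ^ 2) *
        (if rr (fb P β j) ≤ R then 1 / ph (fb P β j) else 0) := by
  classical
  set γ := rem P j β with hγ
  set A := fb P β j with hA
  have hAP : A ⊆ P := fb_subset P β j
  have hSP : sp P γ ⊆ P := sp_subset P γ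
  have hphA := ph_pos P hP hAP
  have hphS := ph_pos P hP hSP
  have hG : 0 < GG P R := lt_of_lt_of_le one_pos (one_le_GG hP hR)
  have hph : ph (sp P β) = ph A * ph (sp P γ) := B8_ph P j β
  have hy3 : y3 P y I z R i j β = y2 P y I z i j γ *
    (∑ B ∈ (sp P γ).powerset with rr A * rr B ≤ R, 1 / ph B) / GG P R := by
    unfold y3
    rfl
  set Br := ∑ B ∈ (sp P γ).powerset with rr A * rr B ≤ R, 1 / ph B with hBr
  have hnn : ∀ B ∈ (sp P γ).powerset, 0 ≤ 1 / ph B := fun B hB =>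
    div_nonneg zero_le_one (ph_pos P hP ((Finset.mem_powerset.1 hB).trans hSP)).le
  have hBr0 : 0 ≤ Br := Finset.sum_nonneg fun B hB => hnn B (Finset.mem_filter.1 hB).1
  by_cases hAR : rr A ≤ R
  · rw [if_pos hAR, hy3, hph]
    have hBr1 : Br ≤ rr (sp P γ) / ph (sp P γ) := by
      rw [← B8_inv_ph' P hP _ hSP]
      exact Finset.sum_le_sum_of_subset_of_nonneg (Finset.filter_subset _ _)
        (fun B hB _ => hnn B hB)
    have h1 : Br ^ 2 ≤ (rr (sp P γ) / ph (sp P γ)) ^ 2 := pow_le_pow_left₀ hBr0 hBr1 2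
    have h2 : (y2 P y I z i j γ * Br / GG P R) ^ 2 / (ph A * ph (sp P γ)) =
        (y2 P y I z i j γ ^ 2 / (ph A * ph (sp P γ) * GG P R ^ 2)) * Br ^ 2 := by
      field_simp
    have h3 : y2 P y I z i j γ ^ 2 * (rr (sp P γ) / ph (sp P γ)) ^ 2 / ph (sp P γ) /
        GG P R ^ 2 * (1 / ph A) =
        (y2 P y I z i j γ ^ 2 / (ph A * ph (sp P γ) * GG P R ^ 2)) *
          (rr (sp P γ) / ph (sp P γ)) ^ 2 := by
      field_simp
    rw [h2, h3]
    exact mul_le_mul_of_nonneg_left h1 (div_nonneg (sq_nonneg _) (by positivity))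
  · rw [if_neg hAR, mul_zero]
    have hBr1 : Br = 0 := by
      rw [hBr]
      refine Finset.sum_eq_zero fun B hB => ?_
      exfalso
      rw [Finset.mem_filter, Finset.mem_powerset] at hB
      have h1 : 1 ≤ rr B := one_le_rr P hP (hB.1.trans hSP)
      have h2 : 0 < rr A := rr_pos P hP hAP
      have h3 := hB.2
      apply hAR
      nlinarith
    rw [hy3, hBr1, mul_zero, zero_div, zero_pow two_ne_zero, zero_div]

private theorem B8_rrph (P : Finset ℕ) (β : P → Option ι) :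
    (rr (sp P β) / ph (sp P β)) ^ 2 / ph (sp P β) =
      ∏ m, ((rr (fb P β m) / ph (fb P β m)) ^ 2 / ph (fb P β m)) := by
  rw [rr_sp, ph_sp, ← Finset.prod_div_distrib, ← Finset.prod_pow, ← Finset.prod_div_distrib]

/-- the sum over the families with `A i = A j = ∅` -/
private theorem B8_fam (P : Finset ℕ) (F : Finset ℕ → ℝ) (hF : F ∅ = 1) (i j : ι) (hij : i ≠ j)
    (D : DecidablePred fun A : ι → Finset ℕ => A i = ∅ ∧ A j = ∅) :
    ∑ A ∈ Fintype.piFinset (fun _ : ι => P.powerset),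
        (if A i = ∅ ∧ A j = ∅ then ∏ k, F (A k) else 0) =
      (∑ A ∈ P.powerset, F A) ^ (Fintype.card ι - 2) := by
  classical
  have h1 : ∀ A : ι → Finset ℕ, (if A i = ∅ ∧ A j = ∅ then ∏ k, F (A k) else 0) =
      ∏ k, (if (k = i ∨ k = j) ∧ A k ≠ ∅ then 0 else F (A k)) := by
    intro A
    by_cases h : A i = ∅ ∧ A j = ∅
    · rw [if_pos h]
      refine Finset.prod_congr rfl fun k _ => ?_
      rw [if_neg]
      rintro ⟨rfl | rfl, h'⟩
      · exact h' h.1
      · exact h' h.2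
    · rw [if_neg h]
      symm
      rw [not_and_or] at h
      rcases h with h | h
      · exact Finset.prod_eq_zero (Finset.mem_univ i) (if_pos ⟨Or.inl rfl, h⟩)
      · exact Finset.prod_eq_zero (Finset.mem_univ j) (if_pos ⟨Or.inr rfl, h⟩)
  rw [Finset.sum_congr rfl fun A _ => h1 A]
  rw [← Finset.prod_univ_sum (fun _ : ι => P.powerset)
      (fun k A => if (k = i ∨ k = j) ∧ A ≠ ∅ then 0 else F A)]
  have h3 : ∀ k : ι, ∑ A ∈ P.powerset, (if (k = i ∨ k = j) ∧ A ≠ ∅ then 0 else F A) =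
      if (k = i ∨ k = j) then 1 else ∑ A ∈ P.powerset, F A := by
    intro k
    by_cases hk : k = i ∨ k = j
    · rw [if_pos hk]
      rw [Finset.sum_eq_single_of_mem ∅ (Finset.empty_mem_powerset P)]
      · rw [if_neg (fun h => h.2 rfl), hF]
      · intro A _ hA
        rw [if_pos ⟨hk, hA⟩]
    · rw [if_neg hk]
      refine Finset.sum_congr rfl fun A _ => ?_
      rw [if_neg (fun h => hk h.1)]
  rw [Finset.prod_congr rfl fun k _ => h3 k, Finset.prod_ite, Finset.prod_const_one, one_mul,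
    Finset.prod_const]
  congr 1
  have h5 : (Finset.univ.filter fun k : ι => ¬ (k = i ∨ k = j)) = Finset.univ \ {i, j} := by
    ext k
    simp
  rw [h5, Finset.card_sdiff_of_subset (Finset.subset_univ _), Finset.card_pair hij,
    Finset.card_univ]

theorem DD_y3_le (P : Finset ℕ) (hP : ∀ p ∈ P, p.Prime) {y : ℕ} (hy : 1 ≤ y) (I : ℕ) (z R : ℝ) (hz : 0 ≤ z) (hR : 1 ≤ R)
    (i j : ι) (hij : i ≠ j) :
    DD P (y3 P y I z R i j) ≤ S1 P y I ^ 4 / GG P R *
      (S2 P y I * ∏ p ∈ P, (1 + 3 / ((p : ℝ) - 1) ^ 2)) ^ (Fintype.card ι - 2) := by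
  classical
  have hG : 0 < GG P R := lt_of_lt_of_le one_pos (one_le_GG hP hR)
  set K : (P → Option ι) → ℝ := fun γ =>
    y2 P y I z i j γ ^ 2 * (rr (sp P γ) / ph (sp P γ)) ^ 2 / ph (sp P γ) with hK
  have hK0 : ∀ γ, 0 ≤ K γ := fun γ =>
    div_nonneg (mul_nonneg (sq_nonneg _) (sq_nonneg _)) (ph_pos P hP (sp_subset P γ)).le
  -- step 1: sum over the pairs
  have h1 : DD P (y3 P y I z R i j) ≤
      ∑ γ : P → Option ι, ∑ A ∈ P.powerset, K γ / GG P R ^ 2 *
        (if rr A ≤ R then 1 / ph A else 0) := by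
    unfold DD
    have h2 : ∑ β : P → Option ι, y3 P y I z R i j β ^ 2 / ph (sp P β) ≤
        ∑ β : P → Option ι, (fun x : (P → Option ι) × Finset ℕ => K x.1 / GG P R ^ 2 *
          (if rr x.2 ≤ R then 1 / ph x.2 else 0)) (rem P j β, fb P β j) :=
      Finset.sum_le_sum fun β _ => B8_term P hP y I z R hR i j β _
    refine h2.trans ?_
    rw [← Finset.sum_product']
    rw [← Finset.sum_image (s := Finset.univ)
      (g := fun β : P → Option ι => (rem P j β, fb P β j))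
      (f := fun x : (P → Option ι) × Finset ℕ => K x.1 / GG P R ^ 2 *
          (if rr x.2 ≤ R then 1 / ph x.2 else 0)) (fun a _ b _ h => B8_inj P j h)]
    refine Finset.sum_le_sum_of_subset_of_nonneg ?_ ?_
    · intro x hx
      rw [Finset.mem_image] at hx
      obtain ⟨β, _, rfl⟩ := hx
      rw [Finset.mem_product]
      exact ⟨Finset.mem_univ _, Finset.mem_powerset.2 (fb_subset P β j)⟩
    · intro x hx _
      rw [Finset.mem_product] at hx
      refine mul_nonneg (div_nonneg (hK0 _) (sq_nonneg _)) ?_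
      split_ifs
      · exact div_nonneg zero_le_one (ph_pos P hP (Finset.mem_powerset.1 hx.2)).le
      · exact le_rfl
  -- step 2: the sum over A
  have h2 : ∀ γ : P → Option ι, ∑ A ∈ P.powerset, K γ / GG P R ^ 2 *
        (if rr A ≤ R then 1 / ph A else 0) = K γ / GG P R := by
    intro γ
    rw [← Finset.mul_sum, ← Finset.sum_filter]
    have h3 : ∑ A ∈ P.powerset with rr A ≤ R, 1 / ph A = GG P R := by
      unfold GG
      refine Finset.sum_congr ?_ fun _ _ => rfl
      ext A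
      simp only [Finset.mem_filter]
    rw [h3]
    field_simp
  rw [Finset.sum_congr rfl fun γ _ => h2 γ] at h1
  -- step 3: the bound of K
  set F : Finset ℕ → ℝ := fun A => gg y I A ^ 2 / ph A * (rr A / ph A) ^ 2 with hF
  have hFnn : ∀ A ∈ P.powerset, 0 ≤ F A := fun A hA =>
    mul_nonneg (div_nonneg (sq_nonneg _) (ph_pos P hP (Finset.mem_powerset.1 hA)).le)
      (sq_nonneg _)
  have h3 : ∀ γ : P → Option ι, K γ ≤ S1 P y I ^ 4 *
      (if fb P γ i = ∅ ∧ fb P γ j = ∅ then ∏ k, F (fb P γ k) else 0) := by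
    intro γ
    obtain ⟨b0, b1, b2⟩ := y2_bd P hP y I z i j γ
    by_cases hne : y2 P y I z i j γ = 0
    · rw [hK]
      show y2 P y I z i j γ ^ 2 * (rr (sp P γ) / ph (sp P γ)) ^ 2 / ph (sp P γ) ≤ _
      rw [hne, zero_pow two_ne_zero, zero_mul, zero_div]
      refine mul_nonneg (by positivity) ?_
      split_ifs
      · exact Finset.prod_nonneg fun k _ => hFnn _ (Finset.mem_powerset.2 (fb_subset P γ k))
      · exact le_rfl
    · obtain ⟨_, b3⟩ := b2 hne
      have hem : ∀ k, (∀ p, γ p ≠ some k) → fb P γ k = ∅ := by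
        intro k hk
        rw [Finset.eq_empty_iff_forall_notMem]
        intro p hp
        obtain ⟨h, hb⟩ := (mem_fb P).1 hp
        exact hk _ hb
      rw [if_pos ⟨hem i fun p => (b3 p).1, hem j fun p => (b3 p).2⟩]
      have h4 : ∏ k, F (fb P γ k) = (∏ k, gg y I (fb P γ k)) ^ 2 *
          ((rr (sp P γ) / ph (sp P γ)) ^ 2 / ph (sp P γ)) := by
        rw [B8_rrph, ← Finset.prod_pow, ← Finset.prod_mul_distrib]
        refine Finset.prod_congr rfl fun k _ => ?_
        rw [hF]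
        ring
      rw [h4]
      show y2 P y I z i j γ ^ 2 * (rr (sp P γ) / ph (sp P γ)) ^ 2 / ph (sp P γ) ≤ _
      have h5 : y2 P y I z i j γ ^ 2 ≤ (S1 P y I ^ 2 * ∏ m, gg y I (fb P γ m)) ^ 2 :=
        pow_le_pow_left₀ b0 b1 2
      have h6 : 0 ≤ (rr (sp P γ) / ph (sp P γ)) ^ 2 / ph (sp P γ) :=
        div_nonneg (sq_nonneg _) (ph_pos P hP (sp_subset P γ)).le
      have h7 := mul_le_mul_of_nonneg_right h5 h6
      calc y2 P y I z i j γ ^ 2 * (rr (sp P γ) / ph (sp P γ)) ^ 2 / ph (sp P γ)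
          = y2 P y I z i j γ ^ 2 * ((rr (sp P γ) / ph (sp P γ)) ^ 2 / ph (sp P γ)) := by ring
        _ ≤ _ := h7
        _ = _ := by ring
  -- step 4
  have h4 : ∑ γ : P → Option ι, K γ ≤ S1 P y I ^ 4 *
      (∑ A ∈ P.powerset, F A) ^ (Fintype.card ι - 2) := by
    have hF1 : F ∅ = 1 := by
      rw [hF]
      show gg y I ∅ ^ 2 / ph ∅ * (rr ∅ / ph ∅) ^ 2 = 1
      have e1 : ph ∅ = 1 := by
        unfold ph
        rw [Finset.prod_empty]
      have e2 : rr ∅ = 1 := by
        unfold rr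
        rw [Finset.prod_empty]
      rw [gg_empty hy I, e1, e2]
      norm_num
    calc ∑ γ : P → Option ι, K γ ≤ ∑ γ : P → Option ι, S1 P y I ^ 4 *
        (fun A : ι → Finset ℕ => if A i = ∅ ∧ A j = ∅ then ∏ k, F (A k) else 0) (fb P γ) :=
          Finset.sum_le_sum fun γ _ => h3 γ
      _ = S1 P y I ^ 4 * ∑ γ : P → Option ι,
        (fun A : ι → Finset ℕ => if A i = ∅ ∧ A j = ∅ then ∏ k, F (A k) else 0) (fb P γ) := by
          rw [Finset.mul_sum]
      _ ≤ _ := by
          refine mul_le_mul_of_nonneg_left ?_ (by positivity)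
          refine (sum_beta_le P _ ?_).trans (le_of_eq (B8_fam P F hF1 i j hij _))
          intro A hA
          rw [Fintype.mem_piFinset] at hA
          show 0 ≤ if A i = ∅ ∧ A j = ∅ then ∏ k, F (A k) else 0
          split_ifs
          · exact Finset.prod_nonneg fun k _ => hFnn _ (hA k)
          · exact le_rfl
  -- conclusion
  have h5 : (∑ A ∈ P.powerset, F A) ^ (Fintype.card ι - 2) ≤
      (S2 P y I * ∏ p ∈ P, (1 + 3 / ((p : ℝ) - 1) ^ 2)) ^ (Fintype.card ι - 2) :=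
    pow_le_pow_left₀ (Finset.sum_nonneg hFnn) (sum_gg_rr P hP hy I) _
  calc DD P (y3 P y I z R i j) ≤ ∑ γ : P → Option ι, K γ / GG P R := h1
    _ = (∑ γ : P → Option ι, K γ) / GG P R := by rw [Finset.sum_div]
    _ ≤ (S1 P y I ^ 4 * (∑ A ∈ P.powerset, F A) ^ (Fintype.card ι - 2)) / GG P R :=
        div_le_div_of_nonneg_right h4 hG.le
    _ ≤ (S1 P y I ^ 4 * (S2 P y I * ∏ p ∈ P, (1 + 3 / ((p : ℝ) - 1) ^ 2)) ^
          (Fintype.card ι - 2)) / GG P R :=
        div_le_div_of_nonneg_right (mul_le_mul_of_nonneg_left h5 (by positivity)) hG.le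
    _ = _ := by ring

end Pool.Agent.LibSP4
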