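import Pool.Agent.LibSP4.Defs

/-!
Row B10 (MEDIUM): the quadratic form is nearly diagonal. Model: `LibPL63/Q1.lean` (`off_sum`: telescoping `Q1_tel`, factorization `Q1_fac`, `Q1_fac2`; copy them).
`DD y = ∑_{β,β'} y y' ∏_p d_p(β p, β' p)`, `d_p(none,none) = 1`, `d_p(some i, some i) = 1/(p-1)`, else `0`. For `1/p ≤ h p ≤ 1/(p-1)`:
`|mm none (some i)| ≤ 1/(p-1)²`, `|mm (some i) (some i) - 1/(p-1)| ≤ 1/(p-1)²`, `|mm (some i) (some k)| ≤ 2/(p-1)²` for `i ≠ k` (`p ≥ 3`).
With `v_p(none) = 1`, `v_p(some i) = p/(p-1) ≤ 3/2`: `|y β| ≤ Y ∏_p v_p(β p)`. So the difference is at most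
`Y² ∑_{p0} ∑_{β,β'} |mm - d|_{p0} v v' ∏_{p≠p0} (|d_p| + |mm_p - d_p|) v v'` over `β, β'` with positions in `J`, and the sum factorizes:
`∑_{o,o'} v v' |mm - d| ≤ C/(p-1)²`, `∑_{o,o'} v v' (|d| + |mm - d|) ≤ 1 + j (p/(p-1))²/(p-1) + C/(p-1)² ≤ 1 + j/(p-1) + C'/(p-1)²`; `C = 32 (j+1)²` is enough.
-/

open Finset

namespace Pool.Agent.LibSP4

open Pool.Agent.LibRG87

private theorem B10_tel {α : Type} [DecidableEq α] (s : Finset α) (e d : α → ℝ) :
    |∏ a ∈ s, e a - ∏ a ∈ s, d a| ≤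
      ∑ a0 ∈ s, ∏ a ∈ s, (if a = a0 then |e a - d a| else |d a| + |e a - d a|) := by
  induction s using Finset.induction_on with
  | empty => simp
  | insert a s ha ih =>
    rw [Finset.prod_insert ha, Finset.prod_insert ha, Finset.sum_insert ha]
    have h1 : ∏ x ∈ insert a s, (if x = a then |e x - d x| else |d x| + |e x - d x|) =
        |e a - d a| * ∏ x ∈ s, (|d x| + |e x - d x|) := by
      rw [Finset.prod_insert ha, if_pos rfl]
      congr 1
      refine Finset.prod_congr rfl fun x hx => ?_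
      rw [if_neg]
      intro h
      exact ha (h ▸ hx)
    have h2 : ∀ a0 ∈ s, ∏ x ∈ insert a s, (if x = a0 then |e x - d x| else |d x| + |e x - d x|) =
        (|d a| + |e a - d a|) * ∏ x ∈ s, (if x = a0 then |e x - d x| else |d x| + |e x - d x|) := by
      intro a0 ha0
      rw [Finset.prod_insert ha, if_neg]
      intro h
      exact ha (h ▸ ha0)
    rw [h1, Finset.sum_congr rfl h2, ← Finset.mul_sum]
    have h3 : e a * ∏ a ∈ s, e a - d a * ∏ a ∈ s, d a =
        (e a - d a) * ∏ a ∈ s, e a + d a * (∏ a ∈ s, e a - ∏ a ∈ s, d a) := by ring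
    have h4 : |∏ a ∈ s, e a| ≤ ∏ x ∈ s, (|d x| + |e x - d x|) := by
      rw [Finset.abs_prod]
      refine Finset.prod_le_prod (fun x _ => abs_nonneg _) fun x _ => ?_
      have := abs_add_le (d x) (e x - d x)
      rwa [add_sub_cancel] at this
    rw [h3]
    refine (abs_add_le _ _).trans (add_le_add ?_ ?_)
    · rw [abs_mul]
      exact mul_le_mul_of_nonneg_left h4 (abs_nonneg _)
    · rw [abs_mul]
      refine mul_le_mul ?_ ih (abs_nonneg _) (by positivity)
      exact le_add_of_nonneg_right (abs_nonneg _)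

section

variable {ι : Type} [Fintype ι] [DecidableEq ι] (P : Finset ℕ)

/-- the diagonal local matrix -/
private noncomputable def B10_d (p : ℕ) (o o' : Option ι) : ℝ :=
  if o = o' then (if o = none then 1 else 1 / ((p : ℝ) - 1)) else 0

/-- the local factor of the bound for the coefficients -/
private noncomputable def B10_v (p : ℕ) (o : Option ι) : ℝ :=
  if o = none then 1 else (p : ℝ) / ((p : ℝ) - 1)

omit [Fintype ι] in
private theorem B10_Dd (β β' : P → Option ι) :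
    (if β = β' then 1 / ph (sp P β) else 0) = ∏ p : P, B10_d (p : ℕ) (β p) (β' p) := by
  unfold B10_d
  by_cases h : β = β'
  · subst h
    rw [if_pos rfl]
    simp only [if_true]
    unfold ph sp
    rw [Finset.prod_image (fun a _ b _ hab => Subtype.ext hab), one_div, ← Finset.prod_inv_distrib,
      Finset.prod_filter]
    refine Finset.prod_congr rfl fun p _ => ?_
    by_cases hp : β p = none
    · rw [if_neg (not_not.2 hp), if_pos hp]
    · rw [if_pos hp, if_neg hp, one_div]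
  · rw [if_neg h]
    obtain ⟨p, hp⟩ := Function.ne_iff.1 h
    refine (Finset.prod_eq_zero (Finset.mem_univ p) ?_).symm
    rw [if_neg hp]

omit [Fintype ι] [DecidableEq ι] in
private theorem B10_V (β : P → Option ι) :
    rr (sp P β) / ph (sp P β) = ∏ p : P, B10_v (p : ℕ) (β p) := by
  unfold B10_v rr ph sp
  rw [← Finset.prod_div_distrib, Finset.prod_image (fun a _ b _ hab => Subtype.ext hab),
    Finset.prod_filter]
  refine Finset.prod_congr rfl fun p _ => ?_
  by_cases hp : β p = none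
  · rw [if_neg (not_not.2 hp), if_pos hp]
  · rw [if_pos hp, if_neg hp]

private theorem B10_DD (y : (P → Option ι) → ℝ) :
    DD P y = ∑ β, ∑ β', y β * y β' * ∏ p : P, B10_d (p : ℕ) (β p) (β' p) := by
  unfold DD
  refine Finset.sum_congr rfl fun β _ => ?_
  rw [Finset.sum_eq_single β]
  · rw [← B10_Dd, if_pos rfl]
    ring
  · intro β' _ hne
    rw [← B10_Dd, if_neg (fun h => hne h.symm), mul_zero]
  · intro h
    exact absurd (Finset.mem_univ _) h

omit [DecidableEq ι] in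
private theorem B10_fac (g : P → Option ι → Option ι → ℝ) :
    ∑ β : P → Option ι, ∑ β' : P → Option ι, ∏ p : P, g p (β p) (β' p) =
      ∏ p : P, ∑ o, ∑ o', g p o o' := by
  have h1 : ∀ f : P → Option ι → ℝ, ∑ β : P → Option ι, ∏ p : P, f p (β p) = ∏ p : P, ∑ o, f p o := by
    intro f
    have := Finset.prod_univ_sum (fun _ : P => (Finset.univ : Finset (Option ι))) f
    rw [this, Fintype.piFinset_univ]
  rw [← h1 (fun p o => ∑ o', g p o o')]
  refine Finset.sum_congr rfl fun β _ => ?_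
  exact h1 (fun p o' => g p (β p) o')

open scoped Classical in
private theorem B10_fac2 (J : Finset ι) (g : P → Option ι → Option ι → ℝ) :
    ∑ β : P → Option ι, ∑ β' : P → Option ι,
        (if alw P J β ∧ alw P J β' then ∏ p : P, g p (β p) (β' p) else 0) =
      ∏ p : P, ∑ o, ∑ o', (if (∀ i, o = some i → i ∈ J) ∧ (∀ i, o' = some i → i ∈ J) then
        g p o o' else 0) := by
  rw [← B10_fac]
  refine Finset.sum_congr rfl fun β _ => Finset.sum_congr rfl fun β' _ => ?_
  by_cases h : alw P J β ∧ alw P J β'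
  · rw [if_pos h]
    refine Finset.prod_congr rfl fun p _ => ?_
    rw [if_pos ⟨fun i hi => h.1 p i hi, fun i hi => h.2 p i hi⟩]
  · rw [if_neg h]
    have : ∃ p : P, ¬ ((∀ i, β p = some i → i ∈ J) ∧ (∀ i, β' p = some i → i ∈ J)) := by
      by_contra hc
      push Not at hc
      exact h ⟨fun p i hi => (hc p).1 i hi, fun p i hi => (hc p).2 i hi⟩
    obtain ⟨p, hp⟩ := this
    refine (Finset.prod_eq_zero (Finset.mem_univ p) ?_).symm
    rw [if_neg hp]

open scoped Classical in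
private theorem B10_sum (J : Finset ι) (X : Option ι → Option ι → ℝ) :
    ∑ o, ∑ o', (if (∀ i, o = some i → i ∈ J) ∧ (∀ i, o' = some i → i ∈ J) then X o o' else 0) =
      (X none none + ∑ i ∈ J, X none (some i)) +
        ∑ i ∈ J, (X (some i) none + ∑ l ∈ J, X (some i) (some l)) := by
  have hn : (∀ i, (none : Option ι) = some i → i ∈ J) := by simp
  have hs : ∀ l : ι, (∀ i, (some l : Option ι) = some i → i ∈ J) ↔ l ∈ J := by
    intro l
    constructor
    · intro h
      exact h l rfl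
    · intro h i hi
      rw [← Option.some.inj hi]
      exact h
  have h1 : ∀ o, ∑ o', (if (∀ i, o = some i → i ∈ J) ∧ (∀ i, o' = some i → i ∈ J) then X o o' else 0) =
      if (∀ i, o = some i → i ∈ J) then X o none + ∑ l ∈ J, X o (some l) else 0 := by
    intro o
    by_cases ho : (∀ i, o = some i → i ∈ J)
    · rw [if_pos ho, Fintype.sum_option, if_pos ⟨ho, hn⟩]
      congr 1
      rw [← Finset.sum_filter_add_sum_filter_not Finset.univ (fun l => l ∈ J)]
      have h2 : ∑ l ∈ Finset.univ.filter (fun l => ¬ l ∈ J),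
          (if (∀ i, o = some i → i ∈ J) ∧ (∀ i, (some l : Option ι) = some i → i ∈ J) then
            X o (some l) else 0) = 0 := by
        refine Finset.sum_eq_zero fun l hl => ?_
        rw [if_neg]
        intro h
        exact (Finset.mem_filter.1 hl).2 ((hs l).1 h.2)
      rw [h2, add_zero, Finset.filter_mem_eq_inter, Finset.univ_inter]
      refine Finset.sum_congr rfl fun l hl => ?_
      rw [if_pos ⟨ho, (hs l).2 hl⟩]
    · rw [if_neg ho]
      refine Finset.sum_eq_zero fun o' _ => ?_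
      rw [if_neg (fun h => ho h.1)]
  rw [Finset.sum_congr rfl fun o _ => h1 o, Fintype.sum_option, if_pos hn]
  congr 1
  rw [← Finset.sum_filter_add_sum_filter_not Finset.univ (fun l => l ∈ J)]
  have h2 : ∑ l ∈ Finset.univ.filter (fun l => ¬ l ∈ J),
      (if (∀ i, (some l : Option ι) = some i → i ∈ J) then
        X (some l) none + ∑ m ∈ J, X (some l) (some m) else 0) = 0 := by
    refine Finset.sum_eq_zero fun l hl => ?_
    rw [if_neg]
    intro h
    exact (Finset.mem_filter.1 hl).2 ((hs l).1 h)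
  rw [h2, add_zero, Finset.filter_mem_eq_inter, Finset.univ_inter]
  refine Finset.sum_congr rfl fun l hl => ?_
  rw [if_pos ((hs l).2 hl)]

end

theorem near_diag (j : ℕ) : ∃ C : ℝ, 0 ≤ C ∧ ∀ (ι : Type) [Fintype ι] [DecidableEq ι] (P : Finset ℕ)
    (J : Finset ι) (h : ℕ → ℝ) (y : (P → Option ι) → ℝ) (Y : ℝ), 0 ≤ Y →
    (∀ p ∈ P, 3 ≤ p) → J.card = j → (∀ p ∈ P, 1 / (p : ℝ) ≤ h p) → (∀ p ∈ P, h p ≤ 1 / ((p : ℝ) - 1)) →
    (∀ β, y β ≠ 0 → alw P J β) → (∀ β, |y β| ≤ Y * (rr (sp P β) / ph (sp P β))) →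
    |QQ P h y - DD P y| ≤ Y ^ 2 * offE C P j := by
  classical
  refine ⟨10 * ((j : ℝ) + 1) ^ 2, by positivity, ?_⟩
  intro ι _ _ P J h y Y hY hP hJ hh1 hh2 hyJ hyY
  set C : ℝ := 10 * ((j : ℝ) + 1) ^ 2 with hC
  have hj0 : (0 : ℝ) ≤ j := Nat.cast_nonneg j
  have hC0 : 0 ≤ C := by positivity
  have hJ' : (J.card : ℝ) = j := by rw [hJ]
  set e : P → Option ι → Option ι → ℝ :=
    fun p o o' => B10_v (p : ℕ) o * B10_v (p : ℕ) o' * mm h (p : ℕ) o o' with he
  set d : P → Option ι → Option ι → ℝ :=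
    fun p o o' => B10_v (p : ℕ) o * B10_v (p : ℕ) o' * B10_d (p : ℕ) o o' with hd
  have hp2 : ∀ p : P, (2 : ℝ) ≤ ((p : ℕ) : ℝ) - 1 := by
    intro p
    have h3 := hP p p.2
    have : (3 : ℝ) ≤ ((p : ℕ) : ℝ) := by exact_mod_cast h3
    linarith
  -- the local quantities
  have hloc : ∀ p : P, ∃ t : ℝ, t = 1 / (((p : ℕ) : ℝ) - 1) ∧ 0 < t ∧ t ≤ 1 / 2 ∧
      ((p : ℕ) : ℝ) / (((p : ℕ) : ℝ) - 1) = 1 + t ∧ h p ≤ t ∧ 0 ≤ h p ∧ t ≤ h p * (1 + t) ∧
      t - t ^ 2 ≤ h p := by
    intro p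
    have hp := hp2 p
    have hp0 : 0 < ((p : ℕ) : ℝ) - 1 := by linarith
    have hpp : 0 < ((p : ℕ) : ℝ) := by linarith
    refine ⟨1 / (((p : ℕ) : ℝ) - 1), rfl, by positivity, ?_, ?_, hh2 p p.2, ?_, ?_, ?_⟩
    · rw [div_le_div_iff₀ hp0 (by norm_num)]
      linarith
    · field_simp
      ring
    · exact le_trans (by positivity) (hh1 p p.2)
    · have h1 := hh1 p p.2
      have h2 : 1 + 1 / (((p : ℕ) : ℝ) - 1) = ((p : ℕ) : ℝ) / (((p : ℕ) : ℝ) - 1) := by
        field_simp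
        ring
      rw [h2]
      calc 1 / (((p : ℕ) : ℝ) - 1) = 1 / ((p : ℕ) : ℝ) * (((p : ℕ) : ℝ) / (((p : ℕ) : ℝ) - 1)) := by
            field_simp
        _ ≤ h p * (((p : ℕ) : ℝ) / (((p : ℕ) : ℝ) - 1)) :=
            mul_le_mul_of_nonneg_right h1 (by positivity)
    · have h1 := hh1 p p.2
      have h2 : 1 / (((p : ℕ) : ℝ) - 1) - (1 / (((p : ℕ) : ℝ) - 1)) ^ 2 ≤ 1 / ((p : ℕ) : ℝ) := by
        have h3 : 1 / ((p : ℕ) : ℝ) - (1 / (((p : ℕ) : ℝ) - 1) - (1 / (((p : ℕ) : ℝ) - 1)) ^ 2) =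
            1 / (((p : ℕ) : ℝ) * (((p : ℕ) : ℝ) - 1) ^ 2) := by
          field_simp
          ring
        have h4 : 0 ≤ 1 / (((p : ℕ) : ℝ) * (((p : ℕ) : ℝ) - 1) ^ 2) := by positivity
        linarith
      linarith
  -- the pointwise bounds
  have hvn : ∀ p : ℕ, B10_v p (none : Option ι) = 1 := fun p => by unfold B10_v; rw [if_pos rfl]
  have hvs : ∀ (p : ℕ) (i : ι), B10_v p (some i) = (p : ℝ) / ((p : ℝ) - 1) := fun p i => by
    unfold B10_v
    rw [if_neg (by simp)]
  have hdnn : ∀ p : ℕ, B10_d p (none : Option ι) none = 1 := fun p => by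
    unfold B10_d
    rw [if_pos rfl, if_pos rfl]
  have hdns : ∀ (p : ℕ) (i : ι), B10_d p none (some i) = 0 := fun p i => by
    unfold B10_d
    rw [if_neg (by simp)]
  have hdsn : ∀ (p : ℕ) (i : ι), B10_d p (some i) none = 0 := fun p i => by
    unfold B10_d
    rw [if_neg (by simp)]
  have hdss : ∀ (p : ℕ) (i : ι), B10_d p (some i) (some i) = 1 / ((p : ℝ) - 1) := fun p i => by
    unfold B10_d
    rw [if_pos rfl, if_neg (by simp)]
  have hdst : ∀ (p : ℕ) (i l : ι), i ≠ l → B10_d p (some i) (some l) = 0 := fun p i l hil => by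
    unfold B10_d
    rw [if_neg (fun h' => hil (Option.some.inj h'))]
  have bnn : ∀ p : P, |e p none none - d p none none| = 0 := by
    intro p
    rw [he, hd]
    simp only [hvn, hdnn, mm]
    simp
  have bns : ∀ (p : P) (i : ι), |e p none (some i) - d p none (some i)| ≤
      3 / 2 * (1 / (((p : ℕ) : ℝ) - 1) ^ 2) := by
    intro p i
    obtain ⟨t, ht, ht0, ht2, hv, h1, h2, h3, h4⟩ := hloc p
    have hu' : ∀ a : ℝ, a / (((p : ℕ) : ℝ) - 1) ^ 2 = a * t ^ 2 := fun a => by
      rw [ht, one_div_pow, mul_one_div]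
    have hu : 1 / (((p : ℕ) : ℝ) - 1) ^ 2 = t ^ 2 := by rw [hu', one_mul]
    rw [hu, he, hd]
    simp only [hvn, hvs, hdns, mm, mul_zero, sub_zero, one_mul]
    rw [hv]
    have hm : -h (p : ℕ) + (1 - h (p : ℕ)) / (((p : ℕ) : ℝ) - 1) = -h (p : ℕ) + (1 - h (p : ℕ)) * t := by
      rw [ht]; ring
    rw [hm, abs_mul, abs_of_pos (by linarith : (0 : ℝ) < 1 + t)]
    have hm2 : |-h (p : ℕ) + (1 - h (p : ℕ)) * t| ≤ t ^ 2 := by
      rw [abs_le]
      constructor
      · nlinarith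
      · nlinarith
    have := mul_le_mul (by linarith : 1 + t ≤ 3 / 2) hm2 (abs_nonneg _) (by norm_num)
    exact this
  have bsn : ∀ (p : P) (i : ι), |e p (some i) none - d p (some i) none| ≤
      3 / 2 * (1 / (((p : ℕ) : ℝ) - 1) ^ 2) := by
    intro p i
    have h1 := bns p i
    have h2 : e p (some i) none = e p none (some i) := by
      rw [he]
      simp only [hvn, hvs, mm]
      ring
    have h3 : d p (some i) none = d p none (some i) := by
      rw [hd]
      simp only [hdns, hdsn, mul_zero]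
    rw [h2, h3]
    exact h1
  have bss : ∀ (p : P) (i l : ι), |e p (some i) (some l) - d p (some i) (some l)| ≤
      9 / 2 * (1 / (((p : ℕ) : ℝ) - 1) ^ 2) := by
    intro p i l
    obtain ⟨t, ht, ht0, ht2, hv, h1, h2, h3, h4⟩ := hloc p
    have hu' : ∀ a : ℝ, a / (((p : ℕ) : ℝ) - 1) ^ 2 = a * t ^ 2 := fun a => by
      rw [ht, one_div_pow, mul_one_div]
    have hu : 1 / (((p : ℕ) : ℝ) - 1) ^ 2 = t ^ 2 := by rw [hu', one_mul]
    rw [hu, he, hd]
    simp only [hvs]
    rw [hv, ← mul_sub, abs_mul, abs_of_nonneg (by positivity : (0 : ℝ) ≤ (1 + t) * (1 + t))]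
    have hm2 : |mm h (p : ℕ) (some i) (some l) - B10_d (p : ℕ) (some i) (some l)| ≤ 2 * t ^ 2 := by
      by_cases hil : i = l
      · subst hil
        rw [hdss]
        simp only [mm, if_true]
        have hm : h (p : ℕ) + (1 - h (p : ℕ)) / (((p : ℕ) : ℝ) - 1) ^ 2 - 1 / (((p : ℕ) : ℝ) - 1) =
            h (p : ℕ) + (1 - h (p : ℕ)) * t ^ 2 - t := by
          rw [hu', ← ht]
        rw [hm, abs_le]
        have h5 : 0 ≤ (1 - h (p : ℕ)) * t ^ 2 := mul_nonneg (by linarith) (sq_nonneg t)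
        have h6 : (1 - h (p : ℕ)) * t ^ 2 ≤ 1 * t ^ 2 :=
          mul_le_mul_of_nonneg_right (by linarith) (sq_nonneg t)
        have h7 : 0 ≤ t ^ 2 := sq_nonneg t
        constructor
        · linarith
        · linarith
      · rw [hdst _ _ _ hil]
        simp only [mm, if_neg hil, sub_zero]
        have hm : -(2 * h (p : ℕ)) / (((p : ℕ) : ℝ) - 1) + (1 - 2 * h (p : ℕ)) / (((p : ℕ) : ℝ) - 1) ^ 2 =
            -(2 * h (p : ℕ)) * t + (1 - 2 * h (p : ℕ)) * t ^ 2 := by
          rw [hu', div_eq_mul_one_div (-(2 * h (p : ℕ))), ← ht]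
        rw [hm, abs_le]
        have h5 : 0 ≤ (1 - 2 * h (p : ℕ)) * t ^ 2 := mul_nonneg (by linarith) (sq_nonneg t)
        have h6 : (1 - 2 * h (p : ℕ)) * t ^ 2 ≤ 1 * t ^ 2 :=
          mul_le_mul_of_nonneg_right (by linarith) (sq_nonneg t)
        have h7 : 0 ≤ h (p : ℕ) * t := mul_nonneg h2 ht0.le
        have h8 : h (p : ℕ) * t ≤ t * t := mul_le_mul_of_nonneg_right h1 ht0.le
        constructor
        · nlinarith
        · nlinarith
    have h9 : (1 + t) * (1 + t) ≤ 9 / 4 := by nlinarith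
    have h10 := mul_le_mul h9 hm2 (abs_nonneg _) (by norm_num)
    linarith
  -- the sum of the differences
  have hdiff : ∀ p : P, ∑ o, ∑ o', (if (∀ i, o = some i → i ∈ J) ∧ (∀ i, o' = some i → i ∈ J) then
        |e p o o' - d p o o'| else 0) ≤
        (3 * j + 9 / 2 * (j : ℝ) ^ 2) * (1 / (((p : ℕ) : ℝ) - 1) ^ 2) := by
    intro p
    rw [B10_sum]
    have s1 : ∑ i ∈ J, |e p none (some i) - d p none (some i)| ≤
        ∑ _i ∈ J, 3 / 2 * (1 / (((p : ℕ) : ℝ) - 1) ^ 2) := Finset.sum_le_sum fun i _ => bns p i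
    have s2 : ∑ i ∈ J, (|e p (some i) none - d p (some i) none| +
        ∑ l ∈ J, |e p (some i) (some l) - d p (some i) (some l)|) ≤
        ∑ _i ∈ J, (3 / 2 * (1 / (((p : ℕ) : ℝ) - 1) ^ 2) +
          ∑ _l ∈ J, 9 / 2 * (1 / (((p : ℕ) : ℝ) - 1) ^ 2)) :=
      Finset.sum_le_sum fun i _ => add_le_add (bsn p i) (Finset.sum_le_sum fun l _ => bss p i l)
    rw [bnn]
    refine (add_le_add (add_le_add (le_refl 0) s1) s2).trans (le_of_eq ?_)
    simp only [Finset.sum_const, nsmul_eq_mul]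
    rw [hJ']
    ring
  have hdiag : ∀ p : P, ∑ o, ∑ o', (if (∀ i, o = some i → i ∈ J) ∧ (∀ i, o' = some i → i ∈ J) then
        |d p o o'| else 0) ≤ 1 + (j : ℝ) / (((p : ℕ) : ℝ) - 1) +
          5 / 2 * j * (1 / (((p : ℕ) : ℝ) - 1) ^ 2) := by
    intro p
    obtain ⟨t, ht, ht0, ht2, hv, h1, h2, h3, h4⟩ := hloc p
    have hu' : ∀ a : ℝ, a / (((p : ℕ) : ℝ) - 1) ^ 2 = a * t ^ 2 := fun a => by
      rw [ht, one_div_pow, mul_one_div]
    have hu : 1 / (((p : ℕ) : ℝ) - 1) ^ 2 = t ^ 2 := by rw [hu', one_mul]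
    have hju : (j : ℝ) / (((p : ℕ) : ℝ) - 1) = j * t := by rw [ht]; ring
    rw [B10_sum, hu, hju]
    have e1 : |d p none none| = 1 := by
      rw [hd]
      simp only [hvn, hdnn]
      simp
    have e2 : ∀ i ∈ J, |d p none (some i)| = 0 := by
      intro i _
      rw [hd]
      simp only [hdns, mul_zero, abs_zero]
    have e3 : ∀ i ∈ J, |d p (some i) none| + ∑ l ∈ J, |d p (some i) (some l)| ≤ t + 5 / 2 * t ^ 2 := by
      intro i hi
      have e4 : |d p (some i) none| = 0 := by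
        rw [hd]
        simp only [hdsn, mul_zero, abs_zero]
      rw [e4, zero_add, Finset.sum_eq_single i]
      · rw [hd]
        simp only [hvs, hdss]
        rw [hv, ← ht, abs_of_nonneg (by positivity)]
        nlinarith [mul_pos ht0 ht0, mul_nonneg (mul_pos ht0 ht0).le (sub_nonneg.2 ht2)]
      · intro l _ hl
        rw [hd]
        simp only [hdst _ _ _ (Ne.symm hl), mul_zero, abs_zero]
      · intro hi'
        exact absurd hi hi'
    rw [e1, Finset.sum_eq_zero e2, add_zero]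
    have e5 := Finset.sum_le_sum e3
    rw [Finset.sum_const, nsmul_eq_mul, hJ'] at e5
    linarith
  have hmax : ∀ p : P, ∑ o, ∑ o', (if (∀ i, o = some i → i ∈ J) ∧ (∀ i, o' = some i → i ∈ J) then
        (|d p o o'| + |e p o o' - d p o o'|) else 0) ≤
        1 + (j : ℝ) / (((p : ℕ) : ℝ) - 1) + C / (((p : ℕ) : ℝ) - 1) ^ 2 := by
    intro p
    have h1 : ∑ o, ∑ o', (if (∀ i, o = some i → i ∈ J) ∧ (∀ i, o' = some i → i ∈ J) then
        (|d p o o'| + |e p o o' - d p o o'|) else 0) =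
        ∑ o, ∑ o', (if (∀ i, o = some i → i ∈ J) ∧ (∀ i, o' = some i → i ∈ J) then
          |d p o o'| else 0) +
        ∑ o, ∑ o', (if (∀ i, o = some i → i ∈ J) ∧ (∀ i, o' = some i → i ∈ J) then
          |e p o o' - d p o o'| else 0) := by
      rw [← Finset.sum_add_distrib]
      refine Finset.sum_congr rfl fun o _ => ?_
      rw [← Finset.sum_add_distrib]
      refine Finset.sum_congr rfl fun o' _ => ?_
      split_ifs
      · rfl
      · rw [add_zero]
    rw [h1]
    refine (add_le_add (hdiag p) (hdiff p)).trans ?_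
    have hu0 : 0 ≤ 1 / (((p : ℕ) : ℝ) - 1) ^ 2 := by positivity
    have h2 : C / (((p : ℕ) : ℝ) - 1) ^ 2 = C * (1 / (((p : ℕ) : ℝ) - 1) ^ 2) := by ring
    have h3 : (5 / 2 * (j : ℝ) + (3 * j + 9 / 2 * (j : ℝ) ^ 2)) * (1 / (((p : ℕ) : ℝ) - 1) ^ 2) ≤
        C * (1 / (((p : ℕ) : ℝ) - 1) ^ 2) := by
      refine mul_le_mul_of_nonneg_right ?_ hu0
      rw [hC]
      nlinarith [sq_nonneg (j : ℝ)]
    rw [h2]
    linarith
  have hdiff' : ∀ p : P, ∑ o, ∑ o', (if (∀ i, o = some i → i ∈ J) ∧ (∀ i, o' = some i → i ∈ J) then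
        |e p o o' - d p o o'| else 0) ≤ C / (((p : ℕ) : ℝ) - 1) ^ 2 := by
    intro p
    refine (hdiff p).trans ?_
    have hu0 : 0 ≤ 1 / (((p : ℕ) : ℝ) - 1) ^ 2 := by positivity
    have h2 : C / (((p : ℕ) : ℝ) - 1) ^ 2 = C * (1 / (((p : ℕ) : ℝ) - 1) ^ 2) := by ring
    rw [h2]
    refine mul_le_mul_of_nonneg_right ?_ hu0
    rw [hC]
    nlinarith [sq_nonneg (j : ℝ)]
  -- telescoping
  have htel : ∀ β β' : P → Option ι, (if alw P J β ∧ alw P J β' then
      |∏ p : P, e p (β p) (β' p) - ∏ p : P, d p (β p) (β' p)| else 0) ≤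
      ∑ p0 : P, (if alw P J β ∧ alw P J β' then ∏ p : P,
        (if p = p0 then |e p (β p) (β' p) - d p (β p) (β' p)| else
          |d p (β p) (β' p)| + |e p (β p) (β' p) - d p (β p) (β' p)|) else 0) := by
    intro β β'
    by_cases h : alw P J β ∧ alw P J β'
    · simp only [if_pos h]
      exact B10_tel Finset.univ (fun p : P => e p (β p) (β' p)) (fun p : P => d p (β p) (β' p))
    · simp only [if_neg h, Finset.sum_const_zero]
      exact le_refl _
  have hM0 : ∀ p ∈ P, 0 ≤ 1 + (j : ℝ) / ((p : ℝ) - 1) + C / ((p : ℝ) - 1) ^ 2 := by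
    intro p hp
    have h3 := hp2 ⟨p, hp⟩
    simp only at h3
    have h4 : (0 : ℝ) ≤ (p : ℝ) - 1 := by linarith
    positivity
  have hM1 : ∀ p ∈ P, 1 ≤ 1 + (j : ℝ) / ((p : ℝ) - 1) + C / ((p : ℝ) - 1) ^ 2 := by
    intro p hp
    have h3 := hp2 ⟨p, hp⟩
    simp only at h3
    have h3' : (0 : ℝ) ≤ (p : ℝ) - 1 := by linarith
    have h4 : 0 ≤ (j : ℝ) / ((p : ℝ) - 1) := by positivity
    have h5 : 0 ≤ C / ((p : ℝ) - 1) ^ 2 := by positivity
    linarith
  have hoff : ∑ β : P → Option ι, ∑ β' : P → Option ι,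
        (if alw P J β ∧ alw P J β' then
          |∏ p : P, e p (β p) (β' p) - ∏ p : P, d p (β p) (β' p)| else 0) ≤ offE C P j := by
    calc ∑ β : P → Option ι, ∑ β' : P → Option ι,
        (if alw P J β ∧ alw P J β' then
          |∏ p : P, e p (β p) (β' p) - ∏ p : P, d p (β p) (β' p)| else 0)
      ≤ ∑ β : P → Option ι, ∑ β' : P → Option ι, ∑ p0 : P, (if alw P J β ∧ alw P J β' then ∏ p : P,
        (if p = p0 then |e p (β p) (β' p) - d p (β p) (β' p)| else
          |d p (β p) (β' p)| + |e p (β p) (β' p) - d p (β p) (β' p)|) else 0) :=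
        Finset.sum_le_sum fun β _ => Finset.sum_le_sum fun β' _ => htel β β'
    _ = ∑ p0 : P, ∑ β : P → Option ι, ∑ β' : P → Option ι, (if alw P J β ∧ alw P J β' then ∏ p : P,
        (if p = p0 then |e p (β p) (β' p) - d p (β p) (β' p)| else
          |d p (β p) (β' p)| + |e p (β p) (β' p) - d p (β p) (β' p)|) else 0) := by
        exact (Finset.sum_congr rfl fun β _ => Finset.sum_comm).trans Finset.sum_comm
    _ ≤ ∑ p0 : P, C / (((p0 : ℕ) : ℝ) - 1) ^ 2 *
        ∏ p ∈ P, (1 + (j : ℝ) / ((p : ℝ) - 1) + C / ((p : ℝ) - 1) ^ 2) := by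
        refine Finset.sum_le_sum fun p0 _ => ?_
        rw [B10_fac2 P J (fun p o o' => if p = p0 then |e p o o' - d p o o'| else
          |d p o o'| + |e p o o' - d p o o'|)]
        set M : P → ℝ := fun p => 1 + (j : ℝ) / (((p : ℕ) : ℝ) - 1) + C / (((p : ℕ) : ℝ) - 1) ^ 2
          with hM
        have hM0' : ∀ p : P, 0 ≤ M p := fun p => hM0 p p.2
        have hM1' : ∀ p : P, 1 ≤ M p := fun p => hM1 p p.2
        have hc0 : ∀ p : P, 0 ≤ C / (((p : ℕ) : ℝ) - 1) ^ 2 := fun p => by positivity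
        have hle : ∀ p : P, ∑ o, ∑ o', (if (∀ i, o = some i → i ∈ J) ∧ (∀ i, o' = some i → i ∈ J) then
            (if p = p0 then |e p o o' - d p o o'| else |d p o o'| + |e p o o' - d p o o'|) else 0) ≤
            (if p = p0 then C / (((p : ℕ) : ℝ) - 1) ^ 2 else 1) * M p := by
          intro p
          by_cases hp : p = p0
          · simp only [if_pos hp]
            exact (hdiff' p).trans (le_mul_of_one_le_right (hc0 p) (hM1' p))
          · simp only [if_neg hp, one_mul]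
            exact hmax p
        refine (Finset.prod_le_prod (fun p _ => ?_) fun p _ => hle p).trans (le_of_eq ?_)
        · refine Finset.sum_nonneg fun o _ => Finset.sum_nonneg fun o' _ => ?_
          split_ifs
          · exact abs_nonneg _
          · positivity
          · exact le_refl _
        · rw [Finset.prod_mul_distrib, Finset.prod_ite_eq', if_pos (Finset.mem_univ _)]
          congr 1
          exact Finset.prod_coe_sort P (fun p : ℕ => 1 + (j : ℝ) / ((p : ℝ) - 1) + C / ((p : ℝ) - 1) ^ 2)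
    _ = offE C P j := by
        unfold offE
        rw [← Finset.sum_mul]
        congr 1
        rw [Finset.mul_sum, ← Finset.sum_coe_sort P]
        refine Finset.sum_congr rfl fun p _ => ?_
        ring
  -- assembly
  have hv0 : ∀ (p : P) (o : Option ι), 0 ≤ B10_v (p : ℕ) o := by
    intro p o
    have hp := hp2 p
    unfold B10_v
    split_ifs
    · exact zero_le_one
    · exact div_nonneg (by linarith) (by linarith)
  have hdiff2 : QQ P h y - DD P y = ∑ β, ∑ β', y β * y β' *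
      (∏ p : P, mm h (p : ℕ) (β p) (β' p) - ∏ p : P, B10_d (p : ℕ) (β p) (β' p)) := by
    rw [B10_DD]
    unfold QQ
    rw [← Finset.sum_sub_distrib]
    refine Finset.sum_congr rfl fun β _ => ?_
    rw [← Finset.sum_sub_distrib]
    refine Finset.sum_congr rfl fun β' _ => ?_
    ring
  have hterm : ∀ β β' : P → Option ι, |y β * y β' *
      (∏ p : P, mm h (p : ℕ) (β p) (β' p) - ∏ p : P, B10_d (p : ℕ) (β p) (β' p))| ≤
      Y ^ 2 * (if alw P J β ∧ alw P J β' then
          |∏ p : P, e p (β p) (β' p) - ∏ p : P, d p (β p) (β' p)| else 0) := by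
    intro β β'
    by_cases hb : y β = 0 ∨ y β' = 0
    · have h0 : y β * y β' = 0 := mul_eq_zero.2 hb
      rw [h0, zero_mul, abs_zero]
      refine mul_nonneg (sq_nonneg Y) ?_
      split_ifs
      · exact abs_nonneg _
      · exact le_refl _
    · push Not at hb
      rw [if_pos ⟨hyJ β hb.1, hyJ β' hb.2⟩]
      have h1 := hyY β
      have h2 := hyY β'
      rw [B10_V] at h1 h2
      have hV : 0 ≤ ∏ p : P, B10_v (p : ℕ) (β p) := Finset.prod_nonneg fun p _ => hv0 p _
      have hV' : 0 ≤ ∏ p : P, B10_v (p : ℕ) (β' p) := Finset.prod_nonneg fun p _ => hv0 p _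
      have h3 : ∏ p : P, e p (β p) (β' p) - ∏ p : P, d p (β p) (β' p) =
          (∏ p : P, B10_v (p : ℕ) (β p)) * (∏ p : P, B10_v (p : ℕ) (β' p)) *
            (∏ p : P, mm h (p : ℕ) (β p) (β' p) - ∏ p : P, B10_d (p : ℕ) (β p) (β' p)) := by
        rw [he, hd]
        simp only [Finset.prod_mul_distrib]
        ring
      rw [h3, abs_mul, abs_mul, abs_mul, abs_of_nonneg (mul_nonneg hV hV')]
      have h4 : |y β| * |y β'| ≤ (Y * ∏ p : P, B10_v (p : ℕ) (β p)) *
          (Y * ∏ p : P, B10_v (p : ℕ) (β' p)) :=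
        mul_le_mul h1 h2 (abs_nonneg _) (mul_nonneg hY hV)
      calc |y β| * |y β'| * |∏ p : P, mm h (p : ℕ) (β p) (β' p) - ∏ p : P, B10_d (p : ℕ) (β p) (β' p)|
          ≤ ((Y * ∏ p : P, B10_v (p : ℕ) (β p)) * (Y * ∏ p : P, B10_v (p : ℕ) (β' p))) *
            |∏ p : P, mm h (p : ℕ) (β p) (β' p) - ∏ p : P, B10_d (p : ℕ) (β p) (β' p)| :=
            mul_le_mul_of_nonneg_right h4 (abs_nonneg _)
        _ = _ := by ring
  rw [hdiff2]
  calc |∑ β, ∑ β', y β * y β' *
      (∏ p : P, mm h (p : ℕ) (β p) (β' p) - ∏ p : P, B10_d (p : ℕ) (β p) (β' p))|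
      ≤ ∑ β, ∑ β', |y β * y β' *
      (∏ p : P, mm h (p : ℕ) (β p) (β' p) - ∏ p : P, B10_d (p : ℕ) (β p) (β' p))| :=
        (Finset.abs_sum_le_sum_abs _ _).trans
          (Finset.sum_le_sum fun β _ => Finset.abs_sum_le_sum_abs _ _)
    _ ≤ ∑ β : P → Option ι, ∑ β' : P → Option ι, Y ^ 2 * (if alw P J β ∧ alw P J β' then
          |∏ p : P, e p (β p) (β' p) - ∏ p : P, d p (β p) (β' p)| else 0) :=
        Finset.sum_le_sum fun β _ => Finset.sum_le_sum fun β' _ => hterm β β'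
    _ = Y ^ 2 * ∑ β : P → Option ι, ∑ β' : P → Option ι, (if alw P J β ∧ alw P J β' then
          |∏ p : P, e p (β p) (β' p) - ∏ p : P, d p (β p) (β' p)| else 0) := by
        rw [Finset.mul_sum]
        refine Finset.sum_congr rfl fun β _ => ?_
        rw [Finset.mul_sum]
    _ ≤ Y ^ 2 * offE C P j := mul_le_mul_of_nonneg_left hoff (sq_nonneg Y)

end Pool.Agent.LibSP4
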