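import Mathlib

/-!
Row B12 (SHORT): the second moment (Cauchy-Schwarz). `occ n`: some `i ∈ c` has `S i n ≠ 0`.
`(∑_n w ∑_i S_i)² ≤ (∑_n w [occ]) (∑_n w (∑_i S_i)²)` and `S_i² ≤ S_i`.
-/

open Finset

namespace Pool.Agent.LibSP4

open scoped Classical in
theorem second_moment {ι : Type} (c : Finset ι) (s : Finset ℕ) (w : ℕ → ℝ) (hw : ∀ n ∈ s, 0 ≤ w n)
    (S : ι → ℕ → ℝ) (hS0 : ∀ i ∈ c, ∀ n ∈ s, 0 ≤ S i n) (hS1 : ∀ i ∈ c, ∀ n ∈ s, S i n ≤ 1) :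
    (∑ i ∈ c, ∑ n ∈ s, w n * S i n) ^ 2 ≤
      (∑ n ∈ s with (∃ i ∈ c, S i n ≠ 0), w n) *
        (∑ i ∈ c, ∑ n ∈ s, w n * S i n + ∑ i ∈ c, ∑ j ∈ c.erase i, ∑ n ∈ s, w n * (S i n * S j n)) := by
  have e1 : ∑ i ∈ c, ∑ n ∈ s, w n * S i n = ∑ n ∈ s, w n * ∑ i ∈ c, S i n := by
    rw [Finset.sum_comm]
    exact Finset.sum_congr rfl fun n _ => (Finset.mul_sum _ _ _).symm
  have e2 : ∑ n ∈ s, w n * ∑ i ∈ c, S i n = ∑ n ∈ s with (∃ i ∈ c, S i n ≠ 0), w n * ∑ i ∈ c, S i n := by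
    rw [Finset.sum_filter]
    refine Finset.sum_congr rfl fun n _ => ?_
    by_cases h : ∃ i ∈ c, S i n ≠ 0
    · rw [if_pos h]
    · rw [if_neg h]
      push Not at h
      rw [Finset.sum_eq_zero h, mul_zero]
  have e3 : ∑ i ∈ c, ∑ j ∈ c.erase i, ∑ n ∈ s, w n * (S i n * S j n) =
      ∑ n ∈ s, w n * ∑ i ∈ c, ∑ j ∈ c.erase i, S i n * S j n := by
    have h1 : ∀ i ∈ c, ∑ j ∈ c.erase i, ∑ n ∈ s, w n * (S i n * S j n) =
        ∑ n ∈ s, w n * ∑ j ∈ c.erase i, S i n * S j n := by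
      intro i _
      rw [Finset.sum_comm]
      exact Finset.sum_congr rfl fun n _ => (Finset.mul_sum _ _ _).symm
    rw [Finset.sum_congr rfl h1, Finset.sum_comm]
    exact Finset.sum_congr rfl fun n _ => (Finset.mul_sum _ _ _).symm
  have h1 : (∑ n ∈ s with (∃ i ∈ c, S i n ≠ 0), w n * ∑ i ∈ c, S i n) ^ 2 ≤
      (∑ n ∈ s with (∃ i ∈ c, S i n ≠ 0), w n) *
        (∑ n ∈ s with (∃ i ∈ c, S i n ≠ 0), w n * (∑ i ∈ c, S i n) ^ 2) := by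
    refine Finset.sum_sq_le_sum_mul_sum_of_sq_eq_mul _ ?_ ?_ ?_
    · intro n hn
      exact hw n (Finset.mem_filter.1 hn).1
    · intro n hn
      exact mul_nonneg (hw n (Finset.mem_filter.1 hn).1) (sq_nonneg _)
    · intro n _
      ring
  have h2 : ∑ n ∈ s with (∃ i ∈ c, S i n ≠ 0), w n * (∑ i ∈ c, S i n) ^ 2 ≤ ∑ n ∈ s, w n * (∑ i ∈ c, S i n) ^ 2 := by
    refine Finset.sum_le_sum_of_subset_of_nonneg (Finset.filter_subset _ _) ?_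
    intro n hn _
    exact mul_nonneg (hw n hn) (sq_nonneg _)
  have h3 : ∑ n ∈ s, w n * (∑ i ∈ c, S i n) ^ 2 ≤
      ∑ n ∈ s, w n * ∑ i ∈ c, S i n + ∑ n ∈ s, w n * ∑ i ∈ c, ∑ j ∈ c.erase i, S i n * S j n := by
    rw [← Finset.sum_add_distrib]
    refine Finset.sum_le_sum fun n hn => ?_
    rw [← mul_add]
    refine mul_le_mul_of_nonneg_left ?_ (hw n hn)
    rw [pow_two, Finset.sum_mul_sum, ← Finset.sum_add_distrib]
    refine Finset.sum_le_sum fun i hi => ?_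
    rw [← Finset.add_sum_erase c (fun j => S i n * S j n) hi]
    have h5 := hS0 i hi n hn
    have h6 := hS1 i hi n hn
    nlinarith
  rw [e3, e1]
  have h4 : 0 ≤ ∑ n ∈ s with (∃ i ∈ c, S i n ≠ 0), w n :=
    Finset.sum_nonneg fun n hn => hw n (Finset.mem_filter.1 hn).1
  calc (∑ n ∈ s, w n * ∑ i ∈ c, S i n) ^ 2 = (∑ n ∈ s with (∃ i ∈ c, S i n ≠ 0), w n * ∑ i ∈ c, S i n) ^ 2 := by rw [e2]
    _ ≤ _ := h1
    _ ≤ _ := mul_le_mul_of_nonneg_left (h2.trans h3) h4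

end Pool.Agent.LibSP4
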