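import Pool.Agent.LibSP4.B01

/-!
Row B13 (SHORT/MEDIUM): values of Selberg's sum. (a) If no prime of `P` divides `m`, only `D = ∅` counts and `rho ∅ = 1`.
(b) If `p` is the only prime of `P` dividing `m`: `lamS = 1 + rho {p} = 1 - (p/(p-1)) G'(R/p)/G`, `G' = ` sum over `A` not containing `p`; with
`G = G'(R) + G'(R/p)/(p-1)`, `G'(R) ≥ G'(R/p)`: `0 ≤ lamS ≤ 1`, and `G'(R/p) ≤ GG (R/p)` gives the lower bound.
-/

open Finset

namespace Pool.Agent.LibSP4

open Pool.Agent.LibRG87

private theorem b13_ph_pos {A P : Finset ℕ} (hP : ∀ p ∈ P, p.Prime) (h : A ⊆ P) : 0 < ph A := by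
  unfold ph
  apply Finset.prod_pos
  intro p hp
  have h2 : (2 : ℝ) ≤ p := by exact_mod_cast (hP p (h hp)).two_le
  linarith

private theorem b13_rho_empty (P : Finset ℕ) (hP : ∀ p ∈ P, p.Prime) {R : ℝ} (hR : 1 ≤ R) :
    rho P R ∅ = 1 := by
  have hG : 0 < GG P R := lt_of_lt_of_le one_pos (one_le_GG hP hR)
  have h1 : rr ∅ = 1 := by simp [rr]
  have h2 : ph ∅ = 1 := by simp [ph]
  unfold rho
  rw [h1, h2]
  have h3 : (∑ A ∈ (P \ ∅).powerset with rr A * 1 ≤ R, 1 / ph A) = GG P R := by
    unfold GG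
    simp
  rw [h3]
  simp
  field_simp

theorem lamS_none (P : Finset ℕ) (hP : ∀ p ∈ P, p.Prime) {R : ℝ} (hR : 1 ≤ R) {m : ℕ} (hm : ∀ p ∈ P, ¬ p ∣ m) :
    lamS P R m = 1 := by
  classical
  unfold lamS
  rw [Finset.sum_eq_single ∅]
  · simp [b13_rho_empty P hP hR]
  · intro D hD hne
    rw [if_neg]
    intro h
    obtain ⟨p, hp⟩ := Finset.nonempty_iff_ne_empty.mpr hne
    exact hm p (Finset.mem_powerset.mp hD hp) (h p hp)
  · intro h
    exact absurd (Finset.empty_mem_powerset P) h

theorem lamS_one (P : Finset ℕ) (hP : ∀ p ∈ P, p.Prime) {R : ℝ} (hR : 1 ≤ R) {m p : ℕ} (hp : p ∈ P)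
    (hm : ∀ p' ∈ P, p' ∣ m ↔ p' = p) :
    lamS P R m = 1 + rho P R {p} ∧ 0 ≤ 1 + rho P R {p} ∧ 1 + rho P R {p} ≤ 1 ∧
      1 - ((p : ℝ) / ((p : ℝ) - 1)) * GG P (R / p) / GG P R ≤ 1 + rho P R {p} := by
  classical
  have hG : 0 < GG P R := lt_of_lt_of_le one_pos (one_le_GG hP hR)
  have hp2 : (2 : ℝ) ≤ p := by exact_mod_cast (hP p hp).two_le
  have hp0 : (0 : ℝ) < p := by linarith
  have hp1 : (0 : ℝ) < (p : ℝ) - 1 := by linarith
  have hposA : ∀ A ⊆ P, 0 < ph A := fun A hA => b13_ph_pos hP hA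
  -- the inner sums
  set G1 : ℝ := ∑ A ∈ (P \ {p}).powerset with rr A * rr {p} ≤ R, 1 / ph A with hG1
  set G0 : ℝ := ∑ A ∈ (P \ {p}).powerset with rr A ≤ R, 1 / ph A with hG0
  have hrrp : rr {p} = p := by simp [rr]
  have hphp : ph {p} = (p : ℝ) - 1 := by simp [ph]
  have hrho : rho P R {p} = -(((p : ℝ) / ((p : ℝ) - 1)) / GG P R * G1) := by
    unfold rho
    rw [← hG1, hrrp, hphp, Finset.card_singleton, pow_one]
    ring
  have hsd : ∀ A ∈ (P \ {p}).powerset, A ⊆ P ∧ p ∉ A := by
    intro A hA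
    rw [Finset.mem_powerset] at hA
    exact ⟨fun q hq => (Finset.mem_sdiff.mp (hA hq)).1,
      fun hq => (Finset.mem_sdiff.mp (hA hq)).2 (Finset.mem_singleton_self p)⟩
  have hG1nn : 0 ≤ G1 := by
    apply Finset.sum_nonneg
    intro A hA
    exact div_nonneg zero_le_one (hposA A (hsd A (Finset.mem_filter.mp hA).1).1).le
  have hG10 : G1 ≤ G0 := by
    apply Finset.sum_le_sum_of_subset_of_nonneg
    · intro A hA
      rw [Finset.mem_filter] at hA ⊢
      refine ⟨hA.1, ?_⟩
      have hA2 := hA.2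
      rw [hrrp] at hA2
      have hrA : 0 ≤ rr A := by
        unfold rr
        exact Finset.prod_nonneg (fun q _ => by positivity)
      nlinarith
    · intro A hA _
      exact div_nonneg zero_le_one (hposA A (hsd A (Finset.mem_filter.mp hA).1).1).le
  have hG1R : G1 ≤ GG P (R / p) := by
    unfold GG
    apply Finset.sum_le_sum_of_subset_of_nonneg
    · intro A hA
      rw [Finset.mem_filter] at hA ⊢
      refine ⟨Finset.mem_powerset.mpr (hsd A hA.1).1, ?_⟩
      have hA2 := hA.2
      rw [hrrp] at hA2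
      rw [le_div_iff₀ hp0]
      exact hA2
    · intro A hA _
      exact div_nonneg zero_le_one (hposA A (Finset.mem_powerset.mp (Finset.mem_filter.mp hA).1)).le
  have hsplit : GG P R = G0 + G1 / ((p : ℝ) - 1) := by
    have hPi : P = insert p (P \ {p}) := by
      ext q
      simp only [Finset.mem_insert, Finset.mem_sdiff, Finset.mem_singleton]
      constructor
      · intro h
        by_cases hq : q = p
        · exact Or.inl hq
        · exact Or.inr ⟨h, hq⟩
      · rintro (h | h)
        · rw [h]; exact hp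
        · exact h.1
    have hnp : p ∉ P \ {p} := by simp
    unfold GG
    rw [Finset.sum_filter]
    conv_lhs => rw [hPi]
    rw [Finset.sum_powerset_insert hnp, hG0, hG1, Finset.sum_filter, Finset.sum_filter,
      Finset.sum_div]
    congr 1
    apply Finset.sum_congr rfl
    intro A hA
    have hpA := (hsd A hA).2
    have h1 : rr (insert p A) = rr A * rr {p} := by
      rw [hrrp]
      unfold rr
      rw [Finset.prod_insert hpA, mul_comm]
    have h2 : ph (insert p A) = ph A * ((p : ℝ) - 1) := by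
      unfold ph
      rw [Finset.prod_insert hpA, mul_comm]
    rw [h1, h2]
    split_ifs
    · rw [one_div, one_div, mul_inv, div_eq_mul_inv]
    · simp
  have hlow : (p : ℝ) / ((p : ℝ) - 1) * G1 ≤ GG P R := by
    rw [hsplit]
    have : (p : ℝ) / ((p : ℝ) - 1) * G1 = G1 + G1 / ((p : ℝ) - 1) := by
      field_simp
      ring
    rw [this]
    linarith
  refine ⟨?_, ?_, ?_, ?_⟩
  · unfold lamS
    have hsub : ({∅, {p}} : Finset (Finset ℕ)) ⊆ P.powerset := by
      intro D hD
      simp only [Finset.mem_insert, Finset.mem_singleton] at hD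
      rcases hD with h | h
      · rw [h]; exact Finset.empty_mem_powerset P
      · rw [h]; exact Finset.mem_powerset.mpr (Finset.singleton_subset_iff.mpr hp)
    rw [← Finset.sum_subset hsub]
    · rw [Finset.sum_pair (Finset.singleton_ne_empty p).symm]
      have h1 : ∀ q ∈ ({p} : Finset ℕ), q ∣ m := by
        intro q hq
        rw [Finset.mem_singleton] at hq
        rw [hq]
        exact (hm p hp).mpr rfl
      rw [if_pos h1, if_pos (by simp), b13_rho_empty P hP hR]
    · intro D hD hnD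
      rw [if_neg]
      intro h
      apply hnD
      have hDp : D ⊆ {p} := by
        intro q hq
        rw [Finset.mem_singleton]
        exact (hm q (Finset.mem_powerset.mp hD hq)).mp (h q hq)
      rcases Finset.subset_singleton_iff.mp hDp with h' | h'
      · simp [h']
      · simp [h']
  · rw [hrho]
    have : (p : ℝ) / ((p : ℝ) - 1) / GG P R * G1 ≤ 1 := by
      rw [div_mul_eq_mul_div, div_le_one hG]
      exact hlow
    linarith
  · rw [hrho]
    have : 0 ≤ (p : ℝ) / ((p : ℝ) - 1) / GG P R * G1 := by positivity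
    linarith
  · rw [hrho]
    have : (p : ℝ) / ((p : ℝ) - 1) / GG P R * G1 ≤ (p : ℝ) / ((p : ℝ) - 1) * GG P (R / p) / GG P R := by
      rw [div_mul_eq_mul_div]
      apply div_le_div_of_nonneg_right _ hG.le
      exact mul_le_mul_of_nonneg_left hG1R (by positivity)
    linarith

end Pool.Agent.LibSP4
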