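import Pool.Agent.LibSP4.B14
import Pool.Agent.LibMaier.Mertens

/-!
Row B16 (SHORT/MEDIUM): products over the primes in `(w, Z]`. `1 + j/(p-1) + C/(p-1)² ≤ (1 - 1/p)^(-j) (1 + C'/(p-1)²)` (`(1-1/p)⁻¹ = 1 + 1/(p-1)`, so `(1-1/p)^(-j) ≥ 1 + j/(p-1)`),
`∏ (1 + C'/(p-1)²)` is bounded, `∏_{w<p≤Z} (1-1/p)⁻¹ = kap w / kap Z` and `1/kap Z ≤ C0 log Z` (Mertens: `LibMaier/Mertens.lean` `mertens_third`, or any upper bound in the libraries,
for instance `LibLG5/NT57.lean` `nt_mertens_upper`). The constant does not depend on `w`.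
-/

open Finset

namespace Pool.Agent.LibSP4

open Pool.Agent.LibRG87

private theorem B16_tel {w Z : ℕ} (hw : 2 ≤ w) (hZ : w ≤ Z) :
    ∑ n ∈ Ioc w Z, 1 / ((n : ℝ) - 1) ^ 2 ≤ 1 / ((w : ℝ) - 1) - 1 / ((Z : ℝ) - 1) := by
  induction Z, hZ using Nat.le_induction with
  | base => simp
  | succ Z hZ ih =>
    rw [← Finset.insert_Ioc_right_eq_Ioc_add_one (by omega), Finset.sum_insert (by simp)]
    have hZ2 : (2 : ℝ) ≤ Z := by exact_mod_cast hw.trans hZ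
    have h1 : 1 / (((Z + 1 : ℕ) : ℝ) - 1) ^ 2 ≤ 1 / ((Z : ℝ) - 1) - 1 / (((Z + 1 : ℕ) : ℝ) - 1) := by
      have e1 : ((Z + 1 : ℕ) : ℝ) - 1 = Z := by push_cast; ring
      rw [e1]
      have h2 : (0 : ℝ) < (Z : ℝ) - 1 := by linarith
      have h3 : (0 : ℝ) < Z := by linarith
      rw [div_sub_div _ _ h2.ne' h3.ne', div_le_div_iff₀ (by positivity) (by positivity)]
      nlinarith
    linarith

private theorem B16_sum {w Z : ℕ} (hw : 2 ≤ w) : ∑ p ∈ PP w Z, 1 / ((p : ℝ) - 1) ^ 2 ≤ 1 / ((w : ℝ) - 1) := by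
  have hw2 : (2 : ℝ) ≤ w := by exact_mod_cast hw
  by_cases hZ : w ≤ Z
  · have h1 := B16_tel hw hZ
    have h2 : ∑ p ∈ PP w Z, 1 / ((p : ℝ) - 1) ^ 2 ≤ ∑ n ∈ Ioc w Z, 1 / ((n : ℝ) - 1) ^ 2 :=
      Finset.sum_le_sum_of_subset_of_nonneg (Finset.filter_subset _ _) fun i _ _ => by positivity
    have h3 : (0 : ℝ) ≤ 1 / ((Z : ℝ) - 1) := by
      have : (2 : ℝ) ≤ Z := by exact_mod_cast hw.trans hZ
      exact div_nonneg zero_le_one (by linarith)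
    linarith
  · have h1 : PP w Z = ∅ := by
      unfold PP
      rw [Finset.Ioc_eq_empty (by omega), Finset.filter_empty]
    rw [h1, Finset.sum_empty]
    exact div_nonneg zero_le_one (by linarith)

private theorem B16_prod {w Z : ℕ} (hw : 2 ≤ w) {C : ℝ} (hC : 0 ≤ C) :
    ∏ p ∈ PP w Z, (1 + C / ((p : ℝ) - 1) ^ 2) ≤ Real.exp (C / ((w : ℝ) - 1)) := by
  have h1 : ∏ p ∈ PP w Z, (1 + C / ((p : ℝ) - 1) ^ 2) ≤ ∏ p ∈ PP w Z, Real.exp (C / ((p : ℝ) - 1) ^ 2) := by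
    refine Finset.prod_le_prod (fun p _ => by positivity) fun p _ => ?_
    rw [add_comm]
    exact Real.add_one_le_exp _
  refine h1.trans ?_
  rw [← Real.exp_sum]
  refine Real.exp_le_exp.2 ?_
  have h2 := mul_le_mul_of_nonneg_left (B16_sum (Z := Z) hw) hC
  rw [Finset.mul_sum] at h2
  calc ∑ p ∈ PP w Z, C / ((p : ℝ) - 1) ^ 2 = ∑ p ∈ PP w Z, C * (1 / ((p : ℝ) - 1) ^ 2) :=
        Finset.sum_congr rfl fun p _ => by ring
    _ ≤ C * (1 / ((w : ℝ) - 1)) := h2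
    _ = C / ((w : ℝ) - 1) := by ring

private theorem B16_kap_pos (w : ℕ) : 0 < kap w := by
  unfold kap
  refine Finset.prod_pos fun p hp => ?_
  have h1 : (2 : ℝ) ≤ p := by exact_mod_cast (Finset.mem_filter.1 hp).2.two_le
  have h2 : 1 / (p : ℝ) ≤ 1 / 2 := one_div_le_one_div_of_le (by norm_num) h1
  linarith

private theorem B16_kap {w Z : ℕ} (hZ : w ≤ Z) :
    kap Z = kap w * ∏ p ∈ PP w Z, (1 - 1 / (p : ℝ)) := by
  unfold kap
  rw [← Finset.prod_union]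
  · congr 1
    ext p
    simp only [PP, Finset.mem_union, Finset.mem_filter, Finset.mem_range, Finset.mem_Ioc]
    constructor
    · rintro ⟨h1, h2⟩
      by_cases h3 : p < w + 1
      · exact Or.inl ⟨h3, h2⟩
      · exact Or.inr ⟨⟨by omega, by omega⟩, h2⟩
    · rintro (⟨h1, h2⟩ | ⟨⟨h1, h1'⟩, h2⟩)
      · exact ⟨by omega, h2⟩
      · exact ⟨by omega, h2⟩
  · rw [Finset.disjoint_left]
    intro p hp hp'
    simp only [PP, Finset.mem_filter, Finset.mem_range, Finset.mem_Ioc] at hp hp'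
    omega

/-- lower bound of Mertens' product -/
private theorem B16_mertens : ∃ B : ℝ, 0 ≤ B ∧ ∀ Z : ℕ, 2 ≤ Z → 1 / kap Z ≤ B * Real.log Z := by
  have h1 := Pool.Agent.LibMaier.mertens_third
  have h2 : Filter.Tendsto (fun z : ℕ => kap z * Real.log z) Filter.atTop
      (nhds (Real.exp (-Real.eulerMascheroniConstant))) := h1
  have h3 := (h2.inv₀ (Real.exp_pos _).ne').comp (Filter.tendsto_add_atTop_nat 2)
  obtain ⟨B, hB⟩ := h3.bddAbove_range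
  refine ⟨max B 0, le_max_right _ _, fun Z hZ => ?_⟩
  have h4 : (kap Z * Real.log Z)⁻¹ ≤ B := by
    have h5 := hB ⟨Z - 2, rfl⟩
    simp only [Function.comp] at h5
    rwa [Nat.sub_add_cancel hZ] at h5
  have h5 : (0 : ℝ) < Real.log Z := Real.log_pos (by exact_mod_cast (by omega : 1 < Z))
  have h6 := B16_kap_pos Z
  have h7 : 1 / kap Z = (kap Z * Real.log Z)⁻¹ * Real.log Z := by
    field_simp
  rw [h7]
  exact mul_le_mul_of_nonneg_right (h4.trans (le_max_left _ _)) h5.le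

theorem prod_le (j : ℕ) (C : ℝ) (hC : 0 ≤ C) : ∃ C' : ℝ, 0 ≤ C' ∧ ∀ w Z : ℕ, 2 ≤ w → w ≤ Z →
    ∏ p ∈ PP w Z, (1 + (j : ℝ) / ((p : ℝ) - 1) + C / ((p : ℝ) - 1) ^ 2) ≤ C' * (kap w * Real.log Z) ^ j := by
  obtain ⟨B, hB0, hB⟩ := B16_mertens
  refine ⟨Real.exp C * B ^ j, by positivity, fun w Z hw hZ => ?_⟩
  have hp1 : ∀ p ∈ PP w Z, (0 : ℝ) < (p : ℝ) - 1 := by
    intro p hp
    have h1 : (2 : ℝ) ≤ p := by exact_mod_cast (Finset.mem_filter.1 hp).2.two_le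
    linarith
  have h1 : ∏ p ∈ PP w Z, (1 + (j : ℝ) / ((p : ℝ) - 1) + C / ((p : ℝ) - 1) ^ 2) ≤
      ∏ p ∈ PP w Z, ((1 - 1 / (p : ℝ))⁻¹ ^ j * (1 + C / ((p : ℝ) - 1) ^ 2)) := by
    refine Finset.prod_le_prod (fun p hp => ?_) fun p hp => ?_
    · have := hp1 p hp
      positivity
    · have h2 := hp1 p hp
      have h3 : (1 - 1 / (p : ℝ))⁻¹ = 1 + 1 / ((p : ℝ) - 1) := by
        have : (p : ℝ) ≠ 0 := by linarith
        field_simp
        ring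
      rw [h3]
      have h4 : 1 + (j : ℝ) * (1 / ((p : ℝ) - 1)) ≤ (1 + 1 / ((p : ℝ) - 1)) ^ j :=
        one_add_mul_le_pow (by
          have : (0 : ℝ) ≤ 1 / ((p : ℝ) - 1) := by positivity
          linarith) j
      have h5 : (0 : ℝ) ≤ C / ((p : ℝ) - 1) ^ 2 := by positivity
      have h6 : (0 : ℝ) ≤ (j : ℝ) / ((p : ℝ) - 1) := by positivity
      have h7 : (j : ℝ) * (1 / ((p : ℝ) - 1)) = (j : ℝ) / ((p : ℝ) - 1) := by ring
      rw [h7] at h4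
      calc 1 + (j : ℝ) / ((p : ℝ) - 1) + C / ((p : ℝ) - 1) ^ 2
          ≤ (1 + (j : ℝ) / ((p : ℝ) - 1)) * (1 + C / ((p : ℝ) - 1) ^ 2) := by nlinarith
        _ ≤ _ := mul_le_mul_of_nonneg_right h4 (by linarith)
  refine h1.trans ?_
  rw [Finset.prod_mul_distrib, Finset.prod_pow, Finset.prod_inv_distrib]
  have h2 : (∏ p ∈ PP w Z, (1 - 1 / (p : ℝ)))⁻¹ = kap w * (1 / kap Z) := by
    have h3 := B16_kap_pos w
    have h4 := B16_kap_pos Z
    have h5 : ∏ p ∈ PP w Z, (1 - 1 / (p : ℝ)) = kap Z / kap w := by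
      rw [B16_kap hZ]
      field_simp
    rw [h5, inv_div]
    ring
  rw [h2]
  have h3 : kap w * (1 / kap Z) ≤ B * (kap w * Real.log Z) := by
    have h4 := mul_le_mul_of_nonneg_left (hB Z (hw.trans hZ)) (B16_kap_pos w).le
    linarith
  have h4 : (kap w * (1 / kap Z)) ^ j ≤ (B * (kap w * Real.log Z)) ^ j := by
    refine pow_le_pow_left₀ ?_ h3 j
    have := B16_kap_pos w
    have := B16_kap_pos Z
    positivity
  have h5 : ∏ p ∈ PP w Z, (1 + C / ((p : ℝ) - 1) ^ 2) ≤ Real.exp C := by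
    refine (B16_prod hw hC).trans (Real.exp_le_exp.2 ?_)
    have : (2 : ℝ) ≤ w := by exact_mod_cast hw
    exact div_le_self hC (by linarith)
  calc (kap w * (1 / kap Z)) ^ j * ∏ p ∈ PP w Z, (1 + C / ((p : ℝ) - 1) ^ 2)
      ≤ (B * (kap w * Real.log Z)) ^ j * Real.exp C := by
        refine mul_le_mul h4 h5 (Finset.prod_nonneg fun p _ => by positivity) ?_
        have := B16_kap_pos w
        have : (0 : ℝ) ≤ Real.log Z := Real.log_natCast_nonneg Z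
        positivity
    _ = Real.exp C * B ^ j * (kap w * Real.log Z) ^ j := by
        rw [mul_pow]
        ring

theorem prod3_le (k : ℕ) (e : ℝ) (he : 0 < e) : ∃ w0 : ℕ, ∀ w Z : ℕ, w0 ≤ w →
    (∏ p ∈ PP w Z, (1 + 3 / ((p : ℝ) - 1) ^ 2)) ^ k ≤ 1 + e := by
  have hl : 0 < Real.log (1 + e) := Real.log_pos (by linarith)
  obtain ⟨w0, hw0⟩ := exists_nat_ge (3 * k / Real.log (1 + e) + 2)
  refine ⟨w0 + 2, fun w Z hw => ?_⟩
  have hw2 : 2 ≤ w := by omega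
  have h1 := B16_prod (Z := Z) hw2 (by norm_num : (0 : ℝ) ≤ 3)
  have h2 : (∏ p ∈ PP w Z, (1 + 3 / ((p : ℝ) - 1) ^ 2)) ^ k ≤ Real.exp (3 / ((w : ℝ) - 1)) ^ k :=
    pow_le_pow_left₀ (Finset.prod_nonneg fun p _ => by positivity) h1 k
  refine h2.trans ?_
  rw [← Real.exp_nat_mul]
  have h3 : (w0 : ℝ) + 2 ≤ w := by exact_mod_cast hw
  have h4 : (0 : ℝ) < (w : ℝ) - 1 := by
    have : (0 : ℝ) ≤ w0 := Nat.cast_nonneg _
    linarith
  have h5 : (k : ℝ) * (3 / ((w : ℝ) - 1)) ≤ Real.log (1 + e) := by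
    have h6 : 3 * k / Real.log (1 + e) ≤ (w : ℝ) - 1 := by linarith
    rw [div_le_iff₀ hl] at h6
    rw [← mul_div_assoc, div_le_iff₀ h4]
    linarith
  calc Real.exp ((k : ℝ) * (3 / ((w : ℝ) - 1))) ≤ Real.exp (Real.log (1 + e)) := Real.exp_le_exp.2 h5
    _ = 1 + e := Real.exp_log (by linarith)

end Pool.Agent.LibSP4
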