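import Pool.Agent.LibSP4.Defs

/-!
Row B18 (MEDIUM): the distribution of all numbers `n ≡ n0 mod W` in `(N, 2N]`. The conditions `p ∣ n + b i` (`p ∈ sp P σ`, `σ p = some i`) and `n ≡ n0 mod W` are one residue class modulo `W q`,
`q = ∏ sp P σ` (Chinese remainder theorem, the primes of `P` do not divide `W`), so the count is `N/(W q) + O(1)`, error at most `1`, and `∏_{p∈sp} 1/p = 1/q`.
(`LibRG87/R8a.lean` has CRT helpers; `Nat.count_modEq_card`, `Nat.Ioc_filter_modEq_card` or a direct argument.)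
-/

open Finset

namespace Pool.Agent.LibSP4

open Pool.Agent.LibRG87

private theorem B18_count (N r c : ℕ) (hr : 0 < r) :
    |(((Ioc N (2 * N)).filter fun n => n ≡ c [MOD r]).card : ℝ) - N / r| ≤ 1 := by
  have h := Nat.Ioc_filter_modEq_card N (2 * N) hr c
  have hr' : (0 : ℝ) < r := by exact_mod_cast hr
  set K := ((Ioc N (2 * N)).filter fun n => n ≡ c [MOD r]).card with hK
  have h2 : (K : ℤ) = max (⌊(((2 * N : ℕ) : ℚ) - c) / r⌋ - ⌊((N : ℚ) - c) / r⌋) 0 := h
  set x : ℚ := (((2 * N : ℕ) : ℚ) - c) / r with hx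
  set y : ℚ := ((N : ℚ) - c) / r with hy
  have hrq : (0 : ℚ) < r := by exact_mod_cast hr
  have hxy : x - y = N / r := by
    rw [hx, hy, ← sub_div]
    congr 1
    push_cast
    ring
  have h0 : (0 : ℚ) ≤ N / r := by positivity
  have hmono : ⌊y⌋ ≤ ⌊x⌋ := Int.floor_le_floor (by linarith)
  rw [max_eq_left (by linarith)] at h2
  have h3 : (K : ℚ) = (⌊x⌋ : ℚ) - ⌊y⌋ := by exact_mod_cast h2
  have a1 := Int.floor_le x
  have a2 := Int.lt_floor_add_one x
  have a3 := Int.floor_le y
  have a4 := Int.lt_floor_add_one y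
  have h4 : |(K : ℚ) - N / r| ≤ 1 := by
    rw [h3, ← hxy, abs_le]
    constructor <;> linarith
  have h5 : ((|(K : ℚ) - N / r| : ℚ) : ℝ) ≤ ((1 : ℚ) : ℝ) := by exact_mod_cast h4
  push_cast at h5
  exact h5

private theorem B18_prod {T : Finset ℕ} (hT : ∀ p ∈ T, p.Prime) (n c : ℕ) :
    (∀ p ∈ T, n ≡ c [MOD p]) ↔ n ≡ c [MOD ∏ p ∈ T, p] := by
  classical
  induction T using Finset.induction_on with
  | empty => simp [Nat.modEq_one]
  | insert a T ha ih =>
    have hco : Nat.Coprime a (∏ p ∈ T, p) := by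
      refine Nat.Coprime.prod_right fun p hp => ?_
      refine (Nat.coprime_primes (hT a (mem_insert_self a T)) (hT p (mem_insert_of_mem hp))).2 ?_
      rintro rfl
      exact ha hp
    rw [Finset.prod_insert ha, ← Nat.modEq_and_modEq_iff_modEq_mul hco,
      ← ih fun p hp => hT p (mem_insert_of_mem hp)]
    simp

theorem dist_all {ι : Type} [Fintype ι] [DecidableEq ι] (P : Finset ℕ) (hP : ∀ p ∈ P, p.Prime)
    (b : ι → ℕ) (W n0 N : ℕ) (hW : 0 < W) (hPW : ∀ p ∈ P, ¬ p ∣ W) :
    Dist P b Finset.univ ((Ioc N (2 * N)).filter fun n => n ≡ n0 [MOD W]) (fun _ => 1) (N / W : ℝ)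
      (fun p => 1 / (p : ℝ)) (fun _ => 2) := by
  classical
  refine ⟨fun _ _ => zero_le_one, by positivity, fun _ => by norm_num, fun _ _ => le_rfl, ?_, ?_⟩
  · intro p hp
    have h2 : (2 : ℝ) ≤ p := by exact_mod_cast (hP p hp).two_le
    exact one_div_le_one_div_of_le (by linarith) (by linarith)
  · intro σ _
    have hTP : ∀ p ∈ sp P σ, p ∈ P := by
      intro p hp
      rw [sp, Finset.mem_image] at hp
      obtain ⟨x, -, rfl⟩ := hp
      exact x.2
    have hT : ∀ p ∈ sp P σ, p.Prime := fun p hp => hP p (hTP p hp)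
    set q := ∏ p ∈ sp P σ, p with hq
    have hq0 : 0 < q := Finset.prod_pos fun p hp => (hT p hp).pos
    have hco : Nat.Coprime W q := by
      refine Nat.Coprime.prod_right fun p hp => ?_
      exact ((hT p hp).coprime_iff_not_dvd.2 (hPW p (hTP p hp))).symm
    -- residues
    have hres : ∀ p : P, ∃ a : ℕ, ∀ i, σ p = some i → (p : ℕ) ∣ a + b i := by
      intro p
      rcases hσ : σ p with _ | i
      · exact ⟨0, fun i hi => by simp at hi⟩
      · have hpp := (hP p p.2).pos
        refine ⟨p - b i % p, fun j hj => ?_⟩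
        rw [Option.some.injEq] at hj
        subst hj
        have h1 : b i % p ≤ p := (Nat.mod_lt _ hpp).le
        have h2 : (p : ℕ) - b i % p + b i = p + p * (b i / p) := by
          have := Nat.mod_add_div (b i) p
          omega
        rw [h2]
        exact Dvd.intro (1 + b i / p) (by ring)
    choose a ha using hres
    set a' : ℕ → ℕ := fun p => if h : p ∈ P then a ⟨p, h⟩ else 0 with ha'
    obtain ⟨c1, hc1⟩ := Nat.chineseRemainderOfFinset a' (fun p => p) (sp P σ)
      (fun p hp => (hT p hp).pos.ne') (by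
        intro p hp p' hp' hne
        exact (Nat.coprime_primes (hT p hp) (hT p' hp')).2 hne)
    obtain ⟨c, hcW, hcq⟩ := Nat.chineseRemainder hco n0 c1
    have hiff : ∀ n : ℕ, (n ≡ n0 [MOD W] ∧ ∀ (p : P) (i : ι), σ p = some i → (p : ℕ) ∣ n + b i) ↔
        n ≡ c [MOD W * q] := by
      intro n
      rw [← Nat.modEq_and_modEq_iff_modEq_mul hco]
      have e1 : n ≡ n0 [MOD W] ↔ n ≡ c [MOD W] :=
        ⟨fun h => h.trans hcW.symm, fun h => h.trans hcW⟩
      rw [e1]
      refine and_congr_right fun _ => ?_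
      rw [hq, ← B18_prod hT]
      constructor
      · intro h p hp
        have hpP := hTP p hp
        have h3 : c ≡ a ⟨p, hpP⟩ [MOD p] := by
          have h4 : c ≡ c1 [MOD p] := hcq.of_dvd (Finset.dvd_prod_of_mem _ hp)
          have h5 := hc1 p hp
          simp only [ha', dif_pos hpP] at h5
          exact h4.trans h5
        refine Nat.ModEq.trans ?_ h3.symm
        rw [sp, Finset.mem_image] at hp
        obtain ⟨x, hx, hxp⟩ := hp
        have hxe : x = ⟨p, hpP⟩ := Subtype.ext hxp
        rw [Finset.mem_filter] at hx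
        obtain ⟨i, hi⟩ := Option.ne_none_iff_exists'.1 hx.2
        rw [hxe] at hi
        have h6 := h ⟨p, hpP⟩ i hi
        have h7 := ha ⟨p, hpP⟩ i hi
        have h8 : n + b i ≡ a ⟨p, hpP⟩ + b i [MOD p] :=
          ((Nat.modEq_zero_iff_dvd).2 h6).trans ((Nat.modEq_zero_iff_dvd).2 h7).symm
        exact Nat.ModEq.add_right_cancel' _ h8
      · intro h p i hi
        have hp : (p : ℕ) ∈ sp P σ := by
          rw [sp, Finset.mem_image]
          exact ⟨p, by simp [hi], rfl⟩
        have h3 : c ≡ a p [MOD p] := by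
          have h4 : c ≡ c1 [MOD p] := hcq.of_dvd (Finset.dvd_prod_of_mem (fun p : ℕ => p) hp)
          have h5 := hc1 p hp
          simp only [ha', dif_pos p.2] at h5
          exact h4.trans h5
        have h6 : n ≡ a p [MOD p] := (h p hp).trans h3
        have h7 := ha p i hi
        exact (Nat.modEq_zero_iff_dvd).1
          ((h6.add_right (b i)).trans ((Nat.modEq_zero_iff_dvd).2 h7))
    have hsum : ∑ n ∈ (Ioc N (2 * N)).filter fun n => n ≡ n0 [MOD W],
        (fun _ => (1 : ℝ)) n * (if ∀ (p : P) (i : ι), σ p = some i → (p : ℕ) ∣ n + b i then (1 : ℝ)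
          else 0) = (((Ioc N (2 * N)).filter fun n => n ≡ c [MOD W * q]).card : ℝ) := by
      rw [Finset.card_eq_sum_ones, Nat.cast_sum, Finset.sum_filter, Finset.sum_filter]
      refine Finset.sum_congr rfl fun n _ => ?_
      by_cases h1 : n ≡ c [MOD W * q]
      · have h2 := (hiff n).2 h1
        rw [if_pos h1, if_pos h2.1, if_pos h2.2]
        simp
      · rw [if_neg h1]
        by_cases h2 : n ≡ n0 [MOD W]
        · rw [if_pos h2, if_neg fun h3 => h1 ((hiff n).1 ⟨h2, h3⟩)]
          simp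
        · rw [if_neg h2]
    have hprod : ((N : ℝ) / W) * ∏ p ∈ sp P σ, (fun p : ℕ => 1 / (p : ℝ)) p =
        N / ((W * q : ℕ) : ℝ) := by
      have h1 : ∏ p ∈ sp P σ, (fun p : ℕ => 1 / (p : ℝ)) p = 1 / (q : ℝ) := by
        simp only [hq, one_div, Finset.prod_inv_distrib, Nat.cast_prod]
      rw [h1, Nat.cast_mul, div_mul_div_comm, mul_one]
    have hc := B18_count N (W * q) c (Nat.mul_pos hW hq0)
    calc _ = |(((Ioc N (2 * N)).filter fun n => n ≡ c [MOD W * q]).card : ℝ) -
          N / ((W * q : ℕ) : ℝ)| := by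
          rw [← hprod, ← hsum]
      _ ≤ 1 := hc
      _ ≤ 2 := by norm_num

end Pool.Agent.LibSP4
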