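import Pool.Agent.LibSP4.Defs2
import Pool.Agent.LibSP4.B13

/-!
Row B19 (SHORT/MEDIUM): the statistic `SS` in terms of `pr` and `e2`. Let `P = PP w Z`, `3 ≤ w`, `Z < l` where `l` is the large prime.
(P) If `m = 3 l`, `l` prime, `Z < l`: no prime of `P` divides `m`, so `lamS = 1` (B13) and `SS false P R z m = pr (m/3)`.
(E) If `m = p q`, `z < p < q` primes, `Z < q`: the only possible prime of `P` dividing `m` is `p` (if `p ≤ Z`; `w ≤ z < p`), so `lamS P R m = vv P R p`;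
so `SS true P R z m = e2 (fun p => vv P R p ^ 2) z m` (the sum in `e2` has exactly one term if `occE z m` and is empty otherwise). Also `0 ≤ vv ≤ 1`.
-/

open Finset

namespace Pool.Agent.LibSP4

open Pool.Agent.LibRG87 Pool.Agent.LibBW4

private theorem B19_prime {w Z p : ℕ} (hp : p ∈ PP w Z) : p.Prime ∧ w < p ∧ p ≤ Z := by
  unfold PP at hp
  rw [Finset.mem_filter, Finset.mem_Ioc] at hp
  exact ⟨hp.2, hp.1.1, hp.1.2⟩

private theorem B19_all {w Z : ℕ} : ∀ p ∈ PP w Z, p.Prime := fun _ hp => (B19_prime hp).1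

theorem vv_bd {w Z : ℕ} {R : ℝ} (hR : 1 ≤ R) (p : ℕ) : 0 ≤ vv (PP w Z) R p ∧ vv (PP w Z) R p ≤ 1 := by
  unfold vv
  by_cases hp : p ∈ PP w Z
  · rw [if_pos hp]
    have h1 := lamS_one (PP w Z) B19_all hR (m := p) hp (fun p' hp' =>
      Nat.prime_dvd_prime_iff_eq (B19_prime hp').1 (B19_prime hp).1)
    exact ⟨h1.2.1, h1.2.2.1⟩
  · rw [if_neg hp]
    exact ⟨zero_le_one, le_rfl⟩

variable [Ell]

theorem Ell_pos : 0 < Ell.l := by
  rcases Ell.hl with h | h <;> omega

theorem Ell_le : Ell.l ≤ 3 := by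
  rcases Ell.hl with h | h <;> omega

private theorem B19_P {w Z : ℕ} (hw : 3 ≤ w) {R : ℝ} (hR : 1 ≤ R) {m : ℕ} (hm : occP m) (hZ : 3 * Z < m) :
    lamS (PP w Z) R m = 1 := by
  obtain ⟨⟨l, rfl⟩, hl⟩ := hm
  have hl3 := Ell_le
  rw [Nat.mul_div_cancel_left l Ell_pos] at hl
  refine lamS_none _ B19_all hR fun p hp hpm => ?_
  obtain ⟨h1, h2, h3⟩ := B19_prime hp
  rcases h1.dvd_mul.1 hpm with h4 | h4
  · have := Nat.le_of_dvd Ell_pos h4
    omega
  · have := (Nat.prime_dvd_prime_iff_eq h1 hl).1 h4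
    have h5 : Ell.l * l ≤ 3 * l := Nat.mul_le_mul_right l hl3
    have h6 : 3 * l ≤ 3 * Z := by omega
    omega

theorem SS_P {w Z : ℕ} (hw : 3 ≤ w) {R : ℝ} (hR : 1 ≤ R) (z m : ℕ) (hm : Ell.l ∣ m) (hZ : 3 * Z < m) :
    SS false (PP w Z) R z m = pr (m / Ell.l) := by
  unfold SS pr
  have h0 : occ false z m ↔ occP m := by
    unfold occ
    simp
  by_cases h : (m / Ell.l).Prime
  · rw [if_pos (h0.2 ⟨hm, h⟩), if_pos h, B19_P hw hR ⟨hm, h⟩ hZ, one_pow]
  · rw [if_neg (fun h1 => h (h0.1 h1).2), if_neg h]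

private theorem B19_E {w Z : ℕ} {R : ℝ} (hR : 1 ≤ R) {m p q : ℕ} (hp : p.Prime) (hq : q.Prime) (hpq : p < q)
    (hm : m = p * q) (hZ : Z * Z < m) : lamS (PP w Z) R m = vv (PP w Z) R p := by
  have hqZ : Z < q := by
    by_contra hcon
    push Not at hcon
    have h1 : p * q ≤ Z * Z := Nat.mul_le_mul (by omega) hcon
    omega
  have hdiv : ∀ p' ∈ PP w Z, p' ∣ m → p' = p := by
    intro p' hp' hd
    obtain ⟨h1, h2, h3⟩ := B19_prime hp'
    rw [hm] at hd
    rcases h1.dvd_mul.1 hd with h4 | h4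
    · exact (Nat.prime_dvd_prime_iff_eq h1 hp).1 h4
    · have := (Nat.prime_dvd_prime_iff_eq h1 hq).1 h4
      omega
  unfold vv
  by_cases h : p ∈ PP w Z
  · rw [if_pos h]
    refine (lamS_one (PP w Z) B19_all hR (m := m) h fun p' hp' => ⟨hdiv p' hp', ?_⟩).1
    intro h1
    rw [h1, hm]
    exact dvd_mul_right p q
  · rw [if_neg h]
    refine lamS_none _ B19_all hR fun p' hp' hd => h ?_
    rw [← hdiv p' hp' hd]
    exact hp'

theorem SS_E {w Z : ℕ} {R : ℝ} (hR : 1 ≤ R) (z m : ℕ) (hwz : w ≤ z) (hZ : Z * Z < m) :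
    SS true (PP w Z) R z m = e2 (fun p => vv (PP w Z) R p ^ 2) z m := by
  unfold SS e2
  have h0 : occ true z m ↔ occE z m := by
    unfold occ
    simp
  by_cases h : occE z m
  · rw [if_pos (h0.2 h)]
    obtain ⟨p, q, hp, hq, hzp, hpq, hm⟩ := h
    have h1 : (range (m + 1)).filter (fun p => p.Prime ∧ z < p ∧ p ∣ m ∧ (m / p).Prime ∧ p < m / p) = {p} := by
      ext p'
      rw [Finset.mem_filter, Finset.mem_singleton, Finset.mem_range]
      constructor
      · rintro ⟨-, h2, h3, h4, h5, h6⟩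
        rw [hm] at h4
        rcases h2.dvd_mul.1 h4 with h7 | h7
        · exact (Nat.prime_dvd_prime_iff_eq h2 hp).1 h7
        · have h8 := (Nat.prime_dvd_prime_iff_eq h2 hq).1 h7
          rw [hm, h8, Nat.mul_div_cancel _ hq.pos] at h6
          omega
      · rintro rfl
        have h2 : m / p' = q := by
          rw [hm, Nat.mul_div_cancel_left _ hp.pos]
        refine ⟨?_, hp, hzp, ?_, ?_, ?_⟩
        · have : p' ≤ m := by
            rw [hm]
            exact Nat.le_mul_of_pos_right p' hq.pos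
          omega
        · rw [hm]
          exact dvd_mul_right _ _
        · rw [h2]
          exact hq
        · rw [h2]
          exact hpq
    rw [h1, Finset.sum_singleton, B19_E hR hp hq hpq hm hZ]
  · rw [if_neg (fun h1 => h (h0.1 h1))]
    symm
    refine Finset.sum_eq_zero fun p hp => ?_
    exfalso
    rw [Finset.mem_filter] at hp
    obtain ⟨-, h2, h3, h4, h5, h6⟩ := hp
    exact h ⟨p, m / p, h2, h5, h3, h6, (Nat.mul_div_cancel' h4).symm⟩

theorem SS_bd (t : Bool) {w Z : ℕ} (hw : 3 ≤ w) {R : ℝ} (hR : 1 ≤ R) (z m : ℕ) (hwz : w ≤ z) (hZ : Z * Z < m) (hZ3 : 3 * Z < m) :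
    0 ≤ SS t (PP w Z) R z m ∧ SS t (PP w Z) R z m ≤ 1 := by
  have key : occ t z m → 0 ≤ lamS (PP w Z) R m ∧ lamS (PP w Z) R m ≤ 1 := by
    intro h
    cases t with
    | false =>
      have h1 : occP m := by
        unfold occ at h
        simpa using h
      rw [B19_P hw hR h1 hZ3]
      exact ⟨zero_le_one, le_rfl⟩
    | true =>
      have h1 : occE z m := by
        unfold occ at h
        simpa using h
      obtain ⟨p, q, hp, hq, hzp, hpq, hm⟩ := h1
      rw [B19_E hR hp hq hpq hm hZ]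
      exact vv_bd hR p
  unfold SS
  split_ifs with h
  · obtain ⟨h1, h2⟩ := key h
    exact ⟨by positivity, pow_le_one₀ h1 h2⟩
  · exact ⟨le_rfl, zero_le_one⟩

end Pool.Agent.LibSP4
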