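import Pool.Agent.LibSP4.Defs2

/-!
Row B20 (MEDIUM/STRONG): from the error terms `bvD` to a `Dist`. Setting: `t ∈ {1, 3}`, `W = Wm w = t W'`, `t ∣ n0 + b i`, `a0 = (n0 + b i)/t` prime to `W'`
(`t = 1`, `W' = Wm w` or `t = 3`, `W' = primorial w`); `a : ℕ → ℝ` nonnegative, `om n = a ((n + b i)/t)`; every prime of `P` is `> w` (so prime to `W` and to `t`), `b < w` pairwise different, so
`p ∣ n + b j`, `j ≠ i`, implies `p ∤ n + b i`. For `n ≡ n0 mod W` in `(N, 2N]` the numbers `l = (n + b i)/t` run through the `l ≡ a0 mod W'` in `(u, v]`, `u = (N + b i)/t`, `v = (2N + b i)/t`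
(floors; `n + b i = t l`); with the conditions of `σ` (modulus `q = ∏ sp σ`) they are one class `c` modulo `W' q`, prime to `W' q`. So with `T(m) = ∑_{l ∈ (u,v], (l,m)=1} a l`:
`|∑_{σ} om - X/φ(q)| ≤ bvD a u v (W' q) c + bvD a u v W' c'/φ(q) + |T(W' q) - T(W')|/φ(W' q)`, `X = ∑ om`, `φ(W' q) = φ(W') φ(q)`, `∏_{p∈sp σ} 1/(p-1) = 1/φ(q)`.
Define `Er q` as the maximum over the classes (`Finset.sup'` over `(range (W' q)).filter (Coprime (W' q))`, `1` is in it or use `∑`/`iSup` as you like) of the first term plus the other two. To sum over `q`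
choose the maximal class for each modulus as the function `c` of the hypothesis `hBV` (which holds for every `c`), the moduli `W' q` are distinct and `≤ W' D`, `C^ω(q) ≤ C^ω(W' q)` (`1 ≤ C`).
The second term: `∑_{q ≤ D} C^ω(q)/φ(q) * bvD(W') ≤ ...`: `bvD a u v W' c' ≤ E0` is one of the terms of `hBV` (modulus `W'`), and `∑_{q≤D} C^ω(q)/φ(q) ≤ Sg`. The third term is bounded by hypothesis `hT`.
-/

open Finset

namespace Pool.Agent.LibSP4

open Pool.Agent.LibRG87 Pool.Agent.LibBW4

/-- sums over `n` in a class modulo `t m` are sums over `l` in a class modulo `m` -/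
private theorem sum_class (N x t m bi : ℕ) (a : ℕ → ℝ) (ht : 0 < t) (htx : t ∣ x + bi) :
    ∑ n ∈ (Ioc N (2 * N)).filter (fun n => n ≡ x [MOD t * m]), a ((n + bi) / t) =
      ∑ l ∈ (Ioc ((N + bi) / t) ((2 * N + bi) / t)).filter (fun l => l ≡ (x + bi) / t [MOD m]), a l := by
  have key : ∀ n, n ≡ x [MOD t * m] → t ∣ n + bi := by
    intro n hn
    have h1 : n ≡ x [MOD t] := Nat.ModEq.of_mul_right m hn
    have h2 : n + bi ≡ x + bi [MOD t] := h1.add_right bi
    exact (Nat.ModEq.dvd_iff h2 (dvd_refl t)).2 htx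
  obtain ⟨c, hc⟩ := htx
  have hcx : (x + bi) / t = c := by rw [hc, Nat.mul_div_cancel_left c ht]
  rw [hcx]
  refine Finset.sum_bij (fun n _ => (n + bi) / t) ?_ ?_ ?_ ?_
  · intro n hn
    rw [mem_filter, mem_Ioc] at hn
    obtain ⟨⟨h1, h2⟩, h3⟩ := hn
    obtain ⟨l, hl⟩ := key n h3
    have hl' : (n + bi) / t = l := by rw [hl, Nat.mul_div_cancel_left l ht]
    simp only [hl', mem_filter, mem_Ioc]
    refine ⟨⟨?_, ?_⟩, ?_⟩
    · rw [Nat.div_lt_iff_lt_mul ht, mul_comm l t, ← hl]; omega
    · rw [Nat.le_div_iff_mul_le ht, mul_comm l t, ← hl]; omega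
    · have h4 : t * l ≡ t * c [MOD t * m] := by rw [← hl, ← hc]; exact h3.add_right bi
      exact Nat.ModEq.mul_left_cancel' (by omega) h4
  · intro n hn n' hn' h
    rw [mem_filter, mem_Ioc] at hn hn'
    obtain ⟨l, hl⟩ := key n hn.2
    obtain ⟨l', hl'⟩ := key n' hn'.2
    simp only [hl, hl', Nat.mul_div_cancel_left _ ht] at h
    subst h
    omega
  · intro l hl
    rw [mem_filter, mem_Ioc] at hl
    obtain ⟨⟨h1, h2⟩, h3⟩ := hl
    rw [Nat.div_lt_iff_lt_mul ht] at h1
    rw [Nat.le_div_iff_mul_le ht] at h2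
    have h4 : t * l ≡ t * c [MOD t * m] := Nat.ModEq.mul_left' t h3
    have h5 : t * l - bi + bi = t * l := Nat.sub_add_cancel (by rw [mul_comm]; omega)
    refine ⟨t * l - bi, ?_, ?_⟩
    · rw [mem_filter, mem_Ioc]
      refine ⟨⟨?_, ?_⟩, ?_⟩
      · rw [mul_comm] at h1; omega
      · rw [mul_comm] at h2; omega
      · rw [← hc] at h4
        have h6 : (t * l - bi) + bi ≡ x + bi [MOD t * m] := by rw [h5]; exact h4
        exact Nat.ModEq.add_right_cancel' bi h6
    · simp only [h5, Nat.mul_div_cancel_left l ht]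
  · intro n hn
    rfl

/-- the Chinese remainder theorem -/
private theorem crt (M x : ℕ) (r : ℕ → ℕ) (S : Finset ℕ) (hp : ∀ p ∈ S, p.Prime) (hM : ∀ p ∈ S, M.Coprime p) :
    ∃ y, ∀ n, (n ≡ x [MOD M] ∧ ∀ p ∈ S, p ∣ n + r p) ↔ n ≡ y [MOD M * ∏ p ∈ S, p] := by
  classical
  induction S using Finset.induction_on with
  | empty => exact ⟨x, fun n => by simp⟩
  | insert p S hpS ih =>
    obtain ⟨y, hy⟩ := ih (fun q hq => hp q (mem_insert_of_mem hq)) (fun q hq => hM q (mem_insert_of_mem hq))
    have hpp : p.Prime := hp p (mem_insert_self p S)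
    have hco : (M * ∏ q ∈ S, q).Coprime p := by
      apply Nat.Coprime.mul_left (hM p (mem_insert_self p S))
      apply Nat.Coprime.prod_left
      intro q hq
      exact (Nat.coprime_primes (hp q (mem_insert_of_mem hq)) hpp).2 (by rintro rfl; exact hpS hq)
    obtain ⟨z, hz1, hz2⟩ := Nat.chineseRemainder hco y (p - r p % p)
    refine ⟨z, fun n => ?_⟩
    have e1 : p ∣ n + r p ↔ n ≡ p - r p % p [MOD p] := by
      have h1 : (p - r p % p) + r p ≡ 0 [MOD p] := by
        have h2 : (p - r p % p) + r p ≡ (p - r p % p) + r p % p [MOD p] :=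
          (Nat.ModEq.refl _).add (Nat.mod_modEq (r p) p).symm
        have h3 : (p - r p % p) + r p % p = p := Nat.sub_add_cancel (Nat.mod_lt _ hpp.pos).le
        rw [h3] at h2
        exact h2.trans ((Nat.modEq_zero_iff_dvd).2 (dvd_refl p))
      constructor
      · intro h
        have h2 : n + r p ≡ (p - r p % p) + r p [MOD p] := ((Nat.modEq_zero_iff_dvd).2 h).trans h1.symm
        exact Nat.ModEq.add_right_cancel' _ h2
      · intro h
        exact (Nat.modEq_zero_iff_dvd).1 ((h.add_right (r p)).trans h1)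
    rw [prod_insert hpS, mul_comm p, ← mul_assoc, ← Nat.modEq_and_modEq_iff_modEq_mul hco]
    constructor
    · rintro ⟨h1, h2⟩
      refine ⟨((hy n).1 ⟨h1, fun q hq => h2 q (mem_insert_of_mem hq)⟩).trans hz1.symm, ?_⟩
      exact (e1.1 (h2 p (mem_insert_self p S))).trans hz2.symm
    · rintro ⟨h1, h2⟩
      obtain ⟨h3, h4⟩ := (hy n).2 (h1.trans hz1)
      refine ⟨h3, fun q hq => ?_⟩
      rcases mem_insert.1 hq with rfl | hq
      · exact e1.2 (h2.trans hz2)
      · exact h4 q hq

private theorem tot_prod (A : Finset ℕ) (hA : ∀ p ∈ A, p.Prime) :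
    ((∏ p ∈ A, p).totient : ℝ) = ∏ p ∈ A, ((p : ℝ) - 1) := by
  classical
  induction A using Finset.induction_on with
  | empty => simp
  | insert p S hpS ih =>
    have hpp : p.Prime := hA p (mem_insert_self p S)
    rw [prod_insert hpS, prod_insert hpS, Nat.totient_mul, Nat.cast_mul, ih (fun q hq => hA q (mem_insert_of_mem hq)),
      Nat.totient_prime hpp, Nat.cast_sub hpp.one_le, Nat.cast_one]
    apply Nat.Coprime.prod_right
    intro q hq
    exact (Nat.coprime_primes hpp (hA q (mem_insert_of_mem hq))).2 (by rintro rfl; exact hpS hq)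

/-- the worst class -/
private theorem exists_max_class (a : ℕ → ℝ) (u v m : ℕ) :
    ∃ c : ℕ, c.Coprime m ∧ ∀ c', c'.Coprime m → bvD a u v m c' ≤ bvD a u v m c := by
  rcases Nat.eq_zero_or_pos m with rfl | hm
  · refine ⟨1, Nat.coprime_one_left 0, fun c' hc' => ?_⟩
    rw [Nat.coprime_zero_right] at hc'
    rw [hc']
  · have hne : ((range m).filter fun c => c.Coprime m).Nonempty := by
      refine ⟨1 % m, ?_⟩
      rw [mem_filter, mem_range]
      refine ⟨Nat.mod_lt _ hm, ?_⟩
      have h1 : (1 % m) ≡ 1 [MOD m] := Nat.mod_modEq 1 m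
      have h2 := h1.gcd_eq
      unfold Nat.Coprime
      rw [h2]; exact Nat.coprime_one_left m
    obtain ⟨c, hc, hmax⟩ := Finset.exists_max_image ((range m).filter fun c => c.Coprime m) (fun c => bvD a u v m c) hne
    rw [mem_filter] at hc
    refine ⟨c, hc.2, fun c' hc' => ?_⟩
    have h1 : (c' % m) ≡ c' [MOD m] := Nat.mod_modEq c' m
    have h2 : bvD a u v m (c' % m) ≤ bvD a u v m c := by
      apply hmax
      rw [mem_filter, mem_range]
      refine ⟨Nat.mod_lt _ hm, ?_⟩
      unfold Nat.Coprime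
      rw [h1.gcd_eq]; exact hc'
    have h3 : bvD a u v m (c' % m) = bvD a u v m c' := by
      unfold bvD
      congr 3
      apply Finset.filter_congr
      intro l _
      exact ⟨fun h => h.trans h1, fun h => h.trans h1.symm⟩
    rw [← h3]; exact h2

private theorem bvD_nonneg (a : ℕ → ℝ) (u v m c : ℕ) : 0 ≤ bvD a u v m c := abs_nonneg _

private theorem prime_not_dvd_Wm {w p : ℕ} (hw : 3 ≤ w) (hp : p.Prime) (hwp : w < p) : (Wm w).Coprime p := by
  rw [Nat.coprime_comm, hp.coprime_iff_not_dvd]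
  intro h
  unfold Wm at h
  rcases (hp.dvd_mul).1 h with h | h
  · have h0 : p ∣ 2 * 3 := h
    rcases (hp.dvd_mul).1 h0 with h | h
    · have := Nat.le_of_dvd (by norm_num) h
      omega
    · have := Nat.le_of_dvd (by norm_num) h
      omega
  · have h1 : p ∈ (primorial w).primeFactors := by
      rw [Nat.mem_primeFactors]; exact ⟨hp, h, primorial_ne_zero w⟩
    rw [primeFactors_primorial, Nat.mem_primesLE] at h1
    omega

open scoped Classical in
theorem dist_bv {ι : Type} [Fintype ι] [DecidableEq ι] (w Z N n0 t W' : ℕ) (b : ι → ℕ) (i : ι) (a : ℕ → ℝ) (ha : ∀ m, 0 ≤ a m)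
    (hw : 3 ≤ w) (hb : ∀ j, b j < w) (hbi : Function.Injective b) (ht : 0 < t) (hW : Wm w = t * W')
    (htn : t ∣ n0 + b i) (hco : ((n0 + b i) / t).Coprime W') (C : ℕ) (hC : 1 ≤ C) (D E0 E1 Sg : ℝ) (hD : 1 ≤ D)
    (hBV : ∀ c : ℕ → ℕ, (∀ q, (c q).Coprime q) → ∑ q ∈ Icc 1 ⌊(W' : ℝ) * D⌋₊, (C : ℝ) ^ q.primeFactors.card *
      bvD a ((N + b i) / t) ((2 * N + b i) / t) q (c q) ≤ E0)
    (hT : ∑ q ∈ (Icc 1 ⌊D⌋₊).filter (fun q => Squarefree q ∧ ∀ p, p.Prime → p ∣ q → w < p), (C : ℝ) ^ q.primeFactors.card *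
      (|∑ l ∈ (Ioc ((N + b i) / t) ((2 * N + b i) / t)).filter (fun l => l.Coprime (W' * q)), a l -
        ∑ l ∈ (Ioc ((N + b i) / t) ((2 * N + b i) / t)).filter (fun l => l.Coprime W'), a l| / (W' * q).totient) ≤ E1)
    (hS : ∑ q ∈ (Icc 1 ⌊D⌋₊).filter (fun q => Squarefree q ∧ ∀ p, p.Prime → p ∣ q → w < p), (C : ℝ) ^ q.primeFactors.card / q.totient ≤ Sg) :
    ∃ Er : ℕ → ℝ, Dist (PP w Z) b (univ.erase i) (ns w n0 N) (fun n => a ((n + b i) / t))
      (∑ n ∈ ns w n0 N, a ((n + b i) / t)) (fun p => 1 / ((p : ℝ) - 1)) Er ∧ ErS C w D Er ≤ E0 + Sg * E0 + E1 := by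
  have htpos : 0 < t := ht
  have hWpos : 0 < W' := by
    rcases Nat.eq_zero_or_pos W' with h | h
    · exfalso
      rw [h, mul_zero] at hW
      unfold Wm at hW
      have := primorial_pos w
      omega
    · exact h
  have hX : ∑ n ∈ ns w n0 N, a ((n + b i) / t) =
      ∑ l ∈ (Ioc ((N + b i) / t) ((2 * N + b i) / t)).filter (fun l => l ≡ (n0 + b i) / t [MOD W']), a l := by
    unfold ns
    rw [hW]
    exact sum_class N n0 t W' (b i) a htpos htn
  set u := (N + b i) / t with hu
  set v := (2 * N + b i) / t with hv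
  choose cM hcM hmax using exists_max_class a u v
  set T : ℕ → ℝ := fun m => ∑ l ∈ (Ioc u v).filter (fun l => l.Coprime m), a l with hTdef
  refine ⟨fun q => bvD a u v (W' * q) (cM (W' * q)) + bvD a u v W' (cM W') / q.totient +
    |T (W' * q) - T W'| / (W' * q).totient, ⟨?_, ?_, ?_, ?_, ?_, ?_⟩, ?_⟩
  · intro n _
    exact ha _
  · exact Finset.sum_nonneg fun n _ => ha _
  · intro q
    have h1 := bvD_nonneg a u v (W' * q) (cM (W' * q))
    have h2 := bvD_nonneg a u v W' (cM W')
    positivity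
  · intro p hp
    unfold PP at hp
    rw [mem_filter, mem_Ioc] at hp
    have h1 : (3 : ℝ) < p := by
      have : 3 < p := by omega
      exact_mod_cast this
    exact one_div_le_one_div_of_le (by linarith) (by linarith)
  · intro p hp
    exact le_refl _
  · intro σ hσ
    set A := sp (PP w Z) σ with hAdef
    have hA : ∀ p ∈ A, ∃ hp : p ∈ PP w Z, σ ⟨p, hp⟩ ≠ none := by
      intro p hp
      rw [hAdef] at hp
      unfold sp at hp
      rw [mem_image] at hp
      obtain ⟨q, hq, rfl⟩ := hp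
      rw [mem_filter] at hq
      exact ⟨q.2, hq.2⟩
    have hA1 : ∀ p ∈ A, p.Prime ∧ w < p := by
      intro p hp
      obtain ⟨h1, _⟩ := hA p hp
      unfold PP at h1
      rw [mem_filter, mem_Ioc] at h1
      exact ⟨h1.2, h1.1.1⟩
    have hAmem : ∀ (p : PP w Z) (j : ι), σ p = some j → (p : ℕ) ∈ A := by
      intro p j hj
      rw [hAdef]
      unfold sp
      rw [mem_image]
      refine ⟨p, ?_, rfl⟩
      rw [mem_filter]
      exact ⟨mem_univ _, by rw [hj]; simp⟩
    obtain ⟨r, hr⟩ : ∃ r : ℕ → ℕ, ∀ (p : PP w Z) (j : ι), σ p = some j → r p = b j := by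
      refine ⟨fun p => if h : p ∈ PP w Z then (match σ ⟨p, h⟩ with | some j => b j | none => 0) else 0, ?_⟩
      intro p j hj
      have h1 : (p : ℕ) ∈ PP w Z := p.2
      simp only [h1, dif_pos]
      have h2 : (⟨(p : ℕ), h1⟩ : PP w Z) = p := Subtype.ext rfl
      rw [h2, hj]
    obtain ⟨y, hy⟩ := crt (Wm w) n0 r A (fun p hp => (hA1 p hp).1)
      (fun p hp => prime_not_dvd_Wm hw (hA1 p hp).1 (hA1 p hp).2)
    have hy0 := (hy y).2 rfl
    have hcond : ∀ n, (∀ (p : PP w Z) (j : ι), σ p = some j → (p : ℕ) ∣ n + b j) ↔ ∀ p ∈ A, p ∣ n + r p := by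
      intro n
      constructor
      · intro h p hp
        obtain ⟨h1, h2⟩ := hA p hp
        obtain ⟨j, hj⟩ := Option.ne_none_iff_exists'.1 h2
        have h3 := h ⟨p, h1⟩ j hj
        have h4 := hr ⟨p, h1⟩ j hj
        simp only at h3 h4
        rw [h4]; exact h3
      · intro h p j hj
        have h3 := h p (hAmem p j hj)
        rw [hr p j hj] at h3
        exact h3
    set q := ∏ p ∈ A, p with hq
    have hqpos : 0 < q := Finset.prod_pos fun p hp => (hA1 p hp).1.pos
    have hWq : W'.Coprime q := by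
      apply Nat.Coprime.prod_right
      intro p hp
      have h1 := prime_not_dvd_Wm hw (hA1 p hp).1 (hA1 p hp).2
      rw [hW] at h1
      exact Nat.Coprime.coprime_mul_left h1
    have hty : t ∣ y + b i := by
      have h1 : y ≡ n0 [MOD t] := by
        have h2 := hy0.1
        rw [hW] at h2
        exact Nat.ModEq.of_mul_right W' h2
      exact (Nat.ModEq.dvd_iff (h1.add_right (b i)) (dvd_refl t)).2 htn
    have hS : ∑ n ∈ ns w n0 N, a ((n + b i) / t) * (if ∀ p i, σ p = some i → (p : ℕ) ∣ n + b i then (1 : ℝ) else 0) =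
        ∑ l ∈ (Ioc u v).filter (fun l => l ≡ (y + b i) / t [MOD W' * q]), a l := by
      rw [← sum_class N y t (W' * q) (b i) a htpos hty, ← mul_assoc, ← hW]
      simp_rw [mul_ite, mul_one, mul_zero]
      rw [← Finset.sum_filter]
      unfold ns
      rw [Finset.filter_filter]
      apply Finset.sum_congr _ (fun n _ => rfl)
      apply Finset.filter_congr
      intro n _
      rw [hcond n]
      exact hy n
    rw [hS, hX]
    have hc0 : (y + b i) / t ≡ (n0 + b i) / t [MOD W'] := by
      obtain ⟨c, hc⟩ := hty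
      obtain ⟨c0, hc0⟩ := htn
      rw [hc, hc0, Nat.mul_div_cancel_left _ htpos, Nat.mul_div_cancel_left _ htpos]
      have h2 := hy0.1
      rw [hW] at h2
      have h3 := h2.add_right (b i)
      rw [hc, hc0] at h3
      exact Nat.ModEq.mul_left_cancel' (by omega) h3
    have hcop : ((y + b i) / t).Coprime (W' * q) := by
      apply Nat.Coprime.mul_right
      · unfold Nat.Coprime
        rw [hc0.gcd_eq]; exact hco
      · apply Nat.Coprime.prod_right
        intro p hp
        rw [Nat.coprime_comm, (hA1 p hp).1.coprime_iff_not_dvd]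
        intro hdiv
        have h1 : p ∣ y + b i := by
          obtain ⟨c, hc⟩ := hty
          rw [hc, Nat.mul_div_cancel_left _ htpos] at hdiv
          rw [hc]; exact hdiv.mul_left t
        obtain ⟨h2, h3⟩ := hA p hp
        obtain ⟨j, hj⟩ := Option.ne_none_iff_exists'.1 h3
        have h4 : p ∣ y + b j := by
          have h5 := hy0.2 p hp
          have h6 := hr ⟨p, h2⟩ j hj
          simp only at h6
          rw [h6] at h5; exact h5
        have h7 : j ≠ i := by
          have h8 := hσ ⟨p, h2⟩ j hj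
          rw [mem_erase] at h8
          exact h8.1
        have h9 : b j ≠ b i := fun h => h7 (hbi h)
        have h10 := hb i
        have h11 := hb j
        have h12 := (hA1 p hp).2
        rcases lt_or_gt_of_ne h9 with h | h
        · have h13 : p ∣ (y + b i) - (y + b j) := Nat.dvd_sub h1 h4
          have h14 := Nat.le_of_dvd (by omega) h13
          omega
        · have h13 : p ∣ (y + b j) - (y + b i) := Nat.dvd_sub h4 h1
          have h14 := Nat.le_of_dvd (by omega) h13
          omega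
    have htot : (q.totient : ℝ) = ∏ p ∈ A, ((p : ℝ) - 1) := tot_prod A fun p hp => (hA1 p hp).1
    have htq : (0 : ℝ) < q.totient := by exact_mod_cast Nat.totient_pos.2 hqpos
    have htW : (0 : ℝ) < W'.totient := by exact_mod_cast Nat.totient_pos.2 hWpos
    have htWq : ((W' * q).totient : ℝ) = W'.totient * q.totient := by
      rw [Nat.totient_mul hWq]; push_cast; ring
    have hprod : ∏ p ∈ A, 1 / ((p : ℝ) - 1) = 1 / q.totient := by
      rw [htot, Finset.prod_div_distrib, Finset.prod_const_one]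
    rw [hprod]
    have e1 := hmax (W' * q) _ hcop
    have e2 := hmax W' _ hco
    rw [show bvD a u v (W' * q) ((y + b i) / t) =
      |∑ m ∈ (Ioc u v).filter (fun m => m ≡ (y + b i) / t [MOD W' * q]), a m - T (W' * q) / ((W' * q).totient : ℝ)| from rfl] at e1
    rw [show bvD a u v W' ((n0 + b i) / t) =
      |∑ m ∈ (Ioc u v).filter (fun m => m ≡ (n0 + b i) / t [MOD W']), a m - T W' / (W'.totient : ℝ)| from rfl] at e2
    set S1 := ∑ m ∈ (Ioc u v).filter (fun m => m ≡ (y + b i) / t [MOD W' * q]), a m with hS1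
    set S2 := ∑ m ∈ (Ioc u v).filter (fun m => m ≡ (n0 + b i) / t [MOD W']), a m with hS2
    have e3 : S1 - S2 * (1 / (q.totient : ℝ)) = (S1 - T (W' * q) / ((W' * q).totient : ℝ)) +
        (T (W' * q) - T W') / ((W' * q).totient : ℝ) - (S2 - T W' / (W'.totient : ℝ)) / q.totient := by
      rw [htWq]
      field_simp
      ring
    rw [e3]
    have e4 : |(S1 - T (W' * q) / ((W' * q).totient : ℝ)) +
        (T (W' * q) - T W') / ((W' * q).totient : ℝ) - (S2 - T W' / (W'.totient : ℝ)) / q.totient| ≤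
        |S1 - T (W' * q) / ((W' * q).totient : ℝ)| + |(T (W' * q) - T W') / ((W' * q).totient : ℝ)| +
        |(S2 - T W' / (W'.totient : ℝ)) / q.totient| := by
      refine (abs_sub _ _).trans ?_
      gcongr
      exact abs_add_le _ _
    refine e4.trans ?_
    rw [abs_div, abs_div, abs_of_pos htq, abs_of_nonneg (show (0 : ℝ) ≤ ((W' * q).totient : ℝ) from Nat.cast_nonneg _)]
    have e5 : |S2 - T W' / (W'.totient : ℝ)| / q.totient ≤ bvD a u v W' (cM W') / q.totient :=
      div_le_div_of_nonneg_right e2 htq.le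
    linarith
  · have hE := hBV cM hcM
    have hC1 : (1 : ℝ) ≤ C := by exact_mod_cast hC
    set Q := (Icc 1 ⌊D⌋₊).filter (fun q => Squarefree q ∧ ∀ p, p.Prime → p ∣ q → w < p) with hQ
    have hfl : W' * ⌊D⌋₊ ≤ ⌊(W' : ℝ) * D⌋₊ := by
      apply Nat.le_floor
      push_cast
      exact mul_le_mul_of_nonneg_left (Nat.floor_le (by linarith)) (Nat.cast_nonneg _)
    have hb0 : bvD a u v W' (cM W') ≤ E0 := by
      refine le_trans ?_ hE
      have h1 : W' ∈ Icc 1 ⌊(W' : ℝ) * D⌋₊ := by
        rw [mem_Icc]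
        refine ⟨hWpos, ?_⟩
        apply Nat.le_floor
        have : (0 : ℝ) < W' := by exact_mod_cast hWpos
        nlinarith
      have h2 := Finset.single_le_sum (f := fun q => (C : ℝ) ^ q.primeFactors.card * bvD a u v q (cM q))
        (fun q _ => mul_nonneg (by positivity) (bvD_nonneg a u v q (cM q))) h1
      refine le_trans ?_ h2
      have h3 : (1 : ℝ) ≤ (C : ℝ) ^ W'.primeFactors.card := one_le_pow₀ hC1
      have h4 := bvD_nonneg a u v W' (cM W')
      nlinarith
    have hb1 : ∑ q ∈ Q, (C : ℝ) ^ q.primeFactors.card * bvD a u v (W' * q) (cM (W' * q)) ≤ E0 := by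
      refine le_trans ?_ hE
      have h1 : ∑ q ∈ Q, (C : ℝ) ^ q.primeFactors.card * bvD a u v (W' * q) (cM (W' * q)) ≤
          ∑ q ∈ Q, (C : ℝ) ^ (W' * q).primeFactors.card * bvD a u v (W' * q) (cM (W' * q)) := by
        apply Finset.sum_le_sum
        intro q hq
        rw [hQ, mem_filter, mem_Icc] at hq
        apply mul_le_mul_of_nonneg_right _ (bvD_nonneg _ _ _ _ _)
        apply pow_le_pow_right₀ hC1
        apply Finset.card_le_card
        exact Nat.primeFactors_mono (Dvd.intro_left W' rfl) (by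
          have : 0 < W' * q := Nat.mul_pos hWpos (by omega)
          omega)
      refine h1.trans ?_
      rw [← Finset.sum_image (s := Q) (g := fun q => W' * q)
        (f := fun m => (C : ℝ) ^ m.primeFactors.card * bvD a u v m (cM m))]
      · apply Finset.sum_le_sum_of_subset_of_nonneg
        · intro m hm
          rw [mem_image] at hm
          obtain ⟨q, hq, rfl⟩ := hm
          rw [hQ, mem_filter, mem_Icc] at hq
          rw [mem_Icc]
          refine ⟨Nat.mul_pos hWpos (by omega), ?_⟩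
          exact (Nat.mul_le_mul_left W' hq.1.2).trans hfl
        · intro m _ _
          exact mul_nonneg (by positivity) (bvD_nonneg _ _ _ _ _)
      · intro x _ y _ hxy
        exact Nat.eq_of_mul_eq_mul_left hWpos hxy
    have hb2 : ∑ q ∈ Q, (C : ℝ) ^ q.primeFactors.card * (bvD a u v W' (cM W') / q.totient) ≤ Sg * E0 := by
      have h1 : ∑ q ∈ Q, (C : ℝ) ^ q.primeFactors.card * (bvD a u v W' (cM W') / q.totient) =
          (∑ q ∈ Q, (C : ℝ) ^ q.primeFactors.card / q.totient) * bvD a u v W' (cM W') := by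
        rw [Finset.sum_mul]
        apply Finset.sum_congr rfl
        intro q _
        ring
      rw [h1]
      have h2 := bvD_nonneg a u v W' (cM W')
      have h3 : 0 ≤ ∑ q ∈ Q, (C : ℝ) ^ q.primeFactors.card / q.totient :=
        Finset.sum_nonneg fun q _ => by positivity
      calc _ ≤ Sg * bvD a u v W' (cM W') := mul_le_mul_of_nonneg_right hS h2
        _ ≤ Sg * E0 := mul_le_mul_of_nonneg_left hb0 (h3.trans hS)
    unfold ErS
    have h1 : ∑ q ∈ Q, (C : ℝ) ^ q.primeFactors.card * (bvD a u v (W' * q) (cM (W' * q)) +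
        bvD a u v W' (cM W') / q.totient + |T (W' * q) - T W'| / (W' * q).totient) =
        ∑ q ∈ Q, (C : ℝ) ^ q.primeFactors.card * bvD a u v (W' * q) (cM (W' * q)) +
        ∑ q ∈ Q, (C : ℝ) ^ q.primeFactors.card * (bvD a u v W' (cM W') / q.totient) +
        ∑ q ∈ Q, (C : ℝ) ^ q.primeFactors.card * (|T (W' * q) - T W'| / (W' * q).totient) := by
      rw [← Finset.sum_add_distrib, ← Finset.sum_add_distrib]
      apply Finset.sum_congr rfl
      intro q _
      ring
    have h2 : ∑ q ∈ Q, (C : ℝ) ^ q.primeFactors.card * (|T (W' * q) - T W'| / (W' * q).totient) ≤ E1 := hT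
    refine le_trans (le_of_eq ?_) ((le_of_eq h1).trans (by linarith))
    rfl

/-- the mass -/
theorem mass_bv (w N n0 t W' bi : ℕ) (a : ℕ → ℝ) (ht : 0 < t) (hW : Wm w = t * W')
    (htn : t ∣ n0 + bi) :
    ∑ n ∈ ns w n0 N, a ((n + bi) / t) =
      ∑ l ∈ (Ioc ((N + bi) / t) ((2 * N + bi) / t)).filter (fun l => l ≡ (n0 + bi) / t [MOD W']), a l := by
  have htpos : 0 < t := ht
  unfold ns
  rw [hW]
  exact sum_class N n0 t W' bi a htpos htn

end Pool.Agent.LibSP4
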