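import Pool.Agent.LibSP4.Defs2
import Pool.Agent.LibRG87.Z

/-!
Row B21 (SHORT/MEDIUM): small sums for B23, B24. (a) `∑_{q ≤ D} C^ω(q)/φ(q) ≤ (C1 log D)^C1` (squarefree `q`: `∏_{p ≤ D} (1 + C/(p-1))`, Mertens; look for `∏_{p ≤ x} (1-1/p)⁻¹ ≤ C0 log x`, e.g. `LibLG5/NT57.lean`).
(b) for `e2`: if `q ≤ D` is squarefree, `m` counts in the difference only if some prime factor of `m = p p'` divides `q`, and it is `> z`; so
`|∑_{(l, W' q)=1} - ∑_{(l,W')=1}| ≤ ∑_{p ∣ q, p > z} #{l ≤ V, p ∣ l} ≤ ω(q) V/z`.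
(c) for `pr`: the difference vanishes if all `l > D` in the range, because then a prime `l > D ≥ q` is prime to `q` (`u ≥ D`).
-/

open Finset

namespace Pool.Agent.LibSP4

open Pool.Agent.LibRG87 Pool.Agent.LibBW4

private theorem b21_prod (C : ℕ) (n : ℕ) :
    ∏ p ∈ (range (n + 1)).filter Nat.Prime, (1 + (C : ℝ) / ((p : ℝ) - 1)) ≤
      ((∏ p ∈ (range (n + 1)).filter Nat.Prime, (1 - 1 / (p : ℝ)))⁻¹) ^ C := by
  rw [← Finset.prod_inv_distrib, ← Finset.prod_pow]
  apply Finset.prod_le_prod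
  · intro p hp
    have h2 : (2 : ℝ) ≤ p := by exact_mod_cast (Finset.mem_filter.1 hp).2.two_le
    have h1 : (0 : ℝ) < (p : ℝ) - 1 := by linarith
    positivity
  · intro p hp
    have h2 : (2 : ℝ) ≤ p := by exact_mod_cast (Finset.mem_filter.1 hp).2.two_le
    have h1 : (0 : ℝ) < (p : ℝ) - 1 := by linarith
    have h3 : (1 - 1 / (p : ℝ))⁻¹ = 1 + 1 / ((p : ℝ) - 1) := by
      have hp0 : (p : ℝ) ≠ 0 := by linarith
      field_simp
      ring
    rw [h3]
    have h4 := one_add_mul_le_pow (a := 1 / ((p : ℝ) - 1)) (by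
      have : 0 ≤ 1 / ((p : ℝ) - 1) := by positivity
      linarith) C
    calc 1 + (C : ℝ) / ((p : ℝ) - 1) = 1 + (C : ℝ) * (1 / ((p : ℝ) - 1)) := by ring
      _ ≤ _ := h4

open scoped Classical in
private theorem b21_sum (C : ℕ) (n w : ℕ) :
    ∑ q ∈ (Icc 1 n).filter (fun q => Squarefree q ∧ ∀ p, p.Prime → p ∣ q → w < p), (C : ℝ) ^ q.primeFactors.card / q.totient ≤
      ∏ p ∈ (range (n + 1)).filter Nat.Prime, (1 + (C : ℝ) / ((p : ℝ) - 1)) := by
  rw [Finset.prod_one_add]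
  set P := (range (n + 1)).filter Nat.Prime with hPdef
  set S := (Icc 1 n).filter (fun q => Squarefree q ∧ ∀ p, p.Prime → p ∣ q → w < p) with hS
  have hval : ∀ q ∈ S, (C : ℝ) ^ q.primeFactors.card / q.totient =
      ∏ p ∈ q.primeFactors, (C : ℝ) / ((p : ℝ) - 1) := by
    intro q hq
    rw [hS, Finset.mem_filter, Finset.mem_Icc] at hq
    rw [Finset.prod_div_distrib, Finset.prod_const]
    congr 1
    have h1 : q.totient = ∏ p ∈ q.primeFactors, (p - 1) := by
      have h2 := Nat.totient_eq_prod_factorization (n := q) (by omega)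
      rw [h2, Finsupp.prod, Nat.support_factorization]
      apply Finset.prod_congr rfl
      intro p hp
      have hp' := Nat.mem_primeFactors.1 hp
      have h3 : q.factorization p = 1 := by
        have h4 := (Nat.squarefree_iff_factorization_le_one (by omega)).1 hq.2.1 p
        have h5 : 0 < q.factorization p :=
          hp'.1.factorization_pos_of_dvd (by omega) hp'.2.1
        omega
      rw [h3]
      simp
    rw [h1]
    push_cast
    apply Finset.prod_congr rfl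
    intro p hp
    have := (Nat.mem_primeFactors.1 hp).1.one_le
    push_cast [Nat.cast_sub this]
    ring
  rw [Finset.sum_congr rfl hval]
  have hinj : Set.InjOn (fun q : ℕ => q.primeFactors) (S : Set ℕ) := by
    intro a ha b hb hab
    have ha' := (Finset.mem_filter.1 (Finset.mem_coe.1 ha)).2.1
    have hb' := (Finset.mem_filter.1 (Finset.mem_coe.1 hb)).2.1
    have h1 := Nat.prod_primeFactors_of_squarefree ha'
    have h2 := Nat.prod_primeFactors_of_squarefree hb'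
    simp only at hab
    rw [← h1, ← h2, hab]
  rw [← Finset.sum_image (f := fun A : Finset ℕ => ∏ p ∈ A, (C : ℝ) / ((p : ℝ) - 1)) hinj]
  apply Finset.sum_le_sum_of_subset_of_nonneg
  · intro A hA
    rw [Finset.mem_image] at hA
    obtain ⟨q, hq, rfl⟩ := hA
    rw [hS, Finset.mem_filter, Finset.mem_Icc] at hq
    rw [Finset.mem_powerset]
    intro p hp
    have hp' := Nat.mem_primeFactors.1 hp
    rw [hPdef, Finset.mem_filter, Finset.mem_range]
    have := Nat.le_of_dvd (by omega) hp'.2.1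
    exact ⟨by omega, hp'.1⟩
  · intro A hA _
    apply Finset.prod_nonneg
    intro p hp
    have h2 : (2 : ℝ) ≤ p := by
      exact_mod_cast (Finset.mem_filter.1 (Finset.mem_powerset.1 hA hp)).2.two_le
    have h1 : (0 : ℝ) < (p : ℝ) - 1 := by linarith
    positivity

open scoped Classical in
theorem sum_C_tot (C : ℕ) : ∃ C1 : ℕ, ∀ D : ℝ, 3 ≤ D → ∀ w : ℕ,
    ∑ q ∈ (Icc 1 ⌊D⌋₊).filter (fun q => Squarefree q ∧ ∀ p, p.Prime → p ∣ q → w < p), (C : ℝ) ^ q.primeFactors.card / q.totient ≤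
      (C1 * Real.log D) ^ C1 := by
  obtain ⟨c, hc, hM⟩ := Z_mertens
  refine ⟨max (max C ⌈1 / c⌉₊) 1, fun D hD w => ?_⟩
  set C1 := max (max C ⌈1 / c⌉₊) 1 with hC1
  have h1 : 3 ≤ ⌊D⌋₊ := Nat.le_floor (by exact_mod_cast hD)
  have hD0 : (0 : ℝ) < D := by linarith
  have hfl : ((⌊D⌋₊ : ℕ) : ℝ) ≤ D := Nat.floor_le hD0.le
  have hfl3 : (3 : ℝ) ≤ ((⌊D⌋₊ : ℕ) : ℝ) := by exact_mod_cast h1
  have hlf : 0 < Real.log ((⌊D⌋₊ : ℕ) : ℝ) := Real.log_pos (by linarith)
  have hlD : Real.log ((⌊D⌋₊ : ℕ) : ℝ) ≤ Real.log D := Real.log_le_log (by linarith) hfl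
  have hlD1 : 1 ≤ Real.log D := by
    rw [Real.le_log_iff_exp_le hD0]
    have := Real.exp_one_lt_d9
    linarith
  have h2 := hM ⌊D⌋₊ (by omega)
  set V := ∏ p ∈ (range (⌊D⌋₊ + 1)).filter Nat.Prime, (1 - 1 / (p : ℝ)) with hV
  have hVpos : 0 < V := lt_of_lt_of_le (div_pos hc hlf) h2
  have hVinv : V⁻¹ ≤ C1 * Real.log D := by
    have h3 : V⁻¹ ≤ (c / Real.log ((⌊D⌋₊ : ℕ) : ℝ))⁻¹ :=
      inv_anti₀ (div_pos hc hlf) h2
    have h4 : (c / Real.log ((⌊D⌋₊ : ℕ) : ℝ))⁻¹ = 1 / c * Real.log ((⌊D⌋₊ : ℕ) : ℝ) := by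
      rw [inv_div]; ring
    rw [h4] at h3
    have h5 : 1 / c ≤ (C1 : ℝ) := by
      refine (Nat.le_ceil _).trans ?_
      exact_mod_cast (le_max_right C ⌈1 / c⌉₊).trans (le_max_left _ _)
    calc V⁻¹ ≤ 1 / c * Real.log ((⌊D⌋₊ : ℕ) : ℝ) := h3
      _ ≤ C1 * Real.log D := mul_le_mul h5 hlD hlf.le (by positivity)
  have hone : 1 ≤ (C1 : ℝ) * Real.log D := by
    have : (1 : ℝ) ≤ C1 := by exact_mod_cast le_max_right _ 1
    nlinarith
  calc _ ≤ _ := b21_sum C ⌊D⌋₊ w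
    _ ≤ (V⁻¹) ^ C := b21_prod C ⌊D⌋₊
    _ ≤ (C1 * Real.log D) ^ C := pow_le_pow_left₀ (inv_nonneg.2 hVpos.le) hVinv C
    _ ≤ (C1 * Real.log D) ^ C1 :=
      pow_le_pow_right₀ hone ((le_max_left C _).trans (le_max_left _ _))

private theorem b21_e2_le (w : ℕ → ℝ) (hw : ∀ p, |w p| ≤ 1) (z l : ℕ) : |e2 w z l| ≤ 1 := by
  unfold e2
  set T := (range (l + 1)).filter (fun p => p.Prime ∧ z < p ∧ p ∣ l ∧ (l / p).Prime ∧ p < l / p)
    with hT
  have hcard : T.card ≤ 1 := by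
    rw [Finset.card_le_one]
    intro a ha b hb
    rw [hT, Finset.mem_filter] at ha hb
    obtain ⟨_, ha1, _, ha2, ha3, ha4⟩ := ha
    obtain ⟨_, hb1, _, hb2, hb3, hb4⟩ := hb
    have hla : a * (l / a) = l := Nat.mul_div_cancel' ha2
    have hlb : b * (l / b) = l := Nat.mul_div_cancel' hb2
    have h1 : a ∣ b * (l / b) := by rw [hlb]; exact ha2
    rcases ha1.dvd_mul.1 h1 with h | h
    · exact (Nat.prime_dvd_prime_iff_eq ha1 hb1).1 h
    · have h3 := (Nat.prime_dvd_prime_iff_eq ha1 hb3).1 h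
      exfalso
      have h4 : b * a = l := by
        rw [h3]; exact hlb
      have h5 : l / a = b := by
        rw [← h4]; exact Nat.mul_div_cancel _ ha1.pos
      rw [h5] at ha4
      rw [← h3] at hb4
      omega
  calc |∑ p ∈ T, w p| ≤ ∑ p ∈ T, |w p| := Finset.abs_sum_le_sum_abs _ _
    _ ≤ ∑ p ∈ T, (1 : ℝ) := Finset.sum_le_sum fun p _ => hw p
    _ = T.card := by simp
    _ ≤ 1 := by exact_mod_cast hcard

private theorem b21_e2_ne (w : ℕ → ℝ) (z l : ℕ) (h : e2 w z l ≠ 0) {r : ℕ} (hr : r.Prime)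
    (hrl : r ∣ l) : z < r := by
  unfold e2 at h
  obtain ⟨p, hp, _⟩ := Finset.exists_ne_zero_of_sum_ne_zero h
  rw [Finset.mem_filter] at hp
  obtain ⟨_, h1, h2, h3, h4, h5⟩ := hp
  have hl : p * (l / p) = l := Nat.mul_div_cancel' h3
  rw [← hl] at hrl
  rcases hr.dvd_mul.1 hrl with h6 | h6
  · rw [(Nat.prime_dvd_prime_iff_eq hr h1).1 h6]; exact h2
  · rw [(Nat.prime_dvd_prime_iff_eq hr h4).1 h6]; omega

theorem diff_e2 (w : ℕ → ℝ) (hw : ∀ p, |w p| ≤ 1) (z u v W' q : ℕ) (hz : 0 < z) (hq : q ≠ 0) :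
    |∑ l ∈ (Ioc u v).filter (fun l => l.Coprime (W' * q)), e2 w z l -
      ∑ l ∈ (Ioc u v).filter (fun l => l.Coprime W'), e2 w z l| ≤ q.primeFactors.card * ((v : ℝ) / z) := by
  classical
  have hz0 : (0 : ℝ) < z := by exact_mod_cast hz
  -- the difference is the sum over the `l` prime to `W'` and not to `q`
  have h1 : ∑ l ∈ (Ioc u v).filter (fun l => l.Coprime W'), e2 w z l =
      ∑ l ∈ (Ioc u v).filter (fun l => l.Coprime (W' * q)), e2 w z l +
      ∑ l ∈ (Ioc u v).filter (fun l => l.Coprime W' ∧ ¬ l.Coprime q), e2 w z l := by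
    rw [← Finset.sum_union]
    · apply Finset.sum_congr _ fun _ _ => rfl
      ext l
      simp only [Finset.mem_filter, Finset.mem_union]
      rw [Nat.coprime_mul_iff_right]
      tauto
    · rw [Finset.disjoint_left]
      intro l hl hl'
      rw [Finset.mem_filter] at hl hl'
      rw [Nat.coprime_mul_iff_right] at hl
      exact hl'.2.2 hl.2.2
  rw [h1, sub_add_cancel_left, abs_neg]
  refine (Finset.abs_sum_le_sum_abs _ _).trans ?_
  have h2 : ∀ l ∈ (Ioc u v).filter (fun l => l.Coprime W' ∧ ¬ l.Coprime q),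
      |e2 w z l| ≤ ∑ r ∈ q.primeFactors, if r ∣ l ∧ z < r then (1 : ℝ) else 0 := by
    intro l hl
    rw [Finset.mem_filter] at hl
    have hnn : 0 ≤ ∑ r ∈ q.primeFactors, if r ∣ l ∧ z < r then (1 : ℝ) else 0 :=
      Finset.sum_nonneg fun r _ => by split_ifs <;> norm_num
    by_cases h0 : e2 w z l = 0
    · rw [h0, abs_zero]; exact hnn
    · obtain ⟨r, hr, hrl, hrq⟩ := Nat.Prime.not_coprime_iff_dvd.1 hl.2.2
      have hzr := b21_e2_ne w z l h0 hr hrl
      refine (b21_e2_le w hw z l).trans ?_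
      have hmem : r ∈ q.primeFactors := Nat.mem_primeFactors.2 ⟨hr, hrq, hq⟩
      calc (1 : ℝ) = if r ∣ l ∧ z < r then (1 : ℝ) else 0 := by rw [if_pos ⟨hrl, hzr⟩]
        _ ≤ _ := Finset.single_le_sum (f := fun r => if r ∣ l ∧ z < r then (1 : ℝ) else 0)
            (fun r _ => by split_ifs <;> norm_num) hmem
  refine (Finset.sum_le_sum h2).trans ?_
  rw [Finset.sum_comm]
  have h3 : ∀ r ∈ q.primeFactors,
      ∑ l ∈ (Ioc u v).filter (fun l => l.Coprime W' ∧ ¬ l.Coprime q),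
        (if r ∣ l ∧ z < r then (1 : ℝ) else 0) ≤ (v : ℝ) / z := by
    intro r hr
    by_cases hzr : z < r
    · have hr0 : 0 < r := by omega
      have hr0' : (0 : ℝ) < r := by exact_mod_cast hr0
      rw [← Finset.sum_filter, Finset.sum_const, nsmul_eq_mul, mul_one]
      have h4 : (((Ioc u v).filter (fun l => l.Coprime W' ∧ ¬ l.Coprime q)).filter
          (fun l => r ∣ l ∧ z < r)) ⊆ (Ioc 0 v).filter (fun l => r ∣ l) := by
        intro l hl
        simp only [Finset.mem_filter, Finset.mem_Ioc] at hl ⊢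
        exact ⟨⟨by omega, hl.1.1.2⟩, hl.2.1⟩
      have h5 := Finset.card_le_card h4
      rw [Nat.Ioc_filter_dvd_card_eq_div] at h5
      calc _ ≤ ((v / r : ℕ) : ℝ) := by exact_mod_cast h5
        _ ≤ (v : ℝ) / r := Nat.cast_div_le
        _ ≤ (v : ℝ) / z := by
          apply div_le_div_of_nonneg_left (by positivity) hz0
          exact_mod_cast hzr.le
    · rw [Finset.sum_eq_zero]
      · positivity
      · intro l _
        rw [if_neg]
        exact fun h => hzr h.2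
  calc _ ≤ ∑ r ∈ q.primeFactors, (v : ℝ) / z := Finset.sum_le_sum h3
    _ = _ := by rw [Finset.sum_const, nsmul_eq_mul]

theorem diff_pr (u v W' q : ℕ) (hq : q ≠ 0) (hqu : q ≤ u) :
    ∑ l ∈ (Ioc u v).filter (fun l => l.Coprime (W' * q)), pr l =
      ∑ l ∈ (Ioc u v).filter (fun l => l.Coprime W'), pr l := by
  apply Finset.sum_subset
  · intro l hl
    rw [Finset.mem_filter] at hl ⊢
    rw [Nat.coprime_mul_iff_right] at hl
    exact ⟨hl.1, hl.2.1⟩
  · intro l hl hnl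
    rw [Finset.mem_filter] at hl hnl
    unfold pr
    rw [if_neg]
    intro hp
    apply hnl
    refine ⟨hl.1, ?_⟩
    rw [Nat.coprime_mul_iff_right]
    refine ⟨hl.2, ?_⟩
    rw [Nat.Prime.coprime_iff_not_dvd hp]
    intro hd
    have := Nat.le_of_dvd (by omega) hd
    rw [Finset.mem_Ioc] at hl
    omega

end Pool.Agent.LibSP4
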