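import Pool.Agent.LibSP4.Defs2
import Pool.Agent.LibSP4.B13
import Pool.Agent.LibPNT.PNT
import Pool.Agent.LibMaier.Mertens2

/-!
Row B22 (MEDIUM): the total weight of the products of two primes. Needs the prime number theorem in the form `π(2x) - π(x) ≥ (1-e) x/log x` (see LibPNT,
e.g. LibPNT) and Mertens' second theorem `∑_{p ≤ x} 1/p = log log x + M + o(1)` (`LibMaier/Mertens2.lean`, or `LibBP4/Ext.lean`).
`N = y^(M q)`, `q = 4 q1 + 6`, `z = y^M`, `R = Z = y^(M q1)`. For `s = 1, ..., 2 q1 + 2` and a prime `p ∈ (z^s, z^(s+1)]` (so `p ≤ z^(2 q1 + 3) = N^(1/2)`):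
the primes `p' ∈ (N'/p, 2N'/p]` (`N' = N + b`) are `> p` and number at least `(1-e) (N/p)/log(N/p) - 1 ≥ (1-e)² (N/p) / ((q-s) log z)`, and `log N = q log z`;
`∑_{z^s < p ≤ z^(s+1)} 1/p → log((s+1)/s) ≥ 2/(2s+1)`; `vv p = 1` for `p > Z`, and for `z^s < p ≤ Z`, `s < q1`:
`vv p ≥ 1 - (p/(p-1)) GG(R/p)/GG(R) ≥ 1 - (1+e) (q1 - s)/q1 ≥ s/q1 - e` for large `y` (B13 `lamS_one`, B14 `GG_asymp`, `kap w > 0`; the cell `p ∈ (z^s, z^(s+1)]` with `s ≥ q1` has `p > Z`).
`m = p p'` is counted once in `e2` (`p < p'`). All `m` are prime to `W` automatically.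
-/

open Finset Filter

namespace Pool.Agent.LibSP4

open Pool.Agent.LibRG87 Pool.Agent.LibBW4

/-- Uniform prime number theorem. -/
private theorem B22_pnt (ε : ℝ) (hε : 0 < ε) : ∃ A₀ : ℝ, 9 ≤ A₀ ∧ ∀ A y : ℝ, A₀ ≤ A → A / 3 ≤ y →
    y ≤ 3 * A → |(Nat.primeCounting ⌊y⌋₊ : ℝ) - y / Real.log A| ≤ ε * (A / Real.log A) := by
  have h1 := (Metric.tendsto_atTop.1 LibPNT.primeCounting_tendsto) (ε / 12) (by positivity)
  obtain ⟨Y, hY⟩ := h1
  have h2 : ∀ᶠ A : ℝ in atTop, 6 * Real.log 3 / ε ≤ Real.log (A / 3) := by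
    have : Tendsto (fun A : ℝ => Real.log (A / 3)) atTop atTop :=
      Real.tendsto_log_atTop.comp (tendsto_id.atTop_div_const (by norm_num))
    exact this.eventually_ge_atTop _
  obtain ⟨A₁, hA₁⟩ := eventually_atTop.1 h2
  refine ⟨max 9 (max A₁ (3 * |Y|)), le_max_left _ _, ?_⟩
  intro A y hA hy1 hy2
  have hA9 : 9 ≤ A := le_trans (le_max_left _ _) hA
  have hAA : A₁ ≤ A := le_trans ((le_max_left _ _).trans (le_max_right _ _)) hA
  have hAY : 3 * |Y| ≤ A := le_trans ((le_max_right _ _).trans (le_max_right _ _)) hA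
  have hlog3 : 0 < Real.log 3 := Real.log_pos (by norm_num)
  have hy0 : 0 < y := by linarith
  have hyY : Y ≤ y := by linarith [le_abs_self Y]
  have h3 := hY y hyY
  rw [Real.dist_eq] at h3
  have hlA3 : 0 < Real.log (A / 3) := Real.log_pos (by linarith)
  have hlA : 0 < Real.log A := Real.log_pos (by linarith)
  have hly : Real.log (A / 3) ≤ Real.log y := Real.log_le_log (by linarith) hy1
  have hly0 : 0 < Real.log y := by linarith
  have e1 : Real.log (A / 3) = Real.log A - Real.log 3 :=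
    Real.log_div (by linarith) (by norm_num)
  have hly2 : Real.log y ≤ Real.log A + Real.log 3 := by
    have := Real.log_le_log hy0 hy2
    rw [Real.log_mul (by norm_num) (by linarith)] at this
    linarith
  have h9 : Real.log A ≤ 2 * Real.log y := by
    have : 2 * Real.log 3 ≤ Real.log A := by
      have h : Real.log 9 = 2 * Real.log 3 := by
        rw [show (9 : ℝ) = 3 ^ 2 by norm_num, Real.log_pow]; norm_num
      rw [← h]
      exact Real.log_le_log (by norm_num) hA9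
    linarith
  set π := (Nat.primeCounting ⌊y⌋₊ : ℝ) with hπ
  have h4 : |π - y / Real.log y| ≤ ε / 12 * (y / Real.log y) := by
    have e2 : π - y / Real.log y = (π * Real.log y / y - 1) * (y / Real.log y) := by
      field_simp
    rw [e2, abs_mul, abs_of_pos (show 0 < y / Real.log y by positivity)]
    exact mul_le_mul_of_nonneg_right h3.le (by positivity)
  have h5 : y / Real.log y ≤ 6 * (A / Real.log A) := by
    rw [← mul_div_assoc, div_le_div_iff₀ hly0 hlA]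
    nlinarith [mul_le_mul hy2 h9 hlA.le (by linarith)]
  have h6 : |y / Real.log y - y / Real.log A| ≤ ε / 2 * (A / Real.log A) := by
    have e3 : y / Real.log y - y / Real.log A =
        (y * (Real.log A - Real.log y) / Real.log y) / Real.log A := by
      field_simp
    rw [e3, abs_div, abs_of_pos hlA, ← mul_div_assoc]
    apply div_le_div_of_nonneg_right _ hlA.le
    rw [abs_div, abs_of_pos hly0, div_le_iff₀ hly0, abs_mul, abs_of_pos hy0]
    have h7 : |Real.log A - Real.log y| ≤ Real.log 3 := abs_le.2 ⟨by linarith, by linarith⟩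
    have h8 := hA₁ A hAA
    rw [div_le_iff₀ hε] at h8
    calc y * |Real.log A - Real.log y| ≤ (3 * A) * Real.log 3 :=
          mul_le_mul hy2 h7 (abs_nonneg _) (by linarith)
      _ ≤ ε / 2 * A * Real.log y := by nlinarith [mul_le_mul_of_nonneg_left hly hε.le]
  calc |π - y / Real.log A| ≤ |π - y / Real.log y| + |y / Real.log y - y / Real.log A| :=
        abs_sub_le _ _ _
    _ ≤ ε / 12 * (y / Real.log y) + ε / 2 * (A / Real.log A) := add_le_add h4 h6
    _ ≤ ε / 12 * (6 * (A / Real.log A)) + ε / 2 * (A / Real.log A) := by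
        have := mul_le_mul_of_nonneg_left h5 (show 0 ≤ ε / 12 by positivity)
        linarith
    _ = ε * (A / Real.log A) := by ring

private theorem B22_count (a b : ℕ) (hab : a ≤ b) :
    (((Ioc a b).filter Nat.Prime).card : ℝ) = Nat.primeCounting b - Nat.primeCounting a := by
  have h1 : (range (b + 1)).filter Nat.Prime =
      ((range (a + 1)).filter Nat.Prime) ∪ ((Ioc a b).filter Nat.Prime) := by
    rw [← filter_union]
    congr 1
    ext x
    simp only [mem_range, mem_union, mem_Ioc]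
    omega
  have h2 : Disjoint ((range (a + 1)).filter Nat.Prime) ((Ioc a b).filter Nat.Prime) := by
    apply disjoint_filter_filter
    rw [Finset.disjoint_left]
    intro x hx hx2
    simp only [mem_range, mem_Ioc] at hx hx2
    omega
  have h3 := card_union_of_disjoint h2
  rw [← h1] at h3
  unfold Nat.primeCounting Nat.primeCounting'
  rw [Nat.count_eq_card_filter_range, Nat.count_eq_card_filter_range, h3]
  push_cast
  ring

private theorem B22_cnt (w : ℕ) (ε : ℝ) (hε : 0 < ε) : ∃ A₁ : ℝ, 3 ≤ A₁ ∧ ∀ N b p : ℕ, b ≤ w → 1 ≤ p →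
    A₁ ≤ (N : ℝ) / p → (1 - ε) * (((N : ℝ) / p) / Real.log ((N : ℝ) / p)) ≤
      (((Ioc ((N + b) / p) ((2 * N + b) / p)).filter Nat.Prime).card : ℝ) := by
  obtain ⟨A₀, h9, hpnt⟩ := B22_pnt (ε / 3) (by positivity)
  refine ⟨max A₀ (max (w + 3) (3 * (w + 1) / ε)), ?_, ?_⟩
  · exact le_trans (by norm_num) (h9.trans (le_max_left _ _))
  intro N b p hb hp hA
  set A : ℝ := (N : ℝ) / p with hAdef
  have hA0 : A₀ ≤ A := (le_max_left _ _).trans hA
  have hAw : (w : ℝ) + 3 ≤ A := ((le_max_left _ _).trans (le_max_right _ _)).trans hA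
  have hAe : 3 * ((w : ℝ) + 1) / ε ≤ A := ((le_max_right _ _).trans (le_max_right _ _)).trans hA
  rw [div_le_iff₀ hε] at hAe
  have hw0 : (0 : ℝ) ≤ w := Nat.cast_nonneg w
  have hp0 : (0 : ℝ) < p := by exact_mod_cast hp
  have hp1 : (1 : ℝ) ≤ p := by exact_mod_cast hp
  have hbw : (b : ℝ) ≤ w := by exact_mod_cast hb
  have hb0 : (0 : ℝ) ≤ b := Nat.cast_nonneg b
  have hbp : (b : ℝ) / p ≤ w := (div_le_self hb0 hp1).trans hbw
  have hbp0 : 0 ≤ (b : ℝ) / p := div_nonneg hb0 hp0.le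
  have hup : ∀ T : ℕ, ((T / p : ℕ) : ℝ) ≤ (T : ℝ) / p := fun T => Nat.cast_div_le
  have hlo : ∀ T : ℕ, (T : ℝ) / p - 1 ≤ ((T / p : ℕ) : ℝ) := by
    intro T
    have h1 : T < p * (T / p + 1) := Nat.lt_mul_div_succ T (by omega)
    have h2 : (T : ℝ) < p * ((T / p : ℕ) + 1) := by exact_mod_cast h1
    have h3 : (T : ℝ) / p < ((T / p : ℕ) : ℝ) + 1 := by
      rw [div_lt_iff₀ hp0, mul_comm]
      exact h2
    linarith
  have e1 : ((N + b : ℕ) : ℝ) / p = A + (b : ℝ) / p := by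
    push_cast
    rw [add_div]
  have e2 : ((2 * N + b : ℕ) : ℝ) / p = 2 * A + (b : ℝ) / p := by
    push_cast
    rw [add_div, mul_div_assoc]
  have u1 := hup (N + b)
  have l1 := hlo (N + b)
  have u2 := hup (2 * N + b)
  have l2 := hlo (2 * N + b)
  rw [e1] at u1 l1
  rw [e2] at u2 l2
  have hmono : (N + b) / p ≤ (2 * N + b) / p := Nat.div_le_div_right (by omega)
  rw [B22_count _ _ hmono]
  have k1 := hpnt A (((N + b) / p : ℕ) : ℝ) hA0 (by linarith) (by linarith)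
  have k2 := hpnt A (((2 * N + b) / p : ℕ) : ℝ) hA0 (by linarith) (by linarith)
  rw [Nat.floor_natCast] at k1 k2
  rw [abs_le] at k1 k2
  have hlA : 0 < Real.log A := Real.log_pos (by linarith)
  have h5 : (1 - ε) * (A / Real.log A) ≤
      ((((2 * N + b) / p : ℕ) : ℝ) / Real.log A - ε / 3 * (A / Real.log A)) -
      ((((N + b) / p : ℕ) : ℝ) / Real.log A + ε / 3 * (A / Real.log A)) := by
    have h6 : ((((2 * N + b) / p : ℕ) : ℝ) / Real.log A - ε / 3 * (A / Real.log A)) -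
      ((((N + b) / p : ℕ) : ℝ) / Real.log A + ε / 3 * (A / Real.log A)) - (1 - ε) * (A / Real.log A) =
      ((((2 * N + b) / p : ℕ) : ℝ) - (((N + b) / p : ℕ) : ℝ) - A + ε / 3 * A) / Real.log A := by
      field_simp
      ring
    have h7 : 0 ≤ ((((2 * N + b) / p : ℕ) : ℝ) - (((N + b) / p : ℕ) : ℝ) - A + ε / 3 * A) / Real.log A := by
      apply div_nonneg _ hlA.le
      linarith
    linarith
  linarith [k1.2, k2.1]

private theorem B22_mert (s : ℕ) (hs : 1 ≤ s) (δ : ℝ) (hδ : 0 < δ) : ∀ᶠ z : ℕ in atTop,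
    2 / (2 * (s : ℝ) + 1) - δ ≤ ∑ p ∈ (Ioc (z ^ s) (z ^ (s + 1))).filter Nat.Prime, 1 / (p : ℝ) := by
  obtain ⟨M, hM⟩ := LibMaier.mertens_second
  have hpow : ∀ k : ℕ, 1 ≤ k → Tendsto (fun z : ℕ => ((z : ℝ) ^ k)) atTop atTop := by
    intro k hk
    exact (tendsto_pow_atTop (by omega)).comp tendsto_natCast_atTop_atTop
  have h1 : Tendsto (fun z : ℕ => LibMaier.DR ((z : ℝ) ^ (s + 1)) - LibMaier.DR ((z : ℝ) ^ s)) atTop (nhds (M - M)) :=
    (hM.comp (hpow (s + 1) (by omega))).sub (hM.comp (hpow s hs))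
  rw [sub_self] at h1
  have h2 := h1.eventually_const_lt (show -δ < 0 by linarith)
  filter_upwards [h2, eventually_ge_atTop 3] with z hz hz3
  have hz3' : (3 : ℝ) ≤ z := by exact_mod_cast hz3
  have hlz : 0 < Real.log z := Real.log_pos (by linarith)
  have hs0 : (0 : ℝ) < s := by exact_mod_cast hs
  unfold LibMaier.DR at hz
  have hf : ∀ k : ℕ, ⌊(z : ℝ) ^ k⌋₊ = z ^ k := by
    intro k
    rw [← Nat.cast_pow, Nat.floor_natCast]
  rw [hf, hf, Real.log_pow, Real.log_pow, Real.log_mul (by positivity) hlz.ne', Real.log_mul (by positivity) hlz.ne'] at hz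
  have h3 := LibMaier.RN_sub (M := z ^ s) (N := z ^ (s + 1)) (Nat.pow_le_pow_right (by omega) (by omega))
  have h4 : Real.log ((s + 1 : ℕ) : ℝ) - Real.log (s : ℝ) = Real.log (1 + 1 / (s : ℝ)) := by
    rw [← Real.log_div (by positivity) hs0.ne']
    congr 1
    push_cast
    field_simp
  have h5 : 2 * (1 / (s : ℝ)) / (1 / (s : ℝ) + 2) ≤ Real.log (1 + 1 / (s : ℝ)) :=
    Real.le_log_one_add_of_nonneg (by positivity)
  have h6 : 2 * (1 / (s : ℝ)) / (1 / (s : ℝ) + 2) = 2 / (2 * (s : ℝ) + 1) := by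
    field_simp
    ring
  rw [h6] at h5
  have h7 : ∑ p ∈ (Ioc (z ^ s) (z ^ (s + 1))).filter Nat.Prime, 1 / (p : ℝ) =
      LibMaier.RN (z ^ (s + 1)) - LibMaier.RN (z ^ s) := by
    rw [h3, Finset.sum_filter]
  rw [h7]
  linarith

private theorem B22_kap_pos (w : ℕ) : 0 < kap w := by
  unfold kap
  refine Finset.prod_pos fun p hp => ?_
  have h1 : p.Prime := (Finset.mem_filter.1 hp).2
  have h2 : (1 : ℝ) < p := by exact_mod_cast h1.one_lt
  rw [sub_pos, div_lt_one (by linarith)]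
  exact h2

private theorem B22_vv (q1 M w : ℕ) (hq1 : 1 ≤ q1) (hM : 1 ≤ M) (δ : ℝ) (hδ : 0 < δ) : ∀ᶠ y : ℕ in atTop,
    ∀ s : ℕ, 1 ≤ s → s < q1 → ∀ p : ℕ, p.Prime → (y ^ M) ^ s < p → p ≤ (y ^ M) ^ (s + 1) →
      0 ≤ vv (PP w (y ^ (M * q1))) ((y : ℝ) ^ (M * q1)) p ∧
      (s : ℝ) / q1 - δ ≤ vv (PP w (y ^ (M * q1))) ((y : ℝ) ^ (M * q1)) p := by
  obtain ⟨C, hC0, hGG⟩ := GG_asymp w
  have hκ := B22_kap_pos w
  have hlog : Tendsto (fun y : ℕ => kap w * (M * Real.log (y : ℝ))) atTop atTop := by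
    apply Tendsto.const_mul_atTop hκ
    apply Tendsto.const_mul_atTop (by exact_mod_cast hM)
    exact Real.tendsto_log_atTop.comp tendsto_natCast_atTop_atTop
  have hcast : Tendsto (fun y : ℕ => (y : ℝ)) atTop atTop := tendsto_natCast_atTop_atTop
  filter_upwards [hlog.eventually_ge_atTop (max (C + 1) ((4 + 3 * δ) * C / δ)), eventually_ge_atTop (w + 3),
    hcast.eventually_ge_atTop (1 + 2 / δ)] with y hy hyw hyδ
  intro s hs1 hsq p hp hps hps'
  have hy3 : 3 ≤ y := by omega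
  have hy0 : (0 : ℝ) < y := by
    have : 0 < y := by omega
    exact_mod_cast this
  have hy1 : (1 : ℝ) ≤ y := by
    have : 1 ≤ y := by omega
    exact_mod_cast this
  set x : ℝ := kap w * (M * Real.log (y : ℝ)) with hx
  have hxC : C + 1 ≤ x := (le_max_left _ _).trans hy
  have hxδ : (4 + 3 * δ) * C / δ ≤ x := (le_max_right _ _).trans hy
  rw [div_le_iff₀ hδ] at hxδ
  -- sizes
  have hyM : y ≤ y ^ M := Nat.le_self_pow (by omega) y
  have hzs : y ^ M ≤ (y ^ M) ^ s := Nat.le_self_pow (by omega) _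
  have hyp : y < p := lt_of_le_of_lt (hyM.trans hzs) hps
  have hpZ : p ≤ y ^ (M * q1) := by
    refine hps'.trans ?_
    rw [pow_mul]
    exact Nat.pow_le_pow_right (Nat.pos_of_ne_zero (by positivity)) (by omega)
  have hpP : p ∈ PP w (y ^ (M * q1)) := by
    unfold PP
    rw [Finset.mem_filter, Finset.mem_Ioc]
    exact ⟨⟨by omega, hpZ⟩, hp⟩
  have hPp : ∀ p' ∈ PP w (y ^ (M * q1)), p'.Prime := by
    intro p' hp'
    unfold PP at hp'
    exact (Finset.mem_filter.1 hp').2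
  have hR1 : (1 : ℝ) ≤ (y : ℝ) ^ (M * q1) := one_le_pow₀ hy1
  have hone := lamS_one (PP w (y ^ (M * q1))) hPp hR1 hpP (m := p) (by
    intro p' hp'
    exact Nat.prime_dvd_prime_iff_eq (hPp p' hp') hp)
  obtain ⟨_, h0, _, hlow⟩ := hone
  have hvv : vv (PP w (y ^ (M * q1))) ((y : ℝ) ^ (M * q1)) p = 1 + rho (PP w (y ^ (M * q1))) ((y : ℝ) ^ (M * q1)) {p} := by
    unfold vv
    rw [if_pos hpP]
  rw [hvv]
  refine ⟨h0, le_trans ?_ hlow⟩
  -- estimates of GG
  have hZ : (((y ^ (M * q1) : ℕ)) : ℝ) = (y : ℝ) ^ (M * q1) := by push_cast; rfl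
  have hp0 : (0 : ℝ) < p := by exact_mod_cast hp.pos
  have hpy : (y : ℝ) < p := by exact_mod_cast hyp
  have hRp1 : 1 ≤ (y : ℝ) ^ (M * q1) / p := by
    rw [le_div_iff₀ hp0, one_mul, ← hZ]
    exact_mod_cast hpZ
  have hRpR : (y : ℝ) ^ (M * q1) / p ≤ (y : ℝ) ^ (M * q1) := div_le_self (by positivity) (by linarith)
  have g1 := hGG (y ^ (M * q1)) ((y : ℝ) ^ (M * q1) / p) hRp1 (by rw [hZ]; exact hRpR)
  have g2 := hGG (y ^ (M * q1)) ((y : ℝ) ^ (M * q1)) hR1 (by rw [hZ])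
  rw [abs_le] at g1 g2
  have hlogR : Real.log ((y : ℝ) ^ (M * q1)) = q1 * (M * Real.log y) := by
    rw [Real.log_pow]
    push_cast
    ring
  have hlogp : (s : ℝ) * (M * Real.log y) ≤ Real.log p := by
    have h1 : (((y ^ M) ^ s : ℕ) : ℝ) < p := by exact_mod_cast hps
    have h2 : Real.log (((y ^ M) ^ s : ℕ) : ℝ) ≤ Real.log p := by
      apply Real.log_le_log _ h1.le
      push_cast
      positivity
    push_cast at h2
    rw [Real.log_pow, Real.log_pow] at h2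
    exact h2
  have hlogRp : Real.log ((y : ℝ) ^ (M * q1) / p) ≤ ((q1 : ℝ) - s) * (M * Real.log y) := by
    rw [Real.log_div (by positivity) hp0.ne', hlogR]
    linarith
  have hG1 : GG (PP w (y ^ (M * q1))) ((y : ℝ) ^ (M * q1) / p) ≤ ((q1 : ℝ) - s) * x + C := by
    have h1 : kap w * Real.log ((y : ℝ) ^ (M * q1) / p) ≤ kap w * (((q1 : ℝ) - s) * (M * Real.log y)) :=
      mul_le_mul_of_nonneg_left hlogRp hκ.le
    have h2 : kap w * (((q1 : ℝ) - s) * (M * Real.log y)) = ((q1 : ℝ) - s) * x := by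
      rw [hx]
      ring
    linarith [g1.2]
  have hG2 : (q1 : ℝ) * x - C ≤ GG (PP w (y ^ (M * q1))) ((y : ℝ) ^ (M * q1)) := by
    have h2 : kap w * Real.log ((y : ℝ) ^ (M * q1)) = (q1 : ℝ) * x := by
      rw [hlogR, hx]
      ring
    linarith [g2.1]
  have hq1' : (1 : ℝ) ≤ q1 := by exact_mod_cast hq1
  have hsq' : (s : ℝ) ≤ q1 := by exact_mod_cast hsq.le
  have hs0 : (0 : ℝ) ≤ s := Nat.cast_nonneg s
  have hx0 : 0 < x := by linarith
  have hqx : x ≤ (q1 : ℝ) * x := le_mul_of_one_le_left hx0.le hq1'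
  have hden : 0 < (q1 : ℝ) * x - C := by linarith
  have hden2 : 0 < GG (PP w (y ^ (M * q1))) ((y : ℝ) ^ (M * q1)) := lt_of_lt_of_le hden hG2
  have hpp : (p : ℝ) / ((p : ℝ) - 1) ≤ 1 + δ / 2 := by
    rw [div_le_iff₀ (by linarith)]
    have h1 : 1 + 2 / δ ≤ (p : ℝ) := by linarith
    have h2 : 2 / δ ≤ (p : ℝ) - 1 := by linarith
    rw [div_le_iff₀ hδ] at h2
    nlinarith
  have hpp0 : 0 ≤ (p : ℝ) / ((p : ℝ) - 1) := div_nonneg hp0.le (by linarith)
  have hnum0 : 0 ≤ ((q1 : ℝ) - s) * x + C := by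
    have : 0 ≤ ((q1 : ℝ) - s) * x := mul_nonneg (by linarith) hx0.le
    linarith
  have hkey : ((p : ℝ) / ((p : ℝ) - 1)) * GG (PP w (y ^ (M * q1))) ((y : ℝ) ^ (M * q1) / p) /
      GG (PP w (y ^ (M * q1))) ((y : ℝ) ^ (M * q1)) ≤ ((q1 : ℝ) - s) / q1 + δ := by
    rw [div_le_iff₀ hden2]
    have h1 : ((p : ℝ) / ((p : ℝ) - 1)) * GG (PP w (y ^ (M * q1))) ((y : ℝ) ^ (M * q1) / p) ≤
        (1 + δ / 2) * (((q1 : ℝ) - s) * x + C) := by
      refine le_trans (mul_le_mul_of_nonneg_left hG1 hpp0) ?_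
      exact mul_le_mul_of_nonneg_right hpp hnum0
    have hc0 : 0 ≤ ((q1 : ℝ) - s) / q1 + δ := by
      have : 0 ≤ ((q1 : ℝ) - s) / q1 := div_nonneg (by linarith) (by linarith)
      linarith
    have h2 : (((q1 : ℝ) - s) / q1 + δ) * ((q1 : ℝ) * x - C) ≤
        (((q1 : ℝ) - s) / q1 + δ) * GG (PP w (y ^ (M * q1))) ((y : ℝ) ^ (M * q1)) :=
      mul_le_mul_of_nonneg_left hG2 hc0
    refine h1.trans (le_trans ?_ h2)
    have h3 : (((q1 : ℝ) - s) / q1 + δ) * ((q1 : ℝ) * x - C) =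
        ((q1 : ℝ) - s) * x + δ * (q1 * x) - (((q1 : ℝ) - s) / q1) * C - δ * C := by
      field_simp
      ring
    have h4 : (((q1 : ℝ) - s) / q1) * C ≤ C := by
      apply mul_le_of_le_one_left hC0
      rw [div_le_one (by linarith)]
      linarith
    have h5 : ((q1 : ℝ) - s) * x ≤ q1 * x := mul_le_mul_of_nonneg_right (by linarith) hx0.le
    have h6 : δ / 2 * (((q1 : ℝ) - s) * x) ≤ δ / 2 * (q1 * x) := mul_le_mul_of_nonneg_left h5 (by positivity)
    have h7 : (4 + 3 * δ) * C ≤ (q1 * x) * δ := hxδ.trans (mul_le_mul_of_nonneg_right hqx hδ.le)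
    rw [h3]
    nlinarith
  have hfin : (s : ℝ) / q1 - δ = 1 - (((q1 : ℝ) - s) / q1 + δ) := by
    rw [sub_div, div_self (by linarith : (q1 : ℝ) ≠ 0)]
    ring
  rw [hfin]
  linarith

/-- exchange of the sums -/
private theorem B22_exch (v : ℕ → ℝ) (hv : ∀ p, 0 ≤ v p) (z H U V : ℕ) (hU : H ^ 2 ≤ U) :
    ∑ p ∈ (Ioc z H).filter Nat.Prime, v p * (((Ioc (U / p) (V / p)).filter Nat.Prime).card : ℝ) ≤
      ∑ m ∈ Ioc U V, e2 v z m := by
  classical
  have h1 : ∑ m ∈ Ioc U V, ∑ p ∈ (Ioc z H).filter Nat.Prime,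
      (if p ∣ m ∧ (m / p).Prime ∧ p < m / p then v p else 0) ≤ ∑ m ∈ Ioc U V, e2 v z m := by
    refine Finset.sum_le_sum fun m hm => ?_
    unfold e2
    rw [← Finset.sum_filter]
    apply Finset.sum_le_sum_of_subset_of_nonneg
    · intro p hp
      rw [Finset.mem_filter, Finset.mem_filter, Finset.mem_Ioc] at hp
      obtain ⟨⟨⟨h2, _⟩, h3⟩, h4, h5, h6⟩ := hp
      have hm0 : 0 < m := by
        rw [Finset.mem_Ioc] at hm
        omega
      rw [Finset.mem_filter, Finset.mem_range]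
      exact ⟨Nat.lt_succ_of_le (Nat.le_of_dvd hm0 h4), h3, h2, h4, h5, h6⟩
    · intro p _ _
      exact hv p
  refine le_trans ?_ h1
  rw [Finset.sum_comm]
  refine Finset.sum_le_sum fun p hp => ?_
  rw [Finset.mem_filter, Finset.mem_Ioc] at hp
  obtain ⟨⟨_, hpH⟩, hpp⟩ := hp
  rw [← Finset.sum_filter, Finset.sum_const, nsmul_eq_mul, mul_comm]
  apply mul_le_mul_of_nonneg_right _ (hv p)
  rw [Nat.cast_le]
  apply Finset.card_le_card_of_injOn (fun p' => p * p')
  · intro p' hp'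
    rw [Finset.mem_coe, Finset.mem_filter, Finset.mem_Ioc] at hp'
    obtain ⟨⟨h2, h3⟩, h4⟩ := hp'
    have h5 : U < p * p' := by
      rw [Nat.div_lt_iff_lt_mul hpp.pos] at h2
      rw [mul_comm]
      exact h2
    have h6 : p * p' ≤ V := by
      rw [Nat.le_div_iff_mul_le hpp.pos] at h3
      rw [mul_comm]
      exact h3
    have h7 : p < p' := by
      by_contra hcon
      rw [not_lt] at hcon
      have h8 : p * p' ≤ p * p := Nat.mul_le_mul_left p hcon
      have h9 : p * p ≤ H ^ 2 := by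
        rw [sq]
        exact Nat.mul_le_mul hpH hpH
      omega
    rw [Finset.mem_coe, Finset.mem_filter, Finset.mem_Ioc]
    refine ⟨⟨h5, h6⟩, dvd_mul_right p p', ?_, ?_⟩
    · rw [Nat.mul_div_cancel_left _ hpp.pos]
      exact h4
    · rw [Nat.mul_div_cancel_left _ hpp.pos]
      exact h7
  · intro a _ b _ hab
    exact Nat.eq_of_mul_eq_mul_left hpp.pos hab

private theorem B22_split (f : ℕ → ℝ) (z : ℕ) (hz : 1 ≤ z) (K : ℕ) :
    ∑ p ∈ (Ioc z (z ^ (K + 1))).filter Nat.Prime, f p =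
      ∑ s ∈ Icc 1 K, ∑ p ∈ (Ioc (z ^ s) (z ^ (s + 1))).filter Nat.Prime, f p := by
  simp_rw [Finset.sum_filter]
  induction K with
  | zero => simp
  | succ K ih =>
    rw [Finset.sum_Icc_succ_top (by omega), ← ih]
    rw [Finset.sum_Ioc_consecutive]
    · exact Nat.le_self_pow (by omega) z
    · exact Nat.pow_le_pow_right (by omega) (by omega)

theorem e2_total (q1 M w : ℕ) (hq1 : 1 ≤ q1) (hM : 1 ≤ M) (hw : 2 ≤ w) (e : ℝ) (he : 0 < e) : ∀ᶠ y : ℕ in atTop,
    ∀ b < w, (cc q1 - e) * ((y : ℝ) ^ (M * (4 * q1 + 6)) / Real.log ((y : ℝ) ^ (M * (4 * q1 + 6)))) ≤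
      ∑ m ∈ Ioc (y ^ (M * (4 * q1 + 6)) + b) (2 * y ^ (M * (4 * q1 + 6)) + b),
        e2 (fun p => vv (PP w (y ^ (M * q1))) ((y : ℝ) ^ (M * q1)) p ^ 2) (y ^ M) m := by
  -- choice of δ
  let f : ℝ → ℝ := fun δ => ∑ s ∈ Icc 1 (2 * q1 + 2), ((min 1 ((s : ℝ) / q1)) ^ 2 - 2 * δ) * (1 - δ) *
    (2 / (2 * s + 1) - δ) * ((4 * q1 + 6 : ℝ) / (4 * q1 + 6 - s))
  have hf0 : f 0 = cc q1 := by
    simp only [f, cc]
    refine Finset.sum_congr rfl fun s _ => ?_
    ring
  have hfc : Continuous f := by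
    simp only [f]
    fun_prop
  have hnear : ∀ᶠ δ in nhds (0 : ℝ), cc q1 - e < f δ := by
    apply hfc.continuousAt.eventually_const_lt
    rw [hf0]
    linarith
  obtain ⟨r, hr, hball⟩ := Metric.eventually_nhds_iff_ball.1 hnear
  have hq1' : (1 : ℝ) ≤ q1 := by exact_mod_cast hq1
  obtain ⟨δ, hδ0, hδr, hδ1, hδ2, hδ3⟩ : ∃ δ : ℝ, 0 < δ ∧ δ < r ∧ δ ≤ 1 ∧ 2 * δ ≤ 1 / (q1 : ℝ) ^ 2 ∧
      δ ≤ 2 / (4 * q1 + 5 : ℝ) := by
    refine ⟨min (r / 2) (min 1 (min (1 / (q1 : ℝ) ^ 2 / 2) (2 / (4 * q1 + 5 : ℝ)))), ?_, ?_, ?_, ?_, ?_⟩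
    · refine lt_min (by positivity) (lt_min one_pos (lt_min (by positivity) (by positivity)))
    · exact lt_of_le_of_lt (min_le_left _ _) (by linarith)
    · exact (min_le_right _ _).trans (min_le_left _ _)
    · have h := (min_le_right (r / 2) (min 1 (min (1 / (q1 : ℝ) ^ 2 / 2) (2 / (4 * q1 + 5 : ℝ))))).trans
        ((min_le_right _ _).trans (min_le_left _ _))
      linarith
    · exact (min_le_right _ _).trans ((min_le_right _ _).trans (min_le_right _ _))
  have hfδ : cc q1 - e < f δ := hball δ (by rw [Metric.mem_ball, Real.dist_eq, sub_zero, abs_of_pos hδ0]; exact hδr)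
  obtain ⟨A₁, hA₁3, hcnt⟩ := B22_cnt w δ hδ0
  have hzt : Tendsto (fun y : ℕ => y ^ M) atTop atTop := tendsto_pow_atTop (by omega)
  have hmert : ∀ᶠ y : ℕ in atTop, ∀ s ∈ Icc 1 (2 * q1 + 2), 2 / (2 * (s : ℝ) + 1) - δ ≤
      ∑ p ∈ (Ioc ((y ^ M) ^ s) ((y ^ M) ^ (s + 1))).filter Nat.Prime, 1 / (p : ℝ) := by
    rw [Filter.eventually_all_finset]
    intro s hs
    exact hzt.eventually (B22_mert s (Finset.mem_Icc.1 hs).1 δ hδ0)
  have hcast : Tendsto (fun y : ℕ => (y : ℝ)) atTop atTop := tendsto_natCast_atTop_atTop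
  filter_upwards [hmert, B22_vv q1 M w hq1 hM δ hδ0, hcast.eventually_ge_atTop A₁, eventually_ge_atTop 3]
    with y hymert hyvv hyA hy3
  intro b hb
  set z : ℕ := y ^ M with hz
  have hyz : y ≤ z := Nat.le_self_pow (by omega) y
  have hz3 : 3 ≤ z := hy3.trans hyz
  have hNz : y ^ (M * (4 * q1 + 6)) = z ^ (4 * q1 + 6) := by rw [hz, pow_mul]
  set N : ℕ := y ^ (M * (4 * q1 + 6)) with hN
  have hNr : (y : ℝ) ^ (M * (4 * q1 + 6)) = (N : ℝ) := by rw [hN]; push_cast; rfl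
  rw [hNr]
  set v : ℕ → ℝ := fun p => vv (PP w (y ^ (M * q1))) ((y : ℝ) ^ (M * q1)) p ^ 2 with hv
  have hv0 : ∀ p, 0 ≤ v p := fun p => sq_nonneg _
  have hH : (z ^ (2 * q1 + 3)) ^ 2 ≤ N + b := by
    rw [← pow_mul, hNz]
    have : (2 * q1 + 3) * 2 = 4 * q1 + 6 := by ring
    rw [this]
    omega
  refine le_trans ?_ (B22_exch v hv0 z (z ^ (2 * q1 + 3)) (N + b) (2 * N + b) hH)
  have hsplit := B22_split (fun p => v p * (((Ioc ((N + b) / p) ((2 * N + b) / p)).filter Nat.Prime).card : ℝ)) z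
    (by omega) (2 * q1 + 2)
  rw [show 2 * q1 + 3 = (2 * q1 + 2) + 1 by ring, hsplit]
  -- logarithms
  have hzr : (3 : ℝ) ≤ z := by exact_mod_cast hz3
  have hL : 0 < Real.log z := Real.log_pos (by linarith)
  have hNreal : (N : ℝ) = (z : ℝ) ^ (4 * q1 + 6) := by rw [hNz]; push_cast; rfl
  have hlogN : Real.log N = (4 * q1 + 6 : ℝ) * Real.log z := by
    rw [hNreal, Real.log_pow]
    push_cast
    ring
  have hN0 : (0 : ℝ) < N := by rw [hNreal]; positivity
  have hlogN0 : 0 < Real.log N := by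
    rw [hlogN]
    positivity
  have hterm : ∀ s ∈ Icc 1 (2 * q1 + 2), ((min 1 ((s : ℝ) / q1)) ^ 2 - 2 * δ) * (1 - δ) *
      (2 / (2 * s + 1) - δ) * ((4 * q1 + 6 : ℝ) / (4 * q1 + 6 - s)) * ((N : ℝ) / Real.log N) ≤
      ∑ p ∈ (Ioc (z ^ s) (z ^ (s + 1))).filter Nat.Prime,
        v p * (((Ioc ((N + b) / p) ((2 * N + b) / p)).filter Nat.Prime).card : ℝ) := by
    intro s hs
    have hs' := Finset.mem_Icc.1 hs
    have hs1 : (1 : ℝ) ≤ s := by exact_mod_cast hs'.1
    have hs2 : (s : ℝ) ≤ 2 * q1 + 2 := by exact_mod_cast hs'.2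
    have hqs : 0 < (4 * q1 + 6 : ℝ) - s := by linarith
    have ha0 : 0 ≤ (min 1 ((s : ℝ) / q1)) ^ 2 - 2 * δ := by
      have h1 : 1 / (q1 : ℝ) ≤ min 1 ((s : ℝ) / q1) := by
        refine le_min ?_ ?_
        · rw [div_le_one (by linarith)]
          exact hq1'
        · exact div_le_div_of_nonneg_right hs1 (by linarith)
      have h2 : (1 / (q1 : ℝ)) ^ 2 ≤ (min 1 ((s : ℝ) / q1)) ^ 2 := pow_le_pow_left₀ (by positivity) h1 2
      rw [one_div, inv_pow, ← one_div] at h2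
      linarith
    have hb0 : 0 ≤ 2 / (2 * (s : ℝ) + 1) - δ := by
      have h1 : 2 / (4 * q1 + 5 : ℝ) ≤ 2 / (2 * (s : ℝ) + 1) := by
        apply div_le_div_of_nonneg_left (by norm_num) (by linarith)
        linarith
      linarith
    have hd0 : 0 ≤ 1 - δ := by linarith
    -- each prime
    have hprime : ∀ p ∈ (Ioc (z ^ s) (z ^ (s + 1))).filter Nat.Prime,
        (((min 1 ((s : ℝ) / q1)) ^ 2 - 2 * δ) * (1 - δ) * ((4 * q1 + 6 : ℝ) / (4 * q1 + 6 - s)) *
          ((N : ℝ) / Real.log N)) * (1 / (p : ℝ)) ≤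
        v p * (((Ioc ((N + b) / p) ((2 * N + b) / p)).filter Nat.Prime).card : ℝ) := by
      intro p hp
      rw [Finset.mem_filter, Finset.mem_Ioc] at hp
      obtain ⟨⟨hp1, hp2⟩, hpp⟩ := hp
      have hp0 : (0 : ℝ) < p := by exact_mod_cast hpp.pos
      have hp1r : (z : ℝ) ^ s < p := by exact_mod_cast hp1
      have hp2r : (p : ℝ) ≤ (z : ℝ) ^ (s + 1) := by exact_mod_cast hp2
      -- v p
      have hvp : (min 1 ((s : ℝ) / q1)) ^ 2 - 2 * δ ≤ v p := by
        rcases lt_or_ge s q1 with hsq | hsq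
        · obtain ⟨g0, g1⟩ := hyvv s hs'.1 hsq p hpp hp1 hp2
          have hsq' : (s : ℝ) / q1 ≤ 1 := by
            rw [div_le_one (by linarith)]
            exact_mod_cast hsq.le
          rw [min_eq_right hsq']
          have h1 : δ ≤ (s : ℝ) / q1 := by
            have h2 : 1 / (q1 : ℝ) ^ 2 ≤ 1 / (q1 : ℝ) := by
              apply div_le_div_of_nonneg_left (by norm_num) (by linarith)
              nlinarith
            have h3 : 1 / (q1 : ℝ) ≤ (s : ℝ) / q1 := div_le_div_of_nonneg_right hs1 (by linarith)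
            linarith
          have h2 : ((s : ℝ) / q1 - δ) ^ 2 ≤ v p := by
            simp only [hv]
            exact pow_le_pow_left₀ (by linarith) g1 2
          nlinarith
        · have hsq' : 1 ≤ (s : ℝ) / q1 := by
            rw [le_div_iff₀ (by linarith), one_mul]
            exact_mod_cast hsq
          rw [min_eq_left hsq']
          have hnot : p ∉ PP w (y ^ (M * q1)) := by
            unfold PP
            rw [Finset.mem_filter, Finset.mem_Ioc]
            rintro ⟨⟨_, h1⟩, _⟩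
            rw [pow_mul] at h1
            have h2 : z ^ q1 ≤ z ^ s := Nat.pow_le_pow_right (by omega) hsq
            have h3 : (y ^ M) ^ q1 = z ^ q1 := by rw [hz]
            omega
          have h1 : v p = 1 := by
            simp only [hv]
            unfold vv
            rw [if_neg hnot, one_pow]
          rw [h1]
          linarith
      -- count
      have hNp : (z : ℝ) ≤ (N : ℝ) / p := by
        rw [le_div_iff₀ hp0, hNreal]
        calc (z : ℝ) * p ≤ (z : ℝ) * (z : ℝ) ^ (s + 1) := mul_le_mul_of_nonneg_left hp2r (by linarith)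
          _ = (z : ℝ) ^ (s + 2) := by ring
          _ ≤ (z : ℝ) ^ (4 * q1 + 6) := pow_le_pow_right₀ (by linarith) (by omega)
      have hyz' : (y : ℝ) ≤ z := by exact_mod_cast hyz
      have hc := hcnt N b p hb.le hpp.pos (by linarith)
      have hlogNp0 : 0 < Real.log ((N : ℝ) / p) := Real.log_pos (by linarith)
      have hlogNp : Real.log ((N : ℝ) / p) ≤ (4 * q1 + 6 - s : ℝ) * Real.log z := by
        rw [Real.log_div hN0.ne' hp0.ne', hlogN]
        have h1 : (s : ℝ) * Real.log z ≤ Real.log p := by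
          rw [← Real.log_pow]
          exact Real.log_le_log (by positivity) hp1r.le
        linarith
      have h5 : ((4 * q1 + 6 : ℝ) / (4 * q1 + 6 - s)) * ((N : ℝ) / Real.log N) * (1 / (p : ℝ)) ≤
          ((N : ℝ) / p) / Real.log ((N : ℝ) / p) := by
        have h6 : ((4 * q1 + 6 : ℝ) / (4 * q1 + 6 - s)) * ((N : ℝ) / Real.log N) * (1 / (p : ℝ)) =
            ((N : ℝ) / p) / ((4 * q1 + 6 - s : ℝ) * Real.log z) := by
          rw [hlogN]
          have h7 : (4 * q1 + 6 : ℝ) ≠ 0 := by positivity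
          field_simp
        rw [h6]
        apply div_le_div_of_nonneg_left (by positivity) hlogNp0 hlogNp
      calc (((min 1 ((s : ℝ) / q1)) ^ 2 - 2 * δ) * (1 - δ) * ((4 * q1 + 6 : ℝ) / (4 * q1 + 6 - s)) *
            ((N : ℝ) / Real.log N)) * (1 / (p : ℝ))
          = ((min 1 ((s : ℝ) / q1)) ^ 2 - 2 * δ) * ((1 - δ) *
            (((4 * q1 + 6 : ℝ) / (4 * q1 + 6 - s)) * ((N : ℝ) / Real.log N) * (1 / (p : ℝ)))) := by ring
        _ ≤ ((min 1 ((s : ℝ) / q1)) ^ 2 - 2 * δ) * ((1 - δ) * (((N : ℝ) / p) / Real.log ((N : ℝ) / p))) :=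
            mul_le_mul_of_nonneg_left (mul_le_mul_of_nonneg_left h5 hd0) ha0
        _ ≤ ((min 1 ((s : ℝ) / q1)) ^ 2 - 2 * δ) *
            (((Ioc ((N + b) / p) ((2 * N + b) / p)).filter Nat.Prime).card : ℝ) :=
            mul_le_mul_of_nonneg_left hc ha0
        _ ≤ v p * (((Ioc ((N + b) / p) ((2 * N + b) / p)).filter Nat.Prime).card : ℝ) :=
            mul_le_mul_of_nonneg_right hvp (Nat.cast_nonneg _)
    refine le_trans ?_ (Finset.sum_le_sum hprime)
    rw [← Finset.mul_sum]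
    have hcoef : 0 ≤ ((min 1 ((s : ℝ) / q1)) ^ 2 - 2 * δ) * (1 - δ) * ((4 * q1 + 6 : ℝ) / (4 * q1 + 6 - s)) *
          ((N : ℝ) / Real.log N) := by
      have h1 : 0 ≤ (4 * q1 + 6 : ℝ) / (4 * q1 + 6 - s) := div_nonneg (by positivity) hqs.le
      have h2 : 0 ≤ (N : ℝ) / Real.log N := div_nonneg hN0.le hlogN0.le
      exact mul_nonneg (mul_nonneg (mul_nonneg ha0 hd0) h1) h2
    have h8 := mul_le_mul_of_nonneg_left (hymert s hs) hcoef
    refine le_trans (le_of_eq ?_) h8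
    ring
  have hsum := Finset.sum_le_sum hterm
  refine le_trans ?_ hsum
  rw [← Finset.sum_mul]
  exact mul_le_mul_of_nonneg_right hfδ.le (div_nonneg hN0.le hlogN0.le)

/-- the primes in `((N + b)/l, (2N + b)/l]` -/
theorem pr_total (l : ℕ) (hl : l = 2 ∨ l = 3) (w : ℕ) (e : ℝ) (he : 0 < e) : ∀ᶠ N : ℕ in atTop, ∀ b < w,
    (1 - e) * ((N : ℝ) / l / Real.log N) ≤ ∑ m ∈ Ioc ((N + b) / l) ((2 * N + b) / l), pr m := by
  obtain ⟨A₁, hA₁3, hcnt⟩ := B22_cnt w e he
  have hl2 : (2 : ℝ) ≤ l := by rcases hl with h | h <;> rw [h] <;> norm_num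
  have hl3 : (l : ℝ) ≤ 3 := by rcases hl with h | h <;> rw [h] <;> norm_num
  have hlp : (0 : ℝ) < l := by linarith
  have hcast : Tendsto (fun y : ℕ => (y : ℝ)) atTop atTop := tendsto_natCast_atTop_atTop
  filter_upwards [hcast.eventually_ge_atTop (3 * A₁)] with N hN
  intro b hb
  have hpr : ∑ m ∈ Ioc ((N + b) / l) ((2 * N + b) / l), pr m =
      (((Ioc ((N + b) / l) ((2 * N + b) / l)).filter Nat.Prime).card : ℝ) := by
    unfold pr
    rw [← Finset.sum_filter, Finset.sum_const, nsmul_eq_mul, mul_one]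
  rw [hpr]
  have hNl : A₁ ≤ (N : ℝ) / l := by
    rw [le_div_iff₀ hlp]
    nlinarith
  have hc := hcnt N b l hb.le (by omega) hNl
  have hlog3 : 0 < Real.log ((N : ℝ) / l) := Real.log_pos (by linarith)
  have hlogN : Real.log ((N : ℝ) / l) ≤ Real.log N := Real.log_le_log (by linarith) (by
    rw [div_le_iff₀ hlp]
    nlinarith)
  rcases le_total 0 (1 - e) with h1 | h1
  · refine le_trans ?_ hc
    apply mul_le_mul_of_nonneg_left _ h1
    exact div_le_div_of_nonneg_left (by linarith) hlog3 hlogN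
  · refine le_trans ?_ (Nat.cast_nonneg _)
    apply mul_nonpos_of_nonpos_of_nonneg h1
    exact div_nonneg (by linarith) (by linarith)

end Pool.Agent.LibSP4
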