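import Pool.Agent.LibSP4.B19
import Pool.Agent.LibSP4.B20
import Pool.Agent.LibSP4.B21
import Pool.Agent.LibSP4.B22

/-!
Row B23 (MEDIUM): the positions of the two types. `D = (y^(M (q1+1)))²`, `N = y^(M (4 q1 + 6))`: `D = N^(1/2 - 1/(4 q1 + 6))`, so `W' D ≤ (3 N)^θ` with
`θ = 1/2 - 1/(2 (4 q1 + 6))` for large `y`. Type `true`: `a = e2 (vv²) z` (B19 `SS_E`), `t = 1`, `W' = Wm w`; type `false`: `a = pr` (`SS_P`), `t = 3`, `W' = primorial w`.
Apply `BVe2` (with `η = 1/(4 q1 + 7)`, `z = y^M`, bound `3 N` for the numbers) resp. `BVprimes` with exponent `A + C1 + 1`, B20 (`dist_bv`), B21; the mass: `mass_bv`, then one term of BV (modulus `W'`) and B22;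
`φ(Wm w) = 3 φ(primorial w)` because `9 ∣ Wm w` exactly (`Nat.totient_mul_of_prime_of_dvd`); all the numbers counted are prime to `W'` (their prime factors exceed `w`).
The summand functions agree on `ns w n0 N` only (`n > N`), so transfer `Dist` along `Finset.sum_congr`.
-/

open Finset Filter

namespace Pool.Agent.LibSP4

open Pool.Agent.LibRG87 Pool.Agent.LibBW4

private theorem dist_congr23 {ι : Type} [Fintype ι] [DecidableEq ι] {P : Finset ℕ} {b : ι → ℕ} {J : Finset ι}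
    {s : Finset ℕ} {om om' : ℕ → ℝ} {X : ℝ} {h Er : ℕ → ℝ} (H : ∀ n ∈ s, om n = om' n)
    (hD : Dist P b J s om X h Er) : Dist P b J s om' X h Er where
  om_nonneg n hn := by rw [← H n hn]; exact hD.om_nonneg n hn
  X_nonneg := hD.X_nonneg
  Er_nonneg := hD.Er_nonneg
  h_ge := hD.h_ge
  h_le := hD.h_le
  hp σ hσ := by
    have h1 := hD.hp σ hσ
    rw [Finset.sum_congr rfl (fun n hn => by rw [H n hn])] at h1
    exact h1

variable [Ell]

private theorem mass_low23 (w N n0 t W' bi : ℕ) (a : ℕ → ℝ) (ht : 0 < t) (hW : Wm w = t * W')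
    (htn : t ∣ n0 + bi) (hco : ((n0 + bi) / t).Coprime W') (C : ℕ) (hC : 1 ≤ C) (D E0 : ℝ) (hD : 1 ≤ D)
    (hW0 : 1 ≤ W')
    (hBV : ∀ c : ℕ → ℕ, (∀ q, (c q).Coprime q) → ∑ q ∈ Icc 1 ⌊(W' : ℝ) * D⌋₊, (C : ℝ) ^ q.primeFactors.card *
      bvD a ((N + bi) / t) ((2 * N + bi) / t) q (c q) ≤ E0) :
    (∑ l ∈ (Ioc ((N + bi) / t) ((2 * N + bi) / t)).filter (fun l => l.Coprime W'), a l) / W'.totient - E0 ≤
      ∑ n ∈ ns w n0 N, a ((n + bi) / t) := by
  rw [mass_bv w N n0 t W' bi a ht hW htn]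
  have h1 := hBV (fun q => if q = W' then (n0 + bi) / t else 1) (by
    intro q
    by_cases hq : q = W'
    · simp only [hq, if_true]; exact hco
    · simp only [hq, if_false]; exact Nat.coprime_one_left q)
  have hmem : W' ∈ Icc 1 ⌊(W' : ℝ) * D⌋₊ := by
    rw [mem_Icc]
    refine ⟨hW0, Nat.le_floor ?_⟩
    have : (0 : ℝ) ≤ W' := by positivity
    nlinarith
  have h2 := Finset.single_le_sum (f := fun q => (C : ℝ) ^ q.primeFactors.card *
      bvD a ((N + bi) / t) ((2 * N + bi) / t) q (if q = W' then (n0 + bi) / t else 1)) (by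
        intro q _
        unfold bvD
        positivity) hmem
  have h3 := h2.trans h1
  simp only [if_true] at h3
  have hC1 : (1 : ℝ) ≤ (C : ℝ) ^ W'.primeFactors.card := one_le_pow₀ (by exact_mod_cast hC)
  have h4 : 0 ≤ bvD a ((N + bi) / t) ((2 * N + bi) / t) W' ((n0 + bi) / t) := by unfold bvD; positivity
  have h5 : bvD a ((N + bi) / t) ((2 * N + bi) / t) W' ((n0 + bi) / t) ≤ E0 := by nlinarith
  unfold bvD at h5
  have h6 := (abs_le.mp h5).1
  linarith

/-- the analytic inequalities -/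
private theorem asym23 (q1 M A C1 C2 ph : ℕ) (K1 K2 e : ℝ) (hq1 : 1 ≤ q1) (hM : 1 ≤ M) (hK1 : 0 ≤ K1) (hK2 : 0 ≤ K2) (he : 0 < e)
    (hph : 1 ≤ ph) : ∀ᶠ y : ℕ in atTop,
    (3 * (y : ℝ) ^ (M * (4 * q1 + 6)) / Real.log (3 * (y : ℝ) ^ (M * (4 * q1 + 6))) ^ (A + C1 + 2)) *
        (1 + (K1 * Real.log y) ^ C1) + 3 * (y : ℝ) ^ (M * (4 * q1 + 6)) / (y : ℝ) ^ M * (K2 * Real.log y) ^ C2 ≤
      (y : ℝ) ^ (M * (4 * q1 + 6)) / Real.log y ^ A ∧
    3 * (y : ℝ) ^ (M * (4 * q1 + 6)) / Real.log (3 * (y : ℝ) ^ (M * (4 * q1 + 6))) ^ (A + C1 + 2) ≤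
      (e / 2) * ((y : ℝ) ^ (M * (4 * q1 + 6)) / (ph * Real.log ((y : ℝ) ^ (M * (4 * q1 + 6))))) := by
  have hlog : Tendsto (fun y : ℕ => Real.log (y : ℝ)) atTop atTop :=
    Real.tendsto_log_atTop.comp tendsto_natCast_atTop_atTop
  have hlit : ∀ᶠ y : ℕ in atTop, (6 * K2 ^ C2 + 1) * Real.log (y : ℝ) ^ (C2 + A) ≤ y := by
    have h := (Real.isLittleO_pow_log_id_atTop (n := C2 + A)).bound (c := 1 / (6 * K2 ^ C2 + 1)) (by positivity)
    have h' := tendsto_natCast_atTop_atTop (R := ℝ) |>.eventually h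
    filter_upwards [h', eventually_ge_atTop 1] with y hy hy1
    have hy1' : (1 : ℝ) ≤ y := by exact_mod_cast hy1
    have hl : 0 ≤ Real.log (y : ℝ) := Real.log_nonneg hy1'
    simp only [id] at hy
    rw [Real.norm_of_nonneg (by positivity), Real.norm_of_nonneg (by positivity)] at hy
    have hpos : (0 : ℝ) < 6 * K2 ^ C2 + 1 := by positivity
    calc (6 * K2 ^ C2 + 1) * Real.log (y : ℝ) ^ (C2 + A) ≤ (6 * K2 ^ C2 + 1) * (1 / (6 * K2 ^ C2 + 1) * y) :=
          mul_le_mul_of_nonneg_left hy hpos.le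
      _ = y := by field_simp
  filter_upwards [hlit, hlog.eventually_ge_atTop (6 * (1 + K1 ^ C1)), hlog.eventually_ge_atTop 1,
    hlog.eventually_ge_atTop (6 * ph * (M * (4 * q1 + 6)) / e), eventually_ge_atTop 3] with y hy1 hy2 hy3 hy4 hy5
  set L := Real.log (y : ℝ) with hL
  have hy0 : (3 : ℝ) ≤ y := by exact_mod_cast hy5
  have hypos : (0 : ℝ) < y := by linarith
  set N := (y : ℝ) ^ (M * (4 * q1 + 6)) with hN
  have hNpos : 0 < N := by positivity
  have hLpos : 0 < L := by linarith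
  have hlN : Real.log N = (M * (4 * q1 + 6) : ℕ) * L := by rw [hN, Real.log_pow]
  have hMq : (1 : ℝ) ≤ (M * (4 * q1 + 6) : ℕ) := by
    have : 1 ≤ M * (4 * q1 + 6) := Nat.one_le_iff_ne_zero.mpr (by positivity)
    exact_mod_cast this
  have hl3 : L ≤ Real.log (3 * N) := by
    calc L ≤ (M * (4 * q1 + 6) : ℕ) * L := by nlinarith
      _ = Real.log N := hlN.symm
      _ ≤ Real.log (3 * N) := Real.log_le_log hNpos (by linarith)
  have hE0 : 3 * N / Real.log (3 * N) ^ (A + C1 + 2) ≤ 3 * N / L ^ (A + C1 + 2) := by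
    apply div_le_div_of_nonneg_left (by positivity) (by positivity)
    exact pow_le_pow_left₀ hLpos.le hl3 _
  have hE0' : 0 ≤ 3 * N / Real.log (3 * N) ^ (A + C1 + 2) := by
    have : 0 < Real.log (3 * N) := by linarith
    positivity
  constructor
  · have h1 : (1 + (K1 * L) ^ C1) ≤ (1 + K1 ^ C1) * L ^ C1 := by
      rw [mul_pow, add_mul, one_mul]
      have : 1 ≤ L ^ C1 := one_le_pow₀ hy3
      linarith
    have h2 : (3 * N / Real.log (3 * N) ^ (A + C1 + 2)) * (1 + (K1 * L) ^ C1) ≤ N / L ^ A / 2 := by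
      calc (3 * N / Real.log (3 * N) ^ (A + C1 + 2)) * (1 + (K1 * L) ^ C1)
          ≤ (3 * N / L ^ (A + C1 + 2)) * ((1 + K1 ^ C1) * L ^ C1) := by
            apply mul_le_mul hE0 h1 (by positivity) (by positivity)
        _ = N / L ^ A / 2 * (6 * (1 + K1 ^ C1) / L ^ 2) := by
            rw [pow_add, pow_add]
            field_simp
            ring
        _ ≤ N / L ^ A / 2 * 1 := by
            apply mul_le_mul_of_nonneg_left _ (by positivity)
            rw [div_le_one (by positivity)]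
            nlinarith
        _ = N / L ^ A / 2 := mul_one _
    have h3 : 3 * N / (y : ℝ) ^ M * (K2 * L) ^ C2 ≤ N / L ^ A / 2 := by
      have hyM : (y : ℝ) ≤ (y : ℝ) ^ M := le_self_pow₀ (by linarith) (by omega)
      calc 3 * N / (y : ℝ) ^ M * (K2 * L) ^ C2 ≤ 3 * N / (y : ℝ) * (K2 * L) ^ C2 := by
            apply mul_le_mul_of_nonneg_right _ (by positivity)
            exact div_le_div_of_nonneg_left (by positivity) hypos hyM
        _ = N / L ^ A / 2 * (6 * K2 ^ C2 * L ^ (C2 + A) / y) := by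
            rw [mul_pow, pow_add]
            field_simp
            ring
        _ ≤ N / L ^ A / 2 * 1 := by
            apply mul_le_mul_of_nonneg_left _ (by positivity)
            rw [div_le_one hypos]
            have : 0 ≤ L ^ (C2 + A) := by positivity
            nlinarith
        _ = N / L ^ A / 2 := mul_one _
    linarith
  · calc 3 * N / Real.log (3 * N) ^ (A + C1 + 2) ≤ 3 * N / L ^ (A + C1 + 2) := hE0
      _ ≤ 3 * N / L ^ 2 := by
          apply div_le_div_of_nonneg_left (by positivity) (by positivity)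
          exact pow_le_pow_right₀ hy3 (by omega)
      _ ≤ (e / 2) * (N / (ph * Real.log N)) := by
          rw [hlN]
          have hph' : (1 : ℝ) ≤ ph := by exact_mod_cast hph
          rw [div_le_iff₀ he] at hy4
          push_cast
          rw [div_le_iff₀ (by positivity)]
          have h5 : (e / 2) * (N / (ph * ((M * (4 * q1 + 6)) * L))) * L ^ 2 =
              3 * N * ((L * e) / (6 * ph * (M * (4 * q1 + 6)))) := by
            field_simp
            ring
          rw [h5]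
          have h6 : 1 ≤ (L * e) / (6 * ph * (M * (4 * q1 + 6))) := by
            rw [one_le_div (by positivity)]
            exact hy4
          nlinarith

private theorem level23 (q1 M W' : ℕ) (hM : 1 ≤ M) : ∀ᶠ y : ℕ in atTop,
    (W' : ℝ) * ((y : ℝ) ^ (M * (q1 + 1))) ^ 2 ≤
      ((3 * y ^ (M * (4 * q1 + 6)) : ℕ) : ℝ) ^ ((1 : ℝ) / 2 - 1 / (2 * (4 * q1 + 6))) := by
  filter_upwards [eventually_ge_atTop (W' ^ 2), eventually_ge_atTop 1] with y hy1 hy2
  have hy0 : (1 : ℝ) ≤ y := by exact_mod_cast hy2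
  have hyW : (W' : ℝ) ^ 2 ≤ y := by exact_mod_cast hy1
  have hθ : (0 : ℝ) ≤ (1 : ℝ) / 2 - 1 / (2 * (4 * q1 + 6)) := by
    rw [sub_nonneg]
    apply div_le_div_of_nonneg_left (by norm_num) (by norm_num)
    have : (0 : ℝ) ≤ q1 := by positivity
    linarith
  have h1 : ((y : ℝ) ^ (M * (4 * q1 + 6))) ^ ((1 : ℝ) / 2 - 1 / (2 * (4 * q1 + 6))) ≤
      ((3 * y ^ (M * (4 * q1 + 6)) : ℕ) : ℝ) ^ ((1 : ℝ) / 2 - 1 / (2 * (4 * q1 + 6))) := by
    apply Real.rpow_le_rpow (by positivity) _ hθ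
    push_cast
    have : 0 ≤ (y : ℝ) ^ (M * (4 * q1 + 6)) := by positivity
    linarith
  refine le_trans ?_ h1
  rw [← Real.rpow_natCast (y : ℝ) (M * (4 * q1 + 6)), ← Real.rpow_mul (by linarith)]
  have h2 : (((M * (4 * q1 + 6) : ℕ) : ℝ)) * ((1 : ℝ) / 2 - 1 / (2 * (4 * q1 + 6))) =
      ((M * (q1 + 1) * 2 : ℕ) : ℝ) + (M : ℝ) / 2 := by
    push_cast
    field_simp
    ring
  rw [h2, Real.rpow_add (by linarith), Real.rpow_natCast, ← pow_mul, mul_comm]
  apply mul_le_mul_of_nonneg_left _ (by positivity)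
  calc (W' : ℝ) ≤ (y : ℝ) ^ ((1 : ℝ) / 2) := by
        rw [← Real.sqrt_eq_rpow]
        exact Real.le_sqrt_of_sq_le hyW
    _ ≤ (y : ℝ) ^ ((M : ℝ) / 2) := by
        apply Real.rpow_le_rpow_of_exponent_le hy0
        have : (1 : ℝ) ≤ M := by exact_mod_cast hM
        linarith

private theorem eta23 (q1 M y : ℕ) (hM : 1 ≤ M) (hy : 3 ≤ y) :
    ((3 * y ^ (M * (4 * q1 + 6)) : ℕ) : ℝ) ^ ((1 : ℝ) / (4 * q1 + 7)) ≤ ((y ^ M : ℕ) : ℝ) := by
  have h1 : ((3 * y ^ (M * (4 * q1 + 6)) : ℕ) : ℝ) ≤ (((y ^ M : ℕ) : ℝ)) ^ (4 * q1 + 7) := by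
    have : 3 * y ^ (M * (4 * q1 + 6)) ≤ (y ^ M) ^ (4 * q1 + 7) := by
      rw [← pow_mul, show M * (4 * q1 + 7) = M + M * (4 * q1 + 6) by ring, pow_add]
      apply Nat.mul_le_mul_right
      exact hy.trans (Nat.le_self_pow (by omega) y)
    exact_mod_cast this
  have h2 := Real.rpow_le_rpow (by positivity) h1 (show (0 : ℝ) ≤ (1 : ℝ) / (4 * q1 + 7) by positivity)
  refine h2.trans (le_of_eq ?_)
  have h3 := Real.pow_rpow_inv_natCast (x := (((y ^ M : ℕ) : ℝ))) (by positivity) (show 4 * q1 + 7 ≠ 0 by omega)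
  rw [one_div]
  have h4 : ((4 * q1 + 7 : ℕ) : ℝ) = 4 * q1 + 7 := by push_cast; ring
  rw [h4] at h3
  exact h3

private theorem fin23 {ι : Type} [Fintype ι] [DecidableEq ι] (w Z N n0 t W' : ℕ) (b : ι → ℕ) (i : ι) (a : ℕ → ℝ)
    (ha : ∀ m, 0 ≤ a m) (hw : 3 ≤ w) (hb : ∀ j, b j < w) (hbi : Function.Injective b) (ht : 0 < t)
    (hW : Wm w = t * W') (htn : t ∣ n0 + b i) (hco : ((n0 + b i) / t).Coprime W') (hW0 : 1 ≤ W') (C : ℕ) (hC : 1 ≤ C)
    (D E0 E1 Sg : ℝ) (hD : 1 ≤ D)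
    (hBV : ∀ c : ℕ → ℕ, (∀ q, (c q).Coprime q) → ∑ q ∈ Icc 1 ⌊(W' : ℝ) * D⌋₊, (C : ℝ) ^ q.primeFactors.card *
      bvD a ((N + b i) / t) ((2 * N + b i) / t) q (c q) ≤ E0)
    (hT : ∀ q ∈ Icc 1 ⌊D⌋₊, 
      |∑ l ∈ (Ioc ((N + b i) / t) ((2 * N + b i) / t)).filter (fun l => l.Coprime (W' * q)), a l -
        ∑ l ∈ (Ioc ((N + b i) / t) ((2 * N + b i) / t)).filter (fun l => l.Coprime W'), a l| ≤ 
          q.primeFactors.card * E1) (hE1 : 0 ≤ E1) (Sg2 : ℝ)
    (hS : open scoped Classical in ∑ q ∈ (Icc 1 ⌊D⌋₊).filter (fun q => Squarefree q ∧ ∀ p, p.Prime → p ∣ q → w < p),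
      (C : ℝ) ^ q.primeFactors.card / q.totient ≤ Sg)
    (hS2 : open scoped Classical in ∑ q ∈ (Icc 1 ⌊D⌋₊).filter (fun q => Squarefree q ∧ ∀ p, p.Prime → p ∣ q → w < p),
      ((2 * C : ℕ) : ℝ) ^ q.primeFactors.card / q.totient ≤ Sg2)
    (hcop : ∀ l ∈ Ioc ((N + b i) / t) ((2 * N + b i) / t), a l ≠ 0 → l.Coprime W')
    (om : ℕ → ℝ) (hom : ∀ n ∈ ns w n0 N, a ((n + b i) / t) = om n)
    (B T : ℝ) (hB : E0 + Sg * E0 + E1 * Sg2 ≤ B)
    (hT' : T ≤ (∑ l ∈ Ioc ((N + b i) / t) ((2 * N + b i) / t), a l) / W'.totient - E0) :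
    ∃ (X : ℝ) (Er : ℕ → ℝ), Dist (PP w Z) b (univ.erase i) (ns w n0 N) om X (fun p => 1 / ((p : ℝ) - 1)) Er ∧
      ErS C w D Er ≤ B ∧ T ≤ X := by
  classical
  have hT2 : ∑ q ∈ (Icc 1 ⌊D⌋₊).filter (fun q => Squarefree q ∧ ∀ p, p.Prime → p ∣ q → w < p),
      (C : ℝ) ^ q.primeFactors.card *
      (|∑ l ∈ (Ioc ((N + b i) / t) ((2 * N + b i) / t)).filter (fun l => l.Coprime (W' * q)), a l -
        ∑ l ∈ (Ioc ((N + b i) / t) ((2 * N + b i) / t)).filter (fun l => l.Coprime W'), a l| / (W' * q).totient) ≤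
      E1 * Sg2 := by
    refine le_trans ?_ (mul_le_mul_of_nonneg_left hS2 hE1)
    rw [Finset.mul_sum]
    apply Finset.sum_le_sum
    intro q hq
    rw [mem_filter, mem_Icc] at hq
    have h1 := hT q (mem_Icc.mpr hq.1)
    have hq0 : q ≠ 0 := by omega
    have hφ : 0 < q.totient := Nat.totient_pos.mpr (by omega)
    have hφ2 : q.totient ≤ (W' * q).totient :=
      Nat.le_of_dvd (Nat.totient_pos.mpr (by positivity)) (Nat.totient_dvd_of_dvd (Dvd.intro_left W' rfl))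
    have hφ' : (0 : ℝ) < q.totient := by exact_mod_cast hφ
    have hφ2' : (q.totient : ℝ) ≤ (W' * q).totient := by exact_mod_cast hφ2
    have h2 : (q.primeFactors.card : ℝ) ≤ 2 ^ q.primeFactors.card := by
      exact_mod_cast (Nat.lt_two_pow_self).le
    calc _ ≤ (C : ℝ) ^ q.primeFactors.card * ((q.primeFactors.card * E1) / q.totient) := by
          apply mul_le_mul_of_nonneg_left _ (by positivity)
          exact div_le_div₀ (by positivity) h1 hφ' hφ2'
      _ ≤ (C : ℝ) ^ q.primeFactors.card * ((2 ^ q.primeFactors.card * E1) / q.totient) := by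
          gcongr
      _ = E1 * (((2 * C : ℕ) : ℝ) ^ q.primeFactors.card / q.totient) := by
          push_cast
          rw [mul_pow]
          ring
  obtain ⟨Er, hEr, hS3⟩ := dist_bv w Z N n0 t W' b i a ha hw hb hbi ht hW htn hco C hC D E0 (E1 * Sg2) Sg hD hBV hT2 hS
  refine ⟨_, Er, dist_congr23 hom hEr, hS3.trans hB, ?_⟩
  have h4 := mass_low23 w N n0 t W' (b i) a ht hW htn hco C hC D E0 hD hW0 hBV
  refine le_trans hT' (le_trans (le_of_eq ?_) h4)
  congr 2
  rw [Finset.sum_filter]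
  apply Finset.sum_congr rfl
  intro l hl
  split_ifs with h
  · rfl
  · by_contra h0
    exact h (hcop l hl h0)

private theorem cop23 {w p : ℕ} (hw : 3 ≤ w) (hp : p.Prime) (hwp : w < p) : p.Coprime (Wm w) := by
  rw [hp.coprime_iff_not_dvd]
  intro h
  unfold Wm at h
  rcases (hp.dvd_mul).mp h with h | h
  · have h0 : p ∣ 2 * 3 := h
    rcases (hp.dvd_mul).1 h0 with h | h
    · have := Nat.le_of_dvd (by norm_num) h
      omega
    · have := Nat.le_of_dvd (by norm_num) h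
      omega
  · have := hp.dvd_primorial_iff.mp h
    omega

private theorem Wm_eq23 (w : ℕ) : Wm w = Ell.l * Wl w := by
  unfold Wm Wl
  rcases Ell.hl with h | h <;> rw [h] <;> ring

private theorem cop23' {w p : ℕ} (hw : 3 ≤ w) (hp : p.Prime) (hwp : w < p) : p.Coprime (Wl w) :=
  Nat.Coprime.coprime_dvd_right (Dvd.intro_left Ell.l (Wm_eq23 w).symm) (cop23 hw hp hwp)

private theorem Wm_pos23 (w : ℕ) : 0 < Wm w := Nat.mul_pos (by norm_num) (primorial_pos w)

private theorem Wl_pos23 (w : ℕ) : 0 < Wl w := by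
  unfold Wl
  apply Nat.mul_pos _ (primorial_pos w)
  rcases Ell.hl with h | h <;> rw [h] <;> norm_num

private theorem tot23 {w : ℕ} (hw : 3 ≤ w) : (Wm w).totient = Ell.l * (Wl w).totient := by
  have h2 : 2 ∣ primorial w := Nat.prime_two.dvd_primorial_iff.mpr (by omega)
  have h3 : 3 ∣ primorial w := Nat.prime_three.dvd_primorial_iff.mpr hw
  rw [Wm_eq23]
  unfold Wl
  rcases Ell.hl with h | h
  · rw [h]
    exact Nat.totient_mul_of_prime_of_dvd Nat.prime_two (Dvd.dvd.mul_left h2 _)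
  · rw [h]
    exact Nat.totient_mul_of_prime_of_dvd Nat.prime_three (Dvd.dvd.mul_left h3 _)

private theorem copl23 {w m : ℕ} (hw : 3 ≤ w) (h : m.Coprime (primorial w)) : m.Coprime (Wl w) := by
  have h2 : 2 ∣ primorial w := Nat.prime_two.dvd_primorial_iff.mpr (by omega)
  have h3 : 3 ∣ primorial w := Nat.prime_three.dvd_primorial_iff.mpr hw
  unfold Wl
  apply Nat.Coprime.mul_right _ h
  rcases Ell.hl with h' | h'
  · rw [h']
    exact Nat.Coprime.coprime_dvd_right h3 h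
  · rw [h']
    exact Nat.Coprime.coprime_dvd_right h2 h

/-- the hypotheses on `y` -/
private theorem logD23 (q1 M C1 y : ℕ) : (C1 : ℝ) * Real.log (((y : ℝ) ^ (M * (q1 + 1))) ^ 2) =
    (C1 * (2 * (M * (q1 + 1)))) * Real.log y := by
  rw [Real.log_pow, Real.log_pow]
  push_cast
  ring

theorem pos (h1 : BVprimes) (h2 : BVe2) (t : Bool) (q1 M w A C : ℕ) (hq1 : 1 ≤ q1) (hM : 1 ≤ M) (hw : 3 ≤ w) (hC : 1 ≤ C)
    (e : ℝ) (he : 0 < e) : ∀ᶠ y : ℕ in atTop, ∀ (ι : Type) [Fintype ι] [DecidableEq ι] (b : ι → ℕ) (i : ι) (n0 : ℕ),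
    (∀ j, b j < w) → Function.Injective b → good t w n0 (b i) →
    ∃ (X : ℝ) (Er : ℕ → ℝ),
      Dist (PP w (y ^ (M * q1))) b (univ.erase i) (ns w n0 (y ^ (M * (4 * q1 + 6))))
        (fun n => SS t (PP w (y ^ (M * q1))) ((y : ℝ) ^ (M * q1)) (y ^ M) (n + b i)) X (fun p => 1 / ((p : ℝ) - 1)) Er ∧
      ErS C w (((y : ℝ) ^ (M * (q1 + 1))) ^ 2) Er ≤ (y : ℝ) ^ (M * (4 * q1 + 6)) / Real.log y ^ A ∧
      (cty q1 t - e) * ((y : ℝ) ^ (M * (4 * q1 + 6)) / ((Wm w).totient * Real.log ((y : ℝ) ^ (M * (4 * q1 + 6))))) ≤ X := by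
  classical
  obtain ⟨C1, hC1⟩ := sum_C_tot C
  obtain ⟨C2, hC2⟩ := sum_C_tot (2 * C)
  have hθ : (1 : ℝ) / 2 - 1 / (2 * (4 * q1 + 6)) < 1 / 2 := by
    have : (0 : ℝ) < 1 / (2 * (4 * q1 + 6)) := by positivity
    linarith
  have hasy := asym23 q1 M A C1 C2 (Wm w).totient (C1 * (2 * (M * (q1 + 1)))) (C2 * (2 * (M * (q1 + 1)))) e hq1 hM
    (by positivity) (by positivity) he (Nat.totient_pos.mpr (Wm_pos23 w))
  have hNtop : Tendsto (fun y : ℕ => y ^ (M * (4 * q1 + 6))) atTop atTop := by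
    apply tendsto_pow_atTop
    positivity
  cases t with
  | true =>
    obtain ⟨N0, hN0⟩ := h2 (A + C1 + 2) C ((1 : ℝ) / 2 - 1 / (2 * (4 * q1 + 6))) ((1 : ℝ) / (4 * q1 + 7)) hθ (by positivity)
    filter_upwards [hasy, level23 q1 M (Wm w) hM, e2_total q1 M w hq1 hM (by omega) (e / 2) (by positivity),
      hNtop.eventually_ge_atTop N0, eventually_ge_atTop (3 * w), eventually_ge_atTop 3] with y hy1 hy2 hy3 hy4 hy5 hy6
    intro ι _ _ b i n0 hb hbi hg
    have hy0 : (3 : ℝ) ≤ y := by exact_mod_cast hy6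
    have hR : (1 : ℝ) ≤ (y : ℝ) ^ (M * q1) := one_le_pow₀ (by linarith)
    have hD1 : (3 : ℝ) ≤ ((y : ℝ) ^ (M * (q1 + 1))) ^ 2 := by
      rw [← pow_mul]
      exact hy0.trans (le_self_pow₀ (by linarith) (by positivity))
    have hyM : y ≤ y ^ M := Nat.le_self_pow (by omega) y
    have hwz : w ≤ y ^ M := by omega
    have hNy : y ≤ y ^ (M * (4 * q1 + 6)) := Nat.le_self_pow (by positivity) y
    have hZZ : y ^ (M * q1) * y ^ (M * q1) ≤ y ^ (M * (4 * q1 + 6)) := by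
      rw [← pow_add]
      apply Nat.pow_le_pow_right (by omega)
      nlinarith
    have hvv : ∀ p, |vv (PP w (y ^ (M * q1))) ((y : ℝ) ^ (M * q1)) p ^ 2| ≤ 1 := by
      intro p
      have h := vv_bd (w := w) (Z := y ^ (M * q1)) hR p
      rw [abs_of_nonneg (by positivity)]
      exact pow_le_one₀ h.1 h.2
    have hgc : (n0 + b i).Coprime (Wm w) := by
      have h := hg
      unfold good at h
      simpa using h
    have hbw := hb i
    have hv : (2 * y ^ (M * (4 * q1 + 6)) + b i) / 1 ≤ 3 * y ^ (M * (4 * q1 + 6)) := by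
      rw [Nat.div_one]; omega
    have hBV : ∀ c : ℕ → ℕ, (∀ q, (c q).Coprime q) →
        ∑ q ∈ Icc 1 ⌊((Wm w : ℕ) : ℝ) * ((y : ℝ) ^ (M * (q1 + 1))) ^ 2⌋₊, (C : ℝ) ^ q.primeFactors.card *
        bvD (e2 (fun p => vv (PP w (y ^ (M * q1))) ((y : ℝ) ^ (M * q1)) p ^ 2) (y ^ M))
          ((y ^ (M * (4 * q1 + 6)) + b i) / 1) ((2 * y ^ (M * (4 * q1 + 6)) + b i) / 1) q (c q) ≤
          3 * (y : ℝ) ^ (M * (4 * q1 + 6)) / Real.log (3 * (y : ℝ) ^ (M * (4 * q1 + 6))) ^ (A + C1 + 2) := by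
      intro c hc
      have h := hN0 (3 * y ^ (M * (4 * q1 + 6))) (by omega) (y ^ M) (eta23 q1 M y hM hy6) _ hvv
        ((y ^ (M * (4 * q1 + 6)) + b i) / 1) _ hv c hc
      push_cast at h ⊢
      refine le_trans (Finset.sum_le_sum_of_subset_of_nonneg (Finset.Icc_subset_Icc le_rfl (Nat.floor_le_floor ?_))
        (fun q _ _ => by unfold bvD; positivity)) h
      have h' := hy2
      push_cast at h'
      exact h'
    refine fin23 w (y ^ (M * q1)) (y ^ (M * (4 * q1 + 6))) n0 1 (Wm w) b i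
      (e2 (fun p => vv (PP w (y ^ (M * q1))) ((y : ℝ) ^ (M * q1)) p ^ 2) (y ^ M)) ?_ hw hb hbi Nat.one_pos (by ring)
      (one_dvd _) (by rw [Nat.div_one]; exact hgc) (Wm_pos23 w) C hC (((y : ℝ) ^ (M * (q1 + 1))) ^ 2)
      _ (3 * (y : ℝ) ^ (M * (4 * q1 + 6)) / (y : ℝ) ^ M) _ (by linarith) hBV ?_ (by positivity) _ (hC1 _ hD1 w) (hC2 _ hD1 w)
      ?_ _ ?_ _ _ ?_ ?_
    · intro m
      unfold e2
      exact Finset.sum_nonneg (fun p _ => by positivity)
    · intro q hq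
      rw [mem_Icc] at hq
      have h := diff_e2 (fun p => vv (PP w (y ^ (M * q1))) ((y : ℝ) ^ (M * q1)) p ^ 2) hvv (y ^ M)
        ((y ^ (M * (4 * q1 + 6)) + b i) / 1) ((2 * y ^ (M * (4 * q1 + 6)) + b i) / 1) (Wm w) q (by positivity) (by omega)
      refine h.trans ?_
      apply mul_le_mul_of_nonneg_left _ (by positivity)
      push_cast
      apply div_le_div_of_nonneg_right _ (by positivity)
      exact_mod_cast hv
    · intro l _ h0
      unfold e2 at h0
      obtain ⟨p, hp, _⟩ := Finset.exists_ne_zero_of_sum_ne_zero h0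
      rw [mem_filter] at hp
      obtain ⟨_, hp1, hp2, hp3, hp4, hp5⟩ := hp
      have h3 : l = p * (l / p) := (Nat.mul_div_cancel' hp3).symm
      rw [h3]
      exact Nat.Coprime.mul_left (cop23 hw hp1 (by omega)) (cop23 hw hp4 (by omega))
    · intro n hn
      unfold ns at hn
      rw [mem_filter, mem_Ioc] at hn
      have h := SS_E (w := w) (Z := y ^ (M * q1)) hR (y ^ M) (n + b i) hwz (by omega)
      simp only [Nat.div_one]
      exact h.symm
    · rw [logD23, logD23]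
      refine le_trans (le_of_eq ?_) hy1.1
      ring
    · have h := hy3 (b i) hbw
      have hNp : (0 : ℝ) < (y : ℝ) ^ (M * (4 * q1 + 6)) := by positivity
      have hφ : (0 : ℝ) < (Wm w).totient := by exact_mod_cast Nat.totient_pos.mpr (Wm_pos23 w)
      have hlog : (0 : ℝ) < Real.log ((y : ℝ) ^ (M * (4 * q1 + 6))) := by
        apply Real.log_pos
        calc (1 : ℝ) < y := by linarith
          _ ≤ _ := by exact_mod_cast hNy
      have h' : (cc q1 - e / 2) * ((y : ℝ) ^ (M * (4 * q1 + 6)) / Real.log ((y : ℝ) ^ (M * (4 * q1 + 6)))) / (Wm w).totient ≤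
          (∑ l ∈ Ioc ((y ^ (M * (4 * q1 + 6)) + b i) / 1) ((2 * y ^ (M * (4 * q1 + 6)) + b i) / 1),
            e2 (fun p => vv (PP w (y ^ (M * q1))) ((y : ℝ) ^ (M * q1)) p ^ 2) (y ^ M) l) / (Wm w).totient := by
        apply div_le_div_of_nonneg_right _ hφ.le
        simp only [Nat.div_one]
        exact h
      have h2 := hy1.2
      have h3 : (cty q1 true - e) * ((y : ℝ) ^ (M * (4 * q1 + 6)) / ((Wm w).totient * Real.log ((y : ℝ) ^ (M * (4 * q1 + 6))))) =
          (cc q1 - e / 2) * ((y : ℝ) ^ (M * (4 * q1 + 6)) / Real.log ((y : ℝ) ^ (M * (4 * q1 + 6)))) / (Wm w).totient -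
          (e / 2) * ((y : ℝ) ^ (M * (4 * q1 + 6)) / ((Wm w).totient * Real.log ((y : ℝ) ^ (M * (4 * q1 + 6))))) := by
        unfold cty
        simp only [if_true]
        field_simp
        ring
      rw [h3]
      linarith
  | false =>
    obtain ⟨N0, hN0⟩ := h1 (A + C1 + 2) C ((1 : ℝ) / 2 - 1 / (2 * (4 * q1 + 6))) hθ
    filter_upwards [hasy, level23 q1 M (Wl w) hM, hNtop.eventually (pr_total Ell.l Ell.hl w (e / 2) (by positivity)),
      hNtop.eventually_ge_atTop N0, eventually_ge_atTop (3 * w), eventually_ge_atTop 3] with y hy1 hy2 hy3 hy4 hy5 hy6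
    intro ι _ _ b i n0 hb hbi hg
    have hy0 : (3 : ℝ) ≤ y := by exact_mod_cast hy6
    have hR : (1 : ℝ) ≤ (y : ℝ) ^ (M * q1) := one_le_pow₀ (by linarith)
    have hD1 : (3 : ℝ) ≤ ((y : ℝ) ^ (M * (q1 + 1))) ^ 2 := by
      rw [← pow_mul]
      exact hy0.trans (le_self_pow₀ (by linarith) (by positivity))
    have hNy : y ≤ y ^ (M * (4 * q1 + 6)) := Nat.le_self_pow (by positivity) y
    have hZ3 : 3 * y ^ (M * q1) ≤ y ^ (M * (4 * q1 + 6)) := by
      calc 3 * y ^ (M * q1) ≤ y * y ^ (M * q1) := Nat.mul_le_mul_right _ hy6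
        _ = y ^ (M * q1 + 1) := by ring
        _ ≤ y ^ (M * (4 * q1 + 6)) := by
          apply Nat.pow_le_pow_right (by omega)
          nlinarith
    have hD3 : 3 * (y ^ (M * (q1 + 1))) ^ 2 ≤ y ^ (M * (4 * q1 + 6)) := by
      calc 3 * (y ^ (M * (q1 + 1))) ^ 2 ≤ y * (y ^ (M * (q1 + 1))) ^ 2 := Nat.mul_le_mul_right _ hy6
        _ = y ^ (M * (q1 + 1) * 2 + 1) := by ring
        _ ≤ y ^ (M * (4 * q1 + 6)) := by
          apply Nat.pow_le_pow_right (by omega)
          nlinarith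
    have hl3 := Ell_le
    have hl2 : 2 ≤ Ell.l := by rcases Ell.hl with h | h <;> omega
    have hlp : (0 : ℝ) < (Ell.l : ℝ) := by exact_mod_cast Ell_pos
    have hgc : Ell.l ∣ n0 + b i ∧ ((n0 + b i) / Ell.l).Coprime (primorial w) := by
      have h := hg
      unfold good at h
      simpa using h
    have hbw := hb i
    have hv : (2 * y ^ (M * (4 * q1 + 6)) + b i) / Ell.l ≤ 3 * y ^ (M * (4 * q1 + 6)) := by
      refine (Nat.div_le_self _ _).trans ?_
      omega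
    have hBV : ∀ c : ℕ → ℕ, (∀ q, (c q).Coprime q) →
        ∑ q ∈ Icc 1 ⌊((Wl w : ℕ) : ℝ) * ((y : ℝ) ^ (M * (q1 + 1))) ^ 2⌋₊, (C : ℝ) ^ q.primeFactors.card *
        bvD pr
          ((y ^ (M * (4 * q1 + 6)) + b i) / Ell.l) ((2 * y ^ (M * (4 * q1 + 6)) + b i) / Ell.l) q (c q) ≤
          3 * (y : ℝ) ^ (M * (4 * q1 + 6)) / Real.log (3 * (y : ℝ) ^ (M * (4 * q1 + 6))) ^ (A + C1 + 2) := by
      intro c hc
      have h := hN0 (3 * y ^ (M * (4 * q1 + 6))) (by omega) 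
        ((y ^ (M * (4 * q1 + 6)) + b i) / Ell.l) _ hv c hc
      push_cast at h ⊢
      refine le_trans (Finset.sum_le_sum_of_subset_of_nonneg (Finset.Icc_subset_Icc le_rfl (Nat.floor_le_floor ?_))
        (fun q _ _ => by unfold bvD; positivity)) h
      have h' := hy2
      push_cast at h'
      exact h'
    refine fin23 w (y ^ (M * q1)) (y ^ (M * (4 * q1 + 6))) n0 Ell.l (Wl w) b i
      pr ?_ hw hb hbi Ell_pos (Wm_eq23 w)
      hgc.1 (copl23 hw hgc.2) (Wl_pos23 w) C hC (((y : ℝ) ^ (M * (q1 + 1))) ^ 2)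
      _ (3 * (y : ℝ) ^ (M * (4 * q1 + 6)) / (y : ℝ) ^ M) _ (by linarith) hBV ?_ (by positivity) _ (hC1 _ hD1 w) (hC2 _ hD1 w)
      ?_ _ ?_ _ _ ?_ ?_
    · intro m
      unfold pr
      split_ifs <;> norm_num
    · intro q hq
      rw [mem_Icc] at hq
      have hq2 : q ≤ (y ^ (M * (q1 + 1))) ^ 2 := by
        have h := hq.2
        have h' : ⌊((y : ℝ) ^ (M * (q1 + 1))) ^ 2⌋₊ = (y ^ (M * (q1 + 1))) ^ 2 := by
          rw [show ((y : ℝ) ^ (M * (q1 + 1))) ^ 2 = (((y ^ (M * (q1 + 1))) ^ 2 : ℕ) : ℝ) by push_cast; ring]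
          exact Nat.floor_natCast _
        omega
      have h := diff_pr
        ((y ^ (M * (4 * q1 + 6)) + b i) / Ell.l) ((2 * y ^ (M * (4 * q1 + 6)) + b i) / Ell.l) (Wl w) q (by omega) (by
          rw [Nat.le_div_iff_mul_le Ell_pos]
          have h5 : q * Ell.l ≤ q * 3 := Nat.mul_le_mul_left q hl3
          omega)
      rw [h, sub_self, abs_zero]
      positivity
    · intro l hl h0
      rw [mem_Ioc] at hl
      have hlp' : l.Prime := by
        by_contra h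
        exact h0 (by unfold pr; simp [h])
      have h5 : (y ^ (M * (4 * q1 + 6)) + b i) / 3 ≤ (y ^ (M * (4 * q1 + 6)) + b i) / Ell.l :=
        Nat.div_le_div_left hl3 Ell_pos
      exact cop23' hw hlp' (by omega)
    · intro n hn
      unfold ns at hn
      rw [mem_filter, mem_Ioc] at hn
      have h3n : Ell.l ∣ n + b i := by
        have h1 : n ≡ n0 [MOD Ell.l] := Nat.ModEq.of_dvd (Dvd.intro _ (Wm_eq23 w).symm) hn.2
        have h2 : n + b i ≡ n0 + b i [MOD Ell.l] := Nat.ModEq.add_right _ h1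
        exact (Nat.modEq_zero_iff_dvd.mp (h2.trans (Nat.modEq_zero_iff_dvd.mpr hgc.1)))
      have h := SS_P (w := w) (Z := y ^ (M * q1)) hw hR (y ^ M) (n + b i) h3n (by omega)
      exact h.symm
    · rw [logD23, logD23]
      refine le_trans (le_of_eq ?_) hy1.1
      ring
    · have h := hy3 (b i) hbw
      have hNp : (0 : ℝ) < (y : ℝ) ^ (M * (4 * q1 + 6)) := by positivity
      have hφ : (0 : ℝ) < (Wl w).totient := by exact_mod_cast Nat.totient_pos.mpr (Wl_pos23 w)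
      have hlog : (0 : ℝ) < Real.log ((y : ℝ) ^ (M * (4 * q1 + 6))) := by
        apply Real.log_pos
        calc (1 : ℝ) < y := by linarith
          _ ≤ _ := by exact_mod_cast hNy
      have h' : (1 - e / 2) * ((y : ℝ) ^ (M * (4 * q1 + 6)) / Ell.l / Real.log ((y : ℝ) ^ (M * (4 * q1 + 6)))) /
          (Wl w).totient ≤
          (∑ l ∈ Ioc ((y ^ (M * (4 * q1 + 6)) + b i) / Ell.l) ((2 * y ^ (M * (4 * q1 + 6)) + b i) / Ell.l), pr l) /
            (Wl w).totient := by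
        apply div_le_div_of_nonneg_right _ hφ.le
        push_cast at h
        exact h
      have h2 := hy1.2
      have h3 : (cty q1 false - e) * ((y : ℝ) ^ (M * (4 * q1 + 6)) / ((Wm w).totient * Real.log ((y : ℝ) ^ (M * (4 * q1 + 6))))) =
          (1 - e / 2) * ((y : ℝ) ^ (M * (4 * q1 + 6)) / Ell.l / Real.log ((y : ℝ) ^ (M * (4 * q1 + 6)))) / (Wl w).totient -
          (e / 2) * ((y : ℝ) ^ (M * (4 * q1 + 6)) / ((Wm w).totient * Real.log ((y : ℝ) ^ (M * (4 * q1 + 6))))) := by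
        unfold cty
        rw [tot23 hw]
        simp only [Bool.false_eq_true, if_false]
        push_cast
        field_simp
        ring
      rw [h3]
      linarith

end Pool.Agent.LibSP4
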