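import Pool.Agent.LibSP4.Defs2

/-!
Row B24 (SHORT): numbers. `cc 40 = ∑_{s=1}^{82} min(1, s/40)² (2/(2s+1)) (166/(166-s)) = 1.71047...`. Prove lower bounds by exact rational arithmetic
(for instance: `min 1 (s/40) = s/40` for `s ≤ 40`, `1` above; `unfold cc`, cast to `ℚ` and evaluate with `decide +kernel` / `norm_num [Finset.sum_Icc_succ_top]`, or show that the sum is at least
`∑ (floor (10^6 x_s))/10^6`).
-/

open Finset

namespace Pool.Agent.LibSP4

private def B24_q : ℚ :=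
  ∑ s ∈ Icc (1 : ℕ) 82, (min 1 ((s : ℚ) / 40)) ^ 2 * (2 / (2 * s + 1)) * (166 / (166 - s))

private theorem B24_le : (171 / 100 : ℚ) ≤ B24_q := by
  unfold B24_q
  decide +kernel

theorem cc_num : (171 / 100 : ℝ) ≤ cc 40 := by
  have h1 : cc 40 = ((B24_q : ℚ) : ℝ) := by
    unfold cc B24_q
    push_cast
    norm_num
  rw [h1]
  have h2 : (((171 / 100 : ℚ) : ℚ) : ℝ) ≤ ((B24_q : ℚ) : ℝ) := Rat.cast_le.2 B24_le
  have h3 : (((171 / 100 : ℚ) : ℚ) : ℝ) = 171 / 100 := by push_cast; ring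
  rw [← h3]
  exact h2

end Pool.Agent.LibSP4
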