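import Pool.Agent.LibSP4.B25
import Pool.Agent.LibSP4.B26
import Pool.Agent.LibSP4.B17
import Pool.Agent.LibSP4.B18
import Pool.Agent.LibSP4.B02
import Pool.Agent.LibSP4.B10
import Pool.Agent.LibSP4.B11

/-!
Row B27 (MEDIUM): the total mass. `dist_all` (B18, `W = Wm w`; the primes of `P` are `> w`, so they do not divide `3 * primorial w`, `w ≥ 3`) gives `Dist P b univ (ns ..) 1 (N/W) (1/p) 2`;
`avgQ k` (B11) with `J = univ`, `y = y0`, `Y = 1`, `D = z` (`y0_bd`; `rr/ph ≥ 1`): `|∑ PhiF² - (N/W) QQ| ≤ RemE C P (z²) 2 ≤ Z²` (B17 `Rem_const`, `z² ≤ Z` needs `q1 ≥ 2`), which is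
`≤ (e/2) N/W` for large `y` (`N = y^(M (4 q1 + 6))`, `Z² = y^(2 M q1)`; `S2 ≥ 1`). `near_diag k` (B10) with `J = univ`: `|QQ - DD| ≤ offE C P k ≤ e' (kap w log y)^k ≤ (e/2) S2^k` (B26 with `e' = e/2^(k+1)`, B25:
`kap w log y ≤ 2 S2`). `DD ≤ S2^k` (B02). The positions differ modulo `p > w > |b i - b i'|`. `ns w n0 N` is the set of `dist_all`.
-/

open Finset Filter

namespace Pool.Agent.LibSP4

open Pool.Agent.LibRG87 Pool.Agent.LibBW4

private theorem B27_not_dvd {w p : ℕ} (hw : 3 ≤ w) (hp : p.Prime) (hpw : w < p) : ¬ p ∣ Wm w := by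
  intro h
  unfold Wm at h
  rcases hp.dvd_mul.1 h with h | h
  · have h0 : p ∣ 2 * 3 := h
    rcases (hp.dvd_mul).1 h0 with h | h
    · have := Nat.le_of_dvd (by norm_num) h
      omega
    · have := Nat.le_of_dvd (by norm_num) h
      omega
  · unfold primorial at h
    obtain ⟨q, hq, hpq⟩ := (Prime.dvd_finsetProd_iff hp.prime _).1 h
    rw [Finset.mem_filter, Finset.mem_range] at hq
    have := (Nat.prime_dvd_prime_iff_eq hp hq.2).1 hpq
    omega

private theorem B27_ph_le (P : Finset ℕ) (hP : ∀ p ∈ P, p.Prime) {A : Finset ℕ} (hA : A ⊆ P) :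
    1 ≤ rr A / ph A := by
  have h1 := ph_pos P hP hA
  rw [le_div_iff₀ h1, one_mul]
  unfold rr ph
  refine Finset.prod_le_prod ?_ ?_
  · intro p hp
    have : (1 : ℝ) ≤ p := by exact_mod_cast (hP p (hA hp)).one_lt.le
    linarith
  · intro p _
    linarith

theorem mass_le (k I M q1 : ℕ) (hq1 : 2 ≤ q1) (hIM : 2 ^ I < M) (e : ℝ) (he : 0 < e) : ∃ w0 : ℕ, ∀ w ≥ w0, ∀ᶠ y : ℕ in atTop,
    ∀ (ι : Type) [Fintype ι] [DecidableEq ι] (b : ι → ℕ) (n0 : ℕ), Fintype.card ι = k → (∀ j, b j < w) → Function.Injective b →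
    ∑ n ∈ nY w n0 q1 M y, WW w q1 M I y b n ≤
      (1 + e) * ((NY q1 M y : ℝ) / (Wm w : ℝ) * S2 (PY w q1 M y) y I ^ k) := by
  obtain ⟨C10, hC10, h10⟩ := near_diag k
  obtain ⟨C11, h11⟩ := avgQ k
  have hM1 : 1 ≤ M := by have := Nat.one_le_two_pow (n := I); omega
  obtain ⟨w1, hw1⟩ := offE_small k C10 hC10 (M * q1) (by
    have := Nat.mul_le_mul hM1 (show 1 ≤ q1 by omega); omega) (e / 2 ^ (k + 1)) (by positivity)
  obtain ⟨Z0, hZ0⟩ := Rem_const C11
  refine ⟨max w1 3, fun w hw => ?_⟩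
  have hww1 : w1 ≤ w := le_trans (le_max_left _ _) hw
  have hw3 : 3 ≤ w := le_trans (le_max_right _ _) hw
  have hWpos : 0 < Wm w := by
    unfold Wm
    have := primorial_pos w
    omega
  filter_upwards [hw1 w hww1, asym q1 I M w (by omega) hIM (1 / 2) (by norm_num),
    eventually_ge_atTop (max Z0 w), eventually_ge_atTop 2,
    eventually_ge_atTop ⌈2 * (Wm w : ℝ) / e⌉₊] with y hoff has hyZ hy2 hye
  intro ι _ _ b n0 hcard hb hinj
  have hyZ0 : Z0 ≤ y := le_trans (le_max_left _ _) hyZ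
  have hyw : w ≤ y := le_trans (le_max_right _ _) hyZ
  have hy1 : 1 ≤ y := by omega
  have hyZ' : y ≤ y ^ (M * q1) := by
    calc y = y ^ 1 := (pow_one y).symm
      _ ≤ y ^ (M * q1) := Nat.pow_le_pow_right hy1 (by
        have := Nat.mul_le_mul hM1 (show 1 ≤ q1 by omega); omega)
  have hPp : ∀ p ∈ PY w q1 M y, p.Prime := by
    intro p hp
    unfold PY PP at hp
    exact (Finset.mem_filter.1 hp).2
  have hPw : ∀ p ∈ PY w q1 M y, w < p := by
    intro p hp
    unfold PY PP at hp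
    exact (Finset.mem_Ioc.1 (Finset.mem_filter.1 hp).1).1
  have hP3 : ∀ p ∈ PY w q1 M y, 3 ≤ p := fun p hp => by have := hPw p hp; omega
  have hdist := dist_all (PY w q1 M y) hPp b (Wm w) n0 (NY q1 M y) hWpos
    (fun p hp => B27_not_dvd hw3 (hPp p hp) (hPw p hp))
  have hb0 := fun β => y0_bd (ι := ι) (PY w q1 M y) y I (zY M y) β
  have habs : ∀ β : PY w q1 M y → Option ι, |y0 (PY w q1 M y) y I (zY M y) β| ≤
      1 * (rr (sp (PY w q1 M y) β) / ph (sp (PY w q1 M y) β)) := by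
    intro β
    obtain ⟨h1, h2, -⟩ := hb0 β
    rw [abs_of_nonneg h1, one_mul]
    exact h2.trans (B27_ph_le _ hPp (sp_subset _ _))
  have hA := h11 ι (PY w q1 M y) b univ (nY w n0 q1 M y) (fun _ => 1)
    ((NY q1 M y : ℝ) / (Wm w : ℝ)) (fun p => 1 / (p : ℝ)) (fun _ => 2)
    (y0 (PY w q1 M y) y I (zY M y)) 1 (zY M y) zero_le_one (by unfold zY; positivity) hcard hPp hP3
    (by
      intro p hp i _ i' _ hii hmod
      apply hii
      apply hinj
      have hp' := hPw p hp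
      have h1 := hb i
      have h2 := hb i'
      have e1 : b i % p = b i' % p := hmod
      rwa [Nat.mod_eq_of_lt (by omega), Nat.mod_eq_of_lt (by omega)] at e1)
    hdist (fun β hβ => ⟨fun p i _ => Finset.mem_univ i, (hb0 β).2.2 hβ⟩) habs
  have hD := h10 ι (PY w q1 M y) univ (fun p => 1 / (p : ℝ)) (y0 (PY w q1 M y) y I (zY M y)) 1
    zero_le_one hP3 (by rw [Finset.card_univ, hcard]) (fun p _ => le_refl _) (by
      intro p hp
      have : (3 : ℝ) ≤ p := by exact_mod_cast hP3 p hp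
      exact one_div_le_one_div_of_le (by linarith) (by linarith))
    (fun β _ => fun p i _ => Finset.mem_univ i) habs
  have hDD := DD_y0_le (ι := ι) (PY w q1 M y) hPp y I (zY M y)
  rw [hcard] at hDD
  have hR := hZ0 w (y ^ (M * q1)) ((zY M y) ^ 2) (le_trans hyZ0 hyZ') (by
    unfold zY
    push_cast
    rw [← pow_mul]
    exact pow_le_pow_right₀ (by exact_mod_cast hy1) (Nat.mul_le_mul_left M hq1)) (by omega)
    (le_trans hyw hyZ')
  have hS1 : 1 ≤ S2 (PY w q1 M y) y I := one_le_S2 hPp hy1 I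
  obtain ⟨-, -, h3, -, -, -, -⟩ := has
  set S := S2 (PY w q1 M y) y I with hSdef
  set X := (NY q1 M y : ℝ) / (Wm w : ℝ) with hXdef
  have hWr : (0 : ℝ) < (Wm w : ℝ) := by exact_mod_cast hWpos
  have hX0 : 0 ≤ X := by positivity
  have hlog : 0 ≤ Real.log y := Real.log_nonneg (by exact_mod_cast hy1)
  have hkl : 0 ≤ kap w * Real.log y := mul_nonneg (kap_pos w).le hlog
  have hoff2 : offE C10 (PY w q1 M y) k ≤ e / 2 * S ^ k := by
    refine hoff.trans ?_
    have h4 : (kap w * Real.log y) ^ k ≤ (2 * S) ^ k := pow_le_pow_left₀ hkl (by linarith) k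
    calc e / 2 ^ (k + 1) * (kap w * Real.log y) ^ k ≤ e / 2 ^ (k + 1) * (2 * S) ^ k :=
          mul_le_mul_of_nonneg_left h4 (by positivity)
      _ = e / 2 * S ^ k := by rw [mul_pow, pow_succ]; field_simp
  have hrem : RemE C11 (PY w q1 M y) ((zY M y) ^ 2) (fun _ => 2) ≤ e / 2 * X := by
    refine hR.trans ?_
    rw [hXdef, mul_div_assoc', le_div_iff₀ hWr]
    have hyr : 2 * (Wm w : ℝ) / e ≤ y := (Nat.le_ceil _).trans (by exact_mod_cast hye)
    rw [div_le_iff₀ he] at hyr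
    have hN : ((y : ℝ) ^ (M * q1)) ^ 2 * y ≤ (y : ℝ) ^ (M * (4 * q1 + 6)) := by
      rw [← pow_mul, ← pow_succ]
      apply pow_le_pow_right₀ (by exact_mod_cast hy1)
      nlinarith
    have hZ2 : 0 ≤ ((y : ℝ) ^ (M * q1)) ^ 2 := by positivity
    push_cast
    nlinarith [mul_le_mul_of_nonneg_left hyr hZ2, mul_le_mul_of_nonneg_left hN he.le]
  have hQ : QQ (PY w q1 M y) (fun p => 1 / (p : ℝ)) (y0 (PY w q1 M y) y I (zY M y) : (PY w q1 M y → Option ι) → ℝ) ≤
      S ^ k + e / 2 * S ^ k := by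
    have := (abs_le.1 hD).2
    rw [one_pow, one_mul] at this
    linarith
  have hsum : ∑ n ∈ nY w n0 q1 M y, WW w q1 M I y b n =
      ∑ n ∈ nY w n0 q1 M y, 1 * PhiF (PY w q1 M y) b (y0 (PY w q1 M y) y I (zY M y)) n ^ 2 := by
    refine Finset.sum_congr rfl fun n _ => ?_
    rw [one_mul]; rfl
  rw [hsum]
  have h5 := (abs_le.1 hA).2
  rw [one_pow, one_mul] at h5
  have h6 : X * QQ (PY w q1 M y) (fun p => 1 / (p : ℝ)) (y0 (PY w q1 M y) y I (zY M y) : (PY w q1 M y → Option ι) → ℝ) ≤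
      X * (S ^ k + e / 2 * S ^ k) := mul_le_mul_of_nonneg_left hQ hX0
  have h7 : X ≤ X * S ^ k := le_mul_of_one_le_right hX0 (one_le_pow₀ hS1)
  have h8 := mul_le_mul_of_nonneg_left h7 (show 0 ≤ e / 2 by linarith)
  nlinarith

end Pool.Agent.LibSP4
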