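import Pool.Agent.LibSP4.Defs3
import Pool.Agent.LibSP4.B03
import Pool.Agent.LibSP4.B05
import Pool.Agent.LibSP4.B06

/-!
Row B28 (SHORT/MEDIUM): the events. For `n ∈ nY` we have `n + b i > N = y^(M (4 q1 + 6)) > 3 Z`. If `occ t (y^M) (n + b i)` then no prime `p ≤ z` of `P` divides `n + b i`: (E) `n + b i = p' q'` with
`y^M < p' < q'`; (P) `n + b i = 3 l`, `l` prime, `l > Z`, and the primes of `P` are `> w ≥ 3` and `≤ Z`. So on the event: `WW n = PhiF (y1 i) n ^ 2` (B03 `collapse1`), and if both events occur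
`WW n * lamS² = (PhiF (y2 i j) n * lamS)² = F2² = PhiF (y3 i j)²` (B03 `collapse2`, B05 `F2_event`, B06 `F2_expand`). `SY ≥ 0`, and it is `0` off the event.
-/

open Finset Filter

namespace Pool.Agent.LibSP4

open Pool.Agent.LibRG87 Pool.Agent.LibBW4

variable [Ell]

variable {ι : Type} [Fintype ι] [DecidableEq ι]

theorem SY_nonneg (t : Bool) (w q1 M y m : ℕ) : 0 ≤ SY t w q1 M y m := by
  classical
  unfold SY SS
  split_ifs
  · positivity
  · exact le_rfl

theorem SY_ne (t : Bool) (w q1 M y m : ℕ) (h : SY t w q1 M y m ≠ 0) : occ t (y ^ M) m := by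
  classical
  by_contra hc
  apply h
  unfold SY SS
  rw [if_neg hc]

private theorem B28_not_dvd (t : Bool) (w q1 M y n0 : ℕ) (hw : 3 ≤ w) (hy : 2 ≤ y) (hM : 1 ≤ M)
    (n c : ℕ) (hn : n ∈ nY w n0 q1 M y) (ho : occ t (y ^ M) (n + c)) :
    ∀ p ∈ PY w q1 M y, (p : ℝ) ≤ zY M y → ¬ p ∣ n + c := by
  intro p hp hpz hdvd
  have hp1 := Finset.mem_filter.1 hp
  have hp2 := Finset.mem_Ioc.1 hp1.1
  have hpp : p.Prime := hp1.2
  have hpz' : p ≤ y ^ M := by
    have : (p : ℝ) ≤ ((y ^ M : ℕ) : ℝ) := by rw [Nat.cast_pow]; exact hpz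
    exact_mod_cast this
  unfold occ at ho
  split_ifs at ho with ht
  · obtain ⟨p', q', hp', hq', h1, h2, h3⟩ := ho
    rw [h3] at hdvd
    rcases (hpp.dvd_mul).1 hdvd with h | h
    · have := (Nat.prime_dvd_prime_iff_eq hpp hp').1 h
      omega
    · have := (Nat.prime_dvd_prime_iff_eq hpp hq').1 h
      omega
  · obtain ⟨h3, hl⟩ := ho
    obtain ⟨l, hl3⟩ := h3
    have hL3 : Ell.l ≤ 3 := by rcases Ell.hl with h | h <;> omega
    have hL0 : 0 < Ell.l := by rcases Ell.hl with h | h <;> omega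
    rw [hl3, Nat.mul_div_cancel_left l hL0] at hl
    rw [hl3] at hdvd
    rcases (hpp.dvd_mul).1 hdvd with h | h
    · have := Nat.le_of_dvd hL0 h
      omega
    · have hpl := (Nat.prime_dvd_prime_iff_eq hpp hl).1 h
      have hnN := (Finset.mem_Ioc.1 (Finset.mem_filter.1 hn).1).1
      have hN : 4 * y ^ (M * q1) ≤ NY q1 M y := by
        have h4 : 4 ≤ y ^ 2 := by nlinarith
        calc 4 * y ^ (M * q1) ≤ y ^ 2 * y ^ (M * q1) := Nat.mul_le_mul_right _ h4
          _ = y ^ (2 + M * q1) := (pow_add _ _ _).symm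
          _ ≤ y ^ (M * (4 * q1 + 6)) := by
              apply Nat.pow_le_pow_right (by omega)
              nlinarith [Nat.zero_le (M * q1)]
      have hpos : 1 ≤ y ^ (M * q1) := Nat.one_le_pow _ _ (by omega)
      have hpZ := hp2.2
      have h8 : Ell.l * l ≤ 3 * l := Nat.mul_le_mul_right l hL3
      have h9 : 3 * l ≤ 3 * y ^ (M * q1) := by omega
      omega

theorem event1 (t : Bool) (w q1 M I y n0 : ℕ) (hw : 3 ≤ w) (hy : 2 ≤ y) (hq1 : 1 ≤ q1) (hM : 1 ≤ M) (b : ι → ℕ) (i : ι)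
    (n : ℕ) (hn : n ∈ nY w n0 q1 M y) :
    WW w q1 M I y b n * SY t w q1 M y (n + b i) =
      SY t w q1 M y (n + b i) * PhiF (PY w q1 M y) b (y1 (PY w q1 M y) y I (zY M y) i) n ^ 2 := by
  by_cases h : SY t w q1 M y (n + b i) = 0
  · rw [h]; ring
  · have ho := SY_ne t w q1 M y (n + b i) h
    have hnd := B28_not_dvd t w q1 M y n0 hw hy hM n (b i) hn ho
    have hP : ∀ p ∈ PY w q1 M y, p.Prime := fun p hp => (Finset.mem_filter.1 hp).2
    unfold WW
    rw [collapse1 (PY w q1 M y) hP (by omega : 1 ≤ y) I (zY M y) b i n hnd]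
    ring

theorem event2 (t t' : Bool) (w q1 M I y n0 : ℕ) (hw : 3 ≤ w) (hy : 2 ≤ y) (hq1 : 1 ≤ q1) (hM : 1 ≤ M) (b : ι → ℕ) (i j : ι) (hij : i ≠ j)
    (n : ℕ) (hn : n ∈ nY w n0 q1 M y) :
    WW w q1 M I y b n * (SY t w q1 M y (n + b i) * SY t' w q1 M y (n + b j)) ≤
      SY t w q1 M y (n + b i) * PhiF (PY w q1 M y) b (y3 (PY w q1 M y) y I (zY M y) (RY q1 M y) i j) n ^ 2 := by
  classical
  by_cases h : SY t w q1 M y (n + b i) = 0
  · rw [h]; simp
  by_cases h' : SY t' w q1 M y (n + b j) = 0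
  · rw [h']
    have := SY_nonneg t w q1 M y (n + b i)
    have h2 : 0 ≤ SY t w q1 M y (n + b i) *
      PhiF (PY w q1 M y) b (y3 (PY w q1 M y) y I (zY M y) (RY q1 M y) i j) n ^ 2 := by positivity
    simpa using h2
  · have ho := SY_ne t w q1 M y (n + b i) h
    have ho' := SY_ne t' w q1 M y (n + b j) h'
    have hnd := B28_not_dvd t w q1 M y n0 hw hy hM n (b i) hn ho
    have hnd' := B28_not_dvd t' w q1 M y n0 hw hy hM n (b j) hn ho'
    have hP : ∀ p ∈ PY w q1 M y, p.Prime := fun p hp => (Finset.mem_filter.1 hp).2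
    have hR : (1 : ℝ) ≤ RY q1 M y := by
      show (1 : ℝ) ≤ (y : ℝ) ^ (M * q1)
      exact one_le_pow₀ (by exact_mod_cast (by omega : 1 ≤ y))
    have e1 : SY t' w q1 M y (n + b j) = lamS (PY w q1 M y) (RY q1 M y) (n + b j) ^ 2 := by
      unfold SY SS
      rw [if_pos ho']
    have e2 := F2_event (PY w q1 M y) hP y I (zY M y) (RY q1 M y) b i j n hnd'
    have e3 := F2_expand (PY w q1 M y) hP y I (zY M y) (RY q1 M y) hR b i j hij n
    have e4 := collapse2 (PY w q1 M y) hP (by omega : 1 ≤ y) I (zY M y) b i j hij n hnd hnd'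
    apply le_of_eq
    unfold WW
    rw [e4, e1, ← e3, e2]
    ring

end Pool.Agent.LibSP4
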