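import Pool.Agent.LibSP4.B25
import Pool.Agent.LibSP4.B26
import Pool.Agent.LibSP4.B17
import Pool.Agent.LibSP4.B07
import Pool.Agent.LibSP4.B08
import Pool.Agent.LibSP4.B09
import Pool.Agent.LibSP4.B10
import Pool.Agent.LibSP4.B11
import Pool.Agent.LibSP4.B23

/-!
Row B29 (MEDIUM/STRONG, bookkeeping): the moments at one position. Constants `C10` of `near_diag (k-1)` (B10), `C11` of `avgQ k` (B11), `C' = max C11 1`, exponent `A = C' + 2`; `X`, `Er` from B23 `pos`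
(with its `e` replaced by `e`: `cty - e ≥ (1 - e) cty` because `cty ≥ 1`).
`J = univ.erase i`, `card J = k - 1`. With `P = PY`, `L = kap w log y`:
(1) `y1`: `Y = S1`, `D = z`: `|∑ SY PhiF(y1)² - X QQ| ≤ S1² RemE C11 P (z²) Er`, `|QQ - DD| ≤ S1² offE C10 P (k-1) ≤ S1² e' L^(k-1) ≤ e S1² S2^(k-1)` (B26, B25 `L ≤ 2 S2`), `DD ≥ (1-4e) S1² S2^(k-1)` (B09; its `h1` for large `w`
from B26 `sum_sq_small`; its `h2`: `SL ≤ (5/4) kap log² (1 + I/2)`, `S2 ≥ (3/4) kap log y`, `log(z/y^(2^I)) = (M - 2^I) log y` and `hM`).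
(2) `y3`: `Y = S1²/GG`, `D = z R = y^(M (q1+1))` (B07), `DD ≤ (1+e) S1⁴ S2^(k-2)/GG` (B08, B16 `prod3_le`), `Y² offE ≤ (S1⁴/GG²) e' L^(k-1) ≤ e S1⁴ S2^(k-2)/GG` (B25: `GG ≥ L/2`, `M q1 ≥ 1`; `S2 ≥ L/2`).
(3) remainders: `RemE C11 P (D²) Er ≤ (C1 log Z)^C11 ErS C11 w (D²) Er ≤ (C1 M q1 log y)^C11 * N/(log y)^A` (B17 `Rem_le`, `ErS_mono`, `C11 ≤ C'`), which is `≤ e X` for large `y`, because `X ≥ (1/2) N/(φ(W) M (4 q1+6) log y)`;
`S2 ≥ 1`, `S1 ≥ 1`, `GG ≥ 1` (B01). `X ≥ 0` from `Dist`.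
-/

open Finset Filter

namespace Pool.Agent.LibSP4

open Pool.Agent.LibRG87 Pool.Agent.LibBW4

variable [Ell]

private theorem B29_A1 {X e s1 s2 Rm off Sg Q D : ℝ} (hX : 0 ≤ X) (he : 0 ≤ e) (hs2 : 1 ≤ s2)
    (h1 : |Sg - X * Q| ≤ s1 ^ 2 * Rm) (h2 : Rm ≤ e * X) (h3 : |Q - D| ≤ s1 ^ 2 * off) (h4 : off ≤ e * s2)
    (h5 : (1 - 4 * e) * (s1 ^ 2 * s2) ≤ D) : (1 - 6 * e) * (X * (s1 ^ 2 * s2)) ≤ Sg := by
  have a1 := (abs_le.1 h1).1
  have a3 := (abs_le.1 h3).1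
  have b1 : s1 ^ 2 * Rm ≤ s1 ^ 2 * (e * X) := mul_le_mul_of_nonneg_left h2 (sq_nonneg _)
  have b2 : s1 ^ 2 * off ≤ s1 ^ 2 * (e * s2) := mul_le_mul_of_nonneg_left h4 (sq_nonneg _)
  have b3 : (1 - 5 * e) * (s1 ^ 2 * s2) ≤ Q := by linarith
  have b4 : X * ((1 - 5 * e) * (s1 ^ 2 * s2)) ≤ X * Q := mul_le_mul_of_nonneg_left b3 hX
  have b5 : s1 ^ 2 * (e * X) * 1 ≤ s1 ^ 2 * (e * X) * s2 :=
    mul_le_mul_of_nonneg_left hs2 (mul_nonneg (sq_nonneg _) (mul_nonneg he hX))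
  linarith

private theorem B29_A2 {X e T Y2 Rm off Sg Q D : ℝ} (hX : 0 ≤ X) (he : 0 ≤ e) (hY : 0 ≤ Y2)
    (h1 : |Sg - X * Q| ≤ Y2 * Rm) (h2 : Rm ≤ e * X) (h3 : |Q - D| ≤ Y2 * off) (h4 : Y2 * off ≤ e * T)
    (h5 : D ≤ (1 + e) * T) (h6 : Y2 ≤ T) : Sg ≤ (1 + 3 * e) * (X * T) := by
  have a1 := (abs_le.1 h1).2
  have a3 := (abs_le.1 h3).2
  have b1 : Y2 * Rm ≤ Y2 * (e * X) := mul_le_mul_of_nonneg_left h2 hY
  have b2 : Y2 * (e * X) ≤ T * (e * X) := mul_le_mul_of_nonneg_right h6 (mul_nonneg he hX)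
  have b3 : Q ≤ (1 + 2 * e) * T := by linarith
  have b4 : X * Q ≤ X * ((1 + 2 * e) * T) := mul_le_mul_of_nonneg_left b3 hX
  linarith

private theorem B29_A3 {e s1 s2 g L off : ℝ} {j : ℕ} (he : 0 ≤ e) (hs2 : 0 ≤ s2) (hg : 0 < g) (hL : 0 ≤ L)
    (h1 : L ≤ 2 * s2) (h2 : L ≤ 2 * g) (h3 : off ≤ e / 2 ^ (j + 1) * L ^ (j + 1)) :
    (s1 ^ 2 / g) ^ 2 * off ≤ e * (s1 ^ 4 * s2 ^ j / g) := by
  have b1 : L ^ (j + 1) ≤ (2 * s2) ^ j * (2 * g) := by
    rw [pow_succ]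
    exact mul_le_mul (pow_le_pow_left₀ hL h1 j) h2 hL (pow_nonneg (by linarith) j)
  have b2 : off ≤ e / 2 ^ (j + 1) * ((2 * s2) ^ j * (2 * g)) :=
    h3.trans (mul_le_mul_of_nonneg_left b1 (by positivity))
  have b3 : (s1 ^ 2 / g) ^ 2 * off ≤ (s1 ^ 2 / g) ^ 2 * (e / 2 ^ (j + 1) * ((2 * s2) ^ j * (2 * g))) :=
    mul_le_mul_of_nonneg_left b2 (sq_nonneg _)
  refine b3.trans (le_of_eq ?_)
  have h2' : (2 : ℝ) ^ (j + 1) ≠ 0 := by positivity
  rw [mul_pow]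
  field_simp
  ring

private theorem B29_ErS {C C' w : ℕ} (h : C ≤ C') (D : ℝ) {Er : ℕ → ℝ} (hE : ∀ q, 0 ≤ Er q) :
    ErS C w D Er ≤ ErS C' w D Er := by
  unfold ErS
  refine Finset.sum_le_sum fun q _ => mul_le_mul_of_nonneg_right ?_ (hE q)
  exact pow_le_pow_left₀ (Nat.cast_nonneg C) (Nat.cast_le.2 h) _

private theorem B29_rem (C11 q1 M w : ℕ) (hq1 : 1 ≤ q1) (hM : 1 ≤ M) (hw : 3 ≤ w) (e : ℝ) (he : 0 < e)
    (he8 : e ≤ 1 / 8) (cy : ℝ) (hc : 1 ≤ cy) :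
    ∀ᶠ y : ℕ in atTop, ∀ (X : ℝ) (Er : ℕ → ℝ) (D : ℝ), (∀ q, 0 ≤ Er q) → 0 ≤ D →
      D ≤ (y : ℝ) ^ (M * (q1 + 1)) →
      ErS (max C11 1) w (((y : ℝ) ^ (M * (q1 + 1))) ^ 2) Er ≤
        (y : ℝ) ^ (M * (4 * q1 + 6)) / Real.log y ^ (C11 + 2) →
      (cy - e) * ((y : ℝ) ^ (M * (4 * q1 + 6)) /
        ((Wm w).totient * Real.log ((y : ℝ) ^ (M * (4 * q1 + 6))))) ≤ X →
      RemE C11 (PY w q1 M y) (D ^ 2) Er ≤ e * X := by
  obtain ⟨C1, hC1, hR⟩ := Rem_le C11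
  have hlog : Tendsto (fun y : ℕ => Real.log (y : ℝ)) atTop atTop :=
    Real.tendsto_log_atTop.comp tendsto_natCast_atTop_atTop
  have hF : (0 : ℝ) < (Wm w).totient := by
    have h0 : 0 < Wm w := by
      unfold Wm
      exact Nat.mul_pos (by norm_num) (primorial_pos w)
    exact_mod_cast Nat.totient_pos.2 h0
  have hm4 : (0 : ℝ) < ((M * (4 * q1 + 6) : ℕ) : ℝ) := by
    have : 0 < M * (4 * q1 + 6) := Nat.mul_pos hM (by omega)
    exact_mod_cast this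
  filter_upwards [hlog.eventually_ge_atTop (2 * (C1 * ((M * q1 : ℕ) : ℝ)) ^ C11 * (Wm w).totient *
      ((M * (4 * q1 + 6) : ℕ) : ℝ) / e), hlog.eventually_ge_atTop 1, eventually_ge_atTop w]
    with y hy1 hy2 hy3 X Er D hEr hD hDle hE hX
  have hy0 : (0 : ℝ) < y := by
    have : 0 < y := by omega
    exact_mod_cast this
  have hl0 : 0 < Real.log y := by linarith
  have hZ : w ≤ y ^ (M * q1) := by
    have h1 : 1 ≤ M * q1 := Nat.mul_pos hM hq1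
    calc w ≤ y := hy3
      _ = y ^ 1 := (pow_one y).symm
      _ ≤ y ^ (M * q1) := Nat.pow_le_pow_right (by omega) h1
  have b1 := hR w (y ^ (M * q1)) (D ^ 2) Er (by omega) hZ (sq_nonneg D) hEr
  have b2 : Real.log ((y ^ (M * q1) : ℕ) : ℝ) = ((M * q1 : ℕ) : ℝ) * Real.log y := by
    rw [Nat.cast_pow, Real.log_pow]
  rw [b2] at b1
  have b3 : ErS C11 w (D ^ 2) Er ≤ (y : ℝ) ^ (M * (4 * q1 + 6)) / Real.log y ^ (C11 + 2) :=
    ((B29_ErS (le_max_left C11 1) _ hEr).trans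
      (ErS_mono _ w (pow_le_pow_left₀ hD hDle 2) Er hEr)).trans hE
  obtain ⟨N, hN⟩ : ∃ N : ℝ, N = (y : ℝ) ^ (M * (4 * q1 + 6)) := ⟨_, rfl⟩
  have hN0 : 0 < N := by
    rw [hN]
    positivity
  rw [← hN] at b3
  obtain ⟨K, hK⟩ : ∃ K : ℝ, K = (C1 * ((M * q1 : ℕ) : ℝ)) ^ C11 := ⟨_, rfl⟩
  have hK0 : 0 ≤ K := by
    rw [hK]
    positivity
  have b4 : RemE C11 (PY w q1 M y) (D ^ 2) Er ≤ K * N / Real.log y ^ 2 := by
    refine b1.trans ?_
    have h3 : (C1 * (((M * q1 : ℕ) : ℝ) * Real.log y)) ^ C11 = K * Real.log y ^ C11 := by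
      rw [hK, ← mul_pow, mul_assoc]
    rw [h3]
    calc K * Real.log y ^ C11 * ErS C11 w (D ^ 2) Er
        ≤ K * Real.log y ^ C11 * (N / Real.log y ^ (C11 + 2)) :=
          mul_le_mul_of_nonneg_left b3 (by positivity)
      _ = K * N / Real.log y ^ 2 := by
          rw [pow_add]
          field_simp
  have b5 : (1 / 2) * (N / ((Wm w).totient * (((M * (4 * q1 + 6) : ℕ) : ℝ) * Real.log y))) ≤ X := by
    refine le_trans ?_ hX
    rw [Real.log_pow, ← hN]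
    refine mul_le_mul_of_nonneg_right (by linarith) ?_
    positivity
  have b6 : K * N / Real.log y ^ 2 ≤
      e * ((1 / 2) * (N / ((Wm w).totient * (((M * (4 * q1 + 6) : ℕ) : ℝ) * Real.log y)))) := by
    rw [← hK, div_le_iff₀ he] at hy1
    have h4 : e * ((1 / 2) * (N / ((Wm w).totient * (((M * (4 * q1 + 6) : ℕ) : ℝ) * Real.log y)))) =
        e * N / (2 * ((Wm w).totient * ((M * (4 * q1 + 6) : ℕ) : ℝ)) * Real.log y) := by
      field_simp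
    rw [h4, div_le_div_iff₀ (by positivity) (by positivity)]
    have h5 : 2 * K * (Wm w).totient * ((M * (4 * q1 + 6) : ℕ) : ℝ) * (N * Real.log y) ≤
        Real.log y * e * (N * Real.log y) := mul_le_mul_of_nonneg_right hy1 (by positivity)
    calc K * N * (2 * ((Wm w).totient * ((M * (4 * q1 + 6) : ℕ) : ℝ)) * Real.log y)
        = 2 * K * (Wm w).totient * ((M * (4 * q1 + 6) : ℕ) : ℝ) * (N * Real.log y) := by ring
      _ ≤ Real.log y * e * (N * Real.log y) := h5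
      _ = e * N * Real.log y ^ 2 := by ring
  calc RemE C11 (PY w q1 M y) (D ^ 2) Er ≤ K * N / Real.log y ^ 2 := b4
    _ ≤ _ := b6
    _ ≤ e * X := mul_le_mul_of_nonneg_left b5 he.le

private theorem B29_ratio {P : Finset ℕ} (hP : ∀ p ∈ P, p.Prime) {A : Finset ℕ} (hA : A ⊆ P) :
    1 ≤ rr A / ph A := by
  have h0 := ph_pos P hP hA
  rw [le_div_iff₀ h0, one_mul]
  unfold ph rr
  refine Finset.prod_le_prod (fun p hp => ?_) (fun p _ => by linarith)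
  have : (1 : ℝ) ≤ p := by exact_mod_cast (hP p (hA hp)).one_lt.le
  linarith

theorem moments (h1 : BVprimes) (h2 : BVe2) (t : Bool) (q1 I M k : ℕ) (hq1 : 1 ≤ q1) (hIM : 2 ^ I < M) (hk : 2 ≤ k)
    (e : ℝ) (he : 0 < e) (he8 : e ≤ 1 / 8) (hM : (k : ℝ) * (I + 2) ≤ e * (M - 2 ^ I)) (hc : 1 ≤ cty q1 t) :
    ∃ w0 : ℕ, ∀ w ≥ w0, ∀ᶠ y : ℕ in atTop,
    ∀ (ι : Type) [Fintype ι] [DecidableEq ι] (b : ι → ℕ) (i : ι) (n0 : ℕ), Fintype.card ι = k → (∀ j, b j < w) → Function.Injective b →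
    good t w n0 (b i) →
    ∃ X : ℝ, (1 - e) * (cty q1 t * ((NY q1 M y : ℝ) / ((Wm w).totient * Real.log (NY q1 M y)))) ≤ X ∧
      (1 - 6 * e) * (X * (S1 (PY w q1 M y) y I ^ 2 * S2 (PY w q1 M y) y I ^ (k - 1))) ≤
        ∑ n ∈ nY w n0 q1 M y, SY t w q1 M y (n + b i) * PhiF (PY w q1 M y) b (y1 (PY w q1 M y) y I (zY M y) i) n ^ 2 ∧
      ∀ j ≠ i,
        ∑ n ∈ nY w n0 q1 M y, SY t w q1 M y (n + b i) *
            PhiF (PY w q1 M y) b (y3 (PY w q1 M y) y I (zY M y) (RY q1 M y) i j) n ^ 2 ≤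
          (1 + 3 * e) * (X * (S1 (PY w q1 M y) y I ^ 4 * S2 (PY w q1 M y) y I ^ (k - 2) / GG (PY w q1 M y) (RY q1 M y))) := by
  obtain ⟨C10, hC10, hnd⟩ := near_diag (k - 1)
  obtain ⟨C11, hav⟩ := avgQ k
  have hM1 : 1 ≤ M := lt_of_le_of_lt (Nat.zero_le _) hIM
  have hMq : 1 ≤ M * q1 := Nat.mul_pos hM1 hq1
  have hk0 : (0 : ℝ) < k := by
    have : 0 < k := by omega
    exact_mod_cast this
  obtain ⟨w1, hw1⟩ := offE_small (k - 1) C10 hC10 (M * q1) hMq (e / 2 ^ (k - 1)) (by positivity)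
  obtain ⟨w2, hw2⟩ := sum_sq_small (e / (k : ℝ) ^ 2) (by positivity)
  obtain ⟨w3, hw3⟩ := prod3_le (k - 2) e he
  refine ⟨max (max w1 w2) (max w3 3), fun w hw => ?_⟩
  have hwa : w1 ≤ w := le_trans (le_trans (le_max_left _ _) (le_max_left _ _)) hw
  have hwb : w2 ≤ w := le_trans (le_trans (le_max_right _ _) (le_max_left _ _)) hw
  have hwc : w3 ≤ w := le_trans (le_trans (le_max_left _ _) (le_max_right _ _)) hw
  have hwd : 3 ≤ w := le_trans (le_trans (le_max_right _ _) (le_max_right _ _)) hw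
  filter_upwards [hw1 w hwa, asym q1 I M w hq1 hIM (1 / 4) (by norm_num),
    pos h1 h2 t q1 M w (C11 + 2) (max C11 1) hq1 hM1 hwd (le_max_right _ _) e he,
    B29_rem C11 q1 M w hq1 hM1 hwd e he he8 (cty q1 t) hc, eventually_ge_atTop (max w 2)]
    with y hoff hasy hpos hrem hy
  intro ι _ _ b i n0 hcard hb hinj hgood
  obtain ⟨X, Er, hdist, hErS, hX⟩ := hpos ι b i n0 hb hinj hgood
  have hX0 : 0 ≤ X := hdist.X_nonneg
  have hy2 : 2 ≤ y := le_trans (le_max_right _ _) hy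
  have hyR : (2 : ℝ) ≤ y := by exact_mod_cast hy2
  have hy1 : (1 : ℝ) ≤ y := by linarith
  have hlog : 0 < Real.log y := Real.log_pos (by linarith)
  have hP : ∀ p ∈ PY w q1 M y, p.Prime := fun p hp => (Finset.mem_filter.1 hp).2
  have hPw : ∀ p ∈ PY w q1 M y, w < p := fun p hp => (Finset.mem_Ioc.1 (Finset.mem_filter.1 hp).1).1
  have hP3 : ∀ p ∈ PY w q1 M y, 3 ≤ p := fun p hp => by
    have := hPw p hp
    omega
  obtain ⟨P, hPdef⟩ : ∃ P, P = PY w q1 M y := ⟨_, rfl⟩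
  obtain ⟨L, hL⟩ : ∃ L, L = kap w * Real.log y := ⟨_, rfl⟩
  have hL0 : 0 < L := by
    rw [hL]
    exact mul_pos (kap_pos w) hlog
  obtain ⟨as1, as2, as3, as4, as5, as6, as7⟩ := hasy
  have hS1 := one_le_S1 hP (y := y) (by omega) I
  have hS2 := one_le_S2 hP (y := y) (by omega) I
  have hGG := one_le_GG hP (R := RY q1 M y) (one_le_pow₀ hy1)
  have hLS2 : L ≤ 2 * S2 (PY w q1 M y) y I := by
    rw [← hL] at as3
    linarith
  have hLGG : L ≤ 2 * GG (PY w q1 M y) (RY q1 M y) := by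
    rw [← hL] at as6
    have h3 : (1 : ℝ) ≤ (M : ℝ) * q1 := by exact_mod_cast hMq
    have h4 : L * 1 ≤ L * ((M : ℝ) * q1) := mul_le_mul_of_nonneg_left h3 hL0.le
    linarith
  have hS2p : 1 ≤ S2 (PY w q1 M y) y I ^ (k - 1) := one_le_pow₀ hS2
  have hS2p2 : 1 ≤ S2 (PY w q1 M y) y I ^ (k - 2) := one_le_pow₀ hS2
  have hz0 : (0 : ℝ) ≤ zY M y := by
    unfold zY
    positivity
  have hR1 : (1 : ℝ) ≤ RY q1 M y := one_le_pow₀ hy1
  have hcardJ : (univ.erase i : Finset ι).card = k - 1 := by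
    rw [Finset.card_erase_of_mem (Finset.mem_univ i), Finset.card_univ, hcard]
  have hmod : ∀ p ∈ PY w q1 M y, ∀ i₁ ∈ (univ.erase i : Finset ι), ∀ i₂ ∈ (univ.erase i : Finset ι), i₁ ≠ i₂ →
      ¬ b i₁ ≡ b i₂ [MOD p] := by
    intro p hp i₁ _ i₂ _ h12 hmod
    apply h12
    apply hinj
    have h3 := hPw p hp
    exact Nat.ModEq.eq_of_lt_of_lt hmod ((hb i₁).trans h3) ((hb i₂).trans h3)
  have hzR : zY M y * RY q1 M y = (y : ℝ) ^ (M * (q1 + 1)) := by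
    unfold zY RY
    rw [← pow_add]
    congr 1
    ring
  have hzle : zY M y ≤ (y : ℝ) ^ (M * (q1 + 1)) := by
    rw [← hzR]
    exact le_mul_of_one_le_right hz0 hR1
  refine ⟨X, ?_, ?_, ?_⟩
  · refine le_trans ?_ hX
    have h3 : ((NY q1 M y : ℕ) : ℝ) = (y : ℝ) ^ (M * (4 * q1 + 6)) := by
      unfold NY
      rw [Nat.cast_pow]
    rw [h3, ← mul_assoc]
    refine mul_le_mul_of_nonneg_right ?_ ?_
    · have h4 : e * 1 ≤ e * cty q1 t := mul_le_mul_of_nonneg_left hc he.le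
      linarith
    · have h5 : 0 ≤ Real.log ((y : ℝ) ^ (M * (4 * q1 + 6))) := Real.log_nonneg (one_le_pow₀ hy1)
      positivity
  · -- the coefficients y1
    have hbd := fun β => y1_bd (PY w q1 M y) hP y I (zY M y) i β
    have hbd2 : ∀ β, |y1 (PY w q1 M y) y I (zY M y) i β| ≤
        S1 (PY w q1 M y) y I * (rr (sp (PY w q1 M y) β) / ph (sp (PY w q1 M y) β)) := by
      intro β
      rw [abs_of_nonneg (hbd β).1]
      refine (hbd β).2.1.trans ?_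
      exact le_mul_of_one_le_right (by linarith) (B29_ratio hP (sp_subset _ β))
    have m1 := hav ι (PY w q1 M y) b (univ.erase i) (nY w n0 q1 M y)
      (fun n => SY t w q1 M y (n + b i)) X (fun p => 1 / ((p : ℝ) - 1)) Er
      (y1 (PY w q1 M y) y I (zY M y) i) (S1 (PY w q1 M y) y I) (zY M y) (by linarith) hz0 hcard hP hP3 hmod
      hdist (fun β hβ => ⟨((hbd β).2.2 hβ).2, ((hbd β).2.2 hβ).1⟩) hbd2
    have m2 := hnd ι (PY w q1 M y) (univ.erase i) (fun p => 1 / ((p : ℝ) - 1))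
      (y1 (PY w q1 M y) y I (zY M y) i) (S1 (PY w q1 M y) y I) (by linarith) hP3 hcardJ hdist.h_ge hdist.h_le
      (fun β hβ => ((hbd β).2.2 hβ).2) hbd2
    have m3 := hrem X Er (zY M y) hdist.Er_nonneg hz0 hzle hErS hX
    have m4 : offE C10 (PY w q1 M y) (k - 1) ≤ e * S2 (PY w q1 M y) y I ^ (k - 1) := by
      refine hoff.trans ?_
      rw [← hL]
      calc e / 2 ^ (k - 1) * L ^ (k - 1) ≤ e / 2 ^ (k - 1) * (2 * S2 (PY w q1 M y) y I) ^ (k - 1) :=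
            mul_le_mul_of_nonneg_left (pow_le_pow_left₀ hL0.le hLS2 _) (by positivity)
        _ = e * S2 (PY w q1 M y) y I ^ (k - 1) := by
            rw [mul_pow]
            field_simp
    have hyz : (y : ℝ) ^ (2 ^ I) < zY M y := by
      unfold zY
      exact pow_lt_pow_right₀ (by linarith) hIM
    have hsum : (Fintype.card ι : ℝ) ^ 2 * ∑ p ∈ PY w q1 M y, 1 / ((p : ℝ) - 1) ^ 2 ≤ e := by
      have h3 := hw2 w (y ^ (M * q1)) hwb
      rw [hcard]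
      rw [le_div_iff₀ (by positivity)] at h3
      linarith
    have hSL : Fintype.card ι * SL (PY w q1 M y) y I ≤
        e * S2 (PY w q1 M y) y I * Real.log (zY M y / (y : ℝ) ^ (2 ^ I)) := by
      have h3 : Real.log (zY M y / (y : ℝ) ^ (2 ^ I)) = ((M : ℝ) - 2 ^ I) * Real.log y := by
        unfold zY
        rw [Real.log_div (by positivity) (by positivity), Real.log_pow, Real.log_pow]
        push_cast
        ring
      rw [h3, hcard]
      have hd : 0 ≤ (M : ℝ) - 2 ^ I := by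
        have : (2 : ℝ) ^ I < M := by exact_mod_cast hIM
        linarith
      have h4 : (k : ℝ) * SL (PY w q1 M y) y I ≤
          (k : ℝ) * ((1 + 1 / 4) * (kap w * Real.log y ^ 2 * (1 + I / 2))) :=
        mul_le_mul_of_nonneg_left as5 hk0.le
      have h5 : e * ((1 - 1 / 4) * (kap w * Real.log y)) * (((M : ℝ) - 2 ^ I) * Real.log y) ≤
          e * S2 (PY w q1 M y) y I * (((M : ℝ) - 2 ^ I) * Real.log y) :=
        mul_le_mul_of_nonneg_right (mul_le_mul_of_nonneg_left as3 he.le) (mul_nonneg hd hlog.le)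
      have h6 : 0 ≤ kap w * Real.log y ^ 2 := mul_nonneg (kap_pos w).le (sq_nonneg _)
      have h7 : (k : ℝ) * ((1 + 1 / 4) * (kap w * Real.log y ^ 2 * (1 + I / 2))) ≤
          e * ((1 - 1 / 4) * (kap w * Real.log y)) * (((M : ℝ) - 2 ^ I) * Real.log y) := by
        have h8 : (kap w * Real.log y ^ 2) * ((k : ℝ) * (I + 2)) ≤
            (kap w * Real.log y ^ 2) * (e * (M - 2 ^ I)) := mul_le_mul_of_nonneg_left hM h6
        have h9 : 0 ≤ (kap w * Real.log y ^ 2) * (e * (M - 2 ^ I)) :=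
          mul_nonneg h6 (mul_nonneg he.le hd)
        nlinarith
      linarith
    have m5 := DD_y1_ge (PY w q1 M y) hP (y := y) (by omega) I (zY M y) e he.le he8 hyz i hsum hSL
    rw [hcard] at m5
    exact B29_A1 hX0 he.le hS2p m1 m3 m2 m4 m5
  · intro j hj
    have hbd := fun β => y3_bd (PY w q1 M y) hP y I (zY M y) (RY q1 M y) hz0 hR1 i j (Ne.symm hj) β
    have hG0 : 0 < GG (PY w q1 M y) (RY q1 M y) := by linarith
    have hbd2 : ∀ β, |y3 (PY w q1 M y) y I (zY M y) (RY q1 M y) i j β| ≤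
        S1 (PY w q1 M y) y I ^ 2 / GG (PY w q1 M y) (RY q1 M y) *
          (rr (sp (PY w q1 M y) β) / ph (sp (PY w q1 M y) β)) := by
      intro β
      rw [abs_of_nonneg (hbd β).1]
      exact (hbd β).2.1
    have hY0 : 0 ≤ S1 (PY w q1 M y) y I ^ 2 / GG (PY w q1 M y) (RY q1 M y) := by positivity
    have m1 := hav ι (PY w q1 M y) b (univ.erase i) (nY w n0 q1 M y)
      (fun n => SY t w q1 M y (n + b i)) X (fun p => 1 / ((p : ℝ) - 1)) Er
      (y3 (PY w q1 M y) y I (zY M y) (RY q1 M y) i j)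
      (S1 (PY w q1 M y) y I ^ 2 / GG (PY w q1 M y) (RY q1 M y)) (zY M y * RY q1 M y) hY0
      (mul_nonneg hz0 (by linarith)) hcard hP hP3 hmod
      hdist (fun β hβ => ⟨((hbd β).2.2 hβ).2, ((hbd β).2.2 hβ).1⟩) hbd2
    have m2 := hnd ι (PY w q1 M y) (univ.erase i) (fun p => 1 / ((p : ℝ) - 1))
      (y3 (PY w q1 M y) y I (zY M y) (RY q1 M y) i j)
      (S1 (PY w q1 M y) y I ^ 2 / GG (PY w q1 M y) (RY q1 M y)) hY0 hP3 hcardJ hdist.h_ge hdist.h_le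
      (fun β hβ => ((hbd β).2.2 hβ).2) hbd2
    have m3 := hrem X Er (zY M y * RY q1 M y) hdist.Er_nonneg (mul_nonneg hz0 (by linarith)) hzR.le hErS hX
    have hk1 : k - 1 = (k - 2) + 1 := by omega
    have m4 : (S1 (PY w q1 M y) y I ^ 2 / GG (PY w q1 M y) (RY q1 M y)) ^ 2 * offE C10 (PY w q1 M y) (k - 1) ≤
        e * (S1 (PY w q1 M y) y I ^ 4 * S2 (PY w q1 M y) y I ^ (k - 2) / GG (PY w q1 M y) (RY q1 M y)) := by
      refine B29_A3 he.le (by linarith) hG0 hL0.le hLS2 hLGG ?_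
      rw [← hk1, hL]
      exact hoff
    have m5 : DD (PY w q1 M y) (y3 (PY w q1 M y) y I (zY M y) (RY q1 M y) i j) ≤
        (1 + e) * (S1 (PY w q1 M y) y I ^ 4 * S2 (PY w q1 M y) y I ^ (k - 2) / GG (PY w q1 M y) (RY q1 M y)) := by
      have h3 := DD_y3_le (PY w q1 M y) hP (y := y) (by omega) I (zY M y) (RY q1 M y) hz0 hR1 i j (Ne.symm hj)
      rw [hcard] at h3
      refine h3.trans ?_
      rw [mul_pow]
      have h4 := hw3 w (y ^ (M * q1)) hwc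
      have h5 : 0 ≤ S1 (PY w q1 M y) y I ^ 4 / GG (PY w q1 M y) (RY q1 M y) *
          S2 (PY w q1 M y) y I ^ (k - 2) := by positivity
      calc S1 (PY w q1 M y) y I ^ 4 / GG (PY w q1 M y) (RY q1 M y) *
            (S2 (PY w q1 M y) y I ^ (k - 2) * (∏ p ∈ PY w q1 M y, (1 + 3 / ((p : ℝ) - 1) ^ 2)) ^ (k - 2))
          = S1 (PY w q1 M y) y I ^ 4 / GG (PY w q1 M y) (RY q1 M y) * S2 (PY w q1 M y) y I ^ (k - 2) *
            (∏ p ∈ PY w q1 M y, (1 + 3 / ((p : ℝ) - 1) ^ 2)) ^ (k - 2) := by ring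
        _ ≤ S1 (PY w q1 M y) y I ^ 4 / GG (PY w q1 M y) (RY q1 M y) * S2 (PY w q1 M y) y I ^ (k - 2) *
            (1 + e) := mul_le_mul_of_nonneg_left h4 h5
        _ = (1 + e) * (S1 (PY w q1 M y) y I ^ 4 * S2 (PY w q1 M y) y I ^ (k - 2) /
            GG (PY w q1 M y) (RY q1 M y)) := by ring
    have m6 : (S1 (PY w q1 M y) y I ^ 2 / GG (PY w q1 M y) (RY q1 M y)) ^ 2 ≤
        S1 (PY w q1 M y) y I ^ 4 * S2 (PY w q1 M y) y I ^ (k - 2) / GG (PY w q1 M y) (RY q1 M y) := by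
      rw [div_pow, div_le_div_iff₀ (by positivity) hG0]
      have h6 : 0 ≤ S1 (PY w q1 M y) y I ^ 4 * GG (PY w q1 M y) (RY q1 M y) := by positivity
      have h7 : 1 ≤ S2 (PY w q1 M y) y I ^ (k - 2) * GG (PY w q1 M y) (RY q1 M y) :=
        one_le_mul_of_one_le_of_one_le hS2p2 hGG
      have h8 := mul_le_mul_of_nonneg_left h7 h6
      calc (S1 (PY w q1 M y) y I ^ 2) ^ 2 * GG (PY w q1 M y) (RY q1 M y)
          = S1 (PY w q1 M y) y I ^ 4 * GG (PY w q1 M y) (RY q1 M y) * 1 := by ring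
        _ ≤ _ := h8
        _ = S1 (PY w q1 M y) y I ^ 4 * S2 (PY w q1 M y) y I ^ (k - 2) * GG (PY w q1 M y) (RY q1 M y) ^ 2 := by ring
    exact B29_A2 hX0 he.le (sq_nonneg _) m1 m3 m2 m4 m5 m6

end Pool.Agent.LibSP4
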