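import Pool.Agent.LibSP4.B12
import Pool.Agent.LibSP4.B28
import Pool.Agent.LibSP4.B29

/-!
Row B30 (MEDIUM): one class. `T = ∑_{i∈c} ∑_n WW SY_i ≥ (1-6e) X' S1² S2^(k-1) =: T0`, `X' = ∑_{i∈c} X_i ≥ kc (1-e) cty N/(φ(W) log N)` (B28 `event1`, B29), and
`E2 = ∑_{i∈c} ∑_{j∈c, j≠i} ∑_n WW SY_i SY_j ≤ kc (1+3e) X' S1⁴ S2^(k-2)/GG` (`event2`, B29). B12 `second_moment` (`SY ≤ 1`: B19 `SS_bd`): `T² ≤ (∑ WW [occ]) (T + E2)`, and `T ↦ T²/(T+E2)` is increasing, so
`∑ WW [occ] ≥ T0²/(T0+E2) = (1-6e)² X' S1² S2^(k-1)/((1-6e) + (1+3e) Θ)`, `Θ = kc S1²/(S2 GG) ≥ 1/e` (B25 with a small `e`, `hΘ`), so it is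
`≥ ((1-6e)²/(1+4e)) X' S2^k GG/kc ≥ (1-16e)(1-e)(1-e) cty (N/(φ(W) log N)) kap w log y M q1 S2^k`, and `log N = M (4 q1 + 6) log y`, `φ(Wm w) = kap w * Wm w` (`Nat.totient_eq_mul_prod_factors`; the primes
dividing `Wm w` are the primes `≤ w`, `w ≥ 3`).
-/

open Finset Filter

namespace Pool.Agent.LibSP4

open Pool.Agent.LibRG87 Pool.Agent.LibBW4

theorem tot_Wm (w : ℕ) (hw : 3 ≤ w) : ((Wm w).totient : ℝ) = kap w * Wm w := by
  have h := Nat.totient_eq_mul_prod_factors (Wm w)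
  have hpf : (Wm w).primeFactors = (range (w + 1)).filter Nat.Prime := by
    ext p
    rw [Nat.mem_primeFactors, Finset.mem_filter, Finset.mem_range]
    constructor
    · rintro ⟨hp, hd, -⟩
      refine ⟨?_, hp⟩
      unfold Wm at hd
      rcases hp.dvd_mul.1 hd with hd | hd
      · have h0 : p ∣ 2 * 3 := hd
        rcases (hp.dvd_mul).1 h0 with hd | hd
        · have := Nat.le_of_dvd (by norm_num) hd
          omega
        · have := Nat.le_of_dvd (by norm_num) hd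
          omega
      · unfold primorial at hd
        obtain ⟨q, hq, hpq⟩ := (Prime.dvd_finsetProd_iff hp.prime _).1 hd
        rw [Finset.mem_filter, Finset.mem_range] at hq
        have := (Nat.prime_dvd_prime_iff_eq hp hq.2).1 hpq
        omega
    · rintro ⟨hpw, hp⟩
      refine ⟨hp, ?_, ?_⟩
      · unfold Wm primorial
        exact dvd_mul_of_dvd_right (Finset.dvd_prod_of_mem _
          (Finset.mem_filter.2 ⟨Finset.mem_range.2 hpw, hp⟩)) _
      · unfold Wm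
        have := primorial_pos w
        omega
  rw [hpf] at h
  have h2 : ((Wm w).totient : ℝ) = (((Wm w).totient : ℚ) : ℝ) := by norm_cast
  rw [h2, h]
  unfold kap
  push_cast
  rw [mul_comm]
  congr 1
  refine Finset.prod_congr rfl fun p _ => ?_
  rw [one_div]

variable [Ell]

private theorem B30_num (e : ℝ) (he : 0 < e) (he8 : e ≤ 1 / 100) :
    (1 - 30 * e) * (1 + 4 * e) ≤ (1 - 6 * e) ^ 2 * (1 - e) ^ 2 := by
  have h25 : 1 - 12 * e ≤ (1 - 6 * e) ^ 2 := by nlinarith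
  have h26 : 1 - 2 * e ≤ (1 - e) ^ 2 := by nlinarith
  have h27 : (1 - 12 * e) * (1 - 2 * e) ≤ (1 - 6 * e) ^ 2 * (1 - e) ^ 2 :=
    mul_le_mul h25 h26 (by linarith) (by positivity)
  nlinarith

private theorem B30_alg (e O T E2 X S1 S2 G kc A : ℝ) (k : ℕ) (hk : 2 ≤ k) (he : 0 < e)
    (he8 : e ≤ 1 / 100) (hO : 0 ≤ O) (hT2 : T ^ 2 ≤ O * (T + E2))
    (hT : (1 - 6 * e) * (X * (S1 ^ 2 * S2 ^ (k - 1))) ≤ T) (hE0 : 0 ≤ E2)
    (hE : E2 ≤ kc * ((1 + 3 * e) * (X * (S1 ^ 4 * S2 ^ (k - 2) / G)))) (hX : 0 ≤ X)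
    (hXG : kc * ((1 - e) ^ 2 * A) ≤ X * G) (hA : 0 ≤ A) (hS1 : 1 ≤ S1) (hS2 : 1 ≤ S2) (hG : 1 ≤ G)
    (hkc : 1 ≤ kc) (hΘ : S2 * G ≤ e * (kc * S1 ^ 2)) : (1 - 30 * e) * (A * S2 ^ k) ≤ O := by
  rcases hX.eq_or_lt with hX0 | hX0
  · rw [← hX0, zero_mul] at hXG
    have h1 : 0 < kc * (1 - e) ^ 2 := by
      have : 0 < 1 - e := by linarith
      positivity
    have h2 : A ≤ 0 := by
      by_contra hcon
      rw [not_le] at hcon
      have : 0 < kc * (1 - e) ^ 2 * A := mul_pos h1 hcon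
      nlinarith
    have h3 : A = 0 := le_antisymm h2 hA
    rw [h3]; simpa using hO
  obtain ⟨m, rfl⟩ : ∃ m, k = m + 2 := ⟨k - 2, by omega⟩
  have e1 : m + 2 - 1 = m + 1 := by omega
  have e2 : m + 2 - 2 = m := by omega
  rw [e1] at hT
  rw [e2] at hE
  have hS1' : 0 < S1 := by linarith
  have hS2' : 0 < S2 := by linarith
  have hG' : 0 < G := by linarith
  have hkc' : 0 < kc := by linarith
  have h6 : 0 < 1 - 6 * e := by linarith
  have h3 : 0 < 1 + 3 * e := by linarith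
  set U := X * (S1 ^ 2 * S2 ^ m) with hU
  have hUpos : 0 < U := by positivity
  set V := kc * S1 ^ 2 / G with hV
  have hVpos : 0 < V := by positivity
  have hSV : S2 ≤ e * V := by
    rw [hV, mul_div_assoc', le_div_iff₀ hG']; exact hΘ
  set T0 := (1 - 6 * e) * (U * S2) with hT0
  have hT0pos : 0 < T0 := by positivity
  set E0 := (1 + 3 * e) * (U * V) with hE0'
  have hE0pos : 0 < E0 := by positivity
  have hTT : T0 ≤ T := by
    refine le_trans (le_of_eq ?_) hT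
    rw [hT0, hU, pow_succ]; ring
  have hEE : E2 ≤ E0 := by
    refine hE.trans (le_of_eq ?_)
    rw [hE0', hU, hV]; field_simp
  have hTpos : 0 < T := by linarith
  have h10 : T ^ 2 / (T + E0) ≤ O := by
    rw [div_le_iff₀ (by linarith)]
    refine hT2.trans (mul_le_mul_of_nonneg_left (by linarith) hO)
  have h11 : T0 ^ 2 / (T0 + E0) ≤ T ^ 2 / (T + E0) := by
    rw [div_le_div_iff₀ (by linarith) (by linarith)]
    have h12 : 0 ≤ T0 * T * (T - T0) := mul_nonneg (by positivity) (by linarith)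
    have h13 : T0 ^ 2 * E0 ≤ T ^ 2 * E0 := mul_le_mul_of_nonneg_right
      (pow_le_pow_left₀ hT0pos.le hTT 2) hE0pos.le
    nlinarith
  have h14 : T0 + E0 ≤ (1 + 4 * e) * (U * V) := by
    have h15 : U * S2 ≤ U * (e * V) := mul_le_mul_of_nonneg_left hSV hUpos.le
    have h16 : 0 ≤ 6 * e * (U * S2) := by positivity
    rw [hT0, hE0']
    nlinarith
  have h17 : (1 - 6 * e) ^ 2 * (U * S2 ^ 2 / V) / (1 + 4 * e) ≤ T0 ^ 2 / (T0 + E0) := by
    have h18 : (1 - 6 * e) ^ 2 * (U * S2 ^ 2 / V) / (1 + 4 * e) = T0 ^ 2 / ((1 + 4 * e) * (U * V)) := by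
      rw [hT0]; field_simp
    rw [h18]
    exact div_le_div_of_nonneg_left (by positivity) (by linarith) h14
  have h19 : U * S2 ^ 2 / V = X * G / kc * S2 ^ (m + 2) := by
    rw [hU, hV, pow_add]; field_simp
  have h20 : (1 - e) ^ 2 * A ≤ X * G / kc := by
    rw [le_div_iff₀ hkc']; linarith
  have h21 : (1 - e) ^ 2 * A * S2 ^ (m + 2) ≤ U * S2 ^ 2 / V := by
    rw [h19]; exact mul_le_mul_of_nonneg_right h20 (by positivity)
  have hAS : 0 ≤ A * S2 ^ (m + 2) := by positivity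
  have h22 : (1 - 30 * e) * (A * S2 ^ (m + 2)) ≤
      (1 - 6 * e) ^ 2 * (U * S2 ^ 2 / V) / (1 + 4 * e) := by
    rw [le_div_iff₀ (by linarith)]
    have h23 : (1 - 6 * e) ^ 2 * ((1 - e) ^ 2 * A * S2 ^ (m + 2)) ≤
        (1 - 6 * e) ^ 2 * (U * S2 ^ 2 / V) := mul_le_mul_of_nonneg_left h21 (by positivity)
    refine le_trans ?_ h23
    have h28 := mul_le_mul_of_nonneg_right (B30_num e he he8) hAS
    refine le_trans (le_of_eq ?_) (h28.trans (le_of_eq ?_)) <;> ring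
  linarith

private theorem B30_id (kc e ct N kp W M q ly : ℝ) (hkp : 0 < kp) (hW : 0 < W) (hM : 0 < M)
    (hq : 0 < q) (hly : 0 < ly) :
    kc * ((1 - e) ^ 2 * (ct * (q / (4 * q + 6)) * (N / W))) =
      kc * ((1 - e) * (ct * (N / (kp * W * (M * (4 * q + 6) * ly))))) *
        ((1 - e) * (kp * ly * (M * q))) := by
  have h1 : 0 < 4 * q + 6 := by linarith
  field_simp

open scoped Classical in
theorem class_ge (h1 : BVprimes) (h2 : BVe2) (t : Bool) (q1 I M k kc : ℕ) (hq1 : 1 ≤ q1) (hIM : 2 ^ I < M) (hk : 2 ≤ k) (hkc : 1 ≤ kc)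
    (e : ℝ) (he : 0 < e) (he8 : e ≤ 1 / 100) (hM : (k : ℝ) * (I + 2) ≤ e * (M - 2 ^ I))
    (hΘ : (M : ℝ) * q1 * 2 ≤ e * (kc * (1 + I / 2) ^ 2)) (hc : 1 ≤ cty q1 t) :
    ∃ w0 : ℕ, ∀ w ≥ w0, ∀ᶠ y : ℕ in atTop,
    ∀ (ι : Type) [Fintype ι] [DecidableEq ι] (b : ι → ℕ) (n0 : ℕ) (c : Finset ι), Fintype.card ι = k → c.card = kc →
    (∀ j, b j < w) → Function.Injective b → (∀ i ∈ c, good t w n0 (b i)) →
    (1 - 30 * e) * (cty q1 t * (q1 / (4 * q1 + 6)) * ((NY q1 M y : ℝ) / (Wm w : ℝ) * S2 (PY w q1 M y) y I ^ k)) ≤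
      ∑ n ∈ (nY w n0 q1 M y).filter (fun n => ∃ i ∈ c, occ t (y ^ M) (n + b i)), WW w q1 M I y b n := by
  obtain ⟨w1, hw1⟩ := moments h1 h2 t q1 I M k hq1 hIM hk e he (by linarith) hM hc
  have hM1 : 1 ≤ M := by have := Nat.one_le_two_pow (n := I); omega
  refine ⟨max w1 3, fun w hw => ?_⟩
  have hww1 : w1 ≤ w := le_trans (le_max_left _ _) hw
  have hw3 : 3 ≤ w := le_trans (le_max_right _ _) hw
  filter_upwards [hw1 w hww1, asym q1 I M w hq1 hIM e he, eventually_ge_atTop (max w 2)] with y hmom has hyw'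
  intro ι _ hdec b n0 c hcard hccard hb hinj hgood
  obtain rfl : hdec = (fun a b => Classical.propDecidable (a = b)) := Subsingleton.elim _ _
  have hyw : w ≤ y := le_trans (le_max_left _ _) hyw'
  have hy2 : 2 ≤ y := le_trans (le_max_right _ _) hyw'
  have hy1 : 1 ≤ y := by omega
  have hyr : (1 : ℝ) ≤ y := by exact_mod_cast hy1
  have hPp : ∀ p ∈ PY w q1 M y, p.Prime := by
    intro p hp
    unfold PY PP at hp
    exact (Finset.mem_filter.1 hp).2
  have hWpos : 0 < Wm w := by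
    unfold Wm
    have := primorial_pos w
    omega
  have hWr : (0 : ℝ) < (Wm w : ℝ) := by exact_mod_cast hWpos
  have hlog : 0 < Real.log y := Real.log_pos (by exact_mod_cast (show 1 < y by omega))
  have hkap := kap_pos w
  choose! X hX1 hX2 hX3 using fun (i : ι) (hi : i ∈ c) => hmom ι b i n0 hcard hb hinj (hgood i hi)
  obtain ⟨a1, -, -, a4, -, a6, a7⟩ := has
  have hS1 : 1 ≤ S1 (PY w q1 M y) y I := one_le_S1 hPp hy1 I
  have hS2 : 1 ≤ S2 (PY w q1 M y) y I := one_le_S2 hPp hy1 I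
  have hG : 1 ≤ GG (PY w q1 M y) (RY q1 M y) := one_le_GG hPp (by
    unfold RY; exact one_le_pow₀ hyr)
  set s1 := S1 (PY w q1 M y) y I with hs1
  set s2 := S2 (PY w q1 M y) y I with hs2
  set G := GG (PY w q1 M y) (RY q1 M y) with hGd
  set L := kap w * Real.log y with hL
  have hLpos : 0 < L := mul_pos hkap hlog
  have hWW : ∀ n, 0 ≤ WW w q1 M I y b n := fun n => by unfold WW; positivity
  have hSY0 : ∀ m, 0 ≤ SY t w q1 M y m := fun m => SY_nonneg t w q1 M y m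
  -- the bound `SY ≤ 1`
  have hSY1 : ∀ i, ∀ n ∈ nY w n0 q1 M y, SY t w q1 M y (n + b i) ≤ 1 := by
    intro i n hn
    have hn1 : NY q1 M y < n := by
      unfold nY ns at hn
      exact (Finset.mem_Ioc.1 (Finset.mem_filter.1 hn).1).1
    have hZZ : y ^ (M * q1) * y ^ (M * q1) ≤ NY q1 M y := by
      unfold NY
      rw [← pow_add]
      apply Nat.pow_le_pow_right hy1
      nlinarith
    have hZ3 : 3 * y ^ (M * q1) ≤ NY q1 M y := by
      unfold NY
      have h3 : 3 ≤ y ^ 2 := by nlinarith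
      calc 3 * y ^ (M * q1) ≤ y ^ 2 * y ^ (M * q1) := Nat.mul_le_mul_right _ h3
        _ = y ^ (2 + M * q1) := by rw [pow_add]
        _ ≤ y ^ (M * (4 * q1 + 6)) := Nat.pow_le_pow_right hy1 (by nlinarith)
    exact (SS_bd t hw3 (R := RY q1 M y) (Z := y ^ (M * q1)) (by unfold RY; exact one_le_pow₀ hyr)
      (y ^ M) (n + b i) (hyw.trans (by
        calc y = y ^ 1 := (pow_one y).symm
          _ ≤ y ^ M := Nat.pow_le_pow_right hy1 hM1)) (by omega) (by omega)).2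
  have hCS := second_moment c (nY w n0 q1 M y) (fun n => WW w q1 M I y b n) (fun n _ => hWW n)
    (fun i n => SY t w q1 M y (n + b i)) (fun i _ n _ => hSY0 _) (fun i _ n hn => hSY1 i n hn)
  set O := ∑ n ∈ (nY w n0 q1 M y).filter (fun n => ∃ i ∈ c, occ t (y ^ M) (n + b i)),
    WW w q1 M I y b n with hO
  have hO0 : 0 ≤ O := Finset.sum_nonneg fun n _ => hWW n
  have hOO : ∑ n ∈ (nY w n0 q1 M y).filter (fun n => ∃ i ∈ c, SY t w q1 M y (n + b i) ≠ 0),
      WW w q1 M I y b n ≤ O := by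
    refine Finset.sum_le_sum_of_subset_of_nonneg ?_ (fun n _ _ => hWW n)
    intro n hn
    rw [Finset.mem_filter] at hn ⊢
    obtain ⟨h3, i, hi, h4⟩ := hn
    exact ⟨h3, i, hi, SY_ne t w q1 M y _ h4⟩
  set T := ∑ i ∈ c, ∑ n ∈ nY w n0 q1 M y, WW w q1 M I y b n * SY t w q1 M y (n + b i) with hT
  set E2 := ∑ i ∈ c, ∑ j ∈ c.erase i, ∑ n ∈ nY w n0 q1 M y,
    WW w q1 M I y b n * (SY t w q1 M y (n + b i) * SY t w q1 M y (n + b j)) with hE2
  have hT0 : 0 ≤ T := Finset.sum_nonneg fun i _ => Finset.sum_nonneg fun n _ =>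
    mul_nonneg (hWW n) (hSY0 _)
  have hE20 : 0 ≤ E2 := Finset.sum_nonneg fun i _ => Finset.sum_nonneg fun j _ =>
    Finset.sum_nonneg fun n _ => mul_nonneg (hWW n) (mul_nonneg (hSY0 _) (hSY0 _))
  have hT2 : T ^ 2 ≤ O * (T + E2) := hCS.trans (mul_le_mul_of_nonneg_right hOO (by linarith))
  have hXpos : ∀ i ∈ c, 0 ≤ X i := by
    intro i hi
    refine le_trans ?_ (hX1 i hi)
    have : 0 ≤ Real.log (NY q1 M y : ℝ) := Real.log_nonneg (by
      have : 1 ≤ NY q1 M y := by unfold NY; exact Nat.one_le_pow _ _ hy1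
      exact_mod_cast this)
    have h3 : 0 ≤ 1 - e := by linarith
    have h4 : 0 ≤ cty q1 t := by linarith
    positivity
  set X' := ∑ i ∈ c, X i with hX'
  have hX'0 : 0 ≤ X' := Finset.sum_nonneg hXpos
  have hTge : (1 - 6 * e) * (X' * (s1 ^ 2 * s2 ^ (k - 1))) ≤ T := by
    rw [hX', Finset.sum_mul, Finset.mul_sum, hT]
    refine Finset.sum_le_sum fun i hi => ?_
    refine (hX2 i hi).trans (le_of_eq ?_)
    refine Finset.sum_congr rfl fun n hn => ?_
    exact (event1 t w q1 M I y n0 hw3 hy2 hq1 hM1 b i n hn).symm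
  have hEle : E2 ≤ (kc : ℝ) * ((1 + 3 * e) * (X' * (s1 ^ 4 * s2 ^ (k - 2) / G))) := by
    have h3 : E2 ≤ ∑ i ∈ c, (kc : ℝ) * ((1 + 3 * e) * (X i * (s1 ^ 4 * s2 ^ (k - 2) / G))) := by
      refine Finset.sum_le_sum fun i hi => ?_
      have h4 : ∀ j ∈ c.erase i, ∑ n ∈ nY w n0 q1 M y,
          WW w q1 M I y b n * (SY t w q1 M y (n + b i) * SY t w q1 M y (n + b j)) ≤
          (1 + 3 * e) * (X i * (s1 ^ 4 * s2 ^ (k - 2) / G)) := by
        intro j hj
        have hji : j ≠ i := (Finset.mem_erase.1 hj).1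
        refine le_trans (Finset.sum_le_sum fun n hn =>
          event2 t t w q1 M I y n0 hw3 hy2 hq1 hM1 b i j hji.symm n hn) ?_
        exact hX3 i hi j hji
      have h5 : 0 ≤ (1 + 3 * e) * (X i * (s1 ^ 4 * s2 ^ (k - 2) / G)) := by
        have := hXpos i hi
        positivity
      calc ∑ j ∈ c.erase i, ∑ n ∈ nY w n0 q1 M y,
            WW w q1 M I y b n * (SY t w q1 M y (n + b i) * SY t w q1 M y (n + b j))
          ≤ (c.erase i).card • ((1 + 3 * e) * (X i * (s1 ^ 4 * s2 ^ (k - 2) / G))) :=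
            Finset.sum_le_card_nsmul _ _ _ h4
        _ ≤ (kc : ℝ) * ((1 + 3 * e) * (X i * (s1 ^ 4 * s2 ^ (k - 2) / G))) := by
            rw [nsmul_eq_mul]
            refine mul_le_mul_of_nonneg_right ?_ h5
            have : (c.erase i).card ≤ kc := by
              rw [← hccard]; exact Finset.card_le_card (Finset.erase_subset _ _)
            exact_mod_cast this
    refine h3.trans (le_of_eq ?_)
    rw [hX', Finset.sum_mul, Finset.mul_sum, Finset.mul_sum]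
  set A := cty q1 t * (q1 / (4 * q1 + 6)) * ((NY q1 M y : ℝ) / (Wm w : ℝ)) with hA
  have hA0 : 0 ≤ A := by
    have h4 : 0 ≤ cty q1 t := by linarith
    positivity
  have hq1r : (1 : ℝ) ≤ q1 := by exact_mod_cast hq1
  have hM1r : (1 : ℝ) ≤ M := by exact_mod_cast hM1
  have hlogN : Real.log (NY q1 M y : ℝ) = M * (4 * q1 + 6) * Real.log y := by
    unfold NY
    push_cast
    rw [Real.log_pow]
    push_cast
    ring
  have hXG : (kc : ℝ) * ((1 - e) ^ 2 * A) ≤ X' * G := by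
    have h3 : (kc : ℝ) * ((1 - e) * (cty q1 t * ((NY q1 M y : ℝ) /
        ((Wm w).totient * Real.log (NY q1 M y))))) ≤ X' := by
      rw [hX', ← hccard, ← nsmul_eq_mul]
      exact Finset.card_nsmul_le_sum _ _ _ hX1
    have h4 : 0 ≤ (1 - e) * (L * (M * q1)) := by
      have : 0 ≤ 1 - e := by linarith
      positivity
    have h5 := mul_le_mul h3 a6 h4 hX'0
    refine le_trans (le_of_eq ?_) h5
    rw [hlogN, tot_Wm w hw3, hA, hL]
    exact B30_id kc e (cty q1 t) (NY q1 M y : ℝ) (kap w) (Wm w : ℝ) M q1 (Real.log y) hkap hWr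
      (by linarith) (by linarith) hlog
  have hΘ' : s2 * G ≤ e * (kc * s1 ^ 2) := by
    have h3 : s2 * G ≤ ((1 + e) * (3 / 2 * L)) * ((1 + e) * (L * (M * q1))) :=
      mul_le_mul a4 a7 (by linarith) (by positivity)
    have h4 : ((1 - e) * (L * (1 + I / 2))) ^ 2 ≤ s1 ^ 2 := by
      apply pow_le_pow_left₀ _ a1
      have : 0 ≤ 1 - e := by linarith
      positivity
    have h5 : e * (kc * ((1 - e) * (L * (1 + I / 2))) ^ 2) ≤ e * (kc * s1 ^ 2) := by
      have : (kc : ℝ) * ((1 - e) * (L * (1 + I / 2))) ^ 2 ≤ kc * s1 ^ 2 :=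
        mul_le_mul_of_nonneg_left h4 (by positivity)
      exact mul_le_mul_of_nonneg_left this he.le
    have h6 : (1 - e) ^ 2 * L ^ 2 * ((M : ℝ) * q1 * 2) ≤
        (1 - e) ^ 2 * L ^ 2 * (e * (kc * (1 + I / 2) ^ 2)) :=
      mul_le_mul_of_nonneg_left hΘ (by positivity)
    have h7 : (1 + e) ^ 2 * (3 / 2) ≤ (1 - e) ^ 2 * 2 := by nlinarith
    have h8 : (1 + e) ^ 2 * (3 / 2) * (L ^ 2 * (M * q1)) ≤ (1 - e) ^ 2 * 2 * (L ^ 2 * (M * q1)) :=
      mul_le_mul_of_nonneg_right h7 (by positivity)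
    nlinarith
  have := B30_alg e O T E2 X' s1 s2 G kc A k hk he he8 hO0 hT2 hTge hE20 hEle hX'0 hXG hA0 hS1 hS2 hG
    (by exact_mod_cast hkc) hΘ'
  refine le_trans (le_of_eq ?_) this
  rw [hA]; ring

end Pool.Agent.LibSP4
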