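import Pool.Agent.LibSP4.B24
import Pool.Agent.LibSP4.B27
import Pool.Agent.LibSP4.B30
import Pool.Agent.LibSP4.B31

/-!
Row B32 (MEDIUM): the sieve theorem. `q1 = 40`, `e = 1/1000`, `I`, `M` from B31, `k = 2^I`, `ι = Fin 3 × Fin k` (card `3 k`), classes `c_a = {x | x.1 = a}`. If at no `n ∈ nY` two classes occur, then the sum over the classes of
`∑ WW [class occurs]` is at most `∑ WW ≤ (1+e) (N/W) S2^(3k)` (B27); by B30 it is at least `(1-30e) (1.71 + 1.71 + 1) (40/166) (N/W) S2^(3k)` (B24; `cty 40 true = cc 40 ≥ 1.71`, `cty 40 false = 1`; if `t 2 = true` even more),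
and `0.97 * 4.42 * 40/166 = 1.033 > 1.001`, contradiction (`N/W * S2^(3k) > 0`). `n > N ≥ y`; `occ t (y^M) m → occ t y m` (`y ≤ y^M`, `M ≥ 1`).
-/

open Finset Filter

namespace Pool.Agent.LibSP4

open Pool.Agent.LibRG87 Pool.Agent.LibBW4

variable [Ell]

private theorem B32_occ_mono (t : Bool) (z z' m : ℕ) (h : z ≤ z') (ho : occ t z' m) : occ t z m := by
  unfold occ at ho ⊢
  split_ifs with ht
  · rw [if_pos ht] at ho
    obtain ⟨p, q, hp, hq, h1, h2, h3⟩ := ho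
    exact ⟨p, q, hp, hq, lt_of_le_of_lt h h1, h2, h3⟩
  · rw [if_neg ht] at ho
    exact ho

private theorem B32_cty (t : Bool) : 1 ≤ cty 40 t := by
  unfold cty
  split_ifs
  · have := cc_num; linarith
  · exact le_refl _

theorem sieve_main (h1 : BVprimes) (h2 : BVe2) (t : Fin 3 → Bool) (ht0 : t 0 = true) (ht1 : t 1 = true) : ∃ k : ℕ, 1 ≤ k ∧
    ∀ b : Fin 3 × Fin k → ℕ, Function.Injective b → ∃ w0 : ℕ, ∀ w ≥ w0, ∀ n0 : ℕ, (∀ x, good (t x.1) w n0 (b x)) →
    ∀ᶠ y : ℕ in atTop, ∃ n > y, ∃ x x' : Fin 3 × Fin k, x.1 ≠ x'.1 ∧ occ (t x.1) y (n + b x) ∧ occ (t x'.1) y (n + b x') := by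
  classical
  obtain ⟨I, M, hIM, hM, hΘ⟩ := params 40 (1 / 1000) (by norm_num)
  have hk1 : 1 ≤ 2 ^ I := Nat.one_le_two_pow
  have hM1 : 1 ≤ M := by omega
  refine ⟨2 ^ I, hk1, fun b hinj => ?_⟩
  have hcl : ∀ a : Fin 3, ∃ w0 : ℕ, ∀ w ≥ w0, ∀ᶠ y : ℕ in atTop,
      ∀ (ι : Type) [Fintype ι] [DecidableEq ι] (b : ι → ℕ) (n0 : ℕ) (c : Finset ι),
      Fintype.card ι = 3 * 2 ^ I → c.card = 2 ^ I →
      (∀ j, b j < w) → Function.Injective b → (∀ i ∈ c, good (t a) w n0 (b i)) →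
      (1 - 30 * (1 / 1000 : ℝ)) * (cty 40 (t a) * ((40 : ℕ) / (4 * (40 : ℕ) + 6)) *
        ((NY 40 M y : ℝ) / (Wm w : ℝ) * S2 (PY w 40 M y) y I ^ (3 * 2 ^ I))) ≤
        ∑ n ∈ (nY w n0 40 M y).filter (fun n => ∃ i ∈ c, occ (t a) (y ^ M) (n + b i)),
          WW w 40 M I y b n := fun a =>
    class_ge h1 h2 (t a) 40 I M (3 * 2 ^ I) (2 ^ I) (by norm_num) hIM (by omega) hk1 (1 / 1000)
      (by norm_num) (by norm_num) hM hΘ (B32_cty _)
  choose wa hwa using hcl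
  obtain ⟨w2, hw2⟩ := mass_le (3 * 2 ^ I) I M 40 (by norm_num) hIM (1 / 1000) (by norm_num)
  -- all positions are below a bound
  obtain ⟨B, hB⟩ : ∃ B : ℕ, ∀ x, b x < B := ⟨∑ x, b x + 1, fun x => Nat.lt_succ_of_le
    (Finset.single_le_sum (fun _ _ => Nat.zero_le _) (Finset.mem_univ x))⟩
  refine ⟨max (max (wa 0) (max (wa 1) (wa 2))) (max w2 B), fun w hw n0 hgood => ?_⟩
  have g0 : wa 0 ≤ w := le_trans (le_trans (le_max_left _ _) (le_max_left _ _)) hw
  have g1 : wa 1 ≤ w := le_trans (le_trans (le_trans (le_max_left _ _) (le_max_right _ _))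
    (le_max_left _ _)) hw
  have g2 : wa 2 ≤ w := le_trans (le_trans (le_trans (le_max_right _ _) (le_max_right _ _))
    (le_max_left _ _)) hw
  have g3 : w2 ≤ w := le_trans (le_trans (le_max_left _ _) (le_max_right _ _)) hw
  have g4 : B ≤ w := le_trans (le_trans (le_max_right _ _) (le_max_right _ _)) hw
  filter_upwards [hwa 0 w g0, hwa 1 w g1, hwa 2 w g2, hw2 w g3, eventually_ge_atTop 2] with y e0 e1 e2 e3 hy2
  by_contra hcon
  push Not at hcon
  have hy1 : 1 ≤ y := by omega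
  have hcard : Fintype.card (Fin 3 × Fin (2 ^ I)) = 3 * 2 ^ I := by
    rw [Fintype.card_prod, Fintype.card_fin, Fintype.card_fin]
  let c : Fin 3 → Finset (Fin 3 × Fin (2 ^ I)) := fun a => Finset.univ.filter fun x => x.1 = a
  have hc : ∀ a, (c a).card = 2 ^ I := by
    intro a
    have : c a = ({a} : Finset (Fin 3)) ×ˢ (Finset.univ : Finset (Fin (2 ^ I))) := by
      ext x
      change x ∈ Finset.univ.filter (fun x : Fin 3 × Fin (2 ^ I) => x.1 = a) ↔ _
      rw [Finset.mem_filter, Finset.mem_product, Finset.mem_singleton]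
      exact ⟨fun h => ⟨h.2, Finset.mem_univ _⟩, fun h => ⟨Finset.mem_univ _, h.1⟩⟩
    rw [this, Finset.card_product, Finset.card_singleton, Finset.card_univ, Fintype.card_fin, one_mul]
  have hbw : ∀ j, b j < w := fun j => lt_of_lt_of_le (hB j) g4
  have hg : ∀ a, ∀ i ∈ c a, good (t a) w n0 (b i) := by
    intro a i hi
    have : i.1 = a := (Finset.mem_filter.1 hi).2
    rw [← this]
    exact hgood i
  have f0 := e0 _ b n0 (c 0) hcard (hc 0) hbw hinj (hg 0)
  have f1 := e1 _ b n0 (c 1) hcard (hc 1) hbw hinj (hg 1)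
  have f2 := e2 _ b n0 (c 2) hcard (hc 2) hbw hinj (hg 2)
  have f3 := e3 _ b n0 hcard hbw hinj
  have hWW : ∀ n, 0 ≤ WW w 40 M I y b n := fun n => by unfold WW; positivity
  let F : Fin 3 → Finset ℕ := fun a =>
    (nY w n0 40 M y).filter (fun n => ∃ i ∈ c a, occ (t a) (y ^ M) (n + b i))
  have hdisj : ∀ a a' : Fin 3, a ≠ a' → Disjoint (F a) (F a') := by
    intro a a' haa
    rw [Finset.disjoint_left]
    intro n hn hn'
    obtain ⟨hn1, i, hi, ho⟩ := Finset.mem_filter.1 hn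
    obtain ⟨-, i', hi', ho'⟩ := Finset.mem_filter.1 hn'
    have hi1 : i.1 = a := (Finset.mem_filter.1 hi).2
    have hi1' : i'.1 = a' := (Finset.mem_filter.1 hi').2
    have hyM : y ≤ y ^ M := by
      calc y = y ^ 1 := (pow_one y).symm
        _ ≤ y ^ M := Nat.pow_le_pow_right hy1 hM1
    have hny : n > y := by
      have h3 : NY 40 M y < n := by
        unfold nY ns at hn1
        exact (Finset.mem_Ioc.1 (Finset.mem_filter.1 hn1).1).1
      have h4 : y ≤ NY 40 M y := by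
        unfold NY
        calc y = y ^ 1 := (pow_one y).symm
          _ ≤ y ^ (M * (4 * 40 + 6)) := Nat.pow_le_pow_right hy1 (by omega)
      omega
    refine hcon n hny i i' ?_ ?_ ?_
    · rw [hi1, hi1']; exact haa
    · rw [hi1]; exact B32_occ_mono _ _ _ _ hyM ho
    · rw [hi1']; exact B32_occ_mono _ _ _ _ hyM ho'
  have hsum : ∑ n ∈ F 0, WW w 40 M I y b n + ∑ n ∈ F 1, WW w 40 M I y b n +
      ∑ n ∈ F 2, WW w 40 M I y b n ≤ ∑ n ∈ nY w n0 40 M y, WW w 40 M I y b n := by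
    rw [← Finset.sum_union (hdisj 0 1 (by decide)), ← Finset.sum_union]
    · refine Finset.sum_le_sum_of_subset_of_nonneg ?_ (fun n _ _ => hWW n)
      intro n hn
      rw [Finset.mem_union, Finset.mem_union] at hn
      rcases hn with (hn | hn) | hn <;> exact (Finset.mem_filter.1 hn).1
    · rw [Finset.disjoint_union_left]
      exact ⟨hdisj 0 2 (by decide), hdisj 1 2 (by decide)⟩
  have hPp : ∀ p ∈ PY w 40 M y, p.Prime := by
    intro p hp
    unfold PY PP at hp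
    exact (Finset.mem_filter.1 hp).2
  have hS2 : 1 ≤ S2 (PY w 40 M y) y I := one_le_S2 hPp hy1 I
  have hWpos : 0 < Wm w := by
    unfold Wm
    have := primorial_pos w
    omega
  have hN : 0 < NY 40 M y := by unfold NY; exact pow_pos (by omega) _
  have hXpos : 0 < (NY 40 M y : ℝ) / (Wm w : ℝ) * S2 (PY w 40 M y) y I ^ (3 * 2 ^ I) := by
    have hWr : (0 : ℝ) < (Wm w : ℝ) := by exact_mod_cast hWpos
    have hNr : (0 : ℝ) < (NY 40 M y : ℝ) := by exact_mod_cast hN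
    positivity
  set X := (NY 40 M y : ℝ) / (Wm w : ℝ) * S2 (PY w 40 M y) y I ^ (3 * 2 ^ I) with hX
  have hc0 : (171 / 100 : ℝ) ≤ cty 40 (t 0) := by
    rw [ht0]; unfold cty; rw [if_pos rfl]; exact cc_num
  have hc1 : (171 / 100 : ℝ) ≤ cty 40 (t 1) := by
    rw [ht1]; unfold cty; rw [if_pos rfl]; exact cc_num
  have hc2 := B32_cty (t 2)
  have k0 : (171 / 100 : ℝ) * X ≤ cty 40 (t 0) * X := mul_le_mul_of_nonneg_right hc0 hXpos.le
  have k1 : (171 / 100 : ℝ) * X ≤ cty 40 (t 1) * X := mul_le_mul_of_nonneg_right hc1 hXpos.le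
  have k2 : (1 : ℝ) * X ≤ cty 40 (t 2) * X := mul_le_mul_of_nonneg_right hc2 hXpos.le
  have f0' : (1 - 30 * (1 / 1000 : ℝ)) * (40 / 166) * (cty 40 (t 0) * X) ≤
      ∑ n ∈ F 0, WW w 40 M I y b n := by
    refine le_trans (le_of_eq ?_) f0
    push_cast; ring
  have f1' : (1 - 30 * (1 / 1000 : ℝ)) * (40 / 166) * (cty 40 (t 1) * X) ≤
      ∑ n ∈ F 1, WW w 40 M I y b n := by
    refine le_trans (le_of_eq ?_) f1
    push_cast; ring
  have f2' : (1 - 30 * (1 / 1000 : ℝ)) * (40 / 166) * (cty 40 (t 2) * X) ≤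
      ∑ n ∈ F 2, WW w 40 M I y b n := by
    refine le_trans (le_of_eq ?_) f2
    push_cast; ring
  linarith

end Pool.Agent.LibSP4
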