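import Mathlib

/-!
Row C1 (SHORT/MEDIUM): selection. By the pigeonhole principle each `H i` has `3 k` elements in one class `r i` modulo `Q` (`Finset.exists_lt_card_fiber_of_mul_lt_card_of_maps_to` or
`exists_le_card_fiber_of_mul_le_card_of_maps_to`); choose `k` of them from `H 0`, then `k` from `H 1` avoiding the first `k`, then `k` from `H 2` avoiding the first `2 k`, and number them (`Finset.equivFin`, `orderEmbOfFin`).
-/

open Finset

namespace Pool.Agent.LibSP4

theorem select (k Q : ℕ) (hQ : 0 < Q) (H : Fin 3 → Finset ℕ) (hH : ∀ i, 3 * k * Q ≤ (H i).card) :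
    ∃ (b : Fin 3 × Fin k → ℕ) (r : Fin 3 → ℕ), Function.Injective b ∧ (∀ x, b x ∈ H x.1) ∧ ∀ x, b x % Q = r x.1 := by
  have h1 : ∀ i, ∃ r : ℕ, 3 * k ≤ ((H i).filter fun n => n % Q = r).card := by
    intro i
    obtain ⟨r, _, hr⟩ := Finset.exists_le_card_fiber_of_mul_le_card_of_maps_to (s := H i) (t := range Q)
      (f := fun n => n % Q) (n := 3 * k) (fun n _ => mem_range.mpr (Nat.mod_lt n hQ))
      ⟨0, mem_range.mpr hQ⟩ (by
        rw [card_range, mul_comm]
        exact hH i)
    exact ⟨r, hr⟩
  choose r hr using h1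
  obtain ⟨A0, hA0, hc0⟩ := Finset.exists_subset_card_eq
    (s := (H 0).filter fun n => n % Q = r 0) (n := k) (by linarith [hr 0])
  obtain ⟨A1, hA1, hc1⟩ := Finset.exists_subset_card_eq
    (s := ((H 1).filter fun n => n % Q = r 1) \ A0) (n := k) (by
      have h := Finset.le_card_sdiff A0 ((H 1).filter fun n => n % Q = r 1)
      have h' := hr 1
      omega)
  obtain ⟨A2, hA2, hc2⟩ := Finset.exists_subset_card_eq
    (s := ((H 2).filter fun n => n % Q = r 2) \ (A0 ∪ A1)) (n := k) (by
      have h := Finset.le_card_sdiff (A0 ∪ A1) ((H 2).filter fun n => n % Q = r 2)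
      have h' := hr 2
      have h'' := Finset.card_union_le A0 A1
      omega)
  let A : Fin 3 → Finset ℕ := ![A0, A1, A2]
  have hAc : ∀ i, (A i).card = k := by
    intro i
    fin_cases i
    · exact hc0
    · exact hc1
    · exact hc2
  have hAH : ∀ i, ∀ n ∈ A i, n ∈ H i ∧ n % Q = r i := by
    intro i n hn
    fin_cases i
    · exact mem_filter.mp (hA0 hn)
    · exact mem_filter.mp (mem_sdiff.mp (hA1 hn)).1
    · exact mem_filter.mp (mem_sdiff.mp (hA2 hn)).1
  have h01 : Disjoint A0 A1 := by
    rw [Finset.disjoint_left]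
    intro n hn hn'
    exact (mem_sdiff.mp (hA1 hn')).2 hn
  have h02 : Disjoint A0 A2 := by
    rw [Finset.disjoint_left]
    intro n hn hn'
    exact (mem_sdiff.mp (hA2 hn')).2 (mem_union_left _ hn)
  have h12 : Disjoint A1 A2 := by
    rw [Finset.disjoint_left]
    intro n hn hn'
    exact (mem_sdiff.mp (hA2 hn')).2 (mem_union_right _ hn)
  have hdis : ∀ i j, i ≠ j → Disjoint (A i) (A j) := by
    intro i j hij
    fin_cases i <;> fin_cases j
    · exact absurd rfl hij
    · exact h01
    · exact h02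
    · exact h01.symm
    · exact absurd rfl hij
    · exact h12
    · exact h02.symm
    · exact h12.symm
    · exact absurd rfl hij
  refine ⟨fun x => (((A x.1).equivFinOfCardEq (hAc x.1)).symm x.2 : ℕ), r, ?_, ?_, ?_⟩
  · rintro ⟨i, m⟩ ⟨j, l⟩ h
    have h' : (((A i).equivFinOfCardEq (hAc i)).symm m : ℕ) = (((A j).equivFinOfCardEq (hAc j)).symm l : ℕ) := h
    by_cases hij : i = j
    · subst hij
      have h2 := ((A i).equivFinOfCardEq (hAc i)).symm.injective (Subtype.ext h')
      rw [h2]
    · exfalso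
      have h2 := Finset.disjoint_left.mp (hdis i j hij) (((A i).equivFinOfCardEq (hAc i)).symm m).2
      apply h2
      rw [h']
      exact (((A j).equivFinOfCardEq (hAc j)).symm l).2
  · intro x
    exact (hAH x.1 _ (((A x.1).equivFinOfCardEq (hAc x.1)).symm x.2).2).1
  · intro x
    exact (hAH x.1 _ (((A x.1).equivFinOfCardEq (hAc x.1)).symm x.2).2).2

end Pool.Agent.LibSP4
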