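import Pool.Agent.LibSP4.Defs2

/-!
Row C2: the class `n0` (Chinese remainder theorem over the primes `p ≤ w`). Conditions: `n0 ≡ m [MOD 4]`, `n0 ≡ m [MOD 9]`,
and for every prime `5 ≤ p ≤ w` a class `a_p` with `p ∤ a_p + b x` for all `x`: if `p ≤ 3 k`, then `b x mod p` takes at most the `3 < p` values `r i mod p` (`p ∣ Q`); if `p > 3 k`, at most `3 k < p` values.
-/

open Finset

namespace Pool.Agent.LibSP4

variable [Ell]

private theorem C2_avoid (m p : ℕ) (hp : m < p) (f : Fin m → ℕ) : ∃ a, ∀ i, ¬ p ∣ a + f i := by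
  by_contra h
  push Not at h
  choose g hg using h
  have h1 : Set.InjOn g (Finset.range p : Set ℕ) := by
    intro a ha c hc hac
    have h2 := hg a
    have h3 := hg c
    rw [← hac] at h3
    have h4 : a ≡ c [MOD p] := by
      have h5 : a + f (g a) ≡ c + f (g a) [MOD p] :=
        ((Nat.modEq_zero_iff_dvd.2 h2).trans (Nat.modEq_zero_iff_dvd.2 h3).symm)
      exact Nat.ModEq.add_right_cancel' _ h5
    exact Nat.ModEq.eq_of_lt_of_lt h4 (by simpa using ha) (by simpa using hc)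
  have h2 := Finset.card_le_card_of_injOn g (s := Finset.range p) (t := Finset.univ)
    (fun _ _ => Finset.mem_coe.2 (Finset.mem_univ _)) h1
  rw [Finset.card_range, Finset.card_univ, Fintype.card_fin] at h2
  omega

private theorem C2_class (k : ℕ) (b : Fin 3 × Fin k → ℕ) (r : Fin 3 → ℕ)
    (hr : ∀ x, b x % (36 * ∏ p ∈ (Icc 5 (3 * k)).filter Nat.Prime, p) = r x.1) (p : ℕ) (hp : p.Prime) (h5 : 5 ≤ p) :
    ∃ a, ∀ x, ¬ p ∣ a + b x := by
  by_cases h : p ≤ 3 * k
  · obtain ⟨a, ha⟩ := C2_avoid 3 p (by omega) r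
    refine ⟨a, fun x hx => ha x.1 ?_⟩
    have hdvd : p ∣ 36 * ∏ p ∈ (Icc 5 (3 * k)).filter Nat.Prime, p :=
      dvd_mul_of_dvd_right (Finset.dvd_prod_of_mem (fun q => q)
        (Finset.mem_filter.2 ⟨Finset.mem_Icc.2 ⟨h5, h⟩, hp⟩)) _
    rw [← hr x]
    have h1 : b x % (36 * ∏ p ∈ (Icc 5 (3 * k)).filter Nat.Prime, p) ≡ b x [MOD p] :=
      (Nat.mod_modEq _ _).of_dvd hdvd
    have h2 : a + b x % (36 * ∏ p ∈ (Icc 5 (3 * k)).filter Nat.Prime, p) ≡ a + b x [MOD p] :=
      Nat.ModEq.add_left a h1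
    exact Nat.modEq_zero_iff_dvd.1 (h2.trans (Nat.modEq_zero_iff_dvd.2 hx))
  · obtain ⟨a, ha⟩ := C2_avoid (3 * k) p (by omega) (fun i => b (finProdFinEquiv.symm i))
    refine ⟨a, fun x hx => ha (finProdFinEquiv x) ?_⟩
    simpa using hx

private theorem C2_dvd_primorial {p w : ℕ} (hp : p.Prime) (h : p ∣ primorial w) : p ≤ w := by
  unfold primorial at h
  obtain ⟨q, hq, hpq⟩ := (hp.prime.dvd_finsetProd_iff _).1 h
  rw [Finset.mem_filter, Finset.mem_range] at hq
  rw [(Nat.prime_dvd_prime_iff_eq hp hq.2).1 hpq]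
  omega

private theorem C2_cop6 (n : ℕ) : n.Coprime 6 ↔ n % 2 ≠ 0 ∧ n % 3 ≠ 0 := by
  have h6 : (6 : ℕ) = 2 * 3 := by norm_num
  rw [h6, Nat.coprime_mul_iff_right, Nat.coprime_comm, Nat.prime_two.coprime_iff_not_dvd, Nat.coprime_comm (n := n),
    Nat.prime_three.coprime_iff_not_dvd]
  omega

theorem exists_n0 (k w : ℕ) (hw : 3 ≤ w) (t : Fin 3 → Bool) (b : Fin 3 × Fin k → ℕ) (r : Fin 3 → ℕ)
    (hr : ∀ x, b x % (36 * ∏ p ∈ (Icc 5 (3 * k)).filter Nat.Prime, p) = r x.1) (m : ℕ)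
    (h36 : ∀ x, if t x.1 = true then (m + b x).Coprime 6 else Ell.l ∣ m + b x ∧ ((m + b x) / Ell.l).Coprime 6) :
    ∃ n0 : ℕ, ∀ x, good (t x.1) w n0 (b x) := by
  classical
  have hex : ∀ p : ℕ, ∃ a : ℕ, p.Prime → 5 ≤ p → ∀ x, ¬ p ∣ a + b x := by
    intro p
    by_cases hp : p.Prime ∧ 5 ≤ p
    · obtain ⟨a, ha⟩ := C2_class k b r hr p hp.1 hp.2
      exact ⟨a, fun _ _ => ha⟩
    · exact ⟨0, fun h h' => absurd ⟨h, h'⟩ hp⟩
  choose c hc using hex
  let a : ℕ → ℕ := fun p => if p = 2 ∨ p = 3 then m else c p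
  let s : ℕ → ℕ := fun p => if p = 2 ∨ p = 3 then p ^ 2 else p
  have hs : ∀ p ∈ (range (w + 1)).filter Nat.Prime, s p ≠ 0 := by
    intro p hp
    rw [Finset.mem_filter] at hp
    show (if p = 2 ∨ p = 3 then p ^ 2 else p) ≠ 0
    split_ifs
    · exact pow_ne_zero 2 hp.2.ne_zero
    · exact hp.2.ne_zero
  have hpw : Set.Pairwise (((range (w + 1)).filter Nat.Prime : Finset ℕ) : Set ℕ) (Function.onFun Nat.Coprime s) := by
    intro p hp q hq hpq
    rw [Finset.mem_coe, Finset.mem_filter] at hp hq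
    have h0 : Nat.Coprime p q := (Nat.coprime_primes hp.2 hq.2).2 hpq
    show Nat.Coprime (if p = 2 ∨ p = 3 then p ^ 2 else p) (if q = 2 ∨ q = 3 then q ^ 2 else q)
    split_ifs
    · exact Nat.Coprime.pow 2 2 h0
    · exact Nat.Coprime.pow_left 2 h0
    · exact Nat.Coprime.pow_right 2 h0
    · exact h0
  obtain ⟨n0, hn0⟩ := Nat.chineseRemainderOfFinset a s ((range (w + 1)).filter Nat.Prime) hs hpw
  have m2 : n0 ≡ m [MOD 4] := by
    have := hn0 2 (Finset.mem_filter.2 ⟨Finset.mem_range.2 (by omega), Nat.prime_two⟩)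
    simpa [a, s] using this
  have m3 : n0 ≡ m [MOD 9] := by
    have := hn0 3 (Finset.mem_filter.2 ⟨Finset.mem_range.2 (by omega), Nat.prime_three⟩)
    simpa [a, s] using this
  have mp : ∀ p : ℕ, p.Prime → 5 ≤ p → p ≤ w → ∀ x, ¬ p ∣ n0 + b x := by
    intro p hp h5 hpw x hx
    have h1 := hn0 p (Finset.mem_filter.2 ⟨Finset.mem_range.2 (by omega), hp⟩)
    have h2' : a p = c p := by
      show (if p = 2 ∨ p = 3 then m else c p) = c p
      rw [if_neg (by omega)]
    have h3' : s p = p := by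
      show (if p = 2 ∨ p = 3 then p ^ 2 else p) = p
      rw [if_neg (by omega)]
    rw [h2', h3'] at h1
    exact hc p hp h5 x (Nat.modEq_zero_iff_dvd.1
      ((Nat.ModEq.add_right (b x) h1.symm).trans (Nat.modEq_zero_iff_dvd.2 hx)))
  refine ⟨n0, fun x => ?_⟩
  have hx := h36 x
  unfold Nat.ModEq at m2 m3
  unfold good
  have hfin : ∀ q : ℕ, q.Prime → q ∣ n0 + b x → q ≤ w → q = 2 ∨ q = 3 := by
    intro q hq hq1 hqw
    by_contra hcon
    have h2' := hq.two_le
    have h4 : q ≠ 4 := by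
      rintro rfl
      exact absurd hq (by norm_num)
    exact mp q hq (by omega) hqw x hq1
  by_cases ht : t x.1 = true
  · rw [if_pos ht] at hx ⊢
    rw [C2_cop6] at hx
    refine Nat.coprime_of_dvd fun q hq hq1 hq2 => ?_
    have hqw : q ≤ w := by
      unfold Wm at hq2
      rcases (hq.dvd_mul).1 hq2 with h | h
      · have h0 : q ∣ 2 * 3 := h
        rcases (hq.dvd_mul).1 h0 with h | h
        · have := Nat.le_of_dvd (by norm_num) h
          omega
        · have := Nat.le_of_dvd (by norm_num) h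
          omega
      · exact C2_dvd_primorial hq h
    rcases hfin q hq hq1 hqw with h | h
    · subst h; omega
    · subst h; omega
  · rw [if_neg ht] at hx ⊢
    rw [C2_cop6] at hx
    have key : Ell.l ∣ n0 + b x ∧ ((n0 + b x) / Ell.l) % 2 ≠ 0 ∧ ((n0 + b x) / Ell.l) % 3 ≠ 0 := by
      rcases Ell.hl with h | h <;> rw [h] at hx ⊢ <;> omega
    refine ⟨key.1, ?_⟩
    refine Nat.coprime_of_dvd fun q hq hq1 hq2 => ?_
    have hqw : q ≤ w := C2_dvd_primorial hq hq2
    have hqd : q ∣ n0 + b x := by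
      have h3 : n0 + b x = Ell.l * ((n0 + b x) / Ell.l) := (Nat.mul_div_cancel' key.1).symm
      rw [h3]
      exact dvd_mul_of_dvd_right hq1 _
    rcases hfin q hq hqd hqw with h | h
    · subst h
      have := key.2.1
      omega
    · subst h
      have := key.2.2
      omega

end Pool.Agent.LibSP4
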