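import Mathlib

/-!
LibSP4: semiprimes and good differences.
-/

namespace Pool.Agent.LibSP4

/-- products of two distinct primes -/
def Semi (n : ℕ) : Prop := ∃ p q : ℕ, p.Prime ∧ q.Prime ∧ p ≠ q ∧ n = p * q

/-- `d` is the difference of two semiprimes infinitely often -/
def Good (d : ℕ) : Prop := {n : ℕ | Semi n ∧ Semi (n + d)}.Infinite

end Pool.Agent.LibSP4
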