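import Pool.Agent.LibSP4.Defs2
import Pool.Agent.LibSP4.DefsC

/-!
Row C3 (SHORT): a pair which occurs for infinitely many `n`. `occ t y m` with `m > 9` implies `Semi m`: (E) `m = p q`, `p < q`; (P) `m = 3 l`, `l` prime, `l ≠ 3`.
The finitely many pairs `(x, x')`: one pair has infinitely many `n` with both events (`y` arbitrarily large); `b x ≠ b x'` by injectivity; if `b x < b x'` then `m = n + b x`, `m + (b x' - b x) = n + b x'`, else exchange.
-/

open Finset Filter

namespace Pool.Agent.LibSP4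

variable [Ell]

private theorem C3_semi {t : Bool} {y m : ℕ} (h : occ t y m) (hm : 9 < m) : Semi m := by
  unfold occ at h
  split_ifs at h
  · obtain ⟨p, q, hp, hq, -, hpq, rfl⟩ := h
    exact ⟨p, q, hp, hq, hpq.ne, rfl⟩
  · obtain ⟨h3, hp⟩ := h
    obtain ⟨l, rfl⟩ := h3
    have hl0 : 0 < Ell.l := by rcases Ell.hl with h | h <;> omega
    rw [Nat.mul_div_cancel_left _ hl0] at hp
    refine ⟨Ell.l, l, ?_, hp, ?_, rfl⟩
    · rcases Ell.hl with h | h <;> rw [h]
      · exact Nat.prime_two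
      · exact Nat.prime_three
    · rintro h1
      rw [← h1] at hm
      rcases Ell.hl with h | h <;> rw [h] at hm <;> omega

private theorem C3_not_good {d : ℕ} (h : ¬ Good d) :
    ∀ᶠ y : ℕ in atTop, ∀ n > y, ¬ (Semi n ∧ Semi (n + d)) := by
  unfold Good at h
  rw [Set.not_infinite] at h
  obtain ⟨N, hN⟩ := h.bddAbove
  filter_upwards [eventually_ge_atTop N] with y hy n hn hs
  have : n ≤ N := hN hs
  omega

theorem to_good (k : ℕ) (t : Fin 3 → Bool) (b : Fin 3 × Fin k → ℕ) (hb : Function.Injective b)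
    (h : ∀ᶠ y : ℕ in atTop, ∃ n > y, ∃ x x' : Fin 3 × Fin k, x.1 ≠ x'.1 ∧ occ (t x.1) y (n + b x) ∧ occ (t x'.1) y (n + b x')) :
    ∃ x x' : Fin 3 × Fin k, x.1 ≠ x'.1 ∧ b x < b x' ∧ Good (b x' - b x) := by
  by_contra hcon
  push Not at hcon
  have key : ∀ q : (Fin 3 × Fin k) × (Fin 3 × Fin k), q.1.1 ≠ q.2.1 →
      ∀ᶠ y : ℕ in atTop, ∀ n > y, ¬ (Semi (n + b q.1) ∧ Semi (n + b q.2)) := by
    rintro ⟨x, x'⟩ hne
    have hbne : b x ≠ b x' := fun e => hne (by
      have := hb e
      exact congrArg Prod.fst this)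
    rcases lt_or_gt_of_ne hbne with hlt | hlt
    · filter_upwards [C3_not_good (hcon x x' hne hlt)] with y hy n hn hs
      refine hy (n + b x) (by omega) ⟨hs.1, ?_⟩
      have e : n + b x + (b x' - b x) = n + b x' := by omega
      rw [e]
      exact hs.2
    · filter_upwards [C3_not_good (hcon x' x (Ne.symm hne) hlt)] with y hy n hn hs
      refine hy (n + b x') (by omega) ⟨hs.2, ?_⟩
      have e : n + b x' + (b x - b x') = n + b x := by omega
      rw [e]
      exact hs.1
  have key2 : ∀ᶠ y : ℕ in atTop, ∀ q : (Fin 3 × Fin k) × (Fin 3 × Fin k), q.1.1 ≠ q.2.1 →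
      ∀ n > y, ¬ (Semi (n + b q.1) ∧ Semi (n + b q.2)) := by
    rw [eventually_all]
    intro q
    by_cases hq : q.1.1 ≠ q.2.1
    · filter_upwards [key q hq] with y hy _
      exact hy
    · exact Eventually.of_forall fun y h => absurd h hq
  obtain ⟨y, ⟨n, hn, x, x', hne, ho, ho'⟩, hy2, hy9⟩ :=
    (h.and (key2.and (eventually_ge_atTop 9))).exists
  exact hy2 (x, x') hne n hn ⟨C3_semi ho (by omega), C3_semi ho' (by omega)⟩

end Pool.Agent.LibSP4
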