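import Pool.Agent.LibSP4.DefsC
import Pool.Agent.LibBW4.Defs

/-!
LibSP4: the statement of the cluster theorem (proved in C4 from the Bombieri-Vinogradov theorems), for the rows of the density part.
-/

open Finset

namespace Pool.Agent.LibSP4

/-- Three sets of at least `K` integers, each in one class modulo `6`, all of the same parity or two of them in the same class modulo `3`, have a good cross difference. -/
def Cluster (K : ℕ) : Prop := ∀ (H : Fin 3 → Finset ℕ) (c : Fin 3 → ℕ), (∀ i, K ≤ (H i).card) → (∀ i, ∀ h ∈ H i, h % 6 = c i) →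
  ((∀ i j, c i % 2 = c j % 2) ∨ ∃ i j, i ≠ j ∧ c i % 3 = c j % 3) →
  ∃ i j, i ≠ j ∧ ∃ h ∈ H i, ∃ h' ∈ H j, h < h' ∧ Good (h' - h)

end Pool.Agent.LibSP4
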