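import Pool.Agent.LibSP4.B32
import Pool.Agent.LibSP4.C1
import Pool.Agent.LibSP4.C2
import Pool.Agent.LibSP4.C3
import Pool.Agent.LibSP4.CDefs

/-!
The cluster theorem. `n` is chosen modulo `6` such that two of the three sets `n + H i` are prime to `6` and the third is not divisible by `6`:
it is then prime to `6`, or twice or three times something prime to `6` (`n` is chosen modulo `36`).
-/

open Finset Filter

namespace Pool.Agent.LibSP4

open Pool.Agent.LibBW4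

private theorem C4_Qpos (k : ℕ) : 0 < 36 * ∏ p ∈ (Icc 5 (3 * k)).filter Nat.Prime, p :=
  Nat.mul_pos (by norm_num) (Finset.prod_pos fun p hp => (Finset.mem_filter.1 hp).2.pos)

private theorem C4_step [Ell] (k : ℕ) (t : Fin 3 → Bool)
    (hm : ∀ b : Fin 3 × Fin k → ℕ, Function.Injective b → ∃ w0 : ℕ, ∀ w ≥ w0, ∀ n0 : ℕ, (∀ x, good (t x.1) w n0 (b x)) →
      ∀ᶠ y : ℕ in atTop, ∃ n > y, ∃ x x' : Fin 3 × Fin k, x.1 ≠ x'.1 ∧ occ (t x.1) y (n + b x) ∧ occ (t x'.1) y (n + b x'))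
    (H : Fin 3 → Finset ℕ) (hH : ∀ i, 3 * k * (36 * ∏ p ∈ (Icc 5 (3 * k)).filter Nat.Prime, p) ≤ (H i).card)
    (c : Fin 3 → ℕ) (hc : ∀ i, ∀ h ∈ H i, h % 6 = c i) (ν : ℕ)
    (hν : ∀ i, ∀ a : ℕ, a % 6 = c i → ∀ m : ℕ, m % 6 = ν % 6 → t i = true → (m + a).Coprime 6)
    (hν' : ∀ r : ℕ, ∃ m : ℕ, m % 6 = ν % 6 ∧ ∀ i, t i = false → ∀ a : ℕ, a % 6 = c i → a % 36 = r % 36 →
      Ell.l ∣ m + a ∧ ((m + a) / Ell.l).Coprime 6) (i0 : Fin 3) (hi0 : ∀ i, t i = false → i = i0) :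
    ∃ i j, i ≠ j ∧ ∃ h ∈ H i, ∃ h' ∈ H j, h < h' ∧ Good (h' - h) := by
  obtain ⟨b, r, hb, hbH, hr⟩ := select k _ (C4_Qpos k) H hH
  obtain ⟨m, hm6, hm36⟩ := hν' (r i0)
  obtain ⟨w0, hw0⟩ := hm b hb
  have hr36 : ∀ x, b x % 36 = r x.1 % 36 := by
    intro x
    rw [← hr x]
    exact ((Nat.mod_modEq _ _).of_dvd (Dvd.intro _ rfl)).symm
  obtain ⟨n0, hn0⟩ := exists_n0 k (max w0 3) (le_max_right _ _) t b r hr m (by
    intro x
    by_cases ht : t x.1 = true
    · rw [if_pos ht]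
      exact hν x.1 (b x) (hc _ _ (hbH x)) m hm6 ht
    · rw [if_neg ht]
      have ht' : t x.1 = false := by simpa using ht
      refine hm36 x.1 ht' (b x) (hc _ _ (hbH x)) ?_
      rw [hr36 x, hi0 _ ht'])
  obtain ⟨x, x', hxx, hlt, hg⟩ := to_good k t b hb (hw0 (max w0 3) (le_max_left _ _) n0 hn0)
  exact ⟨x.1, x'.1, hxx, b x, hbH x, b x', hbH x', hlt, hg⟩

private theorem C4_cop6 (n : ℕ) : n.Coprime 6 ↔ n % 2 ≠ 0 ∧ n % 3 ≠ 0 := by
  have h6 : (6 : ℕ) = 2 * 3 := by norm_num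
  rw [h6, Nat.coprime_mul_iff_right, Nat.coprime_comm, Nat.prime_two.coprime_iff_not_dvd, Nat.coprime_comm (n := n),
    Nat.prime_three.coprime_iff_not_dvd]
  omega

/-- the choice of `n` modulo `6` -/
private theorem C4_choice : ∀ c : Fin 3 → Fin 6, ((∀ i j, (c i : ℕ) % 2 = (c j : ℕ) % 2) ∨ ∃ i j, i ≠ j ∧ (c i : ℕ) % 3 = (c j : ℕ) % 3) →
    ∃ (ν : Fin 6) (σ : Fin 3 → Fin 3), Function.Injective σ ∧
      ((ν : ℕ) + (c (σ 0) : ℕ)) % 2 ≠ 0 ∧ ((ν : ℕ) + (c (σ 0) : ℕ)) % 3 ≠ 0 ∧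
      ((ν : ℕ) + (c (σ 1) : ℕ)) % 2 ≠ 0 ∧ ((ν : ℕ) + (c (σ 1) : ℕ)) % 3 ≠ 0 ∧
      ((ν : ℕ) + (c (σ 2) : ℕ)) % 6 ≠ 0 := by
  decide +kernel

theorem cluster (h1 : BVprimes) (h2 : BVe2) : ∃ K : ℕ, Cluster K := by
  obtain ⟨k1, hk1, hm1⟩ := @sieve_main ⟨2, Or.inl rfl⟩ h1 h2 ![true, true, false] rfl rfl
  obtain ⟨k2, hk2, hm2⟩ := @sieve_main ⟨3, Or.inr rfl⟩ h1 h2 ![true, true, false] rfl rfl
  obtain ⟨k3, hk3, hm3⟩ := @sieve_main ⟨3, Or.inr rfl⟩ h1 h2 (fun _ => true) rfl rfl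
  refine ⟨3 * k1 * (36 * ∏ p ∈ (Icc 5 (3 * k1)).filter Nat.Prime, p) +
    3 * k2 * (36 * ∏ p ∈ (Icc 5 (3 * k2)).filter Nat.Prime, p) +
    3 * k3 * (36 * ∏ p ∈ (Icc 5 (3 * k3)).filter Nat.Prime, p), ?_⟩
  intro H c0 hH hc0 hcond
  -- all classes are reduced: a set `H i` may be empty only if `K = 0`
  have hne : ∀ i, (H i).Nonempty := by
    intro i
    rw [← Finset.card_pos]
    refine lt_of_lt_of_le ?_ (hH i)
    have := C4_Qpos k1
    positivity
  have hc6 : ∀ i, c0 i < 6 := by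
    intro i
    obtain ⟨h, hh⟩ := hne i
    rw [← hc0 i h hh]
    exact Nat.mod_lt _ (by norm_num)
  let c : Fin 3 → Fin 6 := fun i => ⟨c0 i, hc6 i⟩
  obtain ⟨ν, σ, hσ, e1, e2, e3, e4, e5⟩ := C4_choice c hcond
  have e1' : ((ν : ℕ) + c0 (σ 0)) % 2 ≠ 0 := e1
  have e2' : ((ν : ℕ) + c0 (σ 0)) % 3 ≠ 0 := e2
  have e3' : ((ν : ℕ) + c0 (σ 1)) % 2 ≠ 0 := e3
  have e4' : ((ν : ℕ) + c0 (σ 1)) % 3 ≠ 0 := e4
  have e5' : ((ν : ℕ) + c0 (σ 2)) % 6 ≠ 0 := e5
  suffices hs : ∃ i j, i ≠ j ∧ ∃ h ∈ H (σ i), ∃ h' ∈ H (σ j), h < h' ∧ Good (h' - h) by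
    obtain ⟨i, j, hij, h, hh, h', hh', hlt, hg⟩ := hs
    exact ⟨σ i, σ j, fun e => hij (hσ e), h, hh, h', hh', hlt, hg⟩
  by_cases hcase2 : ((ν : ℕ) + c0 (σ 2)) % 2 = 0
  · -- twice a prime
    refine @C4_step ⟨2, Or.inl rfl⟩ k1 ![true, true, false] hm1 (fun i => H (σ i))
      (fun i => le_trans (by omega) (hH (σ i))) (fun i => c0 (σ i)) (fun i => hc0 (σ i)) ν ?_ ?_ 2 ?_
    · intro i a ha m hm ht
      rw [C4_cop6]
      fin_cases i
      · have ha' : a % 6 = c0 (σ 0) := ha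
        omega
      · have ha' : a % 6 = c0 (σ 1) := ha
        omega
      · exact absurd ht (by decide)
    · intro r
      by_cases hr : ((ν : ℕ) + r) % 4 = 2
      · refine ⟨ν, rfl, ?_⟩
        intro i ht a ha har
        fin_cases i
        · exact absurd ht (by decide)
        · exact absurd ht (by decide)
        · have ha' : a % 6 = c0 (σ 2) := ha
          rw [C4_cop6]
          show 2 ∣ (ν : ℕ) + a ∧ (((ν : ℕ) + a) / 2) % 2 ≠ 0 ∧ (((ν : ℕ) + a) / 2) % 3 ≠ 0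
          omega
      · refine ⟨ν + 6, by omega, ?_⟩
        intro i ht a ha har
        fin_cases i
        · exact absurd ht (by decide)
        · exact absurd ht (by decide)
        · have ha' : a % 6 = c0 (σ 2) := ha
          rw [C4_cop6]
          show 2 ∣ ((ν : ℕ) + 6) + a ∧ ((((ν : ℕ) + 6) + a) / 2) % 2 ≠ 0 ∧ ((((ν : ℕ) + 6) + a) / 2) % 3 ≠ 0
          omega
    · intro i ht
      fin_cases i
      · exact absurd ht (by decide)
      · exact absurd ht (by decide)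
      · rfl
  · by_cases hcase3 : ((ν : ℕ) + c0 (σ 2)) % 3 = 0
    · -- three times a prime
      refine @C4_step ⟨3, Or.inr rfl⟩ k2 ![true, true, false] hm2 (fun i => H (σ i))
        (fun i => le_trans (by omega) (hH (σ i))) (fun i => c0 (σ i)) (fun i => hc0 (σ i)) ν ?_ ?_ 2 ?_
      · intro i a ha m hm ht
        rw [C4_cop6]
        fin_cases i
        · have ha' : a % 6 = c0 (σ 0) := ha
          omega
        · have ha' : a % 6 = c0 (σ 1) := ha
          omega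
        · exact absurd ht (by decide)
      · intro r
        by_cases hr : ((ν : ℕ) + r) % 9 = 0
        · refine ⟨ν + 6, by omega, ?_⟩
          intro i ht a ha har
          fin_cases i
          · exact absurd ht (by decide)
          · exact absurd ht (by decide)
          · have ha' : a % 6 = c0 (σ 2) := ha
            rw [C4_cop6]
            show 3 ∣ ((ν : ℕ) + 6) + a ∧ ((((ν : ℕ) + 6) + a) / 3) % 2 ≠ 0 ∧ ((((ν : ℕ) + 6) + a) / 3) % 3 ≠ 0
            omega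
        · refine ⟨ν, rfl, ?_⟩
          intro i ht a ha har
          fin_cases i
          · exact absurd ht (by decide)
          · exact absurd ht (by decide)
          · have ha' : a % 6 = c0 (σ 2) := ha
            rw [C4_cop6]
            show 3 ∣ (ν : ℕ) + a ∧ (((ν : ℕ) + a) / 3) % 2 ≠ 0 ∧ (((ν : ℕ) + a) / 3) % 3 ≠ 0
            omega
      · intro i ht
        fin_cases i
        · exact absurd ht (by decide)
        · exact absurd ht (by decide)
        · rfl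
    · -- all three prime to 6
      refine @C4_step ⟨3, Or.inr rfl⟩ k3 (fun _ => true) hm3 (fun i => H (σ i))
        (fun i => le_trans (by omega) (hH (σ i))) (fun i => c0 (σ i)) (fun i => hc0 (σ i)) ν ?_ ?_ 2 ?_
      · intro i a ha m hm ht
        rw [C4_cop6]
        fin_cases i
        · have ha' : a % 6 = c0 (σ 0) := ha
          omega
        · have ha' : a % 6 = c0 (σ 1) := ha
          omega
        · have ha' : a % 6 = c0 (σ 2) := ha
          omega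
      · intro r
        exact ⟨ν, rfl, fun i ht => absurd ht (by decide)⟩
      · intro i ht
        exact absurd ht (by decide)

end Pool.Agent.LibSP4
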