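import Mathlib

/-!
Row C5 (MEDIUM): Kővári–Sós–Turán. Count the pairs `(a, T)`, `a < n`, `T ⊆ N(a)` with `|T| = K`: by convexity (`inner_le_nnorm_mul_nnorm`, power mean `inner_pow_le`, `Finset.inner_mul_le_norm_mul_norm`: or simply count the `a` with
`|N(a)| ≥ c n/2`: there are at least `c n/2` of them, each has at least `choose ⌈c n/2⌉ K ≥ (c n/4)^K/K!` subsets for large `n`), there are at most `choose n K ≤ n^K/K!` sets `T`; so some `T` has at least
`(c n/2) (c/4)^K ≥ K` elements `a` once `n` is large.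
-/

open Finset

namespace Pool.Agent.LibSP4

theorem kst (K : ℕ) (c : ℝ) (hc : 0 < c) : ∃ n0 : ℕ, ∀ n ≥ n0, ∀ E : Finset (ℕ × ℕ), E ⊆ range n ×ˢ range n → c * (n : ℝ) ^ 2 ≤ E.card →
    ∃ S T : Finset ℕ, S.card = K ∧ T.card = K ∧ S ⊆ range n ∧ T ⊆ range n ∧ ∀ a ∈ S, ∀ b ∈ T, (a, b) ∈ E := by
  obtain ⟨n0, hn0⟩ := exists_nat_gt (max (4 * K / c) (2 * K / c * (4 / c) ^ K))
  refine ⟨n0 + 1, fun n hn E hE hcard => ?_⟩
  have hn1 : (n0 : ℝ) + 1 ≤ n := by exact_mod_cast hn
  have hnpos : (0 : ℝ) < n := by
    have : (0 : ℝ) ≤ n0 := Nat.cast_nonneg _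
    linarith
  have h1 : 4 * K / c < n := lt_of_le_of_lt (le_max_left _ _) (by linarith)
  have h2 : 2 * K / c * (4 / c) ^ K < n := lt_of_le_of_lt (le_max_right _ _) (by linarith)
  by_contra hcon
  push Not at hcon
  set N : ℕ → Finset ℕ := fun a => (range n).filter (fun b => (a, b) ∈ E) with hN
  have hNn : ∀ a, (N a).card ≤ n := fun a => by
    calc (N a).card ≤ (range n).card := card_le_card (filter_subset _ _)
      _ = n := card_range n
  have hsum : E.card ≤ ∑ a ∈ range n, (N a).card := by
    rw [card_eq_sum_card_fiberwise (f := Prod.fst) (t := range n)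
      (fun p hp => by have := hE hp; rw [mem_product] at this; exact this.1)]
    apply sum_le_sum
    intro a _
    apply card_le_card_of_injOn Prod.snd
    · intro p hp
      rw [mem_coe, mem_filter] at hp
      have h3 := hE hp.1
      rw [mem_product] at h3
      rw [hN, mem_coe, mem_filter]
      refine ⟨h3.2, ?_⟩
      have : (a, p.2) = p := by rw [← hp.2]
      rw [this]; exact hp.1
    · intro p hp q hq hpq
      rw [mem_coe, mem_filter] at hp hq
      exact Prod.ext (hp.2.trans hq.2.symm) hpq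
  set A : Finset ℕ := (range n).filter (fun a => c * n / 2 ≤ ((N a).card : ℝ)) with hA
  have hAcard : c * n / 2 ≤ (A.card : ℝ) := by
    have h3 : (∑ a ∈ range n, ((N a).card : ℝ)) ≤ ∑ a ∈ range n, ((if a ∈ A then (n : ℝ) else 0) + c * n / 2) := by
      apply sum_le_sum
      intro a ha
      have h4 : (0 : ℝ) ≤ c * n / 2 := by positivity
      by_cases haA : a ∈ A
      · rw [if_pos haA]
        have : ((N a).card : ℝ) ≤ n := by exact_mod_cast hNn a
        linarith
      · rw [if_neg haA, zero_add]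
        rw [hA, mem_filter, not_and, not_le] at haA
        exact (haA ha).le
    have h5 : (E.card : ℝ) ≤ ∑ a ∈ range n, ((N a).card : ℝ) := by exact_mod_cast hsum
    rw [sum_add_distrib, sum_const, card_range, nsmul_eq_mul, ← sum_filter, sum_const, nsmul_eq_mul] at h3
    have h6 : (range n).filter (fun a => a ∈ A) = A := by
      rw [filter_mem_eq_inter]
      exact inter_eq_right.2 (filter_subset _ _)
    rw [h6] at h3
    have h7 : c * (n : ℝ) ^ 2 ≤ A.card * n + n * (c * n / 2) := by linarith
    have h8 : c * n / 2 * n ≤ A.card * n := by nlinarith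
    exact le_of_mul_le_mul_right h8 hnpos
  have hdc : ∑ a ∈ range n, (powersetCard K (N a)).card =
      ∑ T ∈ powersetCard K (range n), ((range n).filter (fun a => T ⊆ N a)).card := by
    have h9 := sum_card_bipartiteAbove_eq_sum_card_bipartiteBelow (s := range n)
      (t := powersetCard K (range n)) (fun a T => T ⊆ N a)
    have h10 : ∀ a ∈ range n, bipartiteAbove (fun a T => T ⊆ N a) (powersetCard K (range n)) a =
        powersetCard K (N a) := by
      intro a _
      ext T
      rw [mem_bipartiteAbove, mem_powersetCard, mem_powersetCard]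
      constructor
      · rintro ⟨⟨_, h⟩, h'⟩; exact ⟨h', h⟩
      · rintro ⟨h', h⟩; exact ⟨⟨h'.trans (filter_subset _ _), h⟩, h'⟩
    calc ∑ a ∈ range n, (powersetCard K (N a)).card
        = ∑ a ∈ range n, (bipartiteAbove (fun a T => T ⊆ N a) (powersetCard K (range n)) a).card :=
          sum_congr rfl (fun a ha => by rw [h10 a ha])
      _ = _ := h9
  have hup : ∑ T ∈ powersetCard K (range n), ((range n).filter (fun a => T ⊆ N a)).card ≤
      (n.choose K) * K := by
    calc ∑ T ∈ powersetCard K (range n), ((range n).filter (fun a => T ⊆ N a)).card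
        ≤ ∑ T ∈ powersetCard K (range n), K := by
          apply sum_le_sum
          intro T hT
          rw [mem_powersetCard] at hT
          by_contra hlt
          push Not at hlt
          obtain ⟨S, hS1, hS2⟩ := exists_subset_card_eq hlt.le
          obtain ⟨a, ha, b, hb, hab⟩ := hcon S T hS2 hT.2
            (hS1.trans (filter_subset _ _)) hT.1
          have h9 := (mem_filter.1 (hS1 ha)).2 hb
          rw [hN, mem_filter] at h9
          exact hab h9.2
      _ = (n.choose K) * K := by
          rw [sum_const, card_powersetCard, card_range, smul_eq_mul]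
  have hKc : (K : ℝ) ≤ c * n / 4 := by
    rw [div_lt_iff₀ hc] at h1
    linarith
  have hlow : ∀ a ∈ A, (c * n / 4) ^ K / (K.factorial : ℝ) ≤ ((powersetCard K (N a)).card : ℝ) := by
    intro a ha
    rw [hA, mem_filter] at ha
    rw [card_powersetCard]
    have h11 := Nat.pow_le_choose (α := ℝ) K (N a).card
    refine le_trans ?_ h11
    apply div_le_div_of_nonneg_right _ (by positivity)
    apply pow_le_pow_left₀ (by positivity)
    have h12 : ((N a).card : ℝ) + 1 ≤ (((N a).card + 1 - K : ℕ) : ℝ) + K := by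
      have : (N a).card + 1 ≤ ((N a).card + 1 - K) + K := by omega
      exact_mod_cast this
    have h13 := ha.2
    linarith
  have hL : (c * n / 2) * ((c * n / 4) ^ K / (K.factorial : ℝ)) ≤
      ∑ a ∈ range n, ((powersetCard K (N a)).card : ℝ) := by
    calc (c * n / 2) * ((c * n / 4) ^ K / (K.factorial : ℝ))
        ≤ A.card * ((c * n / 4) ^ K / (K.factorial : ℝ)) :=
          mul_le_mul_of_nonneg_right hAcard (by positivity)
      _ = ∑ a ∈ A, ((c * n / 4) ^ K / (K.factorial : ℝ)) := by rw [sum_const, nsmul_eq_mul]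
      _ ≤ ∑ a ∈ A, ((powersetCard K (N a)).card : ℝ) := sum_le_sum hlow
      _ ≤ _ := sum_le_sum_of_subset_of_nonneg (filter_subset _ _) (fun _ _ _ => Nat.cast_nonneg _)
  have hU : ∑ a ∈ range n, ((powersetCard K (N a)).card : ℝ) ≤ ((n : ℝ) ^ K / K.factorial) * K := by
    have h14 : ∑ a ∈ range n, (powersetCard K (N a)).card ≤ (n.choose K) * K := hdc ▸ hup
    have h15 : ∑ a ∈ range n, ((powersetCard K (N a)).card : ℝ) ≤ (n.choose K : ℝ) * K := by
      exact_mod_cast h14
    exact h15.trans (mul_le_mul_of_nonneg_right (Nat.choose_le_pow_div K n) (Nat.cast_nonneg _))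
  have hf : (0 : ℝ) < K.factorial := by exact_mod_cast Nat.factorial_pos K
  have hfin : (c * n / 2) * (c * n / 4) ^ K ≤ (n : ℝ) ^ K * K := by
    have h16 := hL.trans hU
    have e1 : (c * n / 2) * ((c * n / 4) ^ K / (K.factorial : ℝ)) =
        (c * n / 2) * (c * n / 4) ^ K / (K.factorial : ℝ) := (mul_div_assoc _ _ _).symm
    have e2 : ((n : ℝ) ^ K / K.factorial) * K = (n : ℝ) ^ K * K / K.factorial :=
      div_mul_eq_mul_div _ _ _
    rw [e1, e2, div_le_div_iff_of_pos_right hf] at h16
    exact h16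
  have h17 : (c * n / 4) ^ K = (c / 4) ^ K * (n : ℝ) ^ K := by
    rw [← mul_pow]; congr 1; ring
  rw [h17] at hfin
  have h18 : (c * n / 2) * (c / 4) ^ K ≤ K := by
    have hnK : (0 : ℝ) < (n : ℝ) ^ K := by positivity
    have : (c * n / 2) * (c / 4) ^ K * (n : ℝ) ^ K ≤ K * (n : ℝ) ^ K := by
      calc (c * n / 2) * (c / 4) ^ K * (n : ℝ) ^ K = (c * n / 2) * ((c / 4) ^ K * (n : ℝ) ^ K) := by ring
        _ ≤ (n : ℝ) ^ K * K := hfin
        _ = K * (n : ℝ) ^ K := by ring
    exact le_of_mul_le_mul_right this hnK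
  have h19 : (4 / c) ^ K * (c / 4) ^ K = 1 := by
    rw [← mul_pow, div_mul_div_comm, mul_comm c 4, div_self (by positivity), one_pow]
  have h20 : 2 * K / c * (4 / c) ^ K * (c / 4) ^ K < n * (c / 4) ^ K :=
    mul_lt_mul_of_pos_right h2 (by positivity)
  rw [mul_assoc, h19, mul_one, div_lt_iff₀ hc] at h20
  nlinarith

end Pool.Agent.LibSP4
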