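import Pool.Agent.LibSP4.C5

/-!
Row C6 (MEDIUM): three sets. Fix `K`; `c' = c δ/2`, `U` large with C5 for `(K, c')` and `#{(a,b) ∈ [0,U)² : R a b} ≥ c U²`. For the scales `X` of `hX`, double counting:
`∑_{N < X} #{(a,b) ∈ [0,U)² : R a b, T a N, T' b N} ≥ c U² δ X`, so at least `c' X` numbers `N < X` have a link graph with at least `c' U²` edges, hence (C5) a pair `(S1, S2)` of subsets of `range U` with `S1 × S2` in the link graph.
There are at most `4^U` pairs; for `c' X ≥ 4^U K` one pair serves `K` numbers `N`.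
-/

open Finset Filter

namespace Pool.Agent.LibSP4

open scoped Classical in
theorem link (c δ : ℝ) (hc : 0 < c) (hδ : 0 < δ) (R T T' : ℕ → ℕ → Prop)
    (hU : ∃ᶠ U : ℕ in atTop, c * (U : ℝ) ^ 2 ≤ (((range U ×ˢ range U).filter fun x => R x.1 x.2).card : ℝ))
    (hX : ∀ U : ℕ, ∃ᶠ X : ℕ in atTop, ∀ a < U, ∀ b < U, R a b → δ * X ≤ (((range X).filter fun N => T a N ∧ T' b N).card : ℝ)) :
    ∀ K : ℕ, ∃ S1 S2 S3 : Finset ℕ, K ≤ S1.card ∧ K ≤ S2.card ∧ K ≤ S3.card ∧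
      ∀ a ∈ S1, ∀ b ∈ S2, ∀ N ∈ S3, R a b ∧ T a N ∧ T' b N := by
  intro K
  have hc' : 0 < c * δ / 2 := by positivity
  obtain ⟨n0, hn0⟩ := kst K (c * δ / 2) hc'
  obtain ⟨U, hUc, hUn⟩ := (hU.and_eventually (eventually_ge_atTop (max n0 1))).exists
  have hUn0 : n0 ≤ U := le_trans (le_max_left _ _) hUn
  have hU1 : 1 ≤ U := le_trans (le_max_right _ _) hUn
  have hev : ∀ᶠ X : ℕ in atTop, ((2 ^ U * 2 ^ U * K : ℕ) : ℝ) ≤ c * δ / 2 * (X : ℝ) :=
    (tendsto_natCast_atTop_atTop.const_mul_atTop hc').eventually_ge_atTop _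
  obtain ⟨X, hXc, hXn⟩ := ((hX U).and_eventually hev).exists
  obtain ⟨E, hE⟩ : ∃ E : Finset (ℕ × ℕ), E = (range U ×ˢ range U).filter fun x => R x.1 x.2 :=
    ⟨_, rfl⟩
  rw [← hE] at hUc
  have hEsub : E ⊆ range U ×ˢ range U := by
    rw [hE]
    exact filter_subset _ _
  obtain ⟨G, hG⟩ : ∃ G : ℕ → Finset (ℕ × ℕ), G = fun N => E.filter fun x => T x.1 N ∧ T' x.2 N :=
    ⟨_, rfl⟩
  have hsum : ∑ N ∈ range X, (G N).card =
      ∑ x ∈ E, ((range X).filter fun N => T x.1 N ∧ T' x.2 N).card := by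
    rw [hG]
    simp only [card_filter]
    exact sum_comm
  have hlow : c * (U : ℝ) ^ 2 * (δ * X) ≤ ((∑ N ∈ range X, (G N).card : ℕ) : ℝ) := by
    rw [hsum, Nat.cast_sum]
    have h1 : (E.card : ℝ) * (δ * X) ≤
        ∑ x ∈ E, (((range X).filter fun N => T x.1 N ∧ T' x.2 N).card : ℝ) := by
      rw [← nsmul_eq_mul]
      refine card_nsmul_le_sum _ _ _ fun x hx => ?_
      rw [hE, mem_filter, mem_product, mem_range, mem_range] at hx
      exact hXc x.1 hx.1.1 x.2 hx.1.2 hx.2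
    exact (mul_le_mul_of_nonneg_right hUc (by positivity)).trans h1
  obtain ⟨Gd, hGd⟩ : ∃ Gd : Finset ℕ,
      Gd = (range X).filter fun N => c * δ / 2 * (U : ℝ) ^ 2 ≤ ((G N).card : ℝ) := ⟨_, rfl⟩
  have hGcard : ∀ N, ((G N).card : ℝ) ≤ (U : ℝ) ^ 2 := by
    intro N
    have h1 : (G N).card ≤ (range U ×ˢ range U).card :=
      card_le_card (by
        rw [hG]
        exact (filter_subset _ _).trans hEsub)
    rw [card_product, card_range] at h1
    calc ((G N).card : ℝ) ≤ ((U * U : ℕ) : ℝ) := by exact_mod_cast h1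
      _ = (U : ℝ) ^ 2 := by push_cast; ring
  have hup : ((∑ N ∈ range X, (G N).card : ℕ) : ℝ) ≤
      (Gd.card : ℝ) * (U : ℝ) ^ 2 + (X : ℝ) * (c * δ / 2 * (U : ℝ) ^ 2) := by
    rw [Nat.cast_sum, ← sum_filter_add_sum_filter_not (range X)
      (fun N => c * δ / 2 * (U : ℝ) ^ 2 ≤ ((G N).card : ℝ))]
    refine add_le_add ?_ ?_
    · rw [← hGd, ← nsmul_eq_mul]
      exact sum_le_card_nsmul _ _ _ fun N _ => hGcard N
    · refine (sum_le_card_nsmul _ _ (c * δ / 2 * (U : ℝ) ^ 2) fun N hN => ?_).trans ?_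
      · exact (not_le.1 (mem_filter.1 hN).2).le
      · rw [nsmul_eq_mul]
        refine mul_le_mul_of_nonneg_right ?_ (by positivity)
        have h1 := card_le_card (filter_subset
          (fun N => ¬ c * δ / 2 * (U : ℝ) ^ 2 ≤ ((G N).card : ℝ)) (range X))
        rw [card_range] at h1
        exact_mod_cast h1
  have hU2 : (0 : ℝ) < (U : ℝ) ^ 2 := by
    have : (1 : ℝ) ≤ U := by exact_mod_cast hU1
    positivity
  have hGdc : c * δ / 2 * (X : ℝ) ≤ Gd.card := by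
    have h1 : c * δ / 2 * (X : ℝ) * (U : ℝ) ^ 2 ≤ (Gd.card : ℝ) * (U : ℝ) ^ 2 := by
      have := hlow.trans hup
      nlinarith
    exact le_of_mul_le_mul_right h1 hU2
  have hcard : 2 ^ U * 2 ^ U * K ≤ Gd.card := by exact_mod_cast hXn.trans hGdc
  have hpick : ∀ N ∈ Gd, ∃ P : Finset ℕ × Finset ℕ, P.1.card = K ∧ P.2.card = K ∧
      P.1 ⊆ range U ∧ P.2 ⊆ range U ∧ ∀ a ∈ P.1, ∀ b ∈ P.2, (a, b) ∈ G N := by
    intro N hN
    rw [hGd, mem_filter] at hN
    obtain ⟨S, S', h1, h2, h3, h4, h5⟩ := hn0 U hUn0 (G N) (by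
      rw [hG]
      exact (filter_subset _ _).trans hEsub) hN.2
    exact ⟨(S, S'), h1, h2, h3, h4, h5⟩
  choose! P hP using hpick
  have hmap : ∀ N ∈ Gd, P N ∈ (range U).powerset ×ˢ (range U).powerset := by
    intro N hN
    rw [mem_product, mem_powerset, mem_powerset]
    exact ⟨(hP N hN).2.2.1, (hP N hN).2.2.2.1⟩
  obtain ⟨Q, -, hQ⟩ := exists_le_card_fiber_of_mul_le_card_of_maps_to hmap
    ⟨(∅, ∅), by rw [mem_product]; exact ⟨empty_mem_powerset _, empty_mem_powerset _⟩⟩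
    (n := K) (by rwa [card_product, card_powerset, card_range])
  by_cases hK : K = 0
  · subst hK
    exact ⟨∅, ∅, ∅, le_rfl, le_rfl, le_rfl, fun a ha => absurd ha (notMem_empty a)⟩
  have hne : (Gd.filter fun N => P N = Q).Nonempty := by
    rw [← card_pos]
    omega
  obtain ⟨N1, hN1⟩ := hne
  rw [mem_filter] at hN1
  have hQ1 : Q.1.card = K := by rw [← hN1.2]; exact (hP N1 hN1.1).1
  have hQ2 : Q.2.card = K := by rw [← hN1.2]; exact (hP N1 hN1.1).2.1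
  refine ⟨Q.1, Q.2, Gd.filter fun N => P N = Q, hQ1.ge, hQ2.ge, hQ, fun a ha b hb N hN => ?_⟩
  rw [mem_filter] at hN
  have h1 := (hP N hN.1).2.2.2.2 a (by rw [hN.2]; exact ha) b (by rw [hN.2]; exact hb)
  rw [hG, mem_filter, hE, mem_filter] at h1
  exact ⟨h1.1.2, h1.2.1, h1.2.2⟩

end Pool.Agent.LibSP4
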