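import Mathlib

/-!
Row C7 (SHORT/MEDIUM): counting. Write `cnt u X = #{t ∈ [1,X] : t % m = u % m, t ∈ B}`.
(pairs) For `d ∈ B`, `d ≡ v`, `d ≤ 3U/4`, the pairs `(a, a + d)`, `a ≡ r1`, `a < U/4`, count (`a + d ≡ r1 + v ≡ r2`): at least `U/(4m) - 1` for each `d`; for `d ≡ u` the pairs `(b + d, b)`, `b ≡ r2`. At most `2 (U/(4m) + 1)` of the
`cnt u U + cnt v U ≥ U/m` numbers `d` are `> 3U/4`, so the total is at least `(U/(2m) - 2)(U/(4m) - 1) ≥ U²/(32 m²)` for `U ≥ 8 m` (adjust the threshold as you like: `U0 = 100 m`). The pairs are different (`a < b` in the first family, `a > b` in the second).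
(third) for `a, b < U`, `a ≡ r1`, `b ≡ r2`: the `N < X` with `N ≡ r3`, `a < N`, `N - a ∈ B` number at least `cnt u X - U - 1` (`N = a + t`, `t ≡ u`), the `N` with `N - b ∈ B` at least `cnt v X - U - 1`, all in a class with at most `X/m + 1` elements `< X`;
so both hold for at least `(1 + 2 ε) X/m - X/m - 2 U - 3 ≥ ε X/m` of them if `X` is large.
-/

open Finset Filter

namespace Pool.Agent.LibSP4

private lemma c7_Ioc (m : ℕ) (hm : 0 < m) (a b v : ℕ) (hab : a ≤ b) :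
    (((Ioc a b).filter fun t => t ≡ v [MOD m]).card : ℝ) ≤ ((b : ℝ) - a) / m + 1 ∧
    ((b : ℝ) - a) / m - 1 ≤ (((Ioc a b).filter fun t => t ≡ v [MOD m]).card : ℝ) := by
  have h := Nat.Ioc_filter_modEq_card a b hm v
  have hmR : (0 : ℝ) < m := by exact_mod_cast hm
  set K := ((Ioc a b).filter fun t => t ≡ v [MOD m]).card with hK
  have hmQ : (0 : ℚ) < m := by exact_mod_cast hm
  have e1 : (⌊((b : ℚ) - v) / m⌋ : ℚ) ≤ ((b : ℚ) - v) / m := Int.floor_le _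
  have e2 : ((b : ℚ) - v) / m < (⌊((b : ℚ) - v) / m⌋ : ℚ) + 1 := Int.lt_floor_add_one _
  have e3 : (⌊((a : ℚ) - v) / m⌋ : ℚ) ≤ ((a : ℚ) - v) / m := Int.floor_le _
  have e4 : ((a : ℚ) - v) / m < (⌊((a : ℚ) - v) / m⌋ : ℚ) + 1 := Int.lt_floor_add_one _
  have hKQ : (K : ℚ) = max ((⌊((b : ℚ) - v) / m⌋ : ℚ) - (⌊((a : ℚ) - v) / m⌋ : ℚ)) 0 := by
    have := congrArg (fun z : ℤ => (z : ℚ)) h
    simpa using this
  have hd : ((b : ℚ) - v) / m - ((a : ℚ) - v) / m = ((b : ℚ) - a) / m := by ring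
  have hnn : (0 : ℚ) ≤ ((b : ℚ) - a) / m := by
    apply div_nonneg _ hmQ.le
    have : (a : ℚ) ≤ b := by exact_mod_cast hab
    linarith
  have u1 : (K : ℚ) ≤ ((b : ℚ) - a) / m + 1 := by
    rw [hKQ]
    apply max_le
    · linarith
    · linarith
  have u2 : ((b : ℚ) - a) / m - 1 ≤ (K : ℚ) := by
    rw [hKQ]
    refine le_trans ?_ (le_max_left _ _)
    linarith
  constructor
  · have : ((K : ℚ) : ℝ) ≤ ((((b : ℚ) - a) / m + 1 : ℚ) : ℝ) := by exact_mod_cast u1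
    push_cast at this
    exact this
  · have : ((((b : ℚ) - a) / m - 1 : ℚ) : ℝ) ≤ ((K : ℚ) : ℝ) := by exact_mod_cast u2
    push_cast at this
    exact this

private lemma c7_range (m : ℕ) (hm : 0 < m) (n r : ℕ) :
    (((range n).filter fun t => t ≡ r [MOD m]).card : ℝ) ≤ (n : ℝ) / m + 2 ∧
    (n : ℝ) / m - 2 ≤ (((range n).filter fun t => t ≡ r [MOD m]).card : ℝ) := by
  have hmR : (0 : ℝ) < m := by exact_mod_cast hm
  have hm1 : (1 : ℝ) ≤ m := by exact_mod_cast hm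
  have h1m : (1 : ℝ) / m ≤ 1 := by
    rw [div_le_one hmR]; exact hm1
  rcases Nat.eq_zero_or_pos n with h0 | h0
  · subst h0
    simp
  · obtain ⟨n, rfl⟩ : ∃ k, n = k + 1 := ⟨n - 1, by omega⟩
    have h := c7_Ioc m hm 0 n r (Nat.zero_le _)
    have sub : ((Ioc 0 n).filter fun t => t ≡ r [MOD m]) ⊆ ((range (n+1)).filter fun t => t ≡ r [MOD m]) := by
      intro t ht
      simp only [mem_filter, mem_Ioc, mem_range] at ht ⊢
      exact ⟨by omega, ht.2⟩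
    have sub2 : ((range (n+1)).filter fun t => t ≡ r [MOD m]) ⊆ insert 0 ((Ioc 0 n).filter fun t => t ≡ r [MOD m]) := by
      intro t ht
      simp only [mem_filter, mem_Ioc, mem_range, mem_insert] at ht ⊢
      rcases Nat.eq_zero_or_pos t with h | h
      · left; exact h
      · right; exact ⟨⟨h, by omega⟩, ht.2⟩
    have c1 := card_le_card sub
    have c2 := (card_le_card sub2).trans (card_insert_le _ _)
    have c1' : (((Ioc 0 n).filter fun t => t ≡ r [MOD m]).card : ℝ) ≤ (((range (n+1)).filter fun t => t ≡ r [MOD m]).card : ℝ) := by exact_mod_cast c1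
    have c2' : (((range (n+1)).filter fun t => t ≡ r [MOD m]).card : ℝ) ≤ (((Ioc 0 n).filter fun t => t ≡ r [MOD m]).card : ℝ) + 1 := by exact_mod_cast c2
    have e : ((n + 1 : ℕ) : ℝ) / m = (n : ℝ) / m + 1 / m := by push_cast; ring
    have h1 := h.1
    have h2 := h.2
    simp only [Nat.cast_zero, sub_zero] at h1 h2
    have h0m : (0 : ℝ) ≤ 1 / m := by positivity
    rw [e]
    constructor <;> linarith

open scoped Classical in
private lemma c7_small (m : ℕ) (hm : 0 < m) (U : ℕ) (B : Set ℕ) (u : ℕ) :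
    (((Icc 1 U).filter fun t => t ≡ u [MOD m] ∧ t ∈ B).card : ℝ) - ((U : ℝ) / (4 * m) + 2) ≤
      (((Icc 1 U).filter fun t => (t ≡ u [MOD m] ∧ t ∈ B) ∧ 4 * t ≤ 3 * U).card : ℝ) := by
  have hmR : (0 : ℝ) < m := by exact_mod_cast hm
  have hm1 : (1 : ℝ) ≤ m := by exact_mod_cast hm
  have sub : ((Icc 1 U).filter fun t => t ≡ u [MOD m] ∧ t ∈ B) ⊆
      ((Icc 1 U).filter fun t => (t ≡ u [MOD m] ∧ t ∈ B) ∧ 4 * t ≤ 3 * U) ∪
      ((Ioc (3 * U / 4) U).filter fun t => t ≡ u [MOD m]) := by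
    intro t ht
    simp only [mem_filter, mem_Icc, mem_union, mem_Ioc] at ht ⊢
    by_cases h : 4 * t ≤ 3 * U
    · left; exact ⟨ht.1, ht.2, h⟩
    · right; exact ⟨⟨by omega, ht.1.2⟩, ht.2.1⟩
  have c1 := (card_le_card sub).trans (card_union_le _ _)
  have c1' : (((Icc 1 U).filter fun t => t ≡ u [MOD m] ∧ t ∈ B).card : ℝ) ≤
      (((Icc 1 U).filter fun t => (t ≡ u [MOD m] ∧ t ∈ B) ∧ 4 * t ≤ 3 * U).card : ℝ) +
      (((Ioc (3 * U / 4) U).filter fun t => t ≡ u [MOD m]).card : ℝ) := by exact_mod_cast c1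
  have h := (c7_Ioc m hm (3 * U / 4) U u (by omega)).1
  have hfl : (3 * (U : ℝ)) / 4 - 1 ≤ ((3 * U / 4 : ℕ) : ℝ) := by
    have : 3 * U < 4 * (3 * U / 4) + 4 := by omega
    have : (3 * (U : ℝ)) < 4 * ((3 * U / 4 : ℕ) : ℝ) + 4 := by exact_mod_cast this
    linarith
  have h2 : ((U : ℝ) - ((3 * U / 4 : ℕ) : ℝ)) / m ≤ (U : ℝ) / (4 * m) + 1 := by
    rw [div_le_iff₀ hmR]
    have : ((U : ℝ) / (4 * m) + 1) * m = (U : ℝ) / 4 + m := by field_simp
    rw [this]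
    linarith
  linarith

open scoped Classical in
private lemma c7_cls (m : ℕ) (hm : 0 < m) (U r : ℕ) :
    (U : ℝ) / (4 * m) - 3 ≤ (((range U).filter fun a => a ≡ r [MOD m] ∧ 4 * a < U).card : ℝ) := by
  have hmR : (0 : ℝ) < m := by exact_mod_cast hm
  have hm1 : (1 : ℝ) ≤ m := by exact_mod_cast hm
  have sub : ((range (U / 4)).filter fun t => t ≡ r [MOD m]) ⊆ ((range U).filter fun a => a ≡ r [MOD m] ∧ 4 * a < U) := by
    intro t ht
    simp only [mem_filter, mem_range] at ht ⊢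
    exact ⟨by omega, ht.2, by omega⟩
  have c := card_le_card sub
  have c' : (((range (U / 4)).filter fun t => t ≡ r [MOD m]).card : ℝ) ≤ (((range U).filter fun a => a ≡ r [MOD m] ∧ 4 * a < U).card : ℝ) := by exact_mod_cast c
  have h := (c7_range m hm (U / 4) r).2
  have hfl : (U : ℝ) / 4 - 1 ≤ ((U / 4 : ℕ) : ℝ) := by
    have : U < 4 * (U / 4) + 4 := by omega
    have : (U : ℝ) < 4 * ((U / 4 : ℕ) : ℝ) + 4 := by exact_mod_cast this
    linarith
  have h2 : (U : ℝ) / (4 * m) - 1 ≤ ((U / 4 : ℕ) : ℝ) / m := by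
    rw [le_div_iff₀ hmR]
    have : ((U : ℝ) / (4 * m) - 1) * m = (U : ℝ) / 4 - m := by field_simp
    rw [this]
    linarith
  linarith

open scoped Classical in
theorem pairs_count (m : ℕ) (hm : 0 < m) : ∃ U0 : ℕ, ∀ U ≥ U0, ∀ (B : Set ℕ) (u v r1 r2 : ℕ), r1 + v ≡ r2 [MOD m] → r2 + u ≡ r1 [MOD m] →
    (U : ℝ) / m ≤ (((Icc 1 U).filter fun t => t ≡ u [MOD m] ∧ t ∈ B).card : ℝ) + (((Icc 1 U).filter fun t => t ≡ v [MOD m] ∧ t ∈ B).card : ℝ) →
    1 / (32 * (m : ℝ) ^ 2) * (U : ℝ) ^ 2 ≤ (((range U ×ˢ range U).filter fun x =>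
      x.1 ≡ r1 [MOD m] ∧ x.2 ≡ r2 [MOD m] ∧ (x.1 < x.2 → x.2 - x.1 ∈ B) ∧ (x.2 < x.1 → x.1 - x.2 ∈ B)).card : ℝ) := by
  classical
  refine ⟨100 * m, ?_⟩
  intro U hU B u v r1 r2 hv hu hcnt
  have hmR : (0 : ℝ) < m := by exact_mod_cast hm
  have hU' : (100 : ℝ) * m ≤ U := by exact_mod_cast hU
  -- the four sets
  set Dv := ((Icc 1 U).filter fun t => (t ≡ v [MOD m] ∧ t ∈ B) ∧ 4 * t ≤ 3 * U) with hDv
  set Du := ((Icc 1 U).filter fun t => (t ≡ u [MOD m] ∧ t ∈ B) ∧ 4 * t ≤ 3 * U) with hDu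
  set R1 := ((range U).filter fun a => a ≡ r1 [MOD m] ∧ 4 * a < U) with hR1
  set R2 := ((range U).filter fun a => a ≡ r2 [MOD m] ∧ 4 * a < U) with hR2
  set P := ((range U ×ˢ range U).filter fun x =>
      x.1 ≡ r1 [MOD m] ∧ x.2 ≡ r2 [MOD m] ∧ (x.1 < x.2 → x.2 - x.1 ∈ B) ∧ (x.2 < x.1 → x.1 - x.2 ∈ B)) with hP
  have i1 : Set.InjOn (fun x : ℕ × ℕ => ((x.2, x.2 + x.1) : ℕ × ℕ)) (↑(Dv ×ˢ R1) : Set (ℕ × ℕ)) := by
    intro x _ y _ hxy
    simp only [Prod.mk.injEq] at hxy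
    ext
    · omega
    · exact hxy.1
  have i2 : Set.InjOn (fun x : ℕ × ℕ => ((x.2 + x.1, x.2) : ℕ × ℕ)) (↑(Du ×ˢ R2) : Set (ℕ × ℕ)) := by
    intro x _ y _ hxy
    simp only [Prod.mk.injEq] at hxy
    ext
    · omega
    · exact hxy.2
  have hdis : Disjoint ((Dv ×ˢ R1).image (fun x : ℕ × ℕ => ((x.2, x.2 + x.1) : ℕ × ℕ)))
      ((Du ×ˢ R2).image (fun x : ℕ × ℕ => ((x.2 + x.1, x.2) : ℕ × ℕ))) := by
    rw [Finset.disjoint_left]
    intro z h1 h2
    simp only [mem_image, mem_product, hDv, hDu, mem_filter, mem_Icc] at h1 h2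
    obtain ⟨x, hx, rfl⟩ := h1
    obtain ⟨y, hy, hxy⟩ := h2
    simp only [Prod.mk.injEq] at hxy
    have := hx.1.1.1
    have := hy.1.1.1
    omega
  have hsub : ((Dv ×ˢ R1).image (fun x : ℕ × ℕ => ((x.2, x.2 + x.1) : ℕ × ℕ))) ∪
      ((Du ×ˢ R2).image (fun x : ℕ × ℕ => ((x.2 + x.1, x.2) : ℕ × ℕ))) ⊆ P := by
    intro z hz
    rw [mem_union] at hz
    rcases hz with hz | hz
    · simp only [mem_image, mem_product, hDv, hR1, mem_filter, mem_Icc, mem_range] at hz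
      obtain ⟨⟨d, a⟩, ⟨⟨⟨hd1, hd2⟩, ⟨hdv, hdB⟩, hd3⟩, ha1, har, ha2⟩, rfl⟩ := hz
      simp only [hP, mem_filter, mem_product, mem_range]
      refine ⟨⟨ha1, by omega⟩, har, (Nat.ModEq.add har hdv).trans hv, ?_, ?_⟩
      · intro _
        have : a + d - a = d := by omega
        rw [this]; exact hdB
      · intro h; omega
    · simp only [mem_image, mem_product, hDu, hR2, mem_filter, mem_Icc, mem_range] at hz
      obtain ⟨⟨d, a⟩, ⟨⟨⟨hd1, hd2⟩, ⟨hdv, hdB⟩, hd3⟩, ha1, har, ha2⟩, rfl⟩ := hz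
      simp only [hP, mem_filter, mem_product, mem_range]
      refine ⟨⟨by omega, ha1⟩, (Nat.ModEq.add har hdv).trans hu, har, ?_, ?_⟩
      · intro h; omega
      · intro _
        have : a + d - a = d := by omega
        rw [this]; exact hdB
  have hcard := card_le_card hsub
  rw [card_union_of_disjoint hdis, card_image_of_injOn i1, card_image_of_injOn i2, card_product, card_product] at hcard
  have hcard' : (Dv.card : ℝ) * R1.card + (Du.card : ℝ) * R2.card ≤ (P.card : ℝ) := by exact_mod_cast hcard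
  have s1 := c7_small m hm U B v
  have s2 := c7_small m hm U B u
  have t1 := c7_cls m hm U r1
  have t2 := c7_cls m hm U r2
  rw [← hDv] at s1
  rw [← hDu] at s2
  rw [← hR1] at t1
  rw [← hR2] at t2
  set x : ℝ := (U : ℝ) / m with hx
  have hx100 : 100 ≤ x := by
    rw [hx, le_div_iff₀ hmR]; exact hU'
  have hx4 : (U : ℝ) / (4 * m) = x / 4 := by
    rw [hx]; field_simp
  rw [hx4] at s1 s2 t1 t2
  have hsum : x / 2 - 4 ≤ (Dv.card : ℝ) + Du.card := by linarith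
  have hlhs : 1 / (32 * (m : ℝ) ^ 2) * (U : ℝ) ^ 2 = x ^ 2 / 32 := by
    rw [hx]; field_simp
  rw [hlhs]
  have hDv0 : (0 : ℝ) ≤ (Dv.card : ℝ) := by positivity
  have hDu0 : (0 : ℝ) ≤ (Du.card : ℝ) := by positivity
  have q1 : (Dv.card : ℝ) * (x / 4 - 3) ≤ (Dv.card : ℝ) * R1.card := mul_le_mul_of_nonneg_left t1 hDv0
  have q2 : (Du.card : ℝ) * (x / 4 - 3) ≤ (Du.card : ℝ) * R2.card := mul_le_mul_of_nonneg_left t2 hDu0
  have q3 : (x / 2 - 4) * (x / 4 - 3) ≤ ((Dv.card : ℝ) + Du.card) * (x / 4 - 3) :=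
    mul_le_mul_of_nonneg_right hsum (by linarith)
  nlinarith

open scoped Classical in
theorem third_count (m : ℕ) (hm : 0 < m) (ε : ℝ) (hε : 0 < ε) (U : ℕ) : ∃ X0 : ℕ, ∀ X ≥ X0, ∀ (B : Set ℕ) (u v r1 r2 r3 : ℕ),
    r1 + u ≡ r3 [MOD m] → r2 + v ≡ r3 [MOD m] →
    (1 + 2 * ε) * ((X : ℝ) / m) ≤ (((Icc 1 X).filter fun t => t ≡ u [MOD m] ∧ t ∈ B).card : ℝ) +
      (((Icc 1 X).filter fun t => t ≡ v [MOD m] ∧ t ∈ B).card : ℝ) →
    ∀ a < U, ∀ b < U, a ≡ r1 [MOD m] → b ≡ r2 [MOD m] →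
      ε / m * X ≤ (((range X).filter fun N => (N ≡ r3 [MOD m] ∧ a < N ∧ N - a ∈ B) ∧ (N ≡ r3 [MOD m] ∧ b < N ∧ N - b ∈ B)).card : ℝ) := by
  classical
  have hmR : (0 : ℝ) < m := by exact_mod_cast hm
  obtain ⟨X0, hX0⟩ := exists_nat_ge ((2 * (U : ℝ) + 4) * m / ε)
  refine ⟨X0, ?_⟩
  intro X hX B u v r1 r2 r3 hu hv hcnt a ha b hb har hbr
  have hXR : (X0 : ℝ) ≤ X := by exact_mod_cast hX
  have hbig : 2 * (U : ℝ) + 4 ≤ ε / m * X := by
    have h1 : (2 * (U : ℝ) + 4) * m / ε ≤ X := hX0.trans hXR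
    rw [div_le_iff₀ hε] at h1
    rw [div_mul_eq_mul_div, le_div_iff₀ hmR]
    linarith
  -- a general count
  have key : ∀ (w r c : ℕ), c < U → c ≡ r [MOD m] → r + w ≡ r3 [MOD m] →
      (((Icc 1 X).filter fun t => t ≡ w [MOD m] ∧ t ∈ B).card : ℝ) - U ≤
      (((range X).filter fun N => N ≡ r3 [MOD m] ∧ c < N ∧ N - c ∈ B).card : ℝ) := by
    intro w r c hc hcr hw
    have sub : ((Icc 1 X).filter fun t => t ≡ w [MOD m] ∧ t ∈ B) ⊆
        (((range X).filter fun N => N ≡ r3 [MOD m] ∧ c < N ∧ N - c ∈ B).image (fun N => N - c)) ∪ (Ioc (X - U) X) := by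
      intro t ht
      simp only [mem_filter, mem_Icc, mem_union, mem_image, mem_range, mem_Ioc] at ht ⊢
      by_cases h : c + t < X
      · left
        refine ⟨c + t, ⟨h, (Nat.ModEq.add hcr ht.2.1).trans hw, by omega, ?_⟩, by omega⟩
        have : c + t - c = t := by omega
        rw [this]; exact ht.2.2
      · right
        omega
    have c1 := (card_le_card sub).trans (card_union_le _ _)
    have c2 := card_image_le (s := (range X).filter fun N => N ≡ r3 [MOD m] ∧ c < N ∧ N - c ∈ B) (f := fun N => N - c)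
    have c3 : (Ioc (X - U) X).card ≤ U := by
      rw [Nat.card_Ioc]; omega
    have c4 : ((Icc 1 X).filter fun t => t ≡ w [MOD m] ∧ t ∈ B).card ≤
        ((range X).filter fun N => N ≡ r3 [MOD m] ∧ c < N ∧ N - c ∈ B).card + U := by omega
    have c5 : (((Icc 1 X).filter fun t => t ≡ w [MOD m] ∧ t ∈ B).card : ℝ) ≤
        (((range X).filter fun N => N ≡ r3 [MOD m] ∧ c < N ∧ N - c ∈ B).card : ℝ) + U := by exact_mod_cast c4
    linarith
  have k1 := key u r1 a ha har hu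
  have k2 := key v r2 b hb hbr hv
  set S1 := ((range X).filter fun N => N ≡ r3 [MOD m] ∧ a < N ∧ N - a ∈ B) with hS1
  set S2 := ((range X).filter fun N => N ≡ r3 [MOD m] ∧ b < N ∧ N - b ∈ B) with hS2
  have hun : S1 ∪ S2 ⊆ (range X).filter fun N => N ≡ r3 [MOD m] := by
    intro N hN
    simp only [hS1, hS2, mem_union, mem_filter, mem_range] at hN ⊢
    rcases hN with h | h
    · exact ⟨h.1, h.2.1⟩
    · exact ⟨h.1, h.2.1⟩
  have hin : S1 ∩ S2 = (range X).filter fun N => (N ≡ r3 [MOD m] ∧ a < N ∧ N - a ∈ B) ∧ (N ≡ r3 [MOD m] ∧ b < N ∧ N - b ∈ B) := by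
    ext N
    simp only [hS1, hS2, mem_inter, mem_filter, mem_range]
    tauto
  rw [← hin]
  have hui := card_union_add_card_inter S1 S2
  have hui' : ((S1 ∪ S2).card : ℝ) + ((S1 ∩ S2).card : ℝ) = (S1.card : ℝ) + S2.card := by exact_mod_cast hui
  have hc1 := card_le_card hun
  have hc1' : ((S1 ∪ S2).card : ℝ) ≤ (((range X).filter fun N => N ≡ r3 [MOD m]).card : ℝ) := by exact_mod_cast hc1
  have hc2 := (c7_range m hm X r3).1
  have e : (1 + 2 * ε) * ((X : ℝ) / m) = (X : ℝ) / m + 2 * (ε / m * X) := by ring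
  rw [e] at hcnt
  linarith

end Pool.Agent.LibSP4
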