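import Pool.Agent.LibSP4.C6
import Pool.Agent.LibSP4.C7

/-!
Row C8 (SHORT): from C6 and C7. `c = 1/(32 m²)`, `δ = ε/m`; `R a b := a ≡ r1 ∧ b ≡ r2 ∧ (a < b → b - a ∈ B) ∧ (b < a → a - b ∈ B)`, `T a N := N ≡ r3 ∧ a < N ∧ N - a ∈ B`, `T' = T`.
The scales `U`: those of `hB` (`1 + 2ε ≥ 1`) beyond `U0`; the scales `X`: those of `hB` beyond `X0`.
-/

open Finset Filter

namespace Pool.Agent.LibSP4

open scoped Classical in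
theorem bad_sets (m : ℕ) (hm : 0 < m) (ε : ℝ) (hε : 0 < ε) (B : Set ℕ) (u v r1 r2 r3 : ℕ) (h12 : r1 + v ≡ r2 [MOD m]) (h21 : r2 + u ≡ r1 [MOD m])
    (h13 : r1 + u ≡ r3 [MOD m]) (h23 : r2 + v ≡ r3 [MOD m])
    (hB : ∃ᶠ X : ℕ in atTop, (1 + 2 * ε) * ((X : ℝ) / m) ≤ (((Icc 1 X).filter fun t => t ≡ u [MOD m] ∧ t ∈ B).card : ℝ) +
      (((Icc 1 X).filter fun t => t ≡ v [MOD m] ∧ t ∈ B).card : ℝ)) :
    ∀ K : ℕ, ∃ S1 S2 S3 : Finset ℕ, K ≤ S1.card ∧ K ≤ S2.card ∧ K ≤ S3.card ∧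
      (∀ a ∈ S1, a ≡ r1 [MOD m]) ∧ (∀ b ∈ S2, b ≡ r2 [MOD m]) ∧ (∀ N ∈ S3, N ≡ r3 [MOD m]) ∧
      (∀ a ∈ S1, ∀ b ∈ S2, (a < b → b - a ∈ B) ∧ (b < a → a - b ∈ B)) ∧
      (∀ a ∈ S1, ∀ N ∈ S3, a < N ∧ N - a ∈ B) ∧ (∀ b ∈ S2, ∀ N ∈ S3, b < N ∧ N - b ∈ B) := by
  intro K
  have hm' : (0 : ℝ) < m := by exact_mod_cast hm
  obtain ⟨U0, hU0⟩ := pairs_count m hm
  have hlink := link (1 / (32 * (m : ℝ) ^ 2)) (ε / m) (by positivity) (by positivity)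
    (fun a b => a ≡ r1 [MOD m] ∧ b ≡ r2 [MOD m] ∧ (a < b → b - a ∈ B) ∧ (b < a → a - b ∈ B))
    (fun a N => N ≡ r3 [MOD m] ∧ a < N ∧ N - a ∈ B)
    (fun a N => N ≡ r3 [MOD m] ∧ a < N ∧ N - a ∈ B) ?_ ?_ (K + 1)
  · obtain ⟨S1, S2, S3, hc1, hc2, hc3, h⟩ := hlink
    obtain ⟨a0, ha0⟩ : S1.Nonempty := card_pos.1 (by omega)
    obtain ⟨b0, hb0⟩ : S2.Nonempty := card_pos.1 (by omega)
    obtain ⟨N0, hN0⟩ : S3.Nonempty := card_pos.1 (by omega)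
    exact ⟨S1, S2, S3, by omega, by omega, by omega,
      fun a ha => (h a ha b0 hb0 N0 hN0).1.1,
      fun b hb => (h a0 ha0 b hb N0 hN0).1.2.1,
      fun N hN => (h a0 ha0 b0 hb0 N hN).2.1.1,
      fun a ha b hb => (h a ha b hb N0 hN0).1.2.2,
      fun a ha N hN => (h a ha b0 hb0 N hN).2.1.2,
      fun b hb N hN => (h a0 ha0 b hb N hN).2.2.2⟩
  · refine (hB.and_eventually (eventually_ge_atTop U0)).mono ?_
    rintro U ⟨hU, hge⟩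
    have h1 : (U : ℝ) / m ≤ (1 + 2 * ε) * ((U : ℝ) / m) := by
      have h2 : (0 : ℝ) ≤ (U : ℝ) / m := by positivity
      have h3 : 0 ≤ 2 * ε * ((U : ℝ) / m) := by positivity
      linarith
    have h4 := hU0 U hge B u v r1 r2 h12 h21 (h1.trans hU)
    convert h4
  · intro U
    obtain ⟨X0, hX0⟩ := third_count m hm ε hε U
    refine (hB.and_eventually (eventually_ge_atTop X0)).mono ?_
    rintro X ⟨hX, hge⟩ a ha b hb hR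
    have h4 := hX0 X hge B u v r1 r2 r3 h13 h23 hX a ha b hb hR.1 hR.2.1
    convert h4

end Pool.Agent.LibSP4
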