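import Mathlib

/-!
Row D1 (SHORT/MEDIUM): counting pairs.
-/

open Finset Filter

namespace Pool.Agent.LibSP4

private lemma d1_Ioc (m : ℕ) (hm : 0 < m) (a b v : ℕ) (hab : a ≤ b) :
    ((b : ℝ) - a) / m - 1 ≤ (((Ioc a b).filter fun t => t ≡ v [MOD m]).card : ℝ) := by
  have h := Nat.Ioc_filter_modEq_card a b hm v
  have hmR : (0 : ℝ) < m := by exact_mod_cast hm
  set K := ((Ioc a b).filter fun t => t ≡ v [MOD m]).card with hK
  have hmQ : (0 : ℚ) < m := by exact_mod_cast hm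
  have e2 : ((b : ℚ) - v) / m < (⌊((b : ℚ) - v) / m⌋ : ℚ) + 1 := Int.lt_floor_add_one _
  have e3 : (⌊((a : ℚ) - v) / m⌋ : ℚ) ≤ ((a : ℚ) - v) / m := Int.floor_le _
  have hKQ : (K : ℚ) = max ((⌊((b : ℚ) - v) / m⌋ : ℚ) - (⌊((a : ℚ) - v) / m⌋ : ℚ)) 0 := by
    have := congrArg (fun z : ℤ => (z : ℚ)) h
    simpa using this
  have hd : ((b : ℚ) - v) / m - ((a : ℚ) - v) / m = ((b : ℚ) - a) / m := by ring
  have u2 : ((b : ℚ) - a) / m - 1 ≤ (K : ℚ) := by
    rw [hKQ]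
    refine le_trans ?_ (le_max_left _ _)
    linarith
  have : ((((b : ℚ) - a) / m - 1 : ℚ) : ℝ) ≤ ((K : ℚ) : ℝ) := by exact_mod_cast u2
  push_cast at this
  exact this

private lemma d1_range (m : ℕ) (hm : 0 < m) (n r : ℕ) :
    (n : ℝ) / m - 2 ≤ (((range n).filter fun t => t ≡ r [MOD m]).card : ℝ) := by
  have hmR : (0 : ℝ) < m := by exact_mod_cast hm
  have hm1 : (1 : ℝ) ≤ m := by exact_mod_cast hm
  have h1m : (1 : ℝ) / m ≤ 1 := by
    rw [div_le_one hmR]; exact hm1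
  rcases Nat.eq_zero_or_pos n with h0 | h0
  · subst h0
    simp
  · obtain ⟨n, rfl⟩ : ∃ k, n = k + 1 := ⟨n - 1, by omega⟩
    have h := d1_Ioc m hm 0 n r (Nat.zero_le _)
    have sub : ((Ioc 0 n).filter fun t => t ≡ r [MOD m]) ⊆ ((range (n+1)).filter fun t => t ≡ r [MOD m]) := by
      intro t ht
      simp only [mem_filter, mem_Ioc, mem_range] at ht ⊢
      exact ⟨by omega, ht.2⟩
    have c1 := card_le_card sub
    have c1' : (((Ioc 0 n).filter fun t => t ≡ r [MOD m]).card : ℝ) ≤ (((range (n+1)).filter fun t => t ≡ r [MOD m]).card : ℝ) := by exact_mod_cast c1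
    have e : ((n + 1 : ℕ) : ℝ) / m = (n : ℝ) / m + 1 / m := by push_cast; ring
    simp only [Nat.cast_zero, sub_zero] at h
    rw [e]
    linarith

open scoped Classical in
theorem pairs_count2 (m : ℕ) (hm : 0 < m) (c : ℝ) (hc : 0 < c) : ∃ U0 : ℕ, ∀ U ≥ U0, ∀ (B : Set ℕ) (w r1 r2 : ℕ), r1 + w ≡ r2 [MOD m] →
    c * (U : ℝ) ≤ (((Icc 1 U).filter fun t => t ≡ w [MOD m] ∧ t ∈ B).card : ℝ) →
    c ^ 2 / (16 * (m : ℝ)) * (U : ℝ) ^ 2 ≤ (((range U ×ˢ range U).filter fun x =>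
      x.1 ≡ r1 [MOD m] ∧ x.2 ≡ r2 [MOD m] ∧ x.1 < x.2 ∧ x.2 - x.1 ∈ B).card : ℝ) := by
  refine ⟨⌈8 * (m : ℝ) / c⌉₊, ?_⟩
  intro U hU B w r1 r2 hr hcnt
  have hmR : (0 : ℝ) < m := by exact_mod_cast hm
  have hm1 : (1 : ℝ) ≤ m := by exact_mod_cast hm
  have hU' : 8 * (m : ℝ) ≤ c * U := by
    have h1 : 8 * (m : ℝ) / c ≤ U := (Nat.le_ceil _).trans (by exact_mod_cast hU)
    rw [div_le_iff₀ hc] at h1
    linarith
  have hU0 : (0 : ℝ) ≤ U := Nat.cast_nonneg U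
  set D := (Icc 1 U).filter fun t => (t ≡ w [MOD m] ∧ t ∈ B) ∧ (t : ℝ) ≤ (1 - c / 2) * U with hD
  -- the cardinality of D
  have hDc : c * U / 2 - 1 ≤ (D.card : ℝ) := by
    have sub : ((Icc 1 U).filter fun t => t ≡ w [MOD m] ∧ t ∈ B) ⊆ D ∪ Ioc ⌊(1 - c / 2) * (U : ℝ)⌋₊ U := by
      intro t ht
      simp only [hD, mem_filter, mem_Icc, mem_union, mem_Ioc] at ht ⊢
      by_cases h : (t : ℝ) ≤ (1 - c / 2) * U
      · left; exact ⟨ht.1, ht.2, h⟩
      · right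
        push Not at h
        refine ⟨?_, ht.1.2⟩
        rcases le_or_gt 0 ((1 - c / 2) * (U : ℝ)) with h0 | h0
        · exact (Nat.floor_lt h0).mpr h
        · rw [Nat.floor_of_nonpos h0.le]; omega
    have c1 := (card_le_card sub).trans (card_union_le _ _)
    rw [Nat.card_Ioc] at c1
    have c1' : (((Icc 1 U).filter fun t => t ≡ w [MOD m] ∧ t ∈ B).card : ℝ) ≤
        (D.card : ℝ) + ((U - ⌊(1 - c / 2) * (U : ℝ)⌋₊ : ℕ) : ℝ) := by exact_mod_cast c1
    have h2 : ((U - ⌊(1 - c / 2) * (U : ℝ)⌋₊ : ℕ) : ℝ) ≤ c * U / 2 + 1 := by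
      have h3 := Nat.lt_floor_add_one ((1 - c / 2) * (U : ℝ))
      rcases Nat.le_total ⌊(1 - c / 2) * (U : ℝ)⌋₊ U with h4 | h4
      · rw [Nat.cast_sub h4]
        linarith
      · rw [Nat.sub_eq_zero_of_le h4]
        have : 0 ≤ c * U := by positivity
        push_cast
        linarith
    linarith
  -- the fibres
  have hfib : ∀ d ∈ D, c * U / (2 * m) - 2 ≤ (((range (U - d)).filter fun a => a ≡ r1 [MOD m]).card : ℝ) := by
    intro d hd
    simp only [hD, mem_filter, mem_Icc] at hd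
    refine le_trans ?_ (d1_range m hm (U - d) r1)
    rw [Nat.cast_sub hd.1.2]
    have h1 : c * U / 2 ≤ (U : ℝ) - d := by linarith [hd.2.2]
    have h2 : c * U / 2 / m ≤ ((U : ℝ) - d) / m := div_le_div_of_nonneg_right h1 hmR.le
    rw [div_div] at h2
    linarith
  -- the injection
  have hinj : (D.sigma fun d => (range (U - d)).filter fun a => a ≡ r1 [MOD m]).card ≤
      ((range U ×ˢ range U).filter fun x =>
      x.1 ≡ r1 [MOD m] ∧ x.2 ≡ r2 [MOD m] ∧ x.1 < x.2 ∧ x.2 - x.1 ∈ B).card := by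
    refine card_le_card_of_injOn (fun x : (_ : ℕ) × ℕ => (x.2, x.2 + x.1)) ?_ ?_
    · rintro ⟨d, a⟩ hx
      simp only [hD, coe_sigma, Set.mem_sigma_iff, mem_coe, mem_filter, mem_Icc, mem_range] at hx
      simp only [mem_coe, mem_filter, mem_product, mem_range]
      obtain ⟨⟨⟨h1, h2⟩, ⟨h3, h4⟩, h5⟩, h6, h7⟩ := hx
      refine ⟨⟨by omega, by omega⟩, h7, ?_, by omega, ?_⟩
      · exact (Nat.ModEq.add h7 h3).trans hr
      · rw [Nat.add_sub_cancel_left]; exact h4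
    · rintro ⟨d, a⟩ _ ⟨d', a'⟩ _ h
      simp only [Prod.mk.injEq] at h
      obtain ⟨h1, h2⟩ := h
      subst h1
      have : d = d' := by omega
      subst this
      rfl
  have hcard : (D.card : ℝ) * (c * U / (2 * m) - 2) ≤
      ((D.sigma fun d => (range (U - d)).filter fun a => a ≡ r1 [MOD m]).card : ℝ) := by
    rw [card_sigma]
    push_cast
    rw [← nsmul_eq_mul, ← sum_const]
    exact sum_le_sum hfib
  have hinj' : ((D.sigma fun d => (range (U - d)).filter fun a => a ≡ r1 [MOD m]).card : ℝ) ≤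
      (((range U ×ˢ range U).filter fun x =>
      x.1 ≡ r1 [MOD m] ∧ x.2 ≡ r2 [MOD m] ∧ x.1 < x.2 ∧ x.2 - x.1 ∈ B).card : ℝ) := by exact_mod_cast hinj
  refine le_trans ?_ (hcard.trans hinj')
  have h1 : c * U / 4 ≤ (D.card : ℝ) := by linarith
  have h2 : c * U / (4 * m) ≤ c * U / (2 * m) - 2 := by
    have e : c * U / (2 * m) = c * U / (4 * m) + c * U / (4 * m) := by field_simp; ring
    rw [e]
    have : 2 ≤ c * U / (4 * m) := by
      rw [le_div_iff₀ (by positivity)]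
      linarith
    linarith
  have h3 : c ^ 2 / (16 * (m : ℝ)) * (U : ℝ) ^ 2 = c * U / 4 * (c * U / (4 * m)) := by
    field_simp; ring
  rw [h3]
  exact mul_le_mul h1 h2 (by positivity) (by linarith [show (0 : ℝ) ≤ D.card from Nat.cast_nonneg _])

end Pool.Agent.LibSP4
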