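import Pool.Agent.LibSP4.D2
import Pool.Agent.LibSP4.CDefs

/-!
Row D3 (MEDIUM): density of the good multiples of `g`. `B = {t | ¬ Good (g t)}`, `cnt j X = #{t ∈ [1,X] : t ≡ j mod 6, t ∈ B}`. FACT (D2 with `m = 6`, `r1 = 6 - u`, `r2 = 6 - v`, `r3 = 0`, `w = (u + 6 - v) % 6`, and `Cluster K` for
`H = g S1, g S2, g S3`, whose classes modulo `6` are `g r1, g r2, g r3`): if (`6 - u, 6 - v, 0` have the same parity or two of them are congruent modulo `3`) then the same holds for the multiples by `g`, so it is impossible that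
`∃ᶠ U, c U ≤ cnt w U` for some `c > 0` and `∃ᶠ X, (1 + 2 e)(X/6) ≤ cnt u X + cnt v X` for some `e > 0`. Suppose `∃ᶠ X, ∑_j cnt j X > (1/2 + ε) X`.
(A) `∃ c > 0, ∃ᶠ U, c U ≤ cnt 0 U`: FACT with `u = v = j`, `w = 0`: `∀ᶠ X, 2 cnt j X < (1 + 2e) X/6` for all `j`, so `∑ < (1/2 + e) X`, contradiction for `e = ε`.
(B) otherwise `cnt 0 X < c X` eventually for each `c > 0`. (B1) the same for `cnt 2`, `cnt 4`: `∑ ≤ 3 c X + 3 (X/6 + 1)`. (B2) `∃ᶠ U, c U ≤ cnt 2 U` (`w = 2`): FACT with `(u, v) = (4, 2)` and `(3, 1)`; or `∃ᶠ U, c U ≤ cnt 4 U` (`w = 4`): `(2, 4)` and `(1, 3)`.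
So `cnt 2 + cnt 4 < (1 + 2e) X/6`, `cnt 1 + cnt 3 < (1 + 2e) X/6`, `cnt 5 ≤ X/6 + 1`, `cnt 0 < c X` eventually: contradiction for small `e`, `c`.
-/

open Finset Filter

namespace Pool.Agent.LibSP4

open scoped Classical in
/-- the count -/
private noncomputable def D3c (B : Set ℕ) (j X : ℕ) : ℝ :=
  (((Icc 1 X).filter fun t => t ≡ j [MOD 6] ∧ t ∈ B).card : ℝ)

private theorem D3_le (B : Set ℕ) (j X : ℕ) : D3c B j X ≤ (X : ℝ) / 6 + 1 := by
  classical
  have h : ((Icc 1 X).filter fun t => t ≡ j [MOD 6] ∧ t ∈ B).card ≤ X / 6 + 1 := by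
    rw [← Finset.card_range (X / 6 + 1)]
    refine Finset.card_le_card_of_injOn (fun t => t / 6) ?_ ?_
    · intro t ht
      have ht' := (Finset.mem_filter.1 ht).1
      rw [Finset.mem_Icc] at ht'
      have : t / 6 ≤ X / 6 := Nat.div_le_div_right ht'.2
      show t / 6 ∈ (Finset.range (X / 6 + 1) : Set ℕ)
      rw [Finset.mem_coe, Finset.mem_range]
      omega
    · intro t ht t' ht' htt
      have e1 : t % 6 = j % 6 := (Finset.mem_filter.1 ht).2.1
      have e2 : t' % 6 = j % 6 := (Finset.mem_filter.1 ht').2.1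
      have e3 : t / 6 = t' / 6 := htt
      omega
  have h2 : ((X / 6 : ℕ) : ℝ) ≤ (X : ℝ) / 6 := Nat.cast_div_le
  have h3 : D3c B j X ≤ ((X / 6 + 1 : ℕ) : ℝ) := by
    unfold D3c
    exact_mod_cast h
  push_cast at h3
  linarith

open scoped Classical in
private theorem D3_sum (B : Set ℕ) (X : ℕ) : (((Icc 1 X).filter fun t => t ∈ B).card : ℝ) =
    D3c B 0 X + D3c B 1 X + D3c B 2 X + D3c B 3 X + D3c B 4 X + D3c B 5 X := by
  have h : ((Icc 1 X).filter fun t => t ∈ B).card =
      ∑ j ∈ Finset.range 6, ((Icc 1 X).filter fun t => t ≡ j [MOD 6] ∧ t ∈ B).card := by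
    rw [Finset.card_eq_sum_card_fiberwise (f := fun t => t % 6) (t := Finset.range 6)]
    · refine Finset.sum_congr rfl fun j hj => ?_
      rw [Finset.mem_range] at hj
      congr 1
      rw [Finset.filter_filter]
      refine Finset.filter_congr fun t _ => ?_
      constructor
      · rintro ⟨h1, h2⟩
        refine ⟨?_, h1⟩
        show t % 6 = j % 6
        rw [h2, Nat.mod_eq_of_lt hj]
      · rintro ⟨h1, h2⟩
        refine ⟨h2, ?_⟩
        have h3 : t % 6 = j % 6 := h1
        rw [h3, Nat.mod_eq_of_lt hj]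
    · intro t _
      show t % 6 ∈ (Finset.range 6 : Set ℕ)
      rw [Finset.mem_coe, Finset.mem_range]
      omega
  rw [h]
  unfold D3c
  push_cast
  simp only [Finset.sum_range_succ, Finset.sum_range_zero, zero_add]

private theorem D3_fin3 {P : Fin 3 → Fin 3 → Prop} (h01 : P 0 1) (h10 : P 1 0) (h02 : P 0 2)
    (h20 : P 2 0) (h12 : P 1 2) (h21 : P 2 1) : ∀ i j, i ≠ j → P i j := by
  intro i j hij
  fin_cases i <;> fin_cases j <;> first | exact absurd rfl hij | assumption

private theorem D3_mod {k g s r : ℕ} (h : s % k = r % k) : (g * s) % k = (g * r) % k :=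
  Nat.ModEq.mul_left g (show s ≡ r [MOD k] from h)

/-- the fact of the header -/
private theorem D3_fact (K : ℕ) (hK : Cluster K) (g : ℕ) (hg : 0 < g) (B : Set ℕ)
    (hB : ∀ t, t ∈ B ↔ ¬ Good (g * t)) (u v w r1 r2 : ℕ) (h12 : r1 + w ≡ r2 [MOD 6])
    (h13 : r1 + u ≡ 0 [MOD 6]) (h23 : r2 + v ≡ 0 [MOD 6])
    (hcl : (r1 % 2 = 0 ∧ r2 % 2 = 0) ∨ r1 % 3 = r2 % 3 ∨ r1 % 3 = 0 ∨ r2 % 3 = 0)
    {c e : ℝ} (hc : 0 < c) (he : 0 < e) (hP : ∃ᶠ U : ℕ in atTop, c * (U : ℝ) ≤ D3c B w U) :
    ∀ᶠ X : ℕ in atTop, D3c B u X + D3c B v X < (1 + 2 * e) * ((X : ℝ) / 6) := by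
  by_contra hcon
  rw [not_eventually] at hcon
  have hX : ∃ᶠ X : ℕ in atTop, (1 + 2 * e) * ((X : ℝ) / (6 : ℕ)) ≤ D3c B u X + D3c B v X := by
    refine hcon.mono fun X hX => ?_
    rw [not_lt] at hX
    push_cast
    exact hX
  obtain ⟨S1, S2, S3, c1, c2, c3, m1, m2, m3, p1, p2, p3⟩ :=
    bad_sets2 6 (by norm_num) c e hc he B u v w r1 r2 0 h12 h13 h23 hP hX K
  have hinj : Function.Injective fun s => g * s := fun a b h => Nat.eq_of_mul_eq_mul_left hg h
  obtain ⟨i, j, hij, h, hh, h', hh', hlt, hgood⟩ := hK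
    ![S1.image (fun s => g * s), S2.image (fun s => g * s), S3.image (fun s => g * s)]
    ![(g * r1) % 6, (g * r2) % 6, (g * 0) % 6] (by
      intro i
      fin_cases i
      · show K ≤ (S1.image (fun s => g * s)).card
        rw [Finset.card_image_of_injective _ hinj]
        exact c1
      · show K ≤ (S2.image (fun s => g * s)).card
        rw [Finset.card_image_of_injective _ hinj]
        exact c2
      · show K ≤ (S3.image (fun s => g * s)).card
        rw [Finset.card_image_of_injective _ hinj]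
        exact c3) (by
      intro i
      fin_cases i
      · intro h hh
        obtain ⟨s, hs, rfl⟩ := Finset.mem_image.1 hh
        exact D3_mod (m1 s hs)
      · intro h hh
        obtain ⟨s, hs, rfl⟩ := Finset.mem_image.1 hh
        exact D3_mod (m2 s hs)
      · intro h hh
        obtain ⟨s, hs, rfl⟩ := Finset.mem_image.1 hh
        exact D3_mod (m3 s hs)) (by
      have q2 : ∀ x, x % 6 % 2 = x % 2 := fun x => by omega
      have q3 : ∀ x, x % 6 % 3 = x % 3 := fun x => by omega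
      rcases hcl with ⟨a1, a2⟩ | a | a | a
      · left
        have b1 : (g * r1) % 6 % 2 = 0 := by rw [q2, Nat.mul_mod, a1]; simp
        have b2 : (g * r2) % 6 % 2 = 0 := by rw [q2, Nat.mul_mod, a2]; simp
        have b3 : (g * 0) % 6 % 2 = 0 := by simp
        intro i j
        have hall : ∀ i : Fin 3, (![(g * r1) % 6, (g * r2) % 6, (g * 0) % 6] i) % 2 = 0 := by
          intro i
          fin_cases i
          · exact b1
          · exact b2
          · exact b3
        rw [hall i, hall j]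
      · right
        refine ⟨0, 1, by decide, ?_⟩
        show (g * r1) % 6 % 3 = (g * r2) % 6 % 3
        rw [q3, q3]
        exact D3_mod a
      · right
        refine ⟨0, 2, by decide, ?_⟩
        show (g * r1) % 6 % 3 = (g * 0) % 6 % 3
        rw [q3, q3]
        exact D3_mod a
      · right
        refine ⟨1, 2, by decide, ?_⟩
        show (g * r2) % 6 % 3 = (g * 0) % 6 % 3
        rw [q3, q3]
        exact D3_mod a)
  have hfin : ∀ s s' : ℕ, g * s < g * s' → Good (g * s' - g * s) → ¬ (s' - s ∈ B) := by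
    intro s s' _ h2 h3
    rw [← Nat.mul_sub] at h2
    exact (hB _).1 h3 h2
  have key : ∀ i j : Fin 3, i ≠ j → ∀ h ∈ (![S1.image (fun s => g * s), S2.image (fun s => g * s),
      S3.image (fun s => g * s)] i), ∀ h' ∈ (![S1.image (fun s => g * s), S2.image (fun s => g * s),
      S3.image (fun s => g * s)] j), h < h' → ¬ Good (h' - h) := by
    refine D3_fin3 ?_ ?_ ?_ ?_ ?_ ?_
    · intro h hh h' hh' hlt hgood
      obtain ⟨s, hs, rfl⟩ := Finset.mem_image.1 hh
      obtain ⟨s', hs', rfl⟩ := Finset.mem_image.1 hh'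
      exact hfin s s' hlt hgood (p1 s hs s' hs').2
    · intro h hh h' hh' hlt hgood
      obtain ⟨s, hs, rfl⟩ := Finset.mem_image.1 hh
      obtain ⟨s', hs', rfl⟩ := Finset.mem_image.1 hh'
      have h1 := Nat.lt_of_mul_lt_mul_left hlt
      have h2 := (p1 s' hs' s hs).1
      omega
    · intro h hh h' hh' hlt hgood
      obtain ⟨s, hs, rfl⟩ := Finset.mem_image.1 hh
      obtain ⟨s', hs', rfl⟩ := Finset.mem_image.1 hh'
      exact hfin s s' hlt hgood (p2 s hs s' hs').2
    · intro h hh h' hh' hlt hgood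
      obtain ⟨s, hs, rfl⟩ := Finset.mem_image.1 hh
      obtain ⟨s', hs', rfl⟩ := Finset.mem_image.1 hh'
      have h1 := Nat.lt_of_mul_lt_mul_left hlt
      have h2 := (p2 s' hs' s hs).1
      omega
    · intro h hh h' hh' hlt hgood
      obtain ⟨s, hs, rfl⟩ := Finset.mem_image.1 hh
      obtain ⟨s', hs', rfl⟩ := Finset.mem_image.1 hh'
      exact hfin s s' hlt hgood (p3 s hs s' hs').2
    · intro h hh h' hh' hlt hgood
      obtain ⟨s, hs, rfl⟩ := Finset.mem_image.1 hh
      obtain ⟨s', hs', rfl⟩ := Finset.mem_image.1 hh'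
      have h1 := Nat.lt_of_mul_lt_mul_left hlt
      have h2 := (p3 s' hs' s hs).1
      omega
  exact key i j hij h hh h' hh' hlt hgood

open scoped Classical in
theorem density_all (K : ℕ) (hK : Cluster K) (g : ℕ) (hg : 0 < g) (ε : ℝ) (hε : 0 < ε) : ∀ᶠ X : ℕ in atTop,
    (1 / 2 - ε) * (X : ℝ) ≤ (((Icc 1 X).filter fun t => Good (g * t)).card : ℝ) := by
  by_contra hcon
  rw [not_eventually] at hcon
  obtain ⟨B, hB⟩ : ∃ B : Set ℕ, ∀ t, t ∈ B ↔ ¬ Good (g * t) := ⟨{t | ¬ Good (g * t)}, fun _ => Iff.rfl⟩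
  have hfr : ∃ᶠ X : ℕ in atTop, (1 / 2 + ε) * (X : ℝ) <
      D3c B 0 X + D3c B 1 X + D3c B 2 X + D3c B 3 X + D3c B 4 X + D3c B 5 X := by
    refine hcon.mono fun X hX => ?_
    rw [not_le] at hX
    rw [← D3_sum]
    have h7 := Finset.card_filter_add_card_filter_not (s := Icc 1 X) (fun t => Good (g * t))
    rw [Nat.card_Icc] at h7
    have h8 : ((Icc 1 X).filter fun t => t ∈ B) = ((Icc 1 X).filter fun t => ¬ Good (g * t)) :=
      Finset.filter_congr fun t _ => hB t
    rw [h8]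
    have h9 : (((Icc 1 X).filter fun t => Good (g * t)).card : ℝ) +
        (((Icc 1 X).filter fun t => ¬ Good (g * t)).card : ℝ) = X := by
      have : X + 1 - 1 = X := by omega
      rw [this] at h7
      exact_mod_cast h7
    linarith
  have hbig : ∀ C : ℝ, ∀ᶠ X : ℕ in atTop, C ≤ (X : ℝ) := fun C =>
    tendsto_natCast_atTop_atTop.eventually_ge_atTop C
  have fact := D3_fact K hK g hg B hB
  by_cases hA : ∃ c : ℝ, 0 < c ∧ ∃ᶠ U : ℕ in atTop, c * (U : ℝ) ≤ D3c B 0 U
  · obtain ⟨c, hc, hP⟩ := hA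
    have f0 := fact 0 0 0 6 6 (by decide) (by decide) (by decide) (Or.inr (Or.inl rfl)) hc hε hP
    have f1 := fact 1 1 0 5 5 (by decide) (by decide) (by decide) (Or.inr (Or.inl rfl)) hc hε hP
    have f2 := fact 2 2 0 4 4 (by decide) (by decide) (by decide) (Or.inr (Or.inl rfl)) hc hε hP
    have f3 := fact 3 3 0 3 3 (by decide) (by decide) (by decide) (Or.inr (Or.inl rfl)) hc hε hP
    have f4 := fact 4 4 0 2 2 (by decide) (by decide) (by decide) (Or.inr (Or.inl rfl)) hc hε hP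
    have f5 := fact 5 5 0 1 1 (by decide) (by decide) (by decide) (Or.inr (Or.inl rfl)) hc hε hP
    refine hfr ?_
    filter_upwards [f0, f1, f2, f3, f4, f5] with X g0 g1 g2 g3 g4 g5
    intro h
    linarith
  · have h0 : ∀ c : ℝ, 0 < c → ∀ᶠ U : ℕ in atTop, D3c B 0 U < c * (U : ℝ) := by
      intro c hc
      by_contra hn
      rw [not_eventually] at hn
      exact hA ⟨c, hc, hn.mono fun U hU => not_lt.1 hU⟩
    by_cases h2 : ∃ c : ℝ, 0 < c ∧ ∃ᶠ U : ℕ in atTop, c * (U : ℝ) ≤ D3c B 2 U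
    · obtain ⟨c, hc, hP⟩ := h2
      have f0 := fact 4 2 2 2 4 (by decide) (by decide) (by decide) (Or.inl ⟨rfl, rfl⟩) hc
        (half_pos hε) hP
      have f1 := fact 3 1 2 3 5 (by decide) (by decide) (by decide) (Or.inr (Or.inr (Or.inl rfl))) hc
        (half_pos hε) hP
      refine hfr ?_
      filter_upwards [f0, f1, h0 (ε / 3) (by linarith), hbig (3 / ε)] with X g0 g1 g2 g3
      intro h
      have h5 := D3_le B 5 X
      rw [div_le_iff₀ hε] at g3
      linarith
    · have h2' : ∀ c : ℝ, 0 < c → ∀ᶠ U : ℕ in atTop, D3c B 2 U < c * (U : ℝ) := by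
        intro c hc
        by_contra hn
        rw [not_eventually] at hn
        exact h2 ⟨c, hc, hn.mono fun U hU => not_lt.1 hU⟩
      by_cases h4 : ∃ c : ℝ, 0 < c ∧ ∃ᶠ U : ℕ in atTop, c * (U : ℝ) ≤ D3c B 4 U
      · obtain ⟨c, hc, hP⟩ := h4
        have f0 := fact 2 4 4 4 2 (by decide) (by decide) (by decide) (Or.inl ⟨rfl, rfl⟩) hc
          (half_pos hε) hP
        have f1 := fact 1 3 4 5 3 (by decide) (by decide) (by decide) (Or.inr (Or.inr (Or.inr rfl))) hc
          (half_pos hε) hP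
        refine hfr ?_
        filter_upwards [f0, f1, h0 (ε / 3) (by linarith), hbig (3 / ε)] with X g0 g1 g2 g3
        intro h
        have h5 := D3_le B 5 X
        rw [div_le_iff₀ hε] at g3
        linarith
      · have h4' : ∀ c : ℝ, 0 < c → ∀ᶠ U : ℕ in atTop, D3c B 4 U < c * (U : ℝ) := by
          intro c hc
          by_contra hn
          rw [not_eventually] at hn
          exact h4 ⟨c, hc, hn.mono fun U hU => not_lt.1 hU⟩
        refine hfr ?_
        filter_upwards [h0 (ε / 6) (by linarith), h2' (ε / 6) (by linarith), h4' (ε / 6) (by linarith),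
          hbig (6 / ε)] with X g0 g1 g2 g3
        intro h
        have k1 := D3_le B 1 X
        have k3 := D3_le B 3 X
        have k5 := D3_le B 5 X
        rw [div_le_iff₀ hε] at g3
        linarith

end Pool.Agent.LibSP4
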