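import Pool.Agent.LibSP4.CDefs

/-!
Row D4 (SHORT/MEDIUM): bounded gaps and a uniform bound.
(gaps) Suppose that for every `C` there is `x` such that no `t ∈ (x, x + C]` has `Good (g t)`. Put `L = 6 K` (`K ≥ 1`, enlarge `K`). `x1` for `C = 3 L`, `Y = x1 + 2 L`, `x2` for `C = 3 Y`. `H 0 = {g s : s ∈ [1, L], 6 ∣ s}`,
`H 1 = {g s : s ∈ (x1 + L, x1 + 2 L], 6 ∣ s}`, `H 2 = {g s : s ∈ (x2 + Y, x2 + 2 Y], 6 ∣ s}`: all in the class `0` modulo `6`, at least `K` elements each, and all cross differences are `g t` with `t` in one of the two gaps. Contradiction to `Cluster K`.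
(uniform) For even `g`: `H i = {g (i + 3 j) : j < K}`, class `g i` modulo `6` (`g` is even, so `g (i + 3j) ≡ g i` modulo `6`), all even; the cross differences are `g t` with `3 ∤ t`, `t < 3 K`.
-/

open Finset Filter

namespace Pool.Agent.LibSP4

theorem gaps (K : ℕ) (hK : Cluster K) (g : ℕ) (hg : 0 < g) : ∃ C : ℕ, ∀ x : ℕ, ∃ t, x < t ∧ t ≤ x + C ∧ Good (g * t) := by
  by_contra hcon
  push Not at hcon
  obtain ⟨x1, hx1⟩ := hcon (12 * K + 6)
  set m1 : ℕ := x1 / 6 + K + 1 with hm1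
  obtain ⟨x2, hx2⟩ := hcon (12 * (m1 + K) + 6)
  set m2 : ℕ := x2 / 6 + (m1 + K) + 1 with hm2
  have q1 : x1 < 6 * (x1 / 6) + 6 ∧ 6 * (x1 / 6) ≤ x1 := by omega
  have q2 : x2 < 6 * (x2 / 6) + 6 ∧ 6 * (x2 / 6) ≤ x2 := by omega
  have key : ∀ u v : ℕ, g * (6 * u) < g * (6 * v) → g * (6 * v) - g * (6 * u) = g * (6 * (v - u)) ∧ u < v := by
    intro u v h
    have h1 : 6 * u < 6 * v := lt_of_mul_lt_mul_left h (Nat.zero_le g)
    refine ⟨?_, by omega⟩
    rw [← Nat.mul_sub, ← Nat.mul_sub]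
  obtain ⟨i, j, hij, h, hh, h', hh', hlt, hgood⟩ := hK
    (fun i => (range K).image (fun j => g * (6 * (![0, m1, m2] i + j)))) (fun _ => 0)
    (by
      intro i
      rw [card_image_of_injective, card_range]
      intro a b hab
      have h1 : 6 * (![0, m1, m2] i + a) = 6 * (![0, m1, m2] i + b) := Nat.eq_of_mul_eq_mul_left hg hab
      omega)
    (by
      intro i h hh
      obtain ⟨j, -, rfl⟩ := mem_image.mp hh
      have : g * (6 * (![0, m1, m2] i + j)) = 6 * (g * (![0, m1, m2] i + j)) := by ring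
      rw [this]
      exact Nat.mul_mod_right _ _)
    (Or.inl fun _ _ => rfl)
  obtain ⟨a, ha, rfl⟩ := mem_image.mp hh
  obtain ⟨b, hb, rfl⟩ := mem_image.mp hh'
  rw [mem_range] at ha hb
  obtain ⟨e1, e2⟩ := key _ _ hlt
  rw [e1] at hgood
  have f1 : ∀ t, x1 < 6 * t → 6 * t ≤ x1 + (12 * K + 6) → ¬ Good (g * (6 * t)) := fun t => hx1 (6 * t)
  have f2 : ∀ t, x2 < 6 * t → 6 * t ≤ x2 + (12 * (m1 + K) + 6) → ¬ Good (g * (6 * t)) := fun t => hx2 (6 * t)
  fin_cases i <;> fin_cases j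
  · exact hij rfl
  · refine f1 _ ?_ ?_ hgood
    · simp at e2 ⊢
      omega
    · simp at e2 ⊢
      omega
  · refine f2 _ ?_ ?_ hgood
    · simp at e2 ⊢
      omega
    · simp at e2 ⊢
      omega
  · simp at e2
    omega
  · exact hij rfl
  · refine f2 _ ?_ ?_ hgood
    · simp at e2 ⊢
      omega
    · simp at e2 ⊢
      omega
  · simp at e2
    omega
  · simp at e2
    omega
  · exact hij rfl

theorem uniform (K : ℕ) (hK : Cluster K) (g : ℕ) (hg : 0 < g) (hg2 : Even g) : ∃ t, 0 < t ∧ t ≤ 3 * K ∧ ¬ 3 ∣ t ∧ Good (g * t) := by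
  obtain ⟨r, hr⟩ := hg2
  obtain ⟨i, j, hij, h, hh, h', hh', hlt, hgood⟩ := hK
    (fun i => (range K).image (fun j => g * ((i : ℕ) + 3 * j))) (fun i => (g * (i : ℕ)) % 6)
    (by
      intro i
      rw [card_image_of_injective, card_range]
      intro a b hab
      have h1 : (i : ℕ) + 3 * a = (i : ℕ) + 3 * b := Nat.eq_of_mul_eq_mul_left hg hab
      omega)
    (by
      intro i h hh
      obtain ⟨j, -, rfl⟩ := mem_image.mp hh
      have : g * ((i : ℕ) + 3 * j) = g * (i : ℕ) + 6 * (r * j) := by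
        rw [hr]
        ring
      rw [this]
      exact Nat.add_mul_mod_self_left _ _ _)
    (Or.inl fun i j => by
      have e : ∀ k : ℕ, (g * k) % 6 % 2 = 0 := by
        intro k
        have : g * k = 2 * (r * k) := by
          rw [hr]
          ring
        rw [this]
        omega
      rw [e, e])
  obtain ⟨a, ha, rfl⟩ := mem_image.mp hh
  obtain ⟨b, hb, rfl⟩ := mem_image.mp hh'
  rw [mem_range] at ha hb
  have h1 : (i : ℕ) + 3 * a < (j : ℕ) + 3 * b := lt_of_mul_lt_mul_left hlt (Nat.zero_le g)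
  have hi := i.2
  have hj := j.2
  have hij' : (i : ℕ) ≠ (j : ℕ) := fun h => hij (Fin.ext h)
  rw [← Nat.mul_sub] at hgood
  refine ⟨_, ?_, ?_, ?_, hgood⟩
  · omega
  · omega
  · omega

end Pool.Agent.LibSP4
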