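import Pool.Agent.LibSP4.C8
import Pool.Agent.LibSP4.CDefs

/-!
Row D5 (SHORT/MEDIUM): the refined densities for even `g`. This is C9 (delivered by helper21, file SP4_C9.lean) with the new cluster hypothesis: for even `g` all sets `H` consist of even numbers, so `Cluster K` applies to any three classes modulo `6`.
Copy the proof of C9.
-/

open Finset Filter

namespace Pool.Agent.LibSP4

/-- the end of both cases -/
private theorem D5_fin (K : ℕ) (hK : Cluster K)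
    (g : ℕ) (hg : 0 < g) (hg2 : Even g) (B : Set ℕ) (S : Fin 3 → Finset ℕ) (hc : ∀ i, K ≤ (S i).card)
    (h3 : (∀ i, ∀ s ∈ S i, (g * s) % 3 = (i : ℕ)) ∨ (∃ c, ∀ i, ∀ s ∈ S i, (g * s) % 3 = c))
    (hS : ∀ i j, i ≠ j → ∀ s ∈ S i, ∀ s' ∈ S j, s < s' → s' - s ∈ B) : ∃ t ∈ B, Good (g * t) := by
  obtain ⟨r, hr⟩ : ∃ r : Fin 3 → ℕ, ∀ i, ∀ s ∈ S i, (g * s) % 3 = r i := by
    rcases h3 with h3 | ⟨c, h3⟩
    · exact ⟨fun i => (i : ℕ), h3⟩
    · exact ⟨fun _ => c, h3⟩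
  obtain ⟨i, j, hij, h, hh, h', hh', hlt, hgood⟩ := hK (fun i => (S i).image (fun s => g * s))
    (fun i => (4 * r i) % 6) (by
      intro i
      rw [Finset.card_image_of_injective _ (fun a b h => Nat.eq_of_mul_eq_mul_left hg h)]
      exact hc i)
    (by
      intro i h hh
      obtain ⟨s, hs, rfl⟩ := Finset.mem_image.1 hh
      have h1 := hr i s hs
      have h2 : (g * s) % 2 = 0 := by
        obtain ⟨r, hr⟩ := hg2
        rw [hr, ← two_mul, mul_assoc]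
        exact Nat.mul_mod_right 2 _
      change (g * s) % 6 = (4 * r i) % 6
      omega)
    (Or.inl (by
      intro i j
      omega))
  obtain ⟨s, hs, rfl⟩ := Finset.mem_image.1 hh
  obtain ⟨s', hs', rfl⟩ := Finset.mem_image.1 hh'
  have hlt' : s < s' := by
    change g * s < g * s' at hlt
    exact Nat.lt_of_mul_lt_mul_left hlt
  refine ⟨s' - s, hS i j hij s hs s' hs' hlt', ?_⟩
  rw [Nat.mul_sub]
  exact hgood

private theorem D5_pairs {B : Set ℕ} {S1 S2 S3 : Finset ℕ}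
    (h1 : ∀ a ∈ S1, ∀ b ∈ S2, (a < b → b - a ∈ B) ∧ (b < a → a - b ∈ B))
    (h2 : ∀ a ∈ S1, ∀ N ∈ S3, a < N ∧ N - a ∈ B) (h3 : ∀ b ∈ S2, ∀ N ∈ S3, b < N ∧ N - b ∈ B)
    (s s' : ℕ) (hlt : s < s')
    (h : (s ∈ S1 ∧ s' ∈ S2) ∨ (s ∈ S2 ∧ s' ∈ S1) ∨ (s ∈ S1 ∧ s' ∈ S3) ∨ (s ∈ S3 ∧ s' ∈ S1) ∨
      (s ∈ S2 ∧ s' ∈ S3) ∨ (s ∈ S3 ∧ s' ∈ S2)) : s' - s ∈ B := by
  rcases h with h | h | h | h | h | h
  · exact (h1 s h.1 s' h.2).1 hlt
  · exact (h1 s' h.2 s h.1).2 hlt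
  · exact (h2 s h.1 s' h.2).2
  · have := (h2 s' h.2 s h.1).1; omega
  · exact (h3 s h.1 s' h.2).2
  · have := (h3 s' h.2 s h.1).1; omega

private theorem D5_fin3 {P : Fin 3 → Fin 3 → Prop} (h01 : P 0 1) (h10 : P 1 0) (h02 : P 0 2) (h20 : P 2 0)
    (h12 : P 1 2) (h21 : P 2 1) : ∀ i j, i ≠ j → P i j := by
  intro i j hij
  fin_cases i <;> fin_cases j <;> first | exact absurd rfl hij | assumption

open scoped Classical in
private theorem D5_B (K : ℕ) (hK : Cluster K) (g : ℕ) (hg : 0 < g) (hg2 : Even g) (ε : ℝ) (hε : 0 < ε) :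
    ∀ᶠ X : ℕ in atTop,
    (1 / 2 - ε) * ((X : ℝ) / 3) ≤ (((Icc 1 X).filter fun t => 3 ∣ t ∧ Good (g * t)).card : ℝ) := by
  by_contra hcon
  rw [not_eventually] at hcon
  obtain ⟨B, hBm⟩ : ∃ B : Set ℕ, ∀ t, t ∈ B ↔ ¬ Good (3 * g * t) := ⟨{t | ¬ Good (3 * g * t)}, fun _ => Iff.rfl⟩
  have hcard : ∀ X : ℕ, ((Icc 1 X).filter fun t => 3 ∣ t ∧ Good (g * t)).card +
      ((Icc 1 (X / 3)).filter fun t => t ∈ B).card = X / 3 := by
    intro X
    have e1 : ((Icc 1 X).filter fun t => 3 ∣ t ∧ Good (g * t)) =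
        ((Icc 1 (X / 3)).filter fun t => Good (3 * g * t)).image (fun s => 3 * s) := by
      ext t
      rw [Finset.mem_filter, Finset.mem_image, Finset.mem_Icc]
      constructor
      · rintro ⟨⟨ha, hb⟩, ⟨s, rfl⟩, hgood⟩
        refine ⟨s, ?_, rfl⟩
        rw [Finset.mem_filter, Finset.mem_Icc]
        refine ⟨⟨by omega, by omega⟩, ?_⟩
        have : g * (3 * s) = 3 * g * s := by ring
        rwa [this] at hgood
      · rintro ⟨s, hs, rfl⟩
        rw [Finset.mem_filter, Finset.mem_Icc] at hs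
        refine ⟨⟨by omega, by omega⟩, Dvd.intro _ rfl, ?_⟩
        have : g * (3 * s) = 3 * g * s := by ring
        rw [this]; exact hs.2
    rw [e1, Finset.card_image_of_injective _ (fun a b h => Nat.eq_of_mul_eq_mul_left (by norm_num : 0 < 3) h)]
    have h7 := Finset.card_filter_add_card_filter_not (s := Icc 1 (X / 3)) (fun t => Good (3 * g * t))
    rw [Nat.card_Icc] at h7
    have h8 : ((Icc 1 (X / 3)).filter fun t => t ∈ B) =
        ((Icc 1 (X / 3)).filter fun t => ¬ Good (3 * g * t)) :=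
      Finset.filter_congr fun t _ => hBm t
    rw [h8]
    omega
  have hfr : ∃ᶠ X : ℕ in atTop, (1 + 2 * (ε / 2)) * ((X : ℝ) / (1 : ℕ)) ≤
      (((Icc 1 X).filter fun t => t ≡ 0 [MOD 1] ∧ t ∈ B).card : ℝ) +
      (((Icc 1 X).filter fun t => t ≡ 0 [MOD 1] ∧ t ∈ B).card : ℝ) := by
    have htend : Tendsto (fun X : ℕ => X / 3) atTop atTop :=
      Nat.tendsto_div_const_atTop (by norm_num)
    refine htend.frequently ((hcon.and_eventually (eventually_ge_atTop ⌈6 / ε⌉₊)).mono ?_)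
    rintro X ⟨hX, hX2⟩
    rw [not_le] at hX
    have hX3 : 6 / ε ≤ X := (Nat.le_ceil _).trans (by exact_mod_cast hX2)
    rw [div_le_iff₀ hε] at hX3
    have e2 : ((Icc 1 (X / 3)).filter fun t => t ≡ 0 [MOD 1] ∧ t ∈ B) =
        ((Icc 1 (X / 3)).filter fun t => t ∈ B) := by
      refine Finset.filter_congr fun t _ => ?_
      exact ⟨fun h => h.2, fun h => ⟨Nat.modEq_one, h⟩⟩
    rw [e2]
    have h3 := hcard X
    have h4 : (((Icc 1 X).filter fun t => 3 ∣ t ∧ Good (g * t)).card : ℝ) +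
      (((Icc 1 (X / 3)).filter fun t => t ∈ B).card : ℝ) = ((X / 3 : ℕ) : ℝ) := by
      exact_mod_cast h3
    have h5 : ((X / 3 : ℕ) : ℝ) ≤ (X : ℝ) / 3 := Nat.cast_div_le
    have h6 : (X : ℝ) / 3 - 1 ≤ ((X / 3 : ℕ) : ℝ) := by
      have h7 : X < 3 * (X / 3) + 3 := by omega
      have h8 : (X : ℝ) < 3 * ((X / 3 : ℕ) : ℝ) + 3 := by exact_mod_cast h7
      linarith
    have h9 : ε / 2 * ((X / 3 : ℕ) : ℝ) ≤ ε / 2 * ((X : ℝ) / 3) :=
      mul_le_mul_of_nonneg_left h5 (by linarith)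
    push_cast
    rw [div_one]
    nlinarith
  obtain ⟨S1, S2, S3, c1, c2, c3, -, -, -, p1, p2, p3⟩ := bad_sets 1 (by norm_num) (ε / 2) (by linarith)
    B 0 0 0 0 0 rfl rfl rfl rfl hfr K
  obtain ⟨t, ht, ht2⟩ := D5_fin K hK (3 * g) (by omega) (hg2.mul_left 3) B
    ![S1, S2, S3] (by
      intro i
      fin_cases i
      · exact c1
      · exact c2
      · exact c3) (Or.inr ⟨0, by
      intro i s _
      rw [mul_assoc]
      exact Nat.mul_mod_right 3 _⟩) (by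
      have hp := fun s s' hlt h => D5_pairs p1 p2 p3 s s' hlt h
      refine D5_fin3 ?_ ?_ ?_ ?_ ?_ ?_
      · intro s hs s' hs' hlt; exact hp s s' hlt (Or.inl ⟨hs, hs'⟩)
      · intro s hs s' hs' hlt; exact hp s s' hlt (Or.inr (Or.inl ⟨hs, hs'⟩))
      · intro s hs s' hs' hlt; exact hp s s' hlt (Or.inr (Or.inr (Or.inl ⟨hs, hs'⟩)))
      · intro s hs s' hs' hlt; exact hp s s' hlt (Or.inr (Or.inr (Or.inr (Or.inl ⟨hs, hs'⟩))))
      · intro s hs s' hs' hlt; exact hp s s' hlt (Or.inr (Or.inr (Or.inr (Or.inr (Or.inl ⟨hs, hs'⟩)))))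
      · intro s hs s' hs' hlt; exact hp s s' hlt (Or.inr (Or.inr (Or.inr (Or.inr (Or.inr ⟨hs, hs'⟩))))))
  exact (hBm t).1 ht ht2

open scoped Classical in
private theorem D5_A (K : ℕ) (hK : Cluster K) (g : ℕ) (hg : 0 < g) (hg2 : Even g) (ε : ℝ) (hε : 0 < ε) :
    ∀ᶠ X : ℕ in atTop,
    (1 / 2 - ε) * (2 * (X : ℝ) / 3) ≤ (((Icc 1 X).filter fun t => ¬ 3 ∣ t ∧ Good (g * t)).card : ℝ) := by
  by_contra hcon
  rw [not_eventually] at hcon
  obtain ⟨B, hBm⟩ : ∃ B : Set ℕ, ∀ t, t ∈ B ↔ ¬ Good (g * t) := ⟨{t | ¬ Good (g * t)}, fun _ => Iff.rfl⟩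
  have hcard : ∀ X : ℕ, X ≤ ((Icc 1 X).filter fun t => ¬ 3 ∣ t ∧ Good (g * t)).card +
      (((Icc 1 X).filter fun t => t ≡ 2 [MOD 3] ∧ t ∈ B).card +
      ((Icc 1 X).filter fun t => t ≡ 1 [MOD 3] ∧ t ∈ B).card) + X / 3 := by
    intro X
    have e3 : (Icc 1 X) ⊆ (((Icc 1 X).filter fun t => ¬ 3 ∣ t ∧ Good (g * t)) ∪
        (((Icc 1 X).filter fun t => t ≡ 2 [MOD 3] ∧ t ∈ B) ∪
        ((Icc 1 X).filter fun t => t ≡ 1 [MOD 3] ∧ t ∈ B))) ∪
        (Icc 1 (X / 3)).image (fun s => 3 * s) := by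
      intro t ht
      have ht' := Finset.mem_Icc.1 ht
      rw [Finset.mem_union, Finset.mem_union, Finset.mem_union, Finset.mem_filter, Finset.mem_filter,
        Finset.mem_filter, Finset.mem_image]
      by_cases h3 : 3 ∣ t
      · right
        obtain ⟨s, rfl⟩ := h3
        exact ⟨s, Finset.mem_Icc.2 ⟨by omega, by omega⟩, rfl⟩
      · left
        by_cases h4 : Good (g * t)
        · left; exact ⟨ht, h3, h4⟩
        · right
          have h5 : t % 3 = 1 ∨ t % 3 = 2 := by omega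
          rcases h5 with h5 | h5
          · right; exact ⟨ht, h5, (hBm t).2 h4⟩
          · left; exact ⟨ht, h5, (hBm t).2 h4⟩
    have h4 := Finset.card_le_card e3
    rw [Nat.card_Icc] at h4
    refine le_trans (by omega) (h4.trans ((Finset.card_union_le _ _).trans (Nat.add_le_add
      ((Finset.card_union_le _ _).trans (Nat.add_le_add_left (Finset.card_union_le _ _) _)) ?_)))
    refine Finset.card_image_le.trans ?_
    rw [Nat.card_Icc]; omega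
  have hfr : ∃ᶠ X : ℕ in atTop, (1 + 2 * ε) * ((X : ℝ) / (3 : ℕ)) ≤
      (((Icc 1 X).filter fun t => t ≡ 2 [MOD 3] ∧ t ∈ B).card : ℝ) +
      (((Icc 1 X).filter fun t => t ≡ 1 [MOD 3] ∧ t ∈ B).card : ℝ) := by
    refine hcon.mono ?_
    intro X hX
    rw [not_le] at hX
    have h3 := hcard X
    have h4 : (X : ℝ) ≤ (((Icc 1 X).filter fun t => ¬ 3 ∣ t ∧ Good (g * t)).card : ℝ) +
      ((((Icc 1 X).filter fun t => t ≡ 2 [MOD 3] ∧ t ∈ B).card : ℝ) +
      (((Icc 1 X).filter fun t => t ≡ 1 [MOD 3] ∧ t ∈ B).card : ℝ)) +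
      ((X / 3 : ℕ) : ℝ) := by exact_mod_cast h3
    have h5 : ((X / 3 : ℕ) : ℝ) ≤ (X : ℝ) / 3 := Nat.cast_div_le
    push_cast
    nlinarith
  obtain ⟨S1, S2, S3, c1, c2, c3, m1, m2, m3, p1, p2, p3⟩ := bad_sets 3 (by norm_num) ε hε
    B 2 1 1 2 0 rfl rfl rfl rfl hfr K
  have hp := fun s s' hlt h => D5_pairs p1 p2 p3 s s' hlt h
  have hmod : ∀ s r : ℕ, s ≡ r [MOD 3] → (g * s) % 3 = (g % 3 * r) % 3 := by
    intro s r h
    have h' : s % 3 = r % 3 := h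
    rw [Nat.mul_mod, h', ← Nat.mul_mod, Nat.mod_mul_mod]
  have hfin : ∃ t ∈ B, Good (g * t) := by
    have hcase : g % 3 = 0 ∨ g % 3 = 1 ∨ g % 3 = 2 := by omega
    rcases hcase with hc | hc | hc
    · refine D5_fin K hK g hg hg2 B ![S3, S1, S2] (by
        intro i
        fin_cases i
        · exact c3
        · exact c1
        · exact c2) (Or.inr ⟨0, by
        intro i s _
        rw [Nat.mul_mod, hc, zero_mul, Nat.zero_mod]⟩) ?_
      refine D5_fin3 ?_ ?_ ?_ ?_ ?_ ?_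
      · intro s hs s' hs' hlt; exact hp s s' hlt (Or.inr (Or.inr (Or.inr (Or.inl ⟨hs, hs'⟩))))
      · intro s hs s' hs' hlt; exact hp s s' hlt (Or.inr (Or.inr (Or.inl ⟨hs, hs'⟩)))
      · intro s hs s' hs' hlt; exact hp s s' hlt (Or.inr (Or.inr (Or.inr (Or.inr (Or.inr ⟨hs, hs'⟩)))))
      · intro s hs s' hs' hlt; exact hp s s' hlt (Or.inr (Or.inr (Or.inr (Or.inr (Or.inl ⟨hs, hs'⟩)))))
      · intro s hs s' hs' hlt; exact hp s s' hlt (Or.inl ⟨hs, hs'⟩)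
      · intro s hs s' hs' hlt; exact hp s s' hlt (Or.inr (Or.inl ⟨hs, hs'⟩))
    · refine D5_fin K hK g hg hg2 B ![S3, S1, S2] (by
        intro i
        fin_cases i
        · exact c3
        · exact c1
        · exact c2) (Or.inl (by
        intro i
        fin_cases i
        · intro s hs; rw [hmod s 0 (m3 s hs), hc]
        · intro s hs; rw [hmod s 1 (m1 s hs), hc]
        · intro s hs; rw [hmod s 2 (m2 s hs), hc])) ?_
      refine D5_fin3 ?_ ?_ ?_ ?_ ?_ ?_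
      · intro s hs s' hs' hlt; exact hp s s' hlt (Or.inr (Or.inr (Or.inr (Or.inl ⟨hs, hs'⟩))))
      · intro s hs s' hs' hlt; exact hp s s' hlt (Or.inr (Or.inr (Or.inl ⟨hs, hs'⟩)))
      · intro s hs s' hs' hlt; exact hp s s' hlt (Or.inr (Or.inr (Or.inr (Or.inr (Or.inr ⟨hs, hs'⟩)))))
      · intro s hs s' hs' hlt; exact hp s s' hlt (Or.inr (Or.inr (Or.inr (Or.inr (Or.inl ⟨hs, hs'⟩)))))
      · intro s hs s' hs' hlt; exact hp s s' hlt (Or.inl ⟨hs, hs'⟩)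
      · intro s hs s' hs' hlt; exact hp s s' hlt (Or.inr (Or.inl ⟨hs, hs'⟩))
    · refine D5_fin K hK g hg hg2 B ![S3, S2, S1] (by
        intro i
        fin_cases i
        · exact c3
        · exact c2
        · exact c1) (Or.inl (by
        intro i
        fin_cases i
        · intro s hs; rw [hmod s 0 (m3 s hs), hc]
        · intro s hs; rw [hmod s 2 (m2 s hs), hc]
        · intro s hs; rw [hmod s 1 (m1 s hs), hc])) ?_
      refine D5_fin3 ?_ ?_ ?_ ?_ ?_ ?_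
      · intro s hs s' hs' hlt; exact hp s s' hlt (Or.inr (Or.inr (Or.inr (Or.inr (Or.inr ⟨hs, hs'⟩)))))
      · intro s hs s' hs' hlt; exact hp s s' hlt (Or.inr (Or.inr (Or.inr (Or.inr (Or.inl ⟨hs, hs'⟩)))))
      · intro s hs s' hs' hlt; exact hp s s' hlt (Or.inr (Or.inr (Or.inr (Or.inl ⟨hs, hs'⟩))))
      · intro s hs s' hs' hlt; exact hp s s' hlt (Or.inr (Or.inr (Or.inl ⟨hs, hs'⟩)))
      · intro s hs s' hs' hlt; exact hp s s' hlt (Or.inr (Or.inl ⟨hs, hs'⟩))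
      · intro s hs s' hs' hlt; exact hp s s' hlt (Or.inl ⟨hs, hs'⟩)
  obtain ⟨t, ht, ht2⟩ := hfin
  exact (hBm t).1 ht ht2

open scoped Classical in
theorem density_even (K : ℕ) (hK : Cluster K) (g : ℕ) (hg : 0 < g) (hg2 : Even g) (ε : ℝ) (hε : 0 < ε) : ∀ᶠ X : ℕ in atTop,
    (1 / 2 - ε) * ((X : ℝ) / 3) ≤ (((Icc 1 X).filter fun t => 3 ∣ t ∧ Good (g * t)).card : ℝ) ∧
    (1 / 2 - ε) * (2 * (X : ℝ) / 3) ≤ (((Icc 1 X).filter fun t => ¬ 3 ∣ t ∧ Good (g * t)).card : ℝ) :=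
  (D5_B K hK g hg hg2 ε hε).and (D5_A K hK g hg hg2 ε hε)

end Pool.Agent.LibSP4
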