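import Pool.Agent.LibSP4.D2
import Pool.Agent.LibSP4.CDefs

/-!
Row D6 (SHORT/MEDIUM): dichotomy. `B = {t | ¬ Good t}`, `m = 6 q`. Suppose the first alternative fails: `c > 0` with `∃ᶠ U, c U ≤ #{t ≤ U : m ∣ t, t ∈ B}` (`w = 0`). Suppose the second fails for `a`, `ε`: for arbitrarily large `X` the class `a` modulo `q` has
fewer than `(1/2 - ε) X/q` good `t ≤ X`; it is the union of the six classes `a + q i` modulo `m`, so for some `i < 6` (fixed for arbitrarily large `X`: finitely many `i`, `Filter.frequently_or_distrib` or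
`by_contra` and `Filter.eventually_all`) the class `j = a + q i` modulo `m` has fewer than `(1/2 - ε) X/m` good ones, hence at least `X/m - 1 - (1/2 - ε) X/m ≥ (1 + ε)/2 * X/m` elements of `B`. D2 with `m`, `u = v = j`, `w = 0`,
`r1 = r2` with `r1 + j ≡ 0 [MOD m]` (for instance `r1 = m * j - j`... or `(m - 1) * j`), `r3 = 0`, gives `S1`, `S2` in the class `r1` and `S3` in the class `0` modulo `m`, hence each in one class modulo `6`, `S1`, `S2` in the same one: `Cluster K` applies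
(classes `r1 % 6`, `r1 % 6`, `0`; the alternative `∃ i j, i ≠ j ∧ c i % 3 = c j % 3` with `i = 0`, `j = 1`). Contradiction.
-/

open Finset Filter

namespace Pool.Agent.LibSP4

private lemma D6_Ioc (m : ℕ) (hm : 0 < m) (a b v : ℕ) :
    ((b : ℝ) - a) / m - 1 ≤ (((Ioc a b).filter fun t => t ≡ v [MOD m]).card : ℝ) := by
  have h := Nat.Ioc_filter_modEq_card a b hm v
  have hmR : (0 : ℝ) < m := by exact_mod_cast hm
  set K := ((Ioc a b).filter fun t => t ≡ v [MOD m]).card with hK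
  have hmQ : (0 : ℚ) < m := by exact_mod_cast hm
  have e2 : ((b : ℚ) - v) / m < (⌊((b : ℚ) - v) / m⌋ : ℚ) + 1 := Int.lt_floor_add_one _
  have e3 : (⌊((a : ℚ) - v) / m⌋ : ℚ) ≤ ((a : ℚ) - v) / m := Int.floor_le _
  have hKQ : (K : ℚ) = max ((⌊((b : ℚ) - v) / m⌋ : ℚ) - (⌊((a : ℚ) - v) / m⌋ : ℚ)) 0 := by
    have := congrArg (fun z : ℤ => (z : ℚ)) h
    simpa using this
  have hd : ((b : ℚ) - v) / m - ((a : ℚ) - v) / m = ((b : ℚ) - a) / m := by ring
  have u2 : ((b : ℚ) - a) / m - 1 ≤ (K : ℚ) := by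
    rw [hKQ]
    refine le_trans ?_ (le_max_left _ _)
    linarith
  have : ((((b : ℚ) - a) / m - 1 : ℚ) : ℝ) ≤ ((K : ℚ) : ℝ) := by exact_mod_cast u2
  push_cast at this
  exact this

private lemma D6_Icc (m : ℕ) (hm : 0 < m) (X v : ℕ) :
    (X : ℝ) / m - 1 ≤ (((Icc 1 X).filter fun t => t ≡ v [MOD m]).card : ℝ) := by
  have h := D6_Ioc m hm 0 X v
  have e : Ioc 0 X = Icc 1 X := by
    ext t
    simp only [mem_Ioc, mem_Icc]
    omega
  rw [e] at h
  simpa using h

open scoped Classical in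
/-- one of the six classes modulo `6 q` has few good members -/
private lemma D6_cls (q : ℕ) (hq : 0 < q) (a X : ℕ) (δ : ℝ)
    (h : (((Icc 1 X).filter fun t => t ≡ a [MOD q] ∧ Good t).card : ℝ) < δ * ((X : ℝ) / q)) :
    ∃ i ∈ range 6, (((Icc 1 X).filter fun t => t ≡ a + q * i [MOD 6 * q] ∧ Good t).card : ℝ) <
      δ * ((X : ℝ) / ((6 * q : ℕ) : ℝ)) := by
  by_contra hcon
  push Not at hcon
  have hdis : ∀ i ∈ range 6, ∀ j ∈ range 6, i ≠ j →
      Disjoint ((Icc 1 X).filter fun t => t ≡ a + q * i [MOD 6 * q] ∧ Good t)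
        ((Icc 1 X).filter fun t => t ≡ a + q * j [MOD 6 * q] ∧ Good t) := by
    intro i hi j hj hij
    rw [Finset.disjoint_left]
    intro t ht ht'
    rw [mem_filter] at ht ht'
    have h1 : a + q * i ≡ a + q * j [MOD 6 * q] := ht.2.1.symm.trans ht'.2.1
    have h2 : q * i ≡ q * j [MOD 6 * q] := Nat.ModEq.add_left_cancel' a h1
    rw [mem_range] at hi hj
    have h3 : q * i < 6 * q := by nlinarith
    have h4 : q * j < 6 * q := by nlinarith
    have h5 : q * i = q * j := by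
      have h6 := h2
      unfold Nat.ModEq at h6
      rwa [Nat.mod_eq_of_lt h3, Nat.mod_eq_of_lt h4] at h6
    exact hij (Nat.eq_of_mul_eq_mul_left hq h5)
  have hle : ∑ i ∈ range 6, ((Icc 1 X).filter fun t => t ≡ a + q * i [MOD 6 * q] ∧ Good t).card ≤
      ((Icc 1 X).filter fun t => t ≡ a [MOD q] ∧ Good t).card := by
    rw [← Finset.card_biUnion hdis]
    refine card_le_card ?_
    intro t ht
    rw [mem_biUnion] at ht
    obtain ⟨i, _, ht⟩ := ht
    rw [mem_filter] at ht ⊢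
    refine ⟨ht.1, ?_, ht.2.2⟩
    have h1 : t ≡ a + q * i [MOD q] := ht.2.1.of_mul_left 6
    have h2 : a + q * i ≡ a [MOD q] := by
      unfold Nat.ModEq
      rw [Nat.add_mul_mod_self_left]
    exact h1.trans h2
  have hle' : ∑ i ∈ range 6,
      (((Icc 1 X).filter fun t => t ≡ a + q * i [MOD 6 * q] ∧ Good t).card : ℝ) ≤
      (((Icc 1 X).filter fun t => t ≡ a [MOD q] ∧ Good t).card : ℝ) := by
    exact_mod_cast hle
  have hsum : ∑ _i ∈ range 6, δ * ((X : ℝ) / ((6 * q : ℕ) : ℝ)) ≤ ∑ i ∈ range 6,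
      (((Icc 1 X).filter fun t => t ≡ a + q * i [MOD 6 * q] ∧ Good t).card : ℝ) :=
    sum_le_sum hcon
  rw [sum_const, card_range, nsmul_eq_mul] at hsum
  have hq0 : (0 : ℝ) < q := by exact_mod_cast hq
  have e : ((6 : ℕ) : ℝ) * (δ * ((X : ℝ) / ((6 * q : ℕ) : ℝ))) = δ * ((X : ℝ) / q) := by
    push_cast
    field_simp
  rw [e] at hsum
  linarith

open scoped Classical in
theorem dichotomy (K : ℕ) (hK : Cluster K) (q : ℕ) (hq : 0 < q) :
    (∀ ε : ℝ, 0 < ε → ∀ᶠ X : ℕ in atTop, (((Icc 1 X).filter fun t => 6 * q ∣ t ∧ ¬ Good t).card : ℝ) ≤ ε * X) ∨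
    (∀ a : ℕ, ∀ ε : ℝ, 0 < ε → ∀ᶠ X : ℕ in atTop,
      (1 / 2 - ε) * ((X : ℝ) / q) ≤ (((Icc 1 X).filter fun t => t ≡ a [MOD q] ∧ Good t).card : ℝ)) := by
  by_contra hcon
  rw [not_or] at hcon
  obtain ⟨hA, hB⟩ := hcon
  push Not at hA hB
  obtain ⟨c, hc, hP⟩ := hA
  obtain ⟨a, ε, hε, hX⟩ := hB
  obtain ⟨B, hBm⟩ : ∃ B : Set ℕ, ∀ t, t ∈ B ↔ ¬ Good t := ⟨{t | ¬ Good t}, fun _ => Iff.rfl⟩
  have hm : 0 < 6 * q := by omega
  have hmR : (0 : ℝ) < ((6 * q : ℕ) : ℝ) := by exact_mod_cast hm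
  -- one class
  have hi : ∃ i ∈ range 6, ∃ᶠ X : ℕ in atTop,
      (((Icc 1 X).filter fun t => t ≡ a + q * i [MOD 6 * q] ∧ Good t).card : ℝ) <
      (1 / 2 - ε) * ((X : ℝ) / ((6 * q : ℕ) : ℝ)) := by
    by_contra hno
    push Not at hno
    have hall : ∀ᶠ X : ℕ in atTop, ∀ i ∈ range 6,
        (1 / 2 - ε) * ((X : ℝ) / ((6 * q : ℕ) : ℝ)) ≤
        (((Icc 1 X).filter fun t => t ≡ a + q * i [MOD 6 * q] ∧ Good t).card : ℝ) := by
      rw [Finset.eventually_all]
      intro i hi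
      exact hno i hi
    obtain ⟨X, h1, h2⟩ := (hX.and_eventually hall).exists
    obtain ⟨i, hi, h3⟩ := D6_cls q hq a X _ h1
    exact absurd (h2 i hi) (not_le.2 h3)
  obtain ⟨i, _, hi⟩ := hi
  have hbad := bad_sets2 (6 * q) hm c (ε / 2) hc (by positivity) B (a + q * i) (a + q * i) 0 0 0
    (a + q * i) (Nat.ModEq.refl _) (by rw [zero_add]) (by rw [zero_add]) ?_ ?_ K
  · obtain ⟨S1, S2, S3, hc1, hc2, hc3, hr1, hr2, hr3, h12, h13, h23⟩ := hbad
    obtain ⟨x, y, hxy, h, hh, h', hh', hlt, hgood⟩ := hK ![S1, S2, S3] ![0, 0, (a + q * i) % 6] (by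
        intro x
        fin_cases x
        · exact hc1
        · exact hc2
        · exact hc3) (by
        intro x h hh
        fin_cases x
        · exact (hr1 h hh).of_mul_right q
        · exact (hr2 h hh).of_mul_right q
        · exact (hr3 h hh).of_mul_right q) (Or.inr ⟨0, 1, by decide, rfl⟩)
    have hnot : h' - h ∈ B := by
      fin_cases x <;> fin_cases y
      · exact absurd rfl hxy
      · exact (h12 h hh h' hh').2
      · exact (h13 h hh h' hh').2
      · exact absurd (h12 h' hh' h hh).1 (by omega)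
      · exact absurd rfl hxy
      · exact (h23 h hh h' hh').2
      · exact absurd (h13 h' hh' h hh).1 (by omega)
      · exact absurd (h23 h' hh' h hh).1 (by omega)
      · exact absurd rfl hxy
    exact (hBm _).1 hnot hgood
  · refine hP.mono (fun U hU => ?_)
    have e : ((Icc 1 U).filter fun t => t ≡ 0 [MOD 6 * q] ∧ t ∈ B) =
        (Icc 1 U).filter fun t => 6 * q ∣ t ∧ ¬ Good t := by
      refine filter_congr (fun t _ => ?_)
      rw [Nat.modEq_zero_iff_dvd, hBm]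
    rw [e]
    exact hU.le
  · refine (hi.and_eventually (eventually_ge_atTop ⌈2 * ((6 * q : ℕ) : ℝ) / ε⌉₊)).mono ?_
    rintro X ⟨h1, h2⟩
    have h3 := D6_Icc (6 * q) hm X (a + q * i)
    have h4 : ((Icc 1 X).filter fun t => t ≡ a + q * i [MOD 6 * q]).card =
        ((Icc 1 X).filter fun t => t ≡ a + q * i [MOD 6 * q] ∧ Good t).card +
        ((Icc 1 X).filter fun t => t ≡ a + q * i [MOD 6 * q] ∧ t ∈ B).card := by
      rw [← Finset.card_filter_add_card_filter_not (s := (Icc 1 X).filter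
        fun t => t ≡ a + q * i [MOD 6 * q]) (fun t => Good t), filter_filter, filter_filter]
      congr 2
      refine filter_congr (fun t _ => ?_)
      rw [hBm]
    have h5 : (((Icc 1 X).filter fun t => t ≡ a + q * i [MOD 6 * q]).card : ℝ) =
        (((Icc 1 X).filter fun t => t ≡ a + q * i [MOD 6 * q] ∧ Good t).card : ℝ) +
        (((Icc 1 X).filter fun t => t ≡ a + q * i [MOD 6 * q] ∧ t ∈ B).card : ℝ) := by
      exact_mod_cast h4
    have h6 : 2 * ((6 * q : ℕ) : ℝ) / ε ≤ X := by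
      refine (Nat.le_ceil _).trans ?_
      exact_mod_cast h2
    have h7 : 2 ≤ ε * ((X : ℝ) / ((6 * q : ℕ) : ℝ)) := by
      rw [div_le_iff₀ hε] at h6
      rw [← mul_div_assoc, le_div_iff₀ hmR]
      linarith
    linarith

end Pool.Agent.LibSP4
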