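import Pool.Agent.LibSP4.Defs2

/-!
LibSP4: abbreviations for the assembly. `y → ∞`, `z = y^M`, `R = Z = y^(M q1)`, `P = PP w Z`, `N = y^(M (4 q1 + 6))`.
-/

open Finset

namespace Pool.Agent.LibSP4

open Pool.Agent.LibRG87 Pool.Agent.LibBW4

/-- the primes -/
abbrev PY (w q1 M y : ℕ) : Finset ℕ := PP w (y ^ (M * q1))

/-- `N` -/
abbrev NY (q1 M y : ℕ) : ℕ := y ^ (M * (4 * q1 + 6))

/-- the level `z` of the base weight -/
noncomputable abbrev zY (M y : ℕ) : ℝ := (y : ℝ) ^ M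

/-- the level `R` of Selberg's sum -/
noncomputable abbrev RY (q1 M y : ℕ) : ℝ := (y : ℝ) ^ (M * q1)

/-- the numbers `n` -/
abbrev nY (w n0 q1 M y : ℕ) : Finset ℕ := ns w n0 (NY q1 M y)

/-- the base weight -/
noncomputable def WW {ι : Type} [Fintype ι] [DecidableEq ι] (w q1 M I y : ℕ) (b : ι → ℕ) (n : ℕ) : ℝ :=
  PhiF (PY w q1 M y) b (y0 (PY w q1 M y) y I (zY M y)) n ^ 2

/-- the statistic at `m` -/
noncomputable def SY [Ell] (t : Bool) (w q1 M y m : ℕ) : ℝ := SS t (PY w q1 M y) (RY q1 M y) (y ^ M) m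

end Pool.Agent.LibSP4
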